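import Pool.Agent.Lib.MP_af79d0_an.Defs
set_option autoImplicit false
open MeasureTheory Filter Topology Set
namespace Pool.Agent.Domar

namespace AvAux

theorem lint_exp_neg_abs : ∫⁻ u : ℝ, ENNReal.ofReal (Real.exp (-|u|)) = 2 := by
  have h1 : ∫⁻ u in Iic (0:ℝ), ENNReal.ofReal (Real.exp (-|u|)) = 1 := by
    have : ∫⁻ u in Iic (0:ℝ), ENNReal.ofReal (Real.exp (-|u|))
        = ∫⁻ u in Iic (0:ℝ), ENNReal.ofReal (Real.exp u) :=
      setLIntegral_congr_fun measurableSet_Iic fun u hu => by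
        have hu' : u ≤ 0 := hu
        simp only [abs_of_nonpos hu', neg_neg]
    rw [this, ← ofReal_integral_eq_lintegral_ofReal (integrableOn_exp_Iic 0)
      (Eventually.of_forall fun u => (Real.exp_pos u).le), integral_exp_Iic_zero,
      ENNReal.ofReal_one]
  have h2 : ∫⁻ u in Ioi (0:ℝ), ENNReal.ofReal (Real.exp (-|u|)) = 1 := by
    have : ∫⁻ u in Ioi (0:ℝ), ENNReal.ofReal (Real.exp (-|u|))
        = ∫⁻ u in Ioi (0:ℝ), ENNReal.ofReal (Real.exp (-u)) :=
      setLIntegral_congr_fun measurableSet_Ioi fun u hu => by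
        have hu' : 0 < u := hu
        simp only [abs_of_pos hu']
    rw [this, ← ofReal_integral_eq_lintegral_ofReal (integrableOn_exp_neg_Ioi 0)
      (Eventually.of_forall fun u => (Real.exp_pos _).le), integral_exp_neg_Ioi_zero,
      ENNReal.ofReal_one]
  rw [← lintegral_add_compl _ (measurableSet_Iic (a := (0:ℝ))), compl_Iic, h1, h2]
  norm_num

/-- the inner bound -/
noncomputable def mb (s : ℝ) : ENNReal := min 1 (ENNReal.ofReal (2 / |s|))

theorem inner_le (g₀ c s : ℝ) (hs : s ≠ 0) :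
    ∫⁻ g in Icc g₀ (g₀ + 1), ENNReal.ofReal (Real.exp (-|c - g * s|)) ≤ mb s := by
  refine le_min ?_ ?_
  · calc ∫⁻ g in Icc g₀ (g₀ + 1), ENNReal.ofReal (Real.exp (-|c - g * s|))
        ≤ ∫⁻ g in Icc g₀ (g₀ + 1), 1 := by
          refine lintegral_mono fun g => ?_
          rw [← ENNReal.ofReal_one]
          refine ENNReal.ofReal_le_ofReal ?_
          rw [← Real.exp_zero]
          exact Real.exp_le_exp.2 (neg_nonpos.2 (abs_nonneg _))
      _ = 1 := by simp
  · calc ∫⁻ g in Icc g₀ (g₀ + 1), ENNReal.ofReal (Real.exp (-|c - g * s|))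
        ≤ ∫⁻ g : ℝ, ENNReal.ofReal (Real.exp (-|c - g * s|)) := setLIntegral_le_lintegral _ _
      _ = ∫⁻ x, ENNReal.ofReal (Real.exp (-|c - x|)) ∂(Measure.map (fun g : ℝ => g * s) volume) := by
          rw [lintegral_map]
          · fun_prop
          · fun_prop
      _ = ENNReal.ofReal |s⁻¹| * ∫⁻ x : ℝ, ENNReal.ofReal (Real.exp (-|c - x|)) := by
          rw [Real.map_volume_mul_right hs, lintegral_smul_measure, smul_eq_mul]
      _ = ENNReal.ofReal |s⁻¹| * 2 := by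
          rw [lintegral_sub_left_eq_self (fun u : ℝ => ENNReal.ofReal (Real.exp (-|u|))) c,
            lint_exp_neg_abs]
      _ = ENNReal.ofReal (2 / |s|) := by
          rw [show (2 : ENNReal) = ENNReal.ofReal 2 by norm_num, ← ENNReal.ofReal_mul (abs_nonneg _)]
          congr 1
          rw [abs_inv]
          ring

theorem outer_pos : ∫⁻ s in Ioi (0:ℝ), mb s * ENNReal.ofReal (|s| ^ (-(1:ℝ)/2)) ≤ 6 := by
  have h1 : ∫⁻ s in Ioc (0:ℝ) 1, mb s * ENNReal.ofReal (|s| ^ (-(1:ℝ)/2)) ≤ 2 := by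
    calc ∫⁻ s in Ioc (0:ℝ) 1, mb s * ENNReal.ofReal (|s| ^ (-(1:ℝ)/2))
        ≤ ∫⁻ s in Ioc (0:ℝ) 1, ENNReal.ofReal (s ^ (-(1:ℝ)/2)) := by
          refine setLIntegral_mono' measurableSet_Ioc fun s hs => ?_
          rw [abs_of_pos hs.1]
          calc mb s * ENNReal.ofReal (s ^ (-(1:ℝ)/2)) ≤ 1 * ENNReal.ofReal (s ^ (-(1:ℝ)/2)) := by
                gcongr; exact min_le_left _ _
            _ = _ := one_mul _
      _ = 2 := by
          have hint : IntervalIntegrable (fun u : ℝ => u ^ (-(1:ℝ)/2)) volume 0 1 :=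
            intervalIntegral.intervalIntegrable_rpow' (by norm_num)
          have hint' : IntegrableOn (fun u : ℝ => u ^ (-(1:ℝ)/2)) (Ioc 0 1) :=
            (intervalIntegrable_iff_integrableOn_Ioc_of_le zero_le_one).1 hint
          rw [← ofReal_integral_eq_lintegral_ofReal hint' ?_]
          · rw [← intervalIntegral.integral_of_le zero_le_one, integral_rpow (Or.inl (by norm_num))]
            norm_num
          · refine (ae_restrict_iff' measurableSet_Ioc).2 (Eventually.of_forall fun u hu => ?_)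
            exact Real.rpow_nonneg hu.1.le _
  have h2 : ∫⁻ s in Ioi (1:ℝ), mb s * ENNReal.ofReal (|s| ^ (-(1:ℝ)/2)) ≤ 4 := by
    calc ∫⁻ s in Ioi (1:ℝ), mb s * ENNReal.ofReal (|s| ^ (-(1:ℝ)/2))
        ≤ ∫⁻ s in Ioi (1:ℝ), ENNReal.ofReal (2 * s ^ (-(3:ℝ)/2)) := by
          refine setLIntegral_mono' measurableSet_Ioi fun s hs => ?_
          have hs0 : (0:ℝ) < s := lt_trans one_pos hs
          rw [abs_of_pos hs0]
          calc mb s * ENNReal.ofReal (s ^ (-(1:ℝ)/2))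
              ≤ ENNReal.ofReal (2 / |s|) * ENNReal.ofReal (s ^ (-(1:ℝ)/2)) := by
                gcongr; exact min_le_right _ _
            _ = ENNReal.ofReal (2 * s ^ (-(3:ℝ)/2)) := by
                rw [← ENNReal.ofReal_mul (by positivity), abs_of_pos hs0]
                congr 1
                rw [div_mul_eq_mul_div, mul_div_assoc]
                congr 1
                rw [div_eq_iff hs0.ne']
                nth_rewrite 3 [← Real.rpow_one s]
                rw [← Real.rpow_add hs0]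
                norm_num
      _ = 4 := by
          have hint : IntegrableOn (fun u : ℝ => 2 * u ^ (-(3:ℝ)/2)) (Ioi 1) :=
            (integrableOn_Ioi_rpow_of_lt (by norm_num) one_pos).const_mul 2
          rw [← ofReal_integral_eq_lintegral_ofReal hint ?_]
          · rw [integral_const_mul, integral_Ioi_rpow_of_lt (by norm_num) one_pos]
            norm_num
          · refine (ae_restrict_iff' measurableSet_Ioi).2 (Eventually.of_forall fun u hu => ?_)
            have : (0:ℝ) < u := lt_trans one_pos hu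
            positivity
  rw [← Ioc_union_Ioi_eq_Ioi (zero_le_one : (0:ℝ) ≤ 1),
    lintegral_union measurableSet_Ioi (Set.Ioc_disjoint_Ioi le_rfl)]
  calc _ ≤ (2:ENNReal) + 4 := add_le_add h1 h2
    _ = 6 := by norm_num

theorem mb_neg (s : ℝ) : mb (-s) = mb s := by simp [mb]

theorem outer : ∫⁻ s : ℝ, mb s * ENNReal.ofReal (|s| ^ (-(1:ℝ)/2)) ≤ 12 := by
  have h1 : ∫⁻ s in Iic (0:ℝ), mb s * ENNReal.ofReal (|s| ^ (-(1:ℝ)/2)) ≤ 6 := by
    have h := (Measure.measurePreserving_neg (volume : Measure ℝ)).setLIntegral_comp_preimage_emb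
      (MeasurableEquiv.neg ℝ).measurableEmbedding
      (fun s => mb s * ENNReal.ofReal (|s| ^ (-(1:ℝ)/2))) (Iio 0)
    have h3 : ∫⁻ s in Iic (0:ℝ), mb s * ENNReal.ofReal (|s| ^ (-(1:ℝ)/2))
        = ∫⁻ s in Iio (0:ℝ), mb s * ENNReal.ofReal (|s| ^ (-(1:ℝ)/2)) :=
      setLIntegral_congr Iio_ae_eq_Iic.symm
    rw [h3, ← h]
    refine le_trans (le_of_eq ?_) outer_pos
    have : (Neg.neg ⁻¹' Iio (0:ℝ)) = Ioi 0 := by
      ext x; simp
    rw [this]
    simp only [mb_neg, abs_neg]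
  rw [← lintegral_add_compl _ (measurableSet_Iic (a := (0:ℝ))), compl_Iic]
  calc _ ≤ (6:ENNReal) + 6 := add_le_add h1 outer_pos
    _ = 12 := by norm_num

end AvAux

theorem averaging (μ : Measure ℝ) [IsFiniteMeasure μ] (c : ℝ → ℝ → ℝ)
    (hc : Measurable (Function.uncurry c)) (g₀ : ℝ) :
    ∃ g ∈ Icc g₀ (g₀ + 1),
      ∫⁻ s : ℝ, (∫⁻ y, ENNReal.ofReal (Real.exp (-|c y s - g * s|)) ∂μ)
        * ENNReal.ofReal (|s| ^ (-(1:ℝ)/2)) ≤ 12 * μ univ := by
  have hE : Measurable (fun q : (ℝ × ℝ) × ℝ =>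
      ENNReal.ofReal (Real.exp (-|c q.2 q.1.2 - q.1.1 * q.1.2|))) := by
    have h1 : Measurable (fun q : (ℝ × ℝ) × ℝ => c q.2 q.1.2) :=
      hc.comp (measurable_snd.prodMk (measurable_snd.comp measurable_fst))
    have h2 : Measurable (fun q : (ℝ × ℝ) × ℝ => q.1.1 * q.1.2) := by fun_prop
    exact ((Real.measurable_exp.comp ((h1.sub h2).abs.neg))).ennreal_ofReal
  have hI : Measurable (fun q : ℝ × ℝ =>
      ∫⁻ y, ENNReal.ofReal (Real.exp (-|c y q.2 - q.1 * q.2|)) ∂μ) :=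
    Measurable.lintegral_prod_right' hE
  have hK : Measurable (fun s : ℝ => ENNReal.ofReal (|s| ^ (-(1:ℝ)/2))) := by fun_prop
  have hF : Measurable (fun q : ℝ × ℝ =>
      (∫⁻ y, ENNReal.ofReal (Real.exp (-|c y q.2 - q.1 * q.2|)) ∂μ)
        * ENNReal.ofReal (|q.2| ^ (-(1:ℝ)/2))) := hI.mul (hK.comp measurable_snd)
  have hG : Measurable (fun g : ℝ =>
      ∫⁻ s : ℝ, (∫⁻ y, ENNReal.ofReal (Real.exp (-|c y s - g * s|)) ∂μ)
        * ENNReal.ofReal (|s| ^ (-(1:ℝ)/2))) := Measurable.lintegral_prod_right' hF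
  have hvol : volume (Icc g₀ (g₀ + 1)) = 1 := by simp
  obtain ⟨g, hg, hle⟩ := exists_le_setLAverage (μ := volume) (s := Icc g₀ (g₀ + 1))
    (by rw [hvol]; exact one_ne_zero) (by rw [hvol]; exact ENNReal.one_ne_top) hG.aemeasurable
  refine ⟨g, hg, hle.trans ?_⟩
  rw [setLAverage_eq, hvol, div_one]
  rw [lintegral_lintegral_swap (f := fun g s =>
      (∫⁻ y, ENNReal.ofReal (Real.exp (-|c y s - g * s|)) ∂μ)
        * ENNReal.ofReal (|s| ^ (-(1:ℝ)/2))) hF.aemeasurable]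
  have hstep : ∀ s : ℝ, s ≠ 0 →
      ∫⁻ g in Icc g₀ (g₀ + 1), (∫⁻ y, ENNReal.ofReal (Real.exp (-|c y s - g * s|)) ∂μ)
        * ENNReal.ofReal (|s| ^ (-(1:ℝ)/2))
      ≤ μ univ * (AvAux.mb s * ENNReal.ofReal (|s| ^ (-(1:ℝ)/2))) := by
    intro s hs
    have hm : Measurable (fun q : ℝ × ℝ =>
        ENNReal.ofReal (Real.exp (-|c q.2 s - q.1 * s|))) :=
      hE.comp ((measurable_fst.prodMk measurable_const).prodMk measurable_snd)
    have hm1 : Measurable (fun g : ℝ =>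
        ∫⁻ y, ENNReal.ofReal (Real.exp (-|c y s - g * s|)) ∂μ) :=
      Measurable.lintegral_prod_right' hm
    rw [lintegral_mul_const _ hm1]
    rw [lintegral_lintegral_swap (f := fun g y =>
      ENNReal.ofReal (Real.exp (-|c y s - g * s|))) hm.aemeasurable]
    calc (∫⁻ y, (∫⁻ g in Icc g₀ (g₀ + 1), ENNReal.ofReal (Real.exp (-|c y s - g * s|))) ∂μ)
          * ENNReal.ofReal (|s| ^ (-(1:ℝ)/2))
        ≤ (∫⁻ _, AvAux.mb s ∂μ) * ENNReal.ofReal (|s| ^ (-(1:ℝ)/2)) := by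
          gcongr with y
          exact AvAux.inner_le g₀ (c y s) s hs
      _ = μ univ * (AvAux.mb s * ENNReal.ofReal (|s| ^ (-(1:ℝ)/2))) := by
          rw [lintegral_const]
          ring
  calc ∫⁻ s : ℝ, ∫⁻ g in Icc g₀ (g₀ + 1),
        (∫⁻ y, ENNReal.ofReal (Real.exp (-|c y s - g * s|)) ∂μ)
        * ENNReal.ofReal (|s| ^ (-(1:ℝ)/2))
      ≤ ∫⁻ s : ℝ, μ univ * (AvAux.mb s * ENNReal.ofReal (|s| ^ (-(1:ℝ)/2))) := by
        refine lintegral_mono_ae ?_
        have : ∀ᵐ s : ℝ, s ≠ 0 := by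
          simp [ae_iff, measure_singleton]
        filter_upwards [this] with s hs using hstep s hs
    _ = μ univ * ∫⁻ s : ℝ, AvAux.mb s * ENNReal.ofReal (|s| ^ (-(1:ℝ)/2)) := by
        rw [lintegral_const_mul' _ _ (measure_ne_top μ univ)]
    _ ≤ μ univ * 12 := by gcongr; exact AvAux.outer
    _ = 12 * μ univ := mul_comm _ _

end Pool.Agent.Domar
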