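import Pool.Agent.Lib.MP_af79d0_an.Defs
set_option autoImplicit false
open MeasureTheory Filter Topology Set
namespace Pool.Agent.Domar

namespace HardyAux

theorem lint_half (r : ℝ) (hr : 0 < r) :
    ∫⁻ u in Ioc (0:ℝ) r, ENNReal.ofReal (u ^ (-(1:ℝ)/2)) = ENNReal.ofReal (2 * r ^ ((1:ℝ)/2)) := by
  have hint : IntervalIntegrable (fun u : ℝ => u ^ (-(1:ℝ)/2)) volume 0 r :=
    intervalIntegral.intervalIntegrable_rpow' (by norm_num)
  have hint' : IntegrableOn (fun u : ℝ => u ^ (-(1:ℝ)/2)) (Ioc 0 r) :=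
    (intervalIntegrable_iff_integrableOn_Ioc_of_le hr.le).1 hint
  rw [← ofReal_integral_eq_lintegral_ofReal hint' ?_]
  · rw [← intervalIntegral.integral_of_le hr.le, integral_rpow (Or.inl (by norm_num))]
    congr 1
    rw [show (-(1:ℝ)/2 + 1) = 1/2 by norm_num, Real.zero_rpow (by norm_num)]
    ring
  · refine (ae_restrict_iff' measurableSet_Ioc).2 (Eventually.of_forall fun u hu => ?_)
    exact Real.rpow_nonneg hu.1.le _

theorem b_le (b : ℝ → ENNReal) (hb : AntitoneOn b (Ioi 0)) (r : ℝ) (hr : 0 < r) :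
    b r * ENNReal.ofReal (2 * r ^ ((1:ℝ)/2))
      ≤ ∫⁻ u in Ioi (0:ℝ), b u * ENNReal.ofReal (u ^ (-(1:ℝ)/2)) := by
  rw [← lint_half r hr, ← lintegral_const_mul]
  · calc ∫⁻ u in Ioc (0:ℝ) r, b r * ENNReal.ofReal (u ^ (-(1:ℝ)/2))
        ≤ ∫⁻ u in Ioc (0:ℝ) r, b u * ENNReal.ofReal (u ^ (-(1:ℝ)/2)) := by
          refine setLIntegral_mono' measurableSet_Ioc fun u hu => ?_
          gcongr
          exact hb hu.1 hr hu.2
      _ ≤ _ := lintegral_mono_set Ioc_subset_Ioi_self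
  · exact (measurable_id.pow_const _).ennreal_ofReal

end HardyAux

theorem hardy (b : ℝ → ENNReal) (hb : AntitoneOn b (Ioi 0)) :
    ∫⁻ r in Ioi (0:ℝ), b r ^ 2
      ≤ (∫⁻ r in Ioi (0:ℝ), b r * ENNReal.ofReal (r ^ (-(1:ℝ)/2))) ^ 2 := by
  set N := ∫⁻ r in Ioi (0:ℝ), b r * ENNReal.ofReal (r ^ (-(1:ℝ)/2)) with hN
  by_cases hNt : N = ⊤
  · rw [hNt]
    simp
  have key : ∀ r ∈ Ioi (0:ℝ), b r ^ 2 ≤ N * (b r * ENNReal.ofReal (r ^ (-(1:ℝ)/2))) := by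
    intro r hr
    have hr' : (0:ℝ) < r := hr
    have h1 := HardyAux.b_le b hb r hr'
    have h2 : b r ≤ N * ENNReal.ofReal (r ^ (-(1:ℝ)/2)) := by
      have h3 : ENNReal.ofReal (2 * r ^ ((1:ℝ)/2)) * ENNReal.ofReal (r ^ (-(1:ℝ)/2)) = 2 := by
        rw [← ENNReal.ofReal_mul (by positivity), mul_assoc, ← Real.rpow_add hr']
        norm_num
      calc b r = b r * 1 := by rw [mul_one]
        _ ≤ b r * 2 := by gcongr; norm_num
        _ = b r * ENNReal.ofReal (2 * r ^ ((1:ℝ)/2)) * ENNReal.ofReal (r ^ (-(1:ℝ)/2)) := by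
            rw [mul_assoc, h3]
        _ ≤ N * ENNReal.ofReal (r ^ (-(1:ℝ)/2)) := by gcongr
    calc b r ^ 2 = b r * b r := sq _
      _ ≤ (N * ENNReal.ofReal (r ^ (-(1:ℝ)/2))) * b r := by gcongr
      _ = N * (b r * ENNReal.ofReal (r ^ (-(1:ℝ)/2))) := by ring
  calc ∫⁻ r in Ioi (0:ℝ), b r ^ 2
      ≤ ∫⁻ r in Ioi (0:ℝ), N * (b r * ENNReal.ofReal (r ^ (-(1:ℝ)/2))) :=
        setLIntegral_mono' measurableSet_Ioi key
    _ = N * N := by rw [lintegral_const_mul' _ _ hNt]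
    _ = N ^ 2 := (sq N).symm

end Pool.Agent.Domar
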