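import Pool.Agent.Lib.MP_af79d0_an.Defs
import Pool.Agent.Lib.MP_af79d0_an.Hardy
import Pool.Agent.Lib.MP_af79d0_an.Averaging

set_option autoImplicit false
open MeasureTheory Filter Topology Set

namespace Pool.Agent.Domar

namespace BG

/-- the region -/
def T (X Y s : ℝ) : Set ℝ := {y | y < X ∧ -Y < y + s}

def R (X Y s : ℝ) : Set ℝ := if 0 < s then (T X Y s)ᶜ else T X Y s

lemma measurableSet_T (X Y s : ℝ) : MeasurableSet (T X Y s) := by
  unfold T
  apply MeasurableSet.inter
  · exact measurableSet_Iio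
  · exact measurableSet_lt measurable_const (measurable_id.add_const s)

lemma measurableSet_R (X Y s : ℝ) : MeasurableSet (R X Y s) := by
  unfold R
  split_ifs
  · exact (measurableSet_T X Y s).compl
  · exact measurableSet_T X Y s

lemma integrand_eq (f h : ℝ → ℂ) (X Y s y : ℝ) :
    (Iio X).indicator f y * (Ioi (-Y)).indicator h (y + s)
      = (T X Y s).indicator (fun y => f y * h (y + s)) y := by
  unfold T
  by_cases h1 : y < X <;> by_cases h2 : -Y < y + s <;> simp [indicator, h1, h2]

/-- the exponent -/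
def E (W : ℝ → ℝ) (g y s : ℝ) : ℝ := W y - W (y + s) - g * s

lemma E_nonneg {W : ℝ → ℝ} {g X Y s y : ℝ} (hcut : Cut W g X Y) (hs : s ≠ 0)
    (hy : y ∈ R X Y s) : 0 ≤ E W g y s := by
  unfold R at hy
  unfold E
  rcases lt_or_gt_of_ne hs with h | h
  · rw [if_neg (not_lt.mpr h.le)] at hy
    obtain ⟨h1, h2⟩ := hy
    have := hcut.mid (a := y + s) (b := y) ⟨h2.le, by linarith⟩ ⟨by linarith, h1.le⟩ (by linarith)
    simp only at this
    linarith
  · rw [if_pos h] at hy
    simp only [T, mem_compl_iff, mem_ofPred_eq, not_and_or, not_lt] at hy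
    rcases hy with h1 | h1
    · have := hcut.right (a := y) (b := y + s) h1 (by simp only [mem_Ici]; linarith) (by linarith)
      simp only at this
      linarith
    · have := hcut.left (a := y) (b := y + s) (by simp only [mem_Iic]; linarith) h1 (by linarith)
      simp only at this
      linarith

/-- the majorant -/
noncomputable def B (W : ℝ → ℝ) (μ : Measure ℝ) (g X Y s : ℝ) : ENNReal :=
  ∫⁻ y in R X Y s, ENNReal.ofReal (Real.exp (-|E W g y s|)) ∂μ

lemma B_antitone_pos {W : ℝ → ℝ} (μ : Measure ℝ) {g X Y : ℝ} (hcut : Cut W g X Y) :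
    AntitoneOn (fun r => B W μ g X Y r) (Ioi 0) := by
  intro s hs s' hs' hss
  simp only [mem_Ioi] at hs hs'
  simp only [B]
  have hsub : R X Y s' ⊆ R X Y s := by
    intro y hy
    unfold R at hy ⊢
    rw [if_pos hs'] at hy
    rw [if_pos hs]
    simp only [T, mem_compl_iff, mem_ofPred_eq, not_and_or, not_lt] at hy ⊢
    rcases hy with h | h
    · exact Or.inl h
    · exact Or.inr (by linarith)
  refine le_trans ?_ (lintegral_mono_set hsub)
  refine setLIntegral_mono' (measurableSet_R X Y s') ?_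
  intro y hy
  apply ENNReal.ofReal_le_ofReal
  apply Real.exp_le_exp.mpr
  rw [abs_of_nonneg (E_nonneg hcut hs'.ne' hy), abs_of_nonneg (E_nonneg hcut hs.ne' (hsub hy))]
  apply neg_le_neg
  unfold R at hy
  rw [if_pos hs'] at hy
  simp only [T, mem_compl_iff, mem_ofPred_eq, not_and_or, not_lt] at hy
  unfold E
  rcases hy with h1 | h1
  · have := hcut.right (a := y + s) (b := y + s') (by simp only [mem_Ici]; linarith)
      (by simp only [mem_Ici]; linarith) (by linarith)
    simp only at this
    linarith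
  · have := hcut.left (a := y + s) (b := y + s') (by simp only [mem_Iic]; linarith) h1 (by linarith)
    simp only at this
    linarith

lemma B_antitone_neg {W : ℝ → ℝ} (μ : Measure ℝ) {g X Y : ℝ} (hcut : Cut W g X Y) :
    AntitoneOn (fun r => B W μ g X Y (-r)) (Ioi 0) := by
  intro s hs s' hs' hss
  simp only [mem_Ioi] at hs hs'
  simp only [B]
  have hn : ¬ (0:ℝ) < -s := by linarith
  have hn' : ¬ (0:ℝ) < -s' := by linarith
  have hsub : R X Y (-s') ⊆ R X Y (-s) := by
    intro y hy
    unfold R at hy ⊢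
    rw [if_neg hn'] at hy
    rw [if_neg hn]
    exact ⟨hy.1, by have := hy.2; linarith⟩
  refine le_trans ?_ (lintegral_mono_set hsub)
  refine setLIntegral_mono' (measurableSet_R X Y (-s')) ?_
  intro y hy
  apply ENNReal.ofReal_le_ofReal
  apply Real.exp_le_exp.mpr
  have hs0 : (-s) ≠ 0 := by simp [hs.ne']
  have hs0' : (-s') ≠ 0 := by simp [hs'.ne']
  rw [abs_of_nonneg (E_nonneg hcut hs0' hy), abs_of_nonneg (E_nonneg hcut hs0 (hsub hy))]
  apply neg_le_neg
  unfold R at hy
  rw [if_neg hn'] at hy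
  obtain ⟨h1, h2⟩ := hy
  unfold E
  have := hcut.mid (a := y + -s') (b := y + -s) ⟨h2.le, by linarith⟩
    ⟨by linarith, by linarith⟩ (by linarith)
  simp only at this
  linarith

end BG

open BG in
theorem bg_l2 (W : ℝ → ℝ) (hW : NW W) (f h : ℝ → ℂ) (ho : Ori1 W f h)
    (hK : ∀ s : ℝ, 0 < s → ∫ y, f y * h (y + s) = 0) :
    ∃ A : ℝ, ∀ g₀ : ℝ, 0 < g₀ → ∃ g ∈ Icc g₀ (g₀ + 1), ∀ X Y, Cut W g X Y →
      ∫⁻ s, ‖bg f h g X Y s‖ₑ ^ 2 ≤ ENNReal.ofReal A := by
  obtain ⟨M, hM⟩ := ho.hbd
  have hM0 : 0 ≤ M := by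
    have := (norm_nonneg _).trans (hM 0)
    have he := Real.exp_pos (W 0)
    by_contra hcon
    push Not at hcon
    nlinarith
  have hWm : Measurable W := hW.cont.measurable
  have hfm := ho.fm
  have hhm := ho.hm
  set φ : ℝ → ENNReal := fun y => ENNReal.ofReal (‖f y‖ * Real.exp (W y)) with hφ
  have hφm : Measurable φ := by
    apply Measurable.ennreal_ofReal
    exact hfm.norm.mul (Real.measurable_exp.comp hWm)
  set μ : Measure ℝ := volume.withDensity φ with hμ
  have hμuniv : μ univ < ⊤ := by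
    rw [hμ, withDensity_apply _ MeasurableSet.univ, Measure.restrict_univ]
    exact ho.fint.lintegral_lt_top
  have : IsFiniteMeasure μ := ⟨hμuniv⟩
  set N : ENNReal := 12 * μ univ with hN
  have hNtop : N ≠ ⊤ := by
    rw [hN]
    exact ENNReal.mul_ne_top (by norm_num) hμuniv.ne
  refine ⟨(ENNReal.ofReal M ^ 2 * (N ^ 2 + N ^ 2)).toReal, ?_⟩
  intro g₀ hg₀
  obtain ⟨g, hg, hgav⟩ := averaging μ (fun y s => W y - W (y + s)) (by
    apply Measurable.sub
    · exact hWm.comp measurable_fst
    · exact hWm.comp (measurable_fst.add measurable_snd)) g₀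
  refine ⟨g, hg, ?_⟩
  intro X Y hcut
  rw [ENNReal.ofReal_toReal (by
    apply ENNReal.mul_ne_top
    · exact ENNReal.pow_ne_top ENNReal.ofReal_ne_top
    · exact ENNReal.add_ne_top.mpr ⟨ENNReal.pow_ne_top hNtop, ENNReal.pow_ne_top hNtop⟩)]
  -- pointwise bound
  have hpt : ∀ s : ℝ, s ≠ 0 → ‖bg f h g X Y s‖ₑ ≤ ENNReal.ofReal M * B W μ g X Y s := by
    intro s hs
    have hFint : ∀ s : ℝ, 0 < s → Integrable (fun y => f y * h (y + s)) := by
      intro s hs
      refine (ho.fint.const_mul M).mono' ?_ ?_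
      · exact (hfm.mul (hhm.comp (measurable_id.add_const s))).aestronglyMeasurable
      · refine Eventually.of_forall (fun y => ?_)
        rw [norm_mul]
        have h1 := hM (y + s)
        have h2 : W (y + s) ≤ W y := hW.anti (by linarith)
        have h3 : Real.exp (W (y + s)) ≤ Real.exp (W y) := Real.exp_le_exp.mpr h2
        calc ‖f y‖ * ‖h (y + s)‖ ≤ ‖f y‖ * (M * Real.exp (W y)) := by
              apply mul_le_mul_of_nonneg_left _ (norm_nonneg _)
              exact h1.trans (mul_le_mul_of_nonneg_left h3 hM0)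
          _ = M * (‖f y‖ * Real.exp (W y)) := by ring
    have hnorm : ‖∫ y, (Iio X).indicator f y * (Ioi (-Y)).indicator h (y + s)‖ₑ
        ≤ ∫⁻ y in R X Y s, ‖f y * h (y + s)‖ₑ := by
      have e1 : (∫ y, (Iio X).indicator f y * (Ioi (-Y)).indicator h (y + s))
          = ∫ y in T X Y s, f y * h (y + s) := by
        rw [← integral_indicator (measurableSet_T X Y s)]
        congr 1
        ext y
        exact integrand_eq f h X Y s y
      rw [e1]
      rcases lt_or_gt_of_ne hs with hs' | hs'
      · have : R X Y s = T X Y s := by unfold R; rw [if_neg (not_lt.mpr hs'.le)]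
        rw [this]
        exact enorm_integral_le_lintegral_enorm _
      · have : R X Y s = (T X Y s)ᶜ := by unfold R; rw [if_pos hs']
        rw [this]
        have e2 := integral_add_compl (measurableSet_T X Y s) (hFint s hs')
        rw [hK s hs'] at e2
        have e3 : (∫ y in T X Y s, f y * h (y + s)) = -∫ y in (T X Y s)ᶜ, f y * h (y + s) :=
          eq_neg_of_add_eq_zero_left e2
        rw [e3, enorm_neg]
        exact enorm_integral_le_lintegral_enorm _
    unfold bg
    rw [enorm_mul]
    have hexp : ‖((Real.exp (g * s) : ℝ) : ℂ)‖ₑ = ENNReal.ofReal (Real.exp (g * s)) := by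
      rw [← ofReal_norm, Complex.norm_real, Real.norm_of_nonneg (Real.exp_pos _).le]
    rw [hexp]
    calc ENNReal.ofReal (Real.exp (g * s)) *
          ‖∫ y, (Iio X).indicator f y * (Ioi (-Y)).indicator h (y + s)‖ₑ
        ≤ ENNReal.ofReal (Real.exp (g * s)) * ∫⁻ y in R X Y s, ‖f y * h (y + s)‖ₑ := by
          gcongr
      _ = ∫⁻ y in R X Y s, ENNReal.ofReal (Real.exp (g * s)) * ‖f y * h (y + s)‖ₑ := by
          rw [lintegral_const_mul]
          exact (hfm.mul (hhm.comp (measurable_id.add_const s))).enorm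
      _ ≤ ∫⁻ y in R X Y s, ENNReal.ofReal M *
            (φ y * ENNReal.ofReal (Real.exp (-|E W g y s|))) := by
          refine setLIntegral_mono' (measurableSet_R X Y s) ?_
          intro y hy
          rw [abs_of_nonneg (E_nonneg hcut hs hy), hφ]
          simp only
          rw [← ofReal_norm, ← ENNReal.ofReal_mul (Real.exp_pos _).le,
            ← ENNReal.ofReal_mul (by positivity), ← ENNReal.ofReal_mul hM0]
          apply ENNReal.ofReal_le_ofReal
          rw [norm_mul]
          have h1 := hM (y + s)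
          have : M * (‖f y‖ * Real.exp (W y) * Real.exp (-E W g y s))
              = Real.exp (g * s) * (‖f y‖ * (M * Real.exp (W (y + s)))) := by
            have : Real.exp (W y) * Real.exp (-E W g y s)
                = Real.exp (g * s) * Real.exp (W (y + s)) := by
              rw [← Real.exp_add, ← Real.exp_add]
              congr 1
              unfold E
              ring
            calc M * (‖f y‖ * Real.exp (W y) * Real.exp (-E W g y s))
                = M * ‖f y‖ * (Real.exp (W y) * Real.exp (-E W g y s)) := by ring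
              _ = _ := by rw [this]; ring
          rw [this]
          gcongr
      _ = ENNReal.ofReal M * ∫⁻ y in R X Y s, φ y * ENNReal.ofReal (Real.exp (-|E W g y s|)) := by
          rw [lintegral_const_mul']
          exact ENNReal.ofReal_ne_top
      _ = ENNReal.ofReal M * B W μ g X Y s := by
          congr 1
          unfold B
          rw [hμ, restrict_withDensity (measurableSet_R X Y s),
            lintegral_withDensity_eq_lintegral_mul _ hφm]
          · rfl
          · apply Measurable.ennreal_ofReal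
            apply Real.measurable_exp.comp
            apply Measurable.neg
            apply Measurable.abs
            unfold E
            exact ((hWm.sub (hWm.comp (measurable_id.add_const s))).sub_const _)
  -- the two sides
  have hBle : ∀ s, B W μ g X Y s ≤ ∫⁻ y, ENNReal.ofReal (Real.exp (-|W y - W (y + s) - g * s|)) ∂μ := by
    intro s
    unfold B E
    exact setLIntegral_le_lintegral _ _
  have hpos : ∫⁻ r in Ioi (0:ℝ), (B W μ g X Y r) ^ 2 ≤ N ^ 2 := by
    refine (hardy _ (B_antitone_pos μ hcut)).trans ?_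
    gcongr
    refine le_trans ?_ hgav
    refine le_trans ?_ (setLIntegral_le_lintegral (Ioi (0:ℝ)) _)
    refine setLIntegral_mono' measurableSet_Ioi ?_
    intro r hr
    simp only [mem_Ioi] at hr
    rw [abs_of_pos hr]
    gcongr
    exact hBle r
  have hneg : ∫⁻ r in Ioi (0:ℝ), (B W μ g X Y (-r)) ^ 2 ≤ N ^ 2 := by
    refine (hardy _ (B_antitone_neg μ hcut)).trans ?_
    gcongr
    refine le_trans ?_ hgav
    have hsub := lintegral_neg_eq_self (μ := (volume : Measure ℝ))
      (fun s => (∫⁻ y, ENNReal.ofReal (Real.exp (-|W y - W (y + s) - g * s|)) ∂μ)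
        * ENNReal.ofReal (|s| ^ (-(1:ℝ)/2)))
    rw [← hsub]
    refine le_trans ?_ (setLIntegral_le_lintegral (Ioi (0:ℝ)) _)
    refine setLIntegral_mono' measurableSet_Ioi ?_
    intro r hr
    simp only [mem_Ioi] at hr
    rw [abs_neg, abs_of_pos hr]
    gcongr
    exact hBle (-r)
  -- combine
  have hsplit : ∫⁻ s, ‖bg f h g X Y s‖ₑ ^ 2
      = (∫⁻ s in Ioi (0:ℝ), ‖bg f h g X Y s‖ₑ ^ 2) + ∫⁻ s in Ioi (0:ℝ), ‖bg f h g X Y (-s)‖ₑ ^ 2 := by
    rw [← lintegral_add_compl _ (measurableSet_Ioi (a := (0:ℝ)))]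
    congr 1
    rw [compl_Ioi, setLIntegral_congr Iio_ae_eq_Iic.symm]
    have hind := lintegral_neg_eq_self (μ := (volume : Measure ℝ))
      (fun s => (Iio (0:ℝ)).indicator (fun s => ‖bg f h g X Y s‖ₑ ^ 2) s)
    rw [← lintegral_indicator measurableSet_Iio, ← lintegral_indicator measurableSet_Ioi, ← hind]
    apply lintegral_congr
    intro s
    by_cases hs : 0 < s
    · simp [indicator, hs]
    · simp [indicator, hs]
  rw [hsplit]
  have h1 : (∫⁻ s in Ioi (0:ℝ), ‖bg f h g X Y s‖ₑ ^ 2) ≤ ENNReal.ofReal M ^ 2 * N ^ 2 := by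
    calc (∫⁻ s in Ioi (0:ℝ), ‖bg f h g X Y s‖ₑ ^ 2)
        ≤ ∫⁻ s in Ioi (0:ℝ), ENNReal.ofReal M ^ 2 * (B W μ g X Y s) ^ 2 := by
          refine setLIntegral_mono' measurableSet_Ioi ?_
          intro s hs
          rw [← mul_pow]
          gcongr
          exact hpt s (ne_of_gt hs)
      _ = ENNReal.ofReal M ^ 2 * ∫⁻ s in Ioi (0:ℝ), (B W μ g X Y s) ^ 2 := by
          rw [lintegral_const_mul']
          exact ENNReal.pow_ne_top ENNReal.ofReal_ne_top
      _ ≤ _ := by gcongr
  have h2 : (∫⁻ s in Ioi (0:ℝ), ‖bg f h g X Y (-s)‖ₑ ^ 2) ≤ ENNReal.ofReal M ^ 2 * N ^ 2 := by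
    calc (∫⁻ s in Ioi (0:ℝ), ‖bg f h g X Y (-s)‖ₑ ^ 2)
        ≤ ∫⁻ s in Ioi (0:ℝ), ENNReal.ofReal M ^ 2 * (B W μ g X Y (-s)) ^ 2 := by
          refine setLIntegral_mono' measurableSet_Ioi ?_
          intro s hs
          simp only [mem_Ioi] at hs
          rw [← mul_pow]
          gcongr
          exact hpt (-s) (by linarith [hs] |> fun h : (-s : ℝ) < 0 => ne_of_lt h)
      _ = ENNReal.ofReal M ^ 2 * ∫⁻ s in Ioi (0:ℝ), (B W μ g X Y (-s)) ^ 2 := by
          rw [lintegral_const_mul']
          exact ENNReal.pow_ne_top ENNReal.ofReal_ne_top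
      _ ≤ _ := by gcongr
  calc _ ≤ ENNReal.ofReal M ^ 2 * N ^ 2 + ENNReal.ofReal M ^ 2 * N ^ 2 := add_le_add h1 h2
    _ = _ := by ring

end Pool.Agent.Domar
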