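import Pool.Agent.Lib.MP_af79d0_an.Defs

set_option autoImplicit false
open MeasureTheory Filter Topology Set

namespace Pool.Agent.Domar

/-- the reflected weight is normalised -/
theorem NW.refl {W : ℝ → ℝ} (hW : NW W) : NW (fun x => -W (-x)) := by
  refine ⟨?_, ?_, ?_, ?_, ?_, ?_, ?_⟩
  · exact (hW.cont.comp continuous_neg).neg
  · intro x y hxy
    exact neg_le_neg (hW.anti (neg_le_neg hxy))
  · simp [hW.zero]
  · refine ⟨convex_Iic 0, ?_⟩
    intro x hx y hy a b ha hb hab
    have := hW.ccv.2 (x := -x) (y := -y) (by simpa using hx) (by simpa using hy) ha hb hab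
    simp only [smul_eq_mul] at this ⊢
    have e : a * -x + b * -y = -(a * x + b * y) := by ring
    rw [e] at this
    linarith
  · refine ⟨convex_Ici 0, ?_⟩
    intro x hx y hy a b ha hb hab
    have := hW.cvx.2 (x := -x) (y := -y) (by simpa using hx) (by simpa using hy) ha hb hab
    simp only [smul_eq_mul] at this ⊢
    have e : a * -x + b * -y = -(a * x + b * y) := by ring
    rw [e] at this
    linarith
  · have := hW.topl.comp tendsto_neg_atBot_atTop
    refine this.congr (fun x => ?_)
    simp only [Function.comp]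
    rw [div_neg, neg_div]
  · have := hW.botl.comp tendsto_neg_atTop_atBot
    refine this.congr (fun x => ?_)
    simp only [Function.comp]
    rw [div_neg, neg_div]

theorem Cut.refl {W : ℝ → ℝ} {g X Y : ℝ} (hc : Cut W g X Y) :
    Cut (fun x => -W (-x)) g Y X := by
  refine ⟨hc.Y0, hc.X0, ?_, ?_, ?_⟩
  · intro x hx y hy hxy
    simp only [mem_Iic] at hx hy
    have := hc.right (a := -y) (b := -x) (by simp only [mem_Ici]; linarith)
      (by simp only [mem_Ici]; linarith) (by linarith)
    simp only at this ⊢
    linarith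
  · intro x hx y hy hxy
    have := hc.mid (a := -y) (b := -x) ⟨by linarith [hy.2], by linarith [hy.1]⟩
      ⟨by linarith [hx.2], by linarith [hx.1]⟩ (by linarith)
    simp only at this ⊢
    linarith
  · intro x hx y hy hxy
    simp only [mem_Ici] at hx hy
    have := hc.left (a := -y) (b := -x) (by simp only [mem_Iic]; linarith)
      (by simp only [mem_Iic]; linarith) (by linarith)
    simp only at this ⊢
    linarith

theorem bg_refl (f h : ℝ → ℂ) (g X Y s : ℝ) :
    bg (fun x => h (-x)) (fun x => f (-x)) g Y X s = bg f h g X Y s := by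
  unfold bg
  congr 1
  have e1 := integral_neg_eq_self
    (fun y => (Iio Y).indicator (fun x => h (-x)) y * (Ioi (-X)).indicator (fun x => f (-x)) (y + s))
    volume
  have e2 := integral_add_right_eq_self (μ := (volume : Measure ℝ))
    (fun y => (Iio Y).indicator (fun x => h (-x)) (-y) *
      (Ioi (-X)).indicator (fun x => f (-x)) (-y + s)) s
  rw [← e1, ← e2]
  congr 1
  ext y
  have e3 : -(y + s) + s = -y := by ring
  rw [e3]
  have e4 : (Iio Y).indicator (fun x => h (-x)) (-(y + s)) = (Ioi (-Y)).indicator h (y + s) := by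
    by_cases hy : -Y < y + s
    · rw [indicator_of_mem (by simp only [mem_Iio]; linarith),
        indicator_of_mem (show y + s ∈ Ioi (-Y) from hy), neg_neg]
    · rw [indicator_of_notMem (by simp only [mem_Iio]; linarith),
        indicator_of_notMem (show y + s ∉ Ioi (-Y) from hy)]
  have e5 : (Ioi (-X)).indicator (fun x => f (-x)) (-y) = (Iio X).indicator f y := by
    by_cases hy : y < X
    · rw [indicator_of_mem (by simp only [mem_Ioi]; linarith),
        indicator_of_mem (show y ∈ Iio X from hy), neg_neg]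
    · rw [indicator_of_notMem (by simp only [mem_Ioi]; linarith),
        indicator_of_notMem (show y ∉ Iio X from hy)]
  rw [e4, e5, mul_comm]

theorem Ori1.refl {W : ℝ → ℝ} {f h : ℝ → ℂ} (ho : Ori1 W f h) :
    Ori2 (fun x => -W (-x)) (fun x => h (-x)) (fun x => f (-x)) := by
  obtain ⟨M, hM⟩ := ho.hbd
  refine ⟨ho.hm.comp measurable_neg, ho.fm.comp measurable_neg, ⟨M, fun x => ?_⟩, ?_⟩
  · simpa using hM (-x)
  · have := ho.fint.comp_neg
    simpa using this

theorem Ori2.refl {W : ℝ → ℝ} {f h : ℝ → ℂ} (ho : Ori2 W f h) :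
    Ori1 (fun x => -W (-x)) (fun x => h (-x)) (fun x => f (-x)) := by
  obtain ⟨M, hM⟩ := ho.fbd
  refine ⟨ho.hm.comp measurable_neg, ho.fm.comp measurable_neg, ?_, ⟨M, fun x => ?_⟩⟩
  · have := ho.hint.comp_neg
    simpa using this
  · simpa using hM (-x)

theorem K_refl (f h : ℝ → ℂ) (s : ℝ) :
    ∫ y, h (-y) * f (-(y + s)) = ∫ y, f y * h (y + s) := by
  have e1 := integral_neg_eq_self (fun y => h (-y) * f (-(y + s))) volume
  have e2 := integral_add_right_eq_self (μ := (volume : Measure ℝ))
    (fun y => h (- -y) * f (-(-y + s))) s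
  rw [← e1, ← e2]
  congr 1
  ext y
  have e3 : - -(y + s) = y + s := by ring
  have e4 : -(-(y + s) + s) = y := by ring
  rw [e3, e4, mul_comm]

end Pool.Agent.Domar
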