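import Pool.Agent.Lib.MP_af79d0_an.Defs
import Pool.Agent.Lib.MP_af79d0_an.Reflect
import Pool.Agent.Lib.MP_af79d0_an.BG

set_option autoImplicit false
open MeasureTheory Filter Topology Set

namespace Pool.Agent.Domar

theorem bg_l2_or (W : ℝ → ℝ) (hW : NW W) (f h : ℝ → ℂ) (ho : Ori1 W f h ∨ Ori2 W f h)
    (hK : ∀ s : ℝ, 0 < s → ∫ y, f y * h (y + s) = 0) :
    ∃ A : ℝ, ∀ g₀ : ℝ, 0 < g₀ → ∃ g ∈ Icc g₀ (g₀ + 1), ∀ X Y, Cut W g X Y →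
      ∫⁻ s, ‖bg f h g X Y s‖ₑ ^ 2 ≤ ENNReal.ofReal A := by
  rcases ho with ho | ho
  · exact bg_l2 W hW f h ho hK
  · obtain ⟨A, hA⟩ := bg_l2 _ hW.refl _ _ ho.refl (fun s hs => by rw [K_refl]; exact hK s hs)
    refine ⟨A, fun g₀ hg₀ => ?_⟩
    obtain ⟨g, hg, hg'⟩ := hA g₀ hg₀
    refine ⟨g, hg, fun X Y hc => ?_⟩
    have := hg' Y X hc.refl
    simpa only [bg_refl] using this

end Pool.Agent.Domar
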