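import Pool.Agent.Lib.MP_af79d0_an.Defs
set_option autoImplicit false
open MeasureTheory Filter Topology Set
namespace Pool.Agent.Domar

namespace CorrAux

theorem integrable_shear (u v : ℝ → ℂ) (hu : Integrable u) (hv : Integrable v) :
    Integrable (fun q : ℝ × ℝ => u q.1 * v (q.1 + q.2)) (volume.prod volume) := by
  have h1 : Integrable (fun q : ℝ × ℝ => u q.1 * v q.2) (volume.prod volume) := hu.mul_prod hv
  exact (measurePreserving_prod_add (volume : Measure ℝ)
    (volume : Measure ℝ)).integrable_comp_of_integrable h1

theorem integrable_twist (u : ℝ → ℂ) (hu : Integrable u) (t : ℝ) :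
    Integrable (fun y : ℝ => u y * Complex.exp (Complex.I * t * y)) := by
  refine hu.mul_bdd (c := 1) (by fun_prop) (ae_of_all _ fun y => ?_)
  rw [Complex.norm_exp]
  simp

end CorrAux

theorem correlation (u v : ℝ → ℂ) (hu : Integrable u) (hv : Integrable v) :
    Integrable (fun s => ∫ y, u y * v (y + s)) ∧
    ∀ t : ℝ, ∫ s, (∫ y, u y * v (y + s)) * Complex.exp (Complex.I * t * s)
      = (∫ y, u y * Complex.exp (-(Complex.I * t * y))) *
        (∫ x, v x * Complex.exp (Complex.I * t * x)) := by
  refine ⟨(CorrAux.integrable_shear u v hu hv).integral_prod_right, fun t => ?_⟩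
  have hu' : Integrable (fun y : ℝ => u y * Complex.exp (-(Complex.I * t * y))) := by
    have := CorrAux.integrable_twist u hu (-t)
    refine this.congr (ae_of_all _ fun y => ?_)
    dsimp only
    congr 2
    push_cast
    ring
  have hv' := CorrAux.integrable_twist v hv t
  have h1 : ∀ s : ℝ, (∫ y, u y * v (y + s)) * Complex.exp (Complex.I * t * s) =
      ∫ y, (u y * Complex.exp (-(Complex.I * t * y))) *
        (v (y + s) * Complex.exp (Complex.I * t * ((y + s : ℝ) : ℂ))) := by
    intro s
    rw [← integral_mul_const]
    congr 1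
    ext y
    have h2 : Complex.exp (Complex.I * t * s) = Complex.exp (-(Complex.I * t * y)) *
        Complex.exp (Complex.I * t * ((y + s : ℝ) : ℂ)) := by
      rw [← Complex.exp_add]
      congr 1
      push_cast
      ring
    rw [h2]
    ring
  simp_rw [h1]
  rw [integral_integral_swap]
  · have h3 : ∀ y : ℝ, ∫ s, (u y * Complex.exp (-(Complex.I * t * y))) *
        (v (y + s) * Complex.exp (Complex.I * t * ((y + s : ℝ) : ℂ))) =
        (u y * Complex.exp (-(Complex.I * t * y))) *
          ∫ x, v x * Complex.exp (Complex.I * t * x) := by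
      intro y
      rw [integral_const_mul]
      congr 1
      exact integral_add_left_eq_self (fun x : ℝ => v x * Complex.exp (Complex.I * t * x)) y
    simp_rw [h3]
    rw [integral_mul_const]
  · exact (CorrAux.integrable_shear _ _ hu' hv').swap

end Pool.Agent.Domar
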