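import Pool.Agent.Lib.MP_af79d0_an.Defs
set_option autoImplicit false
open MeasureTheory Filter Topology Set
namespace Pool.Agent.Domar

namespace CutAux

theorem exists_min (W : ℝ → ℝ) (hW : NW W) (g : ℝ) :
    ∃ X, 0 ≤ X ∧ ∀ x, 0 ≤ x → -W X - g * X ≤ -W x - g * x := by
  have h1 : ∀ᶠ x in atTop, W x / x ≤ -g - 1 := hW.topl.eventually_le_atBot (-g - 1)
  obtain ⟨R, hR⟩ := (h1.and (eventually_gt_atTop 0)).exists_forall_of_atTop
  have hcont : ContinuousOn (fun x => -W x - g * x) (Icc 0 (max R 0)) := by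
    have := hW.cont
    fun_prop
  obtain ⟨X, hX, hXm⟩ := isCompact_Icc.exists_isMinOn
    (nonempty_Icc.2 (le_max_right R 0)) hcont
  refine ⟨X, hX.1, fun x hx => ?_⟩
  rcases le_or_gt x (max R 0) with h | h
  · exact hXm ⟨hx, h⟩
  · have h0 : -W X - g * X ≤ -W 0 - g * 0 := hXm ⟨le_rfl, le_max_right R 0⟩
    rw [hW.zero] at h0
    have hx0 : 0 < x := lt_of_le_of_lt (le_max_right R 0) h
    have h2 := (hR x ((le_max_left R 0).trans h.le)).1
    rw [div_le_iff₀ hx0] at h2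
    linarith

theorem exists_max (W : ℝ → ℝ) (hW : NW W) (g : ℝ) :
    ∃ Y, 0 ≤ Y ∧ ∀ x, x ≤ 0 → -W x - g * x ≤ -W (-Y) - g * (-Y) := by
  have h1 : ∀ᶠ x in atBot, W x / x ≤ -g - 1 := hW.botl.eventually_le_atBot (-g - 1)
  obtain ⟨R, hR⟩ := (h1.and (eventually_lt_atBot 0)).exists_forall_of_atBot
  have hcont : ContinuousOn (fun x => -W x - g * x) (Icc (min R 0) 0) := by
    have := hW.cont
    fun_prop
  obtain ⟨Y, hY, hYm⟩ := isCompact_Icc.exists_isMaxOn
    (nonempty_Icc.2 (min_le_right R 0)) hcont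
  refine ⟨-Y, by linarith [hY.2], fun x hx => ?_⟩
  rw [neg_neg]
  rcases le_or_gt (min R 0) x with h | h
  · exact hYm ⟨h, hx⟩
  · have h0 : -W 0 - g * 0 ≤ -W Y - g * Y := hYm ⟨min_le_right R 0, le_rfl⟩
    rw [hW.zero] at h0
    have hx0 : x < 0 := lt_of_lt_of_le h (min_le_right R 0)
    have h2 := (hR x (h.le.trans (min_le_left R 0))).1
    rw [div_le_iff_of_neg hx0] at h2
    linarith

theorem cvx_right (W : ℝ → ℝ) (hW : NW W) (g : ℝ) :
    ConvexOn ℝ (Ici 0) (fun x => -W x - g * x) := by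
  have h1 : ConvexOn ℝ (Ici 0) (fun x => -W x) := hW.ccv.neg
  refine ⟨convex_Ici 0, fun x hx y hy a b ha hb hab => ?_⟩
  have h2 := h1.2 hx hy ha hb hab
  simp only [smul_eq_mul] at h2 ⊢
  linarith

theorem ccv_left (W : ℝ → ℝ) (hW : NW W) (g : ℝ) :
    ConcaveOn ℝ (Iic 0) (fun x => -W x - g * x) := by
  have h1 : ConcaveOn ℝ (Iic 0) (fun x => -W x) := hW.cvx.neg
  refine ⟨convex_Iic 0, fun x hx y hy a b ha hb hab => ?_⟩
  have h2 := h1.2 hx hy ha hb hab
  simp only [smul_eq_mul] at h2 ⊢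
  linarith

end CutAux

theorem exists_cut (W : ℝ → ℝ) (hW : NW W) (g : ℝ) (hg : 0 < g) : ∃ X Y, Cut W g X Y := by
  obtain ⟨X, hX0, hX⟩ := CutAux.exists_min W hW g
  obtain ⟨Y, hY0, hY⟩ := CutAux.exists_max W hW g
  have hcv := CutAux.cvx_right W hW g
  have hcc := CutAux.ccv_left W hW g
  have hl : AntitoneOn (fun x => -W x - g * x) (Icc (-Y) 0) := by
    intro x hx y hy hxy
    have h1 := hcc.min_le_of_mem_Icc (x := -Y) (y := y) (z := x)
      (mem_Iic.2 (by linarith)) (mem_Iic.2 hy.2) ⟨hx.1, hxy⟩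
    rw [min_eq_right (hY y hy.2)] at h1
    exact h1
  have hr : AntitoneOn (fun x => -W x - g * x) (Icc 0 X) := by
    intro x hx y hy hxy
    have h1 := hcv.le_max_of_mem_Icc (x := x) (y := X) (z := y)
      (mem_Ici.2 hx.1) (mem_Ici.2 hX0) ⟨hxy, hy.2⟩
    rw [max_eq_left (hX x hx.1)] at h1
    exact h1
  refine ⟨X, Y, hX0, hY0, ?_, ?_, ?_⟩
  · intro x hx y hy hxy
    have hy' : y ≤ -Y := hy
    have hx' : x ≤ -Y := hx
    have h1 := hcc.min_le_of_mem_Icc (x := x) (y := -Y) (z := y)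
      (mem_Iic.2 (by linarith)) (mem_Iic.2 (by linarith)) ⟨hxy, hy'⟩
    rw [min_eq_left (hY x (by linarith))] at h1
    exact h1
  · intro x hx y hy hxy
    rcases le_or_gt y 0 with h0 | h0
    · exact hl ⟨hx.1, by linarith⟩ ⟨hy.1, h0⟩ hxy
    · rcases le_or_gt 0 x with h1 | h1
      · exact hr ⟨h1, hx.2⟩ ⟨h0.le, hy.2⟩ hxy
      · have h2 := hl (a := x) (b := 0) ⟨hx.1, h1.le⟩ ⟨by linarith, le_rfl⟩ h1.le
        have h3 := hr (a := 0) (b := y) ⟨le_rfl, hX0⟩ ⟨h0.le, hy.2⟩ h0.le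
        exact h3.trans h2
  · intro x hx y hy hxy
    have hx' : X ≤ x := hx
    have hy' : X ≤ y := hy
    have h1 := hcv.le_max_of_mem_Icc (x := X) (y := y) (z := x)
      (mem_Ici.2 hX0) (mem_Ici.2 (by linarith)) ⟨hx', hxy⟩
    rw [max_eq_right (hX y (by linarith))] at h1
    exact h1

theorem cut_bounds (W : ℝ → ℝ) (hW : NW W) (g X Y x : ℝ) (hg : 0 < g) (hcut : Cut W g X Y)
    (hx : 0 < x) (h : 2 * g + 1 ≤ W (-x) / x) :
    Y ≤ x ∧ W (-Y) ≤ g * x ∧ (∀ y, y < X → -W y - 2 * g * y ≤ 2 * g * x) ∧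
    (∀ y, y ≤ -x → -W y - 2 * g * y ≤ y) ∧
    (∀ y, 0 ≤ y → y < X → -W y - 2 * g * y ≤ -(g * y)) := by
  have hWx : (2 * g + 1) * x ≤ W (-x) := by
    rwa [le_div_iff₀ hx] at h
  have hgx : 0 < g * x := mul_pos hg hx
  have hX0 := hcut.X0
  have hY0 := hcut.Y0
  have hYx : Y ≤ x := by
    by_contra hc
    rw [not_le] at hc
    have h1 := hcut.mid (a := -x) (b := 0) ⟨by linarith, by linarith⟩ ⟨by linarith, hX0⟩
      (by linarith)
    simp only [hW.zero] at h1
    nlinarith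
  have h2 : W (-Y) ≤ g * x := by
    have h1 := hcut.mid (a := -Y) (b := 0) ⟨le_rfl, by linarith⟩ ⟨by linarith, hX0⟩
      (by linarith)
    simp only [hW.zero] at h1
    have h3 : g * Y ≤ g * x := mul_le_mul_of_nonneg_left hYx hg.le
    linarith
  have h4 : ∀ y, y ≤ -x → -W y - 2 * g * y ≤ y := by
    intro y hy
    have hy0 : y < 0 := by linarith
    have hny : 0 < -y := by linarith
    have hyne : y ≠ 0 := hy0.ne
    have ht1 : x / -y ≤ 1 := by
      rw [div_le_one hny]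
      linarith
    have h3 := hW.cvx.2 (x := y) (y := 0) (mem_Iic.2 hy0.le) (mem_Iic.2 le_rfl)
      (div_nonneg hx.le hny.le : 0 ≤ x / -y) (sub_nonneg.2 ht1) (by ring)
    simp only [smul_eq_mul, mul_zero, add_zero, hW.zero] at h3
    have h5 : x / -y * y = -x := by
      field_simp
    rw [h5] at h3
    have h6 : (2 * g + 1) * x ≤ x / -y * W y := hWx.trans h3
    have h7 : (2 * g + 1) * x * (-y) ≤ x * W y := by
      have := mul_le_mul_of_nonneg_right h6 hny.le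
      have h8 : x / -y * W y * -y = x * W y := by
        field_simp
      rwa [h8] at this
    have h9 : (2 * g + 1) * (-y) ≤ W y := by
      have h10 : x * ((2 * g + 1) * (-y)) ≤ x * W y := by linarith
      exact le_of_mul_le_mul_left h10 hx
    linarith
  have h5 : ∀ y, 0 ≤ y → y < X → -W y - 2 * g * y ≤ -(g * y) := by
    intro y hy hyX
    have h1 := hcut.mid (a := 0) (b := y) ⟨by linarith, hX0⟩ ⟨by linarith, hyX.le⟩ hy
    simp only [hW.zero] at h1
    linarith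
  refine ⟨hYx, h2, ?_, h4, h5⟩
  intro y hyX
  rcases le_or_gt y (-x) with h6 | h6
  · have := h4 y h6
    linarith
  · rcases le_or_gt y 0 with h7 | h7
    · have h8 : 0 ≤ W y := by
        have := hW.anti h7
        rwa [hW.zero] at this
      have h9 : g * (-y) ≤ g * x := mul_le_mul_of_nonneg_left (by linarith) hg.le
      linarith
    · have h8 := h5 y h7.le hyX
      have h9 : 0 < g * y := mul_pos hg h7
      linarith

end Pool.Agent.Domar
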