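import Pool.Agent.Lib.MP_af79d0_an.Defs
set_option autoImplicit false
open MeasureTheory Filter Topology Set
namespace Pool.Agent.Domar

namespace LaplaceAux

theorem norm_integrand (ρ : ℝ → ℂ) (z : ℂ) (y : ℝ) :
    ‖ρ y * Complex.exp (z * y)‖ = ‖ρ y‖ * Real.exp (z.re * y) := by
  rw [norm_mul, Complex.norm_exp]
  simp

theorem exp_le_add {α β x : ℝ} (h1 : α ≤ x) (h2 : x ≤ β) (y : ℝ) :
    Real.exp (x * y) ≤ Real.exp (α * y) + Real.exp (β * y) := by
  rcases le_total 0 y with hy | hy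
  · have : Real.exp (x * y) ≤ Real.exp (β * y) :=
      Real.exp_le_exp.mpr (mul_le_mul_of_nonneg_right h2 hy)
    have := Real.exp_pos (α * y)
    linarith
  · have : Real.exp (x * y) ≤ Real.exp (α * y) :=
      Real.exp_le_exp.mpr (mul_le_mul_of_nonpos_right h1 hy)
    have := Real.exp_pos (β * y)
    linarith

theorem meas (ρ : ℝ → ℂ) (hρ : AEStronglyMeasurable ρ) (z : ℂ) :
    AEStronglyMeasurable (fun y : ℝ => ρ y * Complex.exp (z * y)) := by
  refine hρ.mul ?_
  exact (by fun_prop : Continuous fun y : ℝ => Complex.exp (z * y)).aestronglyMeasurable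

theorem bound (ρ : ℝ → ℂ) {α β : ℝ} {z : ℂ} (h1 : α ≤ z.re) (h2 : z.re ≤ β) (y : ℝ) :
    ‖ρ y * Complex.exp (z * y)‖ ≤ ‖ρ y‖ * Real.exp (α * y) + ‖ρ y‖ * Real.exp (β * y) := by
  rw [norm_integrand, ← mul_add]
  exact mul_le_mul_of_nonneg_left (exp_le_add h1 h2 y) (norm_nonneg _)

/-- `|y| exp(x y) ≤ r⁻¹ (exp(α y) + exp(β y))` when `α + r ≤ x ≤ β - r`. -/
theorem abs_mul_exp_le {α β x r : ℝ} (hr : 0 < r) (h1 : α + r ≤ x) (h2 : x ≤ β - r) (y : ℝ) :
    |y| * Real.exp (x * y) ≤ r⁻¹ * (Real.exp (α * y) + Real.exp (β * y)) := by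
  have h3 : r * |y| ≤ Real.exp (r * |y|) := by
    have := Real.add_one_le_exp (r * |y|)
    linarith
  have h4 : |y| ≤ r⁻¹ * Real.exp (r * |y|) := by
    rw [inv_mul_eq_div, le_div_iff₀ hr]
    linarith
  have h5 : Real.exp (r * |y|) * Real.exp (x * y) ≤ Real.exp (α * y) + Real.exp (β * y) := by
    rw [← Real.exp_add]
    rcases le_total 0 y with hy | hy
    · rw [abs_of_nonneg hy]
      have : Real.exp (r * y + x * y) ≤ Real.exp (β * y) := by
        apply Real.exp_le_exp.mpr
        have := mul_le_mul_of_nonneg_right h2 hy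
        linarith
      have := Real.exp_pos (α * y)
      linarith
    · rw [abs_of_nonpos hy]
      have : Real.exp (r * -y + x * y) ≤ Real.exp (α * y) := by
        apply Real.exp_le_exp.mpr
        have := mul_le_mul_of_nonpos_right h1 hy
        linarith
      have := Real.exp_pos (β * y)
      linarith
  calc |y| * Real.exp (x * y) ≤ (r⁻¹ * Real.exp (r * |y|)) * Real.exp (x * y) :=
        mul_le_mul_of_nonneg_right h4 (Real.exp_pos _).le
    _ = r⁻¹ * (Real.exp (r * |y|) * Real.exp (x * y)) := by ring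
    _ ≤ r⁻¹ * (Real.exp (α * y) + Real.exp (β * y)) :=
        mul_le_mul_of_nonneg_left h5 (inv_nonneg.mpr hr.le)

end LaplaceAux

open LaplaceAux in
theorem laplace_strip (ρ : ℝ → ℂ) (hρ : AEStronglyMeasurable ρ) (α β : ℝ) (hαβ : α ≤ β)
    (h1 : Integrable (fun y => ‖ρ y‖ * Real.exp (α * y)))
    (h2 : Integrable (fun y => ‖ρ y‖ * Real.exp (β * y))) :
    DifferentiableOn ℂ (fun z : ℂ => ∫ y, ρ y * Complex.exp (z * y)) {z | α < z.re ∧ z.re < β} ∧
    ContinuousOn (fun z : ℂ => ∫ y, ρ y * Complex.exp (z * y)) {z | α ≤ z.re ∧ z.re ≤ β} ∧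
    (∀ z : ℂ, α ≤ z.re → z.re ≤ β → Integrable (fun y => ρ y * Complex.exp (z * y))) ∧
    ∀ z : ℂ, α ≤ z.re → z.re ≤ β → ‖∫ y, ρ y * Complex.exp (z * y)‖
      ≤ (∫ y, ‖ρ y‖ * Real.exp (α * y)) + ∫ y, ‖ρ y‖ * Real.exp (β * y) := by
  have hint : ∀ z : ℂ, α ≤ z.re → z.re ≤ β → Integrable (fun y => ρ y * Complex.exp (z * y)) := by
    intro z hz1 hz2
    exact (h1.add h2).mono' (meas ρ hρ z) (Eventually.of_forall fun y => bound ρ hz1 hz2 y)
  refine ⟨?_, ?_, hint, ?_⟩
  · intro z₀ hz₀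
    obtain ⟨ha, hb⟩ := hz₀
    set r : ℝ := min (z₀.re - α) (β - z₀.re) / 2 with hr
    have hrpos : 0 < r := by
      rw [hr]
      have : 0 < min (z₀.re - α) (β - z₀.re) := lt_min (by linarith) (by linarith)
      linarith
    have hr1 : 2 * r ≤ z₀.re - α := by
      rw [hr]; have := min_le_left (z₀.re - α) (β - z₀.re); linarith
    have hr2 : 2 * r ≤ β - z₀.re := by
      rw [hr]; have := min_le_right (z₀.re - α) (β - z₀.re); linarith
    have hre : ∀ z ∈ Metric.ball z₀ r, α + r ≤ z.re ∧ z.re ≤ β - r := by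
      intro z hz
      have h3 : |z.re - z₀.re| ≤ ‖z - z₀‖ := by
        rw [← Complex.sub_re]; exact Complex.abs_re_le_norm _
      have h4 : ‖z - z₀‖ < r := by rwa [Metric.mem_ball, dist_eq_norm] at hz
      have h5 := abs_lt.mp (lt_of_le_of_lt h3 h4)
      constructor <;> linarith [h5.1, h5.2]
    have key := hasDerivAt_integral_of_dominated_loc_of_deriv_le
      (𝕜 := ℂ) (μ := (volume : Measure ℝ)) (F := fun (z : ℂ) (y : ℝ) => ρ y * Complex.exp (z * y))
      (F' := fun (z : ℂ) (y : ℝ) => ρ y * ((y : ℂ) * Complex.exp (z * y)))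
      (x₀ := z₀) (s := Metric.ball z₀ r)
      (bound := fun y => ‖ρ y‖ * (r⁻¹ * (Real.exp (α * y) + Real.exp (β * y))))
      (Metric.ball_mem_nhds z₀ hrpos)
      (Eventually.of_forall fun z => meas ρ hρ z)
      (hint z₀ ha.le hb.le)
      (by
        refine hρ.mul ?_
        exact (by fun_prop :
          Continuous fun y : ℝ => (y : ℂ) * Complex.exp (z₀ * y)).aestronglyMeasurable)
      (Eventually.of_forall fun y z hz => by
        rw [norm_mul, norm_mul, Complex.norm_exp]
        have h6 : (z * (y : ℂ)).re = z.re * y := by simp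
        rw [h6, Complex.norm_real, Real.norm_eq_abs]
        obtain ⟨h7, h8⟩ := hre z hz
        exact mul_le_mul_of_nonneg_left (abs_mul_exp_le hrpos h7 h8 y) (norm_nonneg _))
      (by
        have h9 : (fun y => ‖ρ y‖ * (r⁻¹ * (Real.exp (α * y) + Real.exp (β * y))))
            = fun y => r⁻¹ * (‖ρ y‖ * Real.exp (α * y) + ‖ρ y‖ * Real.exp (β * y)) := by
          funext y; ring
        rw [h9]
        exact (h1.add h2).const_mul _)
      (Eventually.of_forall fun y z _ => by
        have h10 : HasDerivAt (fun z : ℂ => Complex.exp (z * y)) (Complex.exp (z * y) * (1 * (y : ℂ))) z :=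
          ((hasDerivAt_id z).mul_const (y : ℂ)).cexp
        have h11 := h10.const_mul (ρ y)
        have h12 : ρ y * ((y : ℂ) * Complex.exp (z * y)) = ρ y * (Complex.exp (z * y) * (1 * (y : ℂ))) := by
          ring
        rw [h12]
        exact h11)
    exact key.2.differentiableAt.differentiableWithinAt
  · refine continuousOn_of_dominated (bound := fun y => ‖ρ y‖ * Real.exp (α * y) + ‖ρ y‖ * Real.exp (β * y))
      ?_ ?_ (h1.add h2) ?_
    · intro z _; exact meas ρ hρ z
    · intro z hz; exact Eventually.of_forall fun y => bound ρ hz.1 hz.2 y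
    · refine Eventually.of_forall fun y => ?_
      exact (by fun_prop : Continuous fun z : ℂ => ρ y * Complex.exp (z * y)).continuousOn
  · intro z hz1 hz2
    rw [← integral_add h1 h2]
    exact norm_integral_le_of_norm_le (h1.add h2) (Eventually.of_forall fun y => bound ρ hz1 hz2 y)

end Pool.Agent.Domar
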