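import Pool.Agent.Lib.MP_af79d0_an.Defs
import Pool.Agent.Lib.MP_af79d0_an.Laplace

set_option autoImplicit false
open MeasureTheory Filter Topology Set

namespace Pool.Agent.Domar
namespace PhiB

lemma norm_kernel (τ : ℂ) (s : ℝ) :
    ‖Complex.exp (Complex.I * τ * s)‖ = Real.exp (-(τ.im * s)) := by
  rw [Complex.norm_exp]
  congr 1
  simp [Complex.mul_re, Complex.mul_im]

lemma kernel_le {x s : ℝ} {τ : ℂ} (hx : 0 ≤ x) (hτ : 0 ≤ τ.im) (hs : -x < s) :
    ‖Complex.exp (Complex.I * τ * s)‖ ≤ Real.exp (x * τ.im) := by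
  rw [norm_kernel]
  apply Real.exp_le_exp.mpr
  nlinarith

lemma integrable_kernel (φ : ℝ → ℂ) (hφ : Integrable φ) (x : ℝ) (τ : ℂ) (hτ : 0 ≤ τ.im) :
    IntegrableOn (fun s : ℝ => φ s * Complex.exp (Complex.I * τ * s)) (Ioi (-x)) := by
  have h0 : IntegrableOn φ (Ioi (-x)) := hφ.integrableOn
  refine Integrable.mul_bdd (c := Real.exp (|x| * τ.im)) h0 ?_ ?_
  · apply Continuous.aestronglyMeasurable
    fun_prop
  · refine (ae_restrict_iff' measurableSet_Ioi).mpr (Eventually.of_forall (fun s hs => ?_))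
    apply kernel_le (abs_nonneg x) hτ
    have h1 : -x < s := hs
    have h2 := le_abs_self x
    linarith

end PhiB

theorem Phi_norm_le (φ : ℝ → ℂ) (hφ : Integrable φ) (x : ℝ) (τ : ℂ) (hx : 0 ≤ x)
    (hτ : 0 ≤ τ.im) : ‖Phi φ x τ‖ ≤ (∫ s, ‖φ s‖) * Real.exp (x * τ.im) := by
  unfold Phi
  refine (norm_integral_le_integral_norm _).trans ?_
  calc ∫ s in Ioi (-x), ‖φ s * Complex.exp (Complex.I * τ * s)‖
      ≤ ∫ s in Ioi (-x), ‖φ s‖ * Real.exp (x * τ.im) := by
        apply setIntegral_mono_on (PhiB.integrable_kernel φ hφ x τ hτ).norm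
          (hφ.norm.mul_const _).integrableOn measurableSet_Ioi
        intro s hs
        rw [norm_mul]
        exact mul_le_mul_of_nonneg_left (PhiB.kernel_le hx hτ hs) (norm_nonneg _)
    _ = (∫ s in Ioi (-x), ‖φ s‖) * Real.exp (x * τ.im) := integral_mul_const _ _
    _ ≤ _ := by
        apply mul_le_mul_of_nonneg_right _ (Real.exp_pos _).le
        exact setIntegral_le_integral hφ.norm (Eventually.of_forall (fun s => norm_nonneg _))

theorem Phi_sub_le (φ : ℝ → ℂ) (hφ : Integrable φ) (x x' : ℝ) (hx : 0 ≤ x) (hxx : x ≤ x') (τ : ℂ)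
    (hτ : 0 ≤ τ.im) :
    ‖Phi φ x' τ - Phi φ x τ‖ ≤ (∫ s in Iic (-x), ‖φ s‖) * Real.exp (x' * τ.im) := by
  unfold Phi
  have hun : Ioi (-x') = Ioc (-x') (-x) ∪ Ioi (-x) := (Ioc_union_Ioi_eq_Ioi (by linarith)).symm
  have hi := PhiB.integrable_kernel φ hφ x' τ hτ
  have e1 : (∫ s in Ioi (-x'), φ s * Complex.exp (Complex.I * τ * s))
      = (∫ s in Ioc (-x') (-x), φ s * Complex.exp (Complex.I * τ * s)) +
        ∫ s in Ioi (-x), φ s * Complex.exp (Complex.I * τ * s) := by
    rw [hun]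
    apply setIntegral_union
    · rw [Set.disjoint_left]
      intro s hs hs'
      exact absurd hs.2 (not_le.mpr hs')
    · exact measurableSet_Ioi
    · exact hi.mono_set (by rw [hun]; exact subset_union_left)
    · exact hi.mono_set (by rw [hun]; exact subset_union_right)
  rw [e1, add_sub_cancel_right]
  refine (norm_integral_le_integral_norm _).trans ?_
  calc ∫ s in Ioc (-x') (-x), ‖φ s * Complex.exp (Complex.I * τ * s)‖
      ≤ ∫ s in Ioc (-x') (-x), ‖φ s‖ * Real.exp (x' * τ.im) := by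
        apply setIntegral_mono_on (hi.mono_set (by rw [hun]; exact subset_union_left)).norm
          (hφ.norm.mul_const _).integrableOn measurableSet_Ioc
        intro s hs
        rw [norm_mul]
        exact mul_le_mul_of_nonneg_left (PhiB.kernel_le (by linarith) hτ hs.1) (norm_nonneg _)
    _ = (∫ s in Ioc (-x') (-x), ‖φ s‖) * Real.exp (x' * τ.im) := integral_mul_const _ _
    _ ≤ _ := by
        apply mul_le_mul_of_nonneg_right _ (Real.exp_pos _).le
        apply setIntegral_mono_set hφ.norm.integrableOn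
          (Eventually.of_forall (fun s => norm_nonneg _))
        exact (Ioc_subset_Iic_self).eventuallyLE

namespace PhiB

lemma phi_eq (φ : ℝ → ℂ) (x : ℝ) (τ : ℂ) :
    Phi φ x τ = ∫ s, (Ioi (-x)).indicator φ s * Complex.exp ((Complex.I * τ) * s) := by
  unfold Phi
  rw [← integral_indicator measurableSet_Ioi]
  congr 1
  ext s
  by_cases hs : s ∈ Ioi (-x)
  · rw [indicator_of_mem hs, indicator_of_mem hs]
  · rw [indicator_of_notMem hs, indicator_of_notMem hs, zero_mul]

lemma int_exp (φ : ℝ → ℂ) (hφ : Integrable φ) (x m : ℝ) (hm : m ≤ 0) :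
    Integrable (fun s => ‖(Ioi (-x)).indicator φ s‖ * Real.exp (m * s)) := by
  have h0 : Integrable (fun s => ‖(Ioi (-x)).indicator φ s‖) :=
    (hφ.indicator measurableSet_Ioi).norm
  refine (h0.mul_const (Real.exp (-m * |x|))).mono' ?_ ?_
  · apply AEStronglyMeasurable.mul h0.aestronglyMeasurable
    apply Continuous.aestronglyMeasurable
    fun_prop
  · refine Eventually.of_forall (fun s => ?_)
    rw [Real.norm_of_nonneg (by positivity)]
    by_cases hs : s ∈ Ioi (-x)
    · apply mul_le_mul_of_nonneg_left _ (norm_nonneg _)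
      apply Real.exp_le_exp.mpr
      have h1 : -x < s := hs
      have h2 := le_abs_self x
      nlinarith
    · rw [indicator_of_notMem hs]
      simp

end PhiB

theorem Phi_differentiableOn (φ : ℝ → ℂ) (hφ : Integrable φ) (x : ℝ) :
    DifferentiableOn ℂ (Phi φ x) {τ | 0 < τ.im} := by
  intro τ hτ
  have hτ' : 0 < τ.im := hτ
  set m : ℝ := -(τ.im + 1) with hm
  obtain ⟨hd, -, -, -⟩ := laplace_strip ((Ioi (-x)).indicator φ)
    (hφ.indicator measurableSet_Ioi).aestronglyMeasurable m 0 (by rw [hm]; linarith)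
    (PhiB.int_exp φ hφ x m (by rw [hm]; linarith)) (PhiB.int_exp φ hφ x 0 le_rfl)
  have h1 : DifferentiableAt ℂ (fun z : ℂ => ∫ s, (Ioi (-x)).indicator φ s * Complex.exp (z * s))
      (Complex.I * τ) := by
    apply hd.differentiableAt
    apply IsOpen.mem_nhds
    · exact (isOpen_lt continuous_const Complex.continuous_re).inter
        (isOpen_lt Complex.continuous_re continuous_const)
    · show m < _ ∧ _ < 0
      simp only [Complex.mul_re, Complex.I_re, zero_mul, Complex.I_im, one_mul, zero_sub]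
      rw [hm]
      constructor <;> linarith
  have h2 : Phi φ x = fun τ => (fun z : ℂ => ∫ s, (Ioi (-x)).indicator φ s * Complex.exp (z * s))
      (Complex.I * τ) := by
    ext τ
    exact PhiB.phi_eq φ x τ
  rw [h2]
  apply DifferentiableAt.differentiableWithinAt
  exact h1.comp τ (by fun_prop)

theorem Phi_continuousOn (φ : ℝ → ℂ) (hφ : Integrable φ) (x : ℝ) :
    ContinuousOn (Phi φ x) {τ | 0 ≤ τ.im} := by
  intro τ hτ
  have hτ' : 0 ≤ τ.im := hτ
  set m : ℝ := -(τ.im + 1) with hm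
  obtain ⟨-, hc, -, -⟩ := laplace_strip ((Ioi (-x)).indicator φ)
    (hφ.indicator measurableSet_Ioi).aestronglyMeasurable m 0 (by rw [hm]; linarith)
    (PhiB.int_exp φ hφ x m (by rw [hm]; linarith)) (PhiB.int_exp φ hφ x 0 le_rfl)
  have h2 : Phi φ x = fun τ => (fun z : ℂ => ∫ s, (Ioi (-x)).indicator φ s * Complex.exp (z * s))
      (Complex.I * τ) := by
    ext τ
    exact PhiB.phi_eq φ x τ
  rw [h2]
  have h3 : ContinuousOn (fun τ => (fun z : ℂ => ∫ s, (Ioi (-x)).indicator φ s *
      Complex.exp (z * s)) (Complex.I * τ)) {τ | 0 ≤ τ.im ∧ τ.im ≤ -m} := by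
    apply hc.comp (by fun_prop)
    intro w hw
    show m ≤ _ ∧ _ ≤ 0
    simp only [Complex.mul_re, Complex.I_re, zero_mul, Complex.I_im, one_mul, zero_sub]
    constructor <;> linarith [hw.1, hw.2]
  have h4 : ContinuousWithinAt (fun τ => (fun z : ℂ => ∫ s, (Ioi (-x)).indicator φ s *
      Complex.exp (z * s)) (Complex.I * τ)) ({τ | 0 ≤ τ.im} ∩ {τ | τ.im < -m}) τ := by
    apply (h3 τ ⟨hτ', by rw [hm]; linarith⟩).mono
    intro w hw
    exact ⟨hw.1, le_of_lt hw.2⟩
  rwa [continuousWithinAt_inter] at h4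
  apply (isOpen_lt Complex.continuous_im continuous_const).mem_nhds
  show τ.im < -m
  rw [hm]; linarith

end Pool.Agent.Domar
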