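import Pool.Agent.Lib.MP_af79d0_an.Defs
set_option autoImplicit false
open MeasureTheory Filter Topology Set
namespace Pool.Agent.Domar

namespace PhiIntAux

/-- the sheared product `(x,y) ↦ u y * v (x - y)` of two integrable functions is integrable -/
theorem shear_right (u v : ℝ → ℝ) (hu : Integrable u) (hv : Integrable v) :
    Integrable (fun p : ℝ × ℝ => u p.2 * v (p.1 - p.2)) (volume.prod volume) := by
  have h := hu.convolution_integrand (ContinuousLinearMap.mul ℝ ℝ) hv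
  exact h

/-- the sheared product `(x,y) ↦ u x * v (x - y)` of two integrable functions is integrable -/
theorem shear_left (u v : ℝ → ℝ) (hu : Integrable u) (hv : Integrable v) :
    Integrable (fun p : ℝ × ℝ => u p.1 * v (p.1 - p.2)) (volume.prod volume) := by
  have h := shear_right u (fun s => v (-s)) hu hv.comp_neg
  have h2 := h.swap
  refine h2.congr (Eventually.of_forall fun p => ?_)
  simp only [Function.comp_apply, Prod.snd_swap, Prod.fst_swap]
  rw [neg_sub]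

theorem kappa_int (κ : ℝ → ℂ) (hκ : Continuous κ) (a b : ℝ)
    (hsupp : ∀ s, s ∉ Icc a b → κ s = 0) : Integrable (fun s => ‖κ s‖) := by
  refine (hκ.integrable_of_hasCompactSupport ?_).norm
  exact HasCompactSupport.intro isCompact_Icc hsupp

/-- domination -/
theorem exists_dom (W : ℝ → ℝ) (f h : ℝ → ℂ) (ho : Ori1 W f h ∨ Ori2 W f h)
    (κ : ℝ → ℂ) (hκ : Continuous κ) (a b : ℝ) (hsupp : ∀ s, s ∉ Icc a b → κ s = 0) :
    ∃ G : ℝ × ℝ → ℝ, Integrable G (volume.prod volume) ∧ (∀ p, 0 ≤ G p) ∧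
      (∀ x y, κ (x - y) = 0 → G (x, y) = 0) ∧
      ∀ x y, ‖h x‖ * ‖f y‖ * ‖κ (x - y)‖ ≤ Real.exp (W x - W y) * G (x, y) := by
  have hk := kappa_int κ hκ a b hsupp
  rcases ho with ho | ho
  · obtain ⟨M, hM⟩ := ho.hbd
    refine ⟨fun p => |M| * ((‖f p.2‖ * Real.exp (W p.2)) * ‖κ (p.1 - p.2)‖), ?_, ?_, ?_, ?_⟩
    · exact (shear_right _ _ ho.fint hk).const_mul _
    · intro p; positivity
    · intro x y hxy; simp [hxy]
    · intro x y
      have h1 : ‖h x‖ ≤ |M| * Real.exp (W x) :=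
        (hM x).trans (mul_le_mul_of_nonneg_right (le_abs_self M) (Real.exp_pos _).le)
      have h2 : Real.exp (W x - W y) * Real.exp (W y) = Real.exp (W x) := by
        rw [← Real.exp_add]; congr 1; ring
      calc ‖h x‖ * ‖f y‖ * ‖κ (x - y)‖ ≤ (|M| * Real.exp (W x)) * ‖f y‖ * ‖κ (x - y)‖ := by
            gcongr
        _ = (|M| * (Real.exp (W x - W y) * Real.exp (W y))) * ‖f y‖ * ‖κ (x - y)‖ := by rw [h2]
        _ = _ := by ring
  · obtain ⟨M, hM⟩ := ho.fbd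
    refine ⟨fun p => |M| * ((‖h p.1‖ * Real.exp (-W p.1)) * ‖κ (p.1 - p.2)‖), ?_, ?_, ?_, ?_⟩
    · exact (shear_left _ _ ho.hint hk).const_mul _
    · intro p; positivity
    · intro x y hxy; simp [hxy]
    · intro x y
      have h1 : ‖f y‖ ≤ |M| * Real.exp (-W y) :=
        (hM y).trans (mul_le_mul_of_nonneg_right (le_abs_self M) (Real.exp_pos _).le)
      have h2 : Real.exp (W x - W y) * Real.exp (-W x) = Real.exp (-W y) := by
        rw [← Real.exp_add]; congr 1; ring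
      calc ‖h x‖ * ‖f y‖ * ‖κ (x - y)‖ ≤ ‖h x‖ * (|M| * Real.exp (-W y)) * ‖κ (x - y)‖ := by
            gcongr
        _ = ‖h x‖ * (|M| * (Real.exp (W x - W y) * Real.exp (-W x))) * ‖κ (x - y)‖ := by rw [h2]
        _ = _ := by ring

theorem meas_Q (f h : ℝ → ℂ) (hf : Measurable f) (hh : Measurable h)
    (κ : ℝ → ℂ) (hκ : Continuous κ) :
    Measurable (fun p : ℝ × ℝ => h p.1 * (f p.2 * κ (p.1 - p.2))) := by
  have h1 : Measurable fun p : ℝ × ℝ => κ (p.1 - p.2) :=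
    hκ.measurable.comp (measurable_fst.sub measurable_snd)
  exact (hh.comp measurable_fst).mul ((hf.comp measurable_snd).mul h1)

theorem meas_fh (W : ℝ → ℝ) (f h : ℝ → ℂ) (ho : Ori1 W f h ∨ Ori2 W f h) :
    Measurable f ∧ Measurable h := by
  rcases ho with ho | ho
  · exact ⟨ho.fm, ho.hm⟩
  · exact ⟨ho.fm, ho.hm⟩

/-- slope estimate for the convex part of `W` -/
theorem slope_le (W : ℝ → ℝ) (hW : NW W) (a x s y : ℝ) (ha : 0 < a) (hx : 0 < x)
    (hs : s ≤ -x) (hy : a ≤ s - y) : W s - W y ≤ -(a * (W (-x) / x)) := by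
  have hys : y < s := by linarith
  have h0 : (0:ℝ) ∈ Iic (0:ℝ) := self_mem_Iic
  have hyI : y ∈ Iic (0:ℝ) := by simp only [mem_Iic]; linarith
  have hsI : s ∈ Iic (0:ℝ) := by simp only [mem_Iic]; linarith
  have hslope : (W s - W y) / (s - y) ≤ (W 0 - W (-x)) / (0 - -x) := by
    rcases eq_or_lt_of_le hs with hs | hs
    · subst hs
      exact hW.cvx.slope_mono_adjacent hyI h0 hys (by linarith)
    · have h1 := hW.cvx.slope_mono_adjacent hyI (show -x ∈ Iic (0:ℝ) by simp only [mem_Iic]; linarith)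
        hys hs
      have h2 := hW.cvx.slope_mono_adjacent hsI h0 hs (by linarith)
      exact h1.trans h2
  have hW0 : 0 ≤ W (-x) := by
    rw [← hW.zero]; exact hW.anti (by linarith)
  rw [hW.zero] at hslope
  have h3 : (0 - W (-x)) / (0 - -x) = -(W (-x) / x) := by
    rw [zero_sub, zero_sub, neg_neg, neg_div]
  rw [h3, div_le_iff₀ (by linarith)] at hslope
  have h4 : 0 ≤ W (-x) / x := div_nonneg hW0 hx.le
  have h5 : a * (W (-x) / x) ≤ (s - y) * (W (-x) / x) := mul_le_mul_of_nonneg_right hy h4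
  linarith

end PhiIntAux

open PhiIntAux in
/-- integrability of the iterated kernel -/
theorem q_integrable (W : ℝ → ℝ) (hW : NW W) (f h : ℝ → ℂ) (ho : Ori1 W f h ∨ Ori2 W f h)
    (κ : ℝ → ℂ) (hκ : ContDiff ℝ 2 κ) (a b : ℝ) (ha : 0 < a)
    (hsupp : ∀ s, s ∉ Icc a b → κ s = 0) :
    Integrable (fun p : ℝ × ℝ => h p.1 * (f p.2 * κ (p.1 - p.2))) (volume.prod volume) := by
  obtain ⟨G, hG, hG0, hGz, hGb⟩ := exists_dom W f h ho κ hκ.continuous a b hsupp
  obtain ⟨hf, hh⟩ := meas_fh W f h ho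
  refine hG.mono' (meas_Q f h hf hh κ hκ.continuous).aestronglyMeasurable
    (Eventually.of_forall fun p => ?_)
  obtain ⟨x, y⟩ := p
  have h1 : ‖h x * (f y * κ (x - y))‖ = ‖h x‖ * ‖f y‖ * ‖κ (x - y)‖ := by
    rw [norm_mul, norm_mul]; ring
  show ‖h x * (f y * κ (x - y))‖ ≤ G (x, y)
  rw [h1]
  by_cases hxy : κ (x - y) = 0
  · rw [hxy, norm_zero, mul_zero]; exact hG0 _
  · have hm : x - y ∈ Icc a b := by
      by_contra hc; exact hxy (hsupp _ hc)
    have h2 : W x ≤ W y := hW.anti (by linarith [hm.1])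
    have h3 : Real.exp (W x - W y) ≤ 1 := by
      rw [Real.exp_le_one_iff]; linarith
    calc ‖h x‖ * ‖f y‖ * ‖κ (x - y)‖ ≤ Real.exp (W x - W y) * G (x, y) := hGb x y
      _ ≤ 1 * G (x, y) := mul_le_mul_of_nonneg_right h3 (hG0 _)
      _ = G (x, y) := one_mul _

open PhiIntAux in
/-- integrability of the iterated kernel, norm form -/
theorem q_integrable_norm (W : ℝ → ℝ) (hW : NW W) (f h : ℝ → ℂ) (ho : Ori1 W f h ∨ Ori2 W f h)
    (κ : ℝ → ℂ) (hκ : ContDiff ℝ 2 κ) (a b : ℝ) (ha : 0 < a)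
    (hsupp : ∀ s, s ∉ Icc a b → κ s = 0) :
    Integrable (fun p : ℝ × ℝ => ‖h p.1‖ * ‖f p.2‖ * ‖κ (p.1 - p.2)‖) (volume.prod volume) := by
  refine (q_integrable W hW f h ho κ hκ a b ha hsupp).norm.congr (Eventually.of_forall fun p => ?_)
  simp only [norm_mul]
  ring

open PhiIntAux in
/-- the kernel bound on sets on which `W x - W y ≤ -q` -/
theorem q_bound (W : ℝ → ℝ) (hW : NW W) (f h : ℝ → ℂ) (ho : Ori1 W f h ∨ Ori2 W f h)
    (κ : ℝ → ℂ) (hκ : ContDiff ℝ 2 κ) (a b : ℝ) (ha : 0 < a)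
    (hsupp : ∀ s, s ∉ Icc a b → κ s = 0) :
    Integrable (fun x => ∫ y, ‖h x‖ * ‖f y‖ * ‖κ (x - y)‖) ∧
    ∃ C : ℝ, 0 ≤ C ∧ ∀ E : Set ℝ, MeasurableSet E → ∀ q : ℝ,
      (∀ x ∈ E, ∀ y, a ≤ x - y → x - y ≤ b → W x - W y ≤ -q) →
      ∫ x in E, ∫ y, ‖h x‖ * ‖f y‖ * ‖κ (x - y)‖ ≤ C * Real.exp (-q) := by
  have hQ := q_integrable_norm W hW f h ho κ hκ a b ha hsupp
  have hQi : Integrable (fun x => ∫ y, ‖h x‖ * ‖f y‖ * ‖κ (x - y)‖) := hQ.integral_prod_left
  refine ⟨hQi, ?_⟩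
  obtain ⟨G, hG, hG0, hGz, hGb⟩ := exists_dom W f h ho κ hκ.continuous a b hsupp
  refine ⟨∫ x, ∫ y, G (x, y), ?_, ?_⟩
  · exact integral_nonneg fun x => integral_nonneg fun y => hG0 _
  intro E hE q hq
  have hpt : ∀ x ∈ E, ∀ y, ‖h x‖ * ‖f y‖ * ‖κ (x - y)‖ ≤ Real.exp (-q) * G (x, y) := by
    intro x hx y
    by_cases hxy : κ (x - y) = 0
    · rw [hxy, norm_zero, mul_zero]; exact mul_nonneg (Real.exp_pos _).le (hG0 _)
    · have hm : x - y ∈ Icc a b := by
        by_contra hc; exact hxy (hsupp _ hc)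
      have h2 : W x - W y ≤ -q := hq x hx y hm.1 hm.2
      calc ‖h x‖ * ‖f y‖ * ‖κ (x - y)‖ ≤ Real.exp (W x - W y) * G (x, y) := hGb x y
        _ ≤ Real.exp (-q) * G (x, y) :=
          mul_le_mul_of_nonneg_right (Real.exp_le_exp.mpr h2) (hG0 _)
  have hGi : Integrable (fun x => ∫ y, G (x, y)) := hG.integral_prod_left
  have hae1 : ∀ᵐ x : ℝ, Integrable (fun y => G (x, y)) := hG.prod_right_ae
  have hae2 : ∀ᵐ x : ℝ, Integrable (fun y => ‖h x‖ * ‖f y‖ * ‖κ (x - y)‖) := hQ.prod_right_ae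
  have step1 : ∫ x in E, ∫ y, ‖h x‖ * ‖f y‖ * ‖κ (x - y)‖ ≤
      ∫ x in E, Real.exp (-q) * ∫ y, G (x, y) := by
    refine setIntegral_mono_on_ae hQi.integrableOn (hGi.const_mul _).integrableOn hE ?_
    filter_upwards [hae1, hae2] with x hx1 hx2 hxE
    rw [← integral_const_mul]
    exact integral_mono hx2 (hx1.const_mul _) (fun y => hpt x hxE y)
  have step2 : ∫ x in E, Real.exp (-q) * ∫ y, G (x, y) ≤
      ∫ x, Real.exp (-q) * ∫ y, G (x, y) := by
    refine setIntegral_le_integral (hGi.const_mul _) (Eventually.of_forall fun x => ?_)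
    exact mul_nonneg (Real.exp_pos _).le (integral_nonneg fun y => hG0 _)
  have step3 : ∫ x, Real.exp (-q) * ∫ y, G (x, y) = Real.exp (-q) * ∫ x, ∫ y, G (x, y) :=
    integral_const_mul _ _
  rw [step3] at step2
  calc _ ≤ _ := step1
    _ ≤ _ := step2
    _ = _ := mul_comm _ _

open PhiIntAux in
theorem phi_integrable (W : ℝ → ℝ) (hW : NW W) (f h : ℝ → ℂ) (ho : Ori1 W f h ∨ Ori2 W f h)
    (κ : ℝ → ℂ) (hκ : ContDiff ℝ 2 κ) (a b : ℝ) (ha : 0 < a) (hab : a ≤ b)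
    (hsupp : ∀ s, s ∉ Icc a b → κ s = 0) :
    Integrable (fun x => h x * ∫ y, f y * κ (x - y)) ∧
    ∃ C : ℝ, ∀ x, 0 < x → ∫ s in Iic (-x), ‖h s * ∫ y, f y * κ (s - y)‖
      ≤ C * Real.exp (-(a * (W (-x) / x))) := by
  have hI := q_integrable W hW f h ho κ hκ a b ha hsupp
  have hI1 : Integrable (fun x => h x * ∫ y, f y * κ (x - y)) := by
    have := hI.integral_prod_left
    refine this.congr (Eventually.of_forall fun x => ?_)
    exact integral_const_mul (h x) (fun y => f y * κ (x - y))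
  refine ⟨hI1, ?_⟩
  obtain ⟨hQi, C, hC0, hC⟩ := q_bound W hW f h ho κ hκ a b ha hsupp
  refine ⟨C, fun x hx => ?_⟩
  have h1 := hC (Iic (-x)) measurableSet_Iic (a * (W (-x) / x))
    (fun s hs y hy _ => slope_le W hW a x s y ha hx hs hy)
  refine le_trans ?_ h1
  refine setIntegral_mono hI1.norm.integrableOn hQi.integrableOn (fun s => ?_)
  have h2 : h s * ∫ y, f y * κ (s - y) = ∫ y, h s * (f y * κ (s - y)) :=
    (integral_const_mul _ _).symm
  show ‖h s * ∫ y, f y * κ (s - y)‖ ≤ _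
  rw [h2]
  refine (norm_integral_le_integral_norm _).trans (le_of_eq ?_)
  congr 1
  funext y
  rw [norm_mul, norm_mul]; ring

end Pool.Agent.Domar
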