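import Pool.Agent.Lib.MP_af79d0_an.Defs

set_option autoImplicit false
open MeasureTheory Filter Topology Set
open scoped FourierTransform SchwartzMap

namespace Pool.Agent.Domar

namespace PL

theorem fourier_flip (b : ℝ → ℂ) (h1 : Integrable b) (g : 𝓢(ℝ, ℂ)) :
    ∫ x, g x • (𝓕 b) x = ∫ x, (𝓕 g) x • b x := by
  have h := VectorFourier.integral_fourierIntegral_smul_eq_flip (L := innerₗ ℝ)
      (μ := volume) (ν := volume) Real.continuous_fourierChar continuous_inner
      (g.integrable (μ := volume)) h1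
  have e1 : ∀ x, VectorFourier.fourierIntegral Real.fourierChar volume (innerₗ ℝ) (⇑g) x
      = (𝓕 g) x := by
    intro x
    rw [SchwartzMap.fourier_coe]
    rfl
  have e2 : ∀ x, VectorFourier.fourierIntegral Real.fourierChar volume (innerₗ ℝ).flip b x
      = (𝓕 b) x := by
    intro x
    simp [VectorFourier.fourierIntegral, Real.fourier_eq]
  simp only [e1, e2] at h
  exact h.symm

theorem fourier_ae (b : ℝ → ℂ) (h1 : Integrable b) (h2 : MemLp b 2) :
    (𝓕 b) =ᵐ[volume] (𝓕 (h2.toLp b) : Lp ℂ 2 (volume : Measure ℝ)) := by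
  have hcont : Continuous (𝓕 b) :=
    VectorFourier.fourierIntegral_continuous Real.continuous_fourierChar continuous_inner h1
  apply ae_eq_of_integral_contDiff_smul_eq
  · exact hcont.locallyIntegrable
  · exact (Lp.memLp _).locallyIntegrable (by norm_num)
  · intro g hg1 hg2
    have hg₁ : HasCompactSupport (Complex.ofRealCLM ∘ g) := hg2.comp_left rfl
    have hg₂ : ContDiff ℝ (⊤ : ℕ∞) (Complex.ofRealCLM ∘ g) := by fun_prop
    set G : 𝓢(ℝ, ℂ) := hg₁.toSchwartzMap hg₂ with hG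
    have hGg : ∀ x, G x = (g x : ℂ) := fun x => rfl
    have e1 := fourier_flip b h1 G
    have e2 : (𝓕 ((h2.toLp b : Lp ℂ 2 (volume : Measure ℝ)) : 𝓢'(ℝ, ℂ))) G
        = ((𝓕 (h2.toLp b) : Lp ℂ 2 (volume : Measure ℝ)) : 𝓢'(ℝ, ℂ)) G := by
      rw [Lp.fourier_toTemperedDistribution_eq]
    rw [TemperedDistribution.fourier_apply, Lp.toTemperedDistribution_apply,
      Lp.toTemperedDistribution_apply] at e2
    have e3 : ∫ x, (𝓕 G) x • (h2.toLp b) x = ∫ x, (𝓕 G) x • b x := by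
      apply integral_congr_ae
      filter_upwards [h2.coeFn_toLp] with x hx
      rw [hx]
    rw [e3, ← e1] at e2
    simpa [hGg] using e2

end PL

theorem plancherel (b : ℝ → ℂ) (h1 : Integrable b) (h2 : MemLp b 2) :
    ∫⁻ t : ℝ, ‖∫ s, b s * Complex.exp (Complex.I * t * s)‖ₑ ^ 2
      = ENNReal.ofReal (2 * Real.pi) * ∫⁻ s, ‖b s‖ₑ ^ 2 := by
  have hpi : (0 : ℝ) < 2 * Real.pi := by positivity
  -- Plancherel for `𝓕`
  have hP : ∫⁻ ξ : ℝ, ‖(𝓕 b) ξ‖ₑ ^ 2 = ∫⁻ s, ‖b s‖ₑ ^ 2 := by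
    have e1 : ‖(𝓕 (h2.toLp b) : Lp ℂ 2 (volume : Measure ℝ))‖ₑ = ‖h2.toLp b‖ₑ := by
      have := Lp.norm_fourier_eq (h2.toLp b)
      rw [← ofReal_norm, ← ofReal_norm, this]
    rw [Lp.enorm_def, Lp.enorm_def] at e1
    rw [eLpNorm_congr_ae (PL.fourier_ae b h1 h2).symm, eLpNorm_congr_ae h2.coeFn_toLp] at e1
    rw [eLpNorm_eq_lintegral_rpow_enorm_toReal (by norm_num) (by norm_num),
      eLpNorm_eq_lintegral_rpow_enorm_toReal (by norm_num) (by norm_num)] at e1
    have e2 := congrArg (fun u : ENNReal => u ^ (2 : ℝ)) e1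
    simp only [ENNReal.toReal_ofNat] at e2
    rw [← ENNReal.rpow_mul, ← ENNReal.rpow_mul] at e2
    norm_num at e2
    exact e2
  -- relation of the two transforms
  have hF : ∀ t : ℝ, ∫ s, b s * Complex.exp (Complex.I * t * s) = (𝓕 b) (-(t / (2 * Real.pi))) := by
    intro t
    rw [Real.fourier_real_eq_integral_exp_smul]
    apply integral_congr_ae
    filter_upwards with s
    rw [smul_eq_mul, mul_comm]
    congr 2
    push_cast
    field_simp
  simp only [hF]
  rw [← hP]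
  have hcont : Continuous (𝓕 b) :=
    VectorFourier.fourierIntegral_continuous Real.continuous_fourierChar continuous_inner h1
  have ha : (-(1 / (2 * Real.pi)) : ℝ) ≠ 0 := by
    rw [neg_ne_zero]; positivity
  have hmap := Real.map_volume_mul_left ha
  have hm : Measurable fun ξ : ℝ => ‖(𝓕 b) ξ‖ₑ ^ 2 := (hcont.enorm.measurable).pow_const 2
  have e1 : ∫⁻ t : ℝ, ‖(𝓕 b) (-(t / (2 * Real.pi)))‖ₑ ^ 2
      = ∫⁻ ξ, ‖(𝓕 b) ξ‖ₑ ^ 2 ∂(Measure.map (fun x => -(1 / (2 * Real.pi)) * x) volume) := by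
    rw [lintegral_map hm (measurable_const_mul _)]
    apply lintegral_congr
    intro t
    rw [show -(t / (2 * Real.pi)) = -(1 / (2 * Real.pi)) * t by ring]
  rw [e1, hmap, lintegral_smul_measure]
  congr 2
  rw [inv_neg, abs_neg, one_div, inv_inv, abs_of_pos hpi]

end Pool.Agent.Domar
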