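import Pool.Agent.Lib.MP_af79d0_an.Defs

set_option autoImplicit false
open MeasureTheory Filter Topology Set
open scoped FourierTransform

namespace Pool.Agent.Domar

namespace FI

theorem supp_deriv (ρ : ℝ → ℂ) (a b : ℝ) (h : ∀ s, s ∉ Icc a b → ρ s = 0) :
    ∀ s, s ∉ Icc a b → deriv ρ s = 0 := by
  intro s hs
  have h1 : ρ =ᶠ[𝓝 s] fun _ => (0 : ℂ) := by
    filter_upwards [isClosed_Icc.isOpen_compl.mem_nhds hs] with u hu
    exact h u hu
  rw [h1.deriv_eq]
  simp

theorem cs (ρ : ℝ → ℂ) (a b : ℝ) (h : ∀ s, s ∉ Icc a b → ρ s = 0) : HasCompactSupport ρ :=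
  HasCompactSupport.intro isCompact_Icc h

theorem int_exp (ρ : ℝ → ℂ) (hρ : Continuous ρ) (a b : ℝ) (h : ∀ s, s ∉ Icc a b → ρ s = 0)
    (z : ℂ) : Integrable (fun s : ℝ => ρ s * Complex.exp (-(z * s))) := by
  apply Continuous.integrable_of_hasCompactSupport
  · fun_prop
  · exact (cs ρ a b h).mul_right

theorem exp_bound (σ a b s : ℝ) (hs : s ∈ Icc a b) :
    Real.exp (-(σ * s)) ≤ Real.exp (-(σ * a)) + Real.exp (-(σ * b)) := by
  rcases le_total 0 σ with hσ | hσ
  · have : Real.exp (-(σ * s)) ≤ Real.exp (-(σ * a)) := by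
      apply Real.exp_le_exp.mpr; nlinarith [hs.1]
    linarith [Real.exp_pos (-(σ * b))]
  · have : Real.exp (-(σ * s)) ≤ Real.exp (-(σ * b)) := by
      apply Real.exp_le_exp.mpr; nlinarith [hs.2]
    linarith [Real.exp_pos (-(σ * a))]

theorem bound (ρ : ℝ → ℂ) (hρ : Continuous ρ) (a b : ℝ) (h : ∀ s, s ∉ Icc a b → ρ s = 0)
    (z : ℂ) : ‖∫ s : ℝ, ρ s * Complex.exp (-(z * s))‖ ≤
      (∫ s, ‖ρ s‖) * (Real.exp (-(z.re * a)) + Real.exp (-(z.re * b))) := by
  have hint : Integrable ρ := hρ.integrable_of_hasCompactSupport (cs ρ a b h)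
  rw [← integral_mul_const]
  apply norm_integral_le_of_norm_le (hint.norm.mul_const _)
  filter_upwards with s
  rw [norm_mul, Complex.norm_exp]
  by_cases hs : s ∈ Icc a b
  · have e : (-(z * (s : ℂ))).re = -(z.re * s) := by simp
    rw [e]
    gcongr
    exact exp_bound _ _ _ _ hs
  · rw [h s hs]; simp

theorem ibp (ρ : ℝ → ℂ) (hρ : ContDiff ℝ 1 ρ) (a b : ℝ) (h : ∀ s, s ∉ Icc a b → ρ s = 0) (z : ℂ) :
    ∫ s : ℝ, deriv ρ s * Complex.exp (-(z * s)) = z * ∫ s : ℝ, ρ s * Complex.exp (-(z * s)) := by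
  have hd : ∀ s : ℝ, HasDerivAt (fun s : ℝ => ρ s * Complex.exp (-(z * s)))
      (deriv ρ s * Complex.exp (-(z * s)) - z * (ρ s * Complex.exp (-(z * s)))) s := by
    intro s
    have h1 : HasDerivAt ρ (deriv ρ s) s := (hρ.differentiable (by norm_num) s).hasDerivAt
    have h2 : HasDerivAt (fun s : ℝ => Complex.exp (-(z * s))) (Complex.exp (-(z * s)) * (-(z * 1))) s := by
      apply HasDerivAt.cexp
      apply HasDerivAt.neg
      exact (Complex.ofRealCLM.hasDerivAt (x := s)).const_mul z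
    have h3 := h1.mul h2
    refine h3.congr_deriv ?_
    ring
  have hcd : Continuous (deriv ρ) := hρ.continuous_deriv (by norm_num)
  have i1 := int_exp (deriv ρ) hcd a b (supp_deriv ρ a b h) z
  have i2 := int_exp ρ hρ.continuous a b h z
  have hz := integral_eq_zero_of_hasDerivAt_of_integrable hd (i1.sub (i2.const_mul z)) i2
  rw [integral_sub i1 (i2.const_mul z), integral_const_mul] at hz
  exact sub_eq_zero.mp hz

end FI

theorem fourier_shift (κ : ℝ → ℂ) (hκ : ContDiff ℝ 2 κ) (a b : ℝ) (hab : a ≤ b)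
    (hsupp : ∀ s, s ∉ Icc a b → κ s = 0) :
    ∃ K : ℝ, 0 ≤ K ∧ ∀ σ : ℝ,
      Continuous (fun t : ℝ => ∫ s, κ s * Complex.exp (-((σ + Complex.I * t) * s))) ∧
      (∀ t : ℝ, ‖∫ s, κ s * Complex.exp (-((σ + Complex.I * t) * s))‖
        ≤ K * (Real.exp (-(σ * a)) + Real.exp (-(σ * b)))) ∧
      (∀ t : ℝ, (σ ^ 2 + t ^ 2) * ‖∫ s, κ s * Complex.exp (-((σ + Complex.I * t) * s))‖
        ≤ K * (Real.exp (-(σ * a)) + Real.exp (-(σ * b)))) ∧
      Integrable (fun t : ℝ => ∫ s, κ s * Complex.exp (-((σ + Complex.I * t) * s))) ∧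
      (∀ s : ℝ, κ s * (Real.exp (-(σ * s)) : ℂ) = (1 / (2 * Real.pi) : ℂ) *
        ∫ t : ℝ, (∫ r, κ r * Complex.exp (-((σ + Complex.I * t) * r))) *
          Complex.exp (Complex.I * t * s)) := by
  have hκ1 : ContDiff ℝ 1 (deriv κ) := by
    have : ContDiff ℝ (1 + 1) κ := by simpa [one_add_one_eq_two] using hκ
    exact (contDiff_succ_iff_deriv.mp this).2.2
  have hκ0 : ContDiff ℝ 1 κ := hκ.of_le (by norm_num)
  have hdd : Continuous (deriv (deriv κ)) := hκ1.continuous_deriv (by norm_num)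
  have hs1 := FI.supp_deriv κ a b hsupp
  have hs2 := FI.supp_deriv (deriv κ) a b hs1
  set N0 : ℝ := ∫ s, ‖κ s‖ with hN0
  set N2 : ℝ := ∫ s, ‖deriv (deriv κ) s‖ with hN2
  have hN0n : 0 ≤ N0 := integral_nonneg fun _ => norm_nonneg _
  have hN2n : 0 ≤ N2 := integral_nonneg fun _ => norm_nonneg _
  refine ⟨N0 + N2, by positivity, fun σ => ?_⟩
  set E : ℝ := Real.exp (-(σ * a)) + Real.exp (-(σ * b)) with hE
  have hEpos : 0 < E := by positivity
  set U : ℝ → ℂ := fun t : ℝ => ∫ s, κ s * Complex.exp (-((σ + Complex.I * t) * s)) with hU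
  have hre : ∀ t : ℝ, ((σ : ℂ) + Complex.I * t).re = σ := by intro t; simp
  have him : ∀ t : ℝ, ((σ : ℂ) + Complex.I * t).im = t := by intro t; simp
  have hb0 : ∀ t : ℝ, ‖U t‖ ≤ (N0 + N2) * E := by
    intro t
    have := FI.bound κ hκ.continuous a b hsupp ((σ : ℂ) + Complex.I * t)
    rw [hre] at this
    calc ‖U t‖ ≤ N0 * E := this
      _ ≤ (N0 + N2) * E := by gcongr; linarith
  have hb2 : ∀ t : ℝ, (σ ^ 2 + t ^ 2) * ‖U t‖ ≤ (N0 + N2) * E := by
    intro t
    set z : ℂ := (σ : ℂ) + Complex.I * t with hz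
    have e1 := FI.ibp κ hκ0 a b hsupp z
    have e2 := FI.ibp (deriv κ) hκ1 a b hs1 z
    have hb := FI.bound (deriv (deriv κ)) hdd a b hs2 z
    rw [e2, e1, hre, norm_mul, norm_mul, ← mul_assoc] at hb
    have hn : ‖z‖ * ‖z‖ = σ ^ 2 + t ^ 2 := by
      rw [← sq, Complex.sq_norm, Complex.normSq_apply, hre, him]; ring
    rw [hn] at hb
    calc (σ ^ 2 + t ^ 2) * ‖U t‖ ≤ N2 * E := hb
      _ ≤ (N0 + N2) * E := by gcongr; linarith
  -- Fourier transform
  set k : ℝ → ℂ := fun s => κ s * (Real.exp (-(σ * s)) : ℂ) with hk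
  have hkc : Continuous k := by
    have := hκ.continuous
    fun_prop
  have hkint : Integrable k := hkc.integrable_of_hasCompactSupport (FI.cs κ a b hsupp).mul_right
  have hUF : ∀ t : ℝ, U t = (𝓕 k) (t / (2 * Real.pi)) := by
    intro t
    rw [Real.fourier_real_eq_integral_exp_smul]
    apply integral_congr_ae
    filter_upwards with s
    rw [hk, smul_eq_mul]
    simp only
    rw [Complex.ofReal_exp, mul_left_comm, ← Complex.exp_add]
    congr 2
    have : (Real.pi : ℂ) ≠ 0 := by exact_mod_cast Real.pi_ne_zero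
    push_cast
    field_simp
    ring
  have hFc : Continuous (𝓕 k) :=
    VectorFourier.fourierIntegral_continuous Real.continuous_fourierChar continuous_inner hkint
  have hUc : Continuous U := by
    have : U = fun t => (𝓕 k) (t / (2 * Real.pi)) := funext hUF
    rw [this]
    exact hFc.comp (continuous_id.div_const _)
  have hUint : Integrable U := by
    apply Integrable.mono' ((integrable_inv_one_add_sq).const_mul (2 * ((N0 + N2) * E)))
      hUc.aestronglyMeasurable
    filter_upwards with t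
    have h1 := hb0 t
    have h2 := hb2 t
    rw [← div_eq_mul_inv, le_div_iff₀ (by positivity)]
    nlinarith [sq_nonneg σ, norm_nonneg (U t), mul_nonneg (sq_nonneg σ) (norm_nonneg (U t))]
  refine ⟨hUc, hb0, hb2, hUint, fun s => ?_⟩
  have hpi : (0 : ℝ) < 2 * Real.pi := by positivity
  have hFint : Integrable (𝓕 k) := by
    have h1 : Integrable (fun t => (𝓕 k) (t / (2 * Real.pi))) := by
      have : U = fun t => (𝓕 k) (t / (2 * Real.pi)) := funext hUF
      rw [← this]; exact hUint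
    have h2 := h1.comp_mul_left' hpi.ne'
    refine h2.congr (ae_of_all _ fun t => ?_)
    simp only
    rw [mul_div_cancel_left₀ _ hpi.ne']
  have hinv : 𝓕⁻ (𝓕 k) s = k s := by
    rw [hkc.fourierInv_fourier_eq hkint hFint]
  change k s = _
  rw [← hinv, Real.fourierInv_eq']
  have hsub := Measure.integral_comp_div
    (fun ξ : ℝ => Complex.exp ((2 * Real.pi * ξ * s : ℝ) * Complex.I) * (𝓕 k) ξ) (2 * Real.pi)
  have e1 : ∫ t : ℝ, (∫ r, κ r * Complex.exp (-((σ + Complex.I * t) * r))) *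
          Complex.exp (Complex.I * t * s) =
      ∫ t : ℝ, Complex.exp ((2 * Real.pi * (t / (2 * Real.pi)) * s : ℝ) * Complex.I) *
        (𝓕 k) (t / (2 * Real.pi)) := by
    apply integral_congr_ae
    filter_upwards with t
    change U t * _ = _
    rw [hUF t, mul_comm]
    congr 2
    rw [mul_div_cancel₀ _ hpi.ne']
    push_cast
    ring
  rw [e1, hsub, abs_of_pos hpi, Complex.real_smul]
  push_cast
  have hpi' : (2 * (Real.pi : ℂ)) ≠ 0 := by
    exact_mod_cast hpi.ne'
  rw [← mul_assoc, one_div, inv_mul_cancel₀ hpi', one_mul]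
  apply integral_congr_ae
  filter_upwards with ξ
  simp [mul_comm, mul_assoc, mul_left_comm]

end Pool.Agent.Domar
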