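import Pool.Agent.Lib.MP_af79d0_an.Defs
import Pool.Agent.Lib.MP_af79d0_an.Laplace
import Pool.Agent.Lib.MP_af79d0_an.FourierShift

set_option autoImplicit false
open MeasureTheory Filter Topology Set

namespace Pool.Agent.Domar

namespace TL
open Complex.HadamardThreeLines

lemma isOpen_strip (l r : ℝ) : IsOpen {z : ℂ | l < z.re ∧ z.re < r} :=
  (isOpen_lt continuous_const Complex.continuous_re).inter
    (isOpen_lt Complex.continuous_re continuous_const)

lemma G_cont (l r : ℝ) (Ψ : ℂ → ℂ) (M : ℝ)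
    (hc : ContinuousOn Ψ {z | l ≤ z.re ∧ z.re ≤ r})
    (hb : ∀ z : ℂ, l ≤ z.re → z.re ≤ r → ‖Ψ z‖ ≤ M)
    (u : ℝ → ℂ) (hu : Integrable u) :
    ContinuousOn (fun z : ℂ => ∫ t : ℝ, Ψ (z + t * Complex.I) * u t)
      {z | l ≤ z.re ∧ z.re ≤ r} := by
  have hline : ∀ z ∈ {z : ℂ | l ≤ z.re ∧ z.re ≤ r}, ∀ t : ℝ,
      z + t * Complex.I ∈ {z : ℂ | l ≤ z.re ∧ z.re ≤ r} := by
    intro z hz t
    simpa using hz
  apply continuousOn_of_dominated (bound := fun t => M * ‖u t‖)
  · intro z hz
    apply AEStronglyMeasurable.mul _ hu.aestronglyMeasurable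
    apply Continuous.aestronglyMeasurable
    apply hc.comp_continuous (by fun_prop)
    intro t
    exact hline z hz t
  · intro z hz
    refine Eventually.of_forall (fun t => ?_)
    rw [norm_mul]
    have := hline z hz t
    exact mul_le_mul_of_nonneg_right (hb _ this.1 this.2) (norm_nonneg _)
  · exact hu.norm.const_mul M
  · refine Eventually.of_forall (fun t => ?_)
    apply ContinuousOn.mul _ continuousOn_const
    apply hc.comp (by fun_prop)
    intro z hz
    exact hline z hz t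

lemma G_diff (l r : ℝ) (Ψ : ℂ → ℂ) (M : ℝ) (hM : 0 ≤ M)
    (hd : DifferentiableOn ℂ Ψ {z | l < z.re ∧ z.re < r})
    (hb : ∀ z : ℂ, l ≤ z.re → z.re ≤ r → ‖Ψ z‖ ≤ M)
    (u : ℝ → ℂ) (hu : Integrable u) :
    DifferentiableOn ℂ (fun z : ℂ => ∫ t : ℝ, Ψ (z + t * Complex.I) * u t)
      {z | l < z.re ∧ z.re < r} := by
  intro z₀ hz₀
  have hopen := isOpen_strip l r
  set ρ : ℝ := min (z₀.re - l) (r - z₀.re) / 2 with hρ
  have hρ0 : 0 < ρ := by
    have : 0 < min (z₀.re - l) (r - z₀.re) := lt_min (by linarith [hz₀.1]) (by linarith [hz₀.2])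
    linarith
  have hρ1 : 2 * ρ ≤ z₀.re - l := by
    have := min_le_left (z₀.re - l) (r - z₀.re)
    linarith
  have hρ2 : 2 * ρ ≤ r - z₀.re := by
    have := min_le_right (z₀.re - l) (r - z₀.re)
    linarith
  -- points in ball of radius ρ have real part at distance > ρ from the boundary
  have hball : ∀ z ∈ Metric.ball z₀ ρ, ∀ t : ℝ, ∀ w ∈ Metric.closedBall (z + t * Complex.I) ρ,
      l < w.re ∧ w.re < r := by
    intro z hz t w hw
    have h1 : |z.re - z₀.re| < ρ := by
      have := Complex.abs_re_le_norm (z - z₀)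
      rw [Complex.sub_re] at this
      rw [Metric.mem_ball, dist_eq_norm] at hz
      linarith
    have h2 : |w.re - z.re| ≤ ρ := by
      have := Complex.abs_re_le_norm (w - (z + t * Complex.I))
      rw [Complex.sub_re] at this
      rw [Metric.mem_closedBall, dist_eq_norm] at hw
      simp only [Complex.add_re, Complex.mul_re, Complex.ofReal_re, Complex.I_re, mul_zero,
        Complex.ofReal_im, Complex.I_im, mul_one, sub_self, add_zero] at this
      linarith
    rw [abs_lt] at h1
    rw [abs_le] at h2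
    constructor <;> linarith
  have hzmem : ∀ z ∈ Metric.ball z₀ ρ, ∀ t : ℝ, l < (z + t * Complex.I).re ∧
      (z + t * Complex.I).re < r := by
    intro z hz t
    exact hball z hz t _ (Metric.mem_closedBall_self hρ0.le)
  have hcont : ContinuousOn Ψ {z | l < z.re ∧ z.re < r} := hd.continuousOn
  have hdc : ContinuousOn (deriv Ψ) {z | l < z.re ∧ z.re < r} :=
    (hd.deriv hopen).continuousOn
  have key := hasDerivAt_integral_of_dominated_loc_of_deriv_le (μ := (volume : Measure ℝ))
    (F := fun (z : ℂ) (t : ℝ) => Ψ (z + t * Complex.I) * u t)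
    (F' := fun (z : ℂ) (t : ℝ) => deriv Ψ (z + t * Complex.I) * u t)
    (x₀ := z₀) (s := Metric.ball z₀ ρ) (bound := fun t => M / ρ * ‖u t‖)
    (Metric.ball_mem_nhds z₀ hρ0) ?_ ?_ ?_ ?_ ?_ ?_
  · exact key.2.differentiableAt.differentiableWithinAt
  · filter_upwards [Metric.ball_mem_nhds z₀ hρ0] with z hz
    apply AEStronglyMeasurable.mul _ hu.aestronglyMeasurable
    apply Continuous.aestronglyMeasurable
    apply hcont.comp_continuous (by fun_prop)
    intro t
    exact hzmem z hz t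
  · refine (hu.norm.const_mul M).mono' ?_ ?_
    · apply AEStronglyMeasurable.mul _ hu.aestronglyMeasurable
      apply Continuous.aestronglyMeasurable
      apply hcont.comp_continuous (by fun_prop)
      intro t
      exact hzmem z₀ (Metric.mem_ball_self hρ0) t
    · refine Eventually.of_forall (fun t => ?_)
      rw [norm_mul]
      have := hzmem z₀ (Metric.mem_ball_self hρ0) t
      exact mul_le_mul_of_nonneg_right (hb _ this.1.le this.2.le) (norm_nonneg _)
  · apply AEStronglyMeasurable.mul _ hu.aestronglyMeasurable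
    apply Continuous.aestronglyMeasurable
    apply hdc.comp_continuous (by fun_prop)
    intro t
    exact hzmem z₀ (Metric.mem_ball_self hρ0) t
  · refine Eventually.of_forall (fun t z hz => ?_)
    rw [norm_mul]
    apply mul_le_mul_of_nonneg_right _ (norm_nonneg _)
    apply Complex.norm_deriv_le_of_forall_mem_sphere_norm_le hρ0
    · apply DifferentiableOn.diffContOnCl
      apply hd.mono
      intro w hw
      apply hball z hz t
      exact (closure_minimal Metric.ball_subset_closedBall Metric.isClosed_closedBall) hw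
    · intro w hw
      have := hball z hz t w (Metric.sphere_subset_closedBall hw)
      exact hb _ this.1.le this.2.le
  · exact hu.norm.const_mul _
  · refine Eventually.of_forall (fun t z hz => ?_)
    have h1 : HasDerivAt Ψ (deriv Ψ (z + t * Complex.I)) (z + t * Complex.I) :=
      (hd.differentiableAt (hopen.mem_nhds (hzmem z hz t))).hasDerivAt
    have h2 : HasDerivAt (fun z : ℂ => z + t * Complex.I) 1 z := by
      simpa using (hasDerivAt_id z).add_const (t * Complex.I)
    have h3 := h1.comp z h2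
    rw [mul_one] at h3
    exact h3.mul_const (u t)

lemma strip_test (l r : ℝ) (hlr : l < r) (Ψ : ℂ → ℂ) (M : ℝ) (hM : 0 ≤ M)
    (hd : DifferentiableOn ℂ Ψ {z | l < z.re ∧ z.re < r})
    (hc : ContinuousOn Ψ {z | l ≤ z.re ∧ z.re ≤ r})
    (hb : ∀ z : ℂ, l ≤ z.re → z.re ≤ r → ‖Ψ z‖ ≤ M)
    (u : ℝ → ℂ) (hu : Integrable u) (Pl Pr : ℝ)
    (hl : ∀ y : ℝ, ‖∫ t : ℝ, Ψ (l + y * Complex.I + t * Complex.I) * u t‖ ≤ Pl)
    (hr : ∀ y : ℝ, ‖∫ t : ℝ, Ψ (r + y * Complex.I + t * Complex.I) * u t‖ ≤ Pr)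
    (σ : ℝ) (hσ1 : l ≤ σ) (hσ2 : σ ≤ r) :
    ‖∫ t : ℝ, Ψ (σ + t * Complex.I) * u t‖
      ≤ Pl ^ (1 - (σ - l) / (r - l)) * Pr ^ ((σ - l) / (r - l)) := by
  have h := norm_le_interp_of_mem_verticalClosedStrip' (l := l) (u := r) (a := Pl) (b := Pr)
    (f := fun z : ℂ => ∫ t : ℝ, Ψ (z + t * Complex.I) * u t) (z := (σ : ℂ)) hlr
    (by simp [verticalClosedStrip, hσ1, hσ2]) ?_ ?_ ?_ ?_
  · simpa using h
  · constructor
    · exact G_diff l r Ψ M hM hd hb u hu
    · have : closure (verticalStrip l r) = {z : ℂ | l ≤ z.re ∧ z.re ≤ r} := by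
        rw [verticalStrip, Complex.closure_preimage_re, closure_Ioo hlr.ne]
        rfl
      rw [this]
      exact G_cont l r Ψ M hc hb u hu
  · refine ⟨M * ∫ t, ‖u t‖, ?_⟩
    rintro _ ⟨z, hz, rfl⟩
    simp only [Function.comp]
    refine (norm_integral_le_integral_norm _).trans ?_
    rw [← integral_const_mul]
    apply integral_mono_of_nonneg (Eventually.of_forall (fun t => norm_nonneg _))
      (hu.norm.const_mul M)
    refine Eventually.of_forall (fun t => ?_)
    simp only
    rw [norm_mul]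
    apply mul_le_mul_of_nonneg_right _ (norm_nonneg _)
    have hz' : l ≤ z.re ∧ z.re ≤ r := hz
    apply hb
    · simpa using hz'.1
    · simpa using hz'.2
  · intro z hz
    have hz' : z.re = l := by simpa using hz
    have : z = l + z.im * Complex.I := by
      rw [← hz']
      exact (Complex.re_add_im z).symm
    rw [this]
    exact hl z.im
  · intro z hz
    have hz' : z.re = r := by simpa using hz
    have : z = r + z.im * Complex.I := by
      rw [← hz']
      exact (Complex.re_add_im z).symm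
    rw [this]
    exact hr z.im

lemma swap_exp (c : ℝ) (p q : ℝ → ℂ) (hp : Integrable p) (hq : Integrable q) :
    ∫ x : ℝ, p x * ∫ t : ℝ, q t * Complex.exp (Complex.I * (c * t * x))
      = ∫ t : ℝ, q t * ∫ x : ℝ, p x * Complex.exp (Complex.I * (c * t * x)) := by
  have e1 : ∀ x : ℝ, p x * ∫ t : ℝ, q t * Complex.exp (Complex.I * (c * t * x))
      = ∫ t : ℝ, p x * (q t * Complex.exp (Complex.I * (c * t * x))) := by
    intro x
    rw [integral_const_mul]
  have e2 : ∀ t : ℝ, q t * ∫ x : ℝ, p x * Complex.exp (Complex.I * (c * t * x))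
      = ∫ x : ℝ, p x * (q t * Complex.exp (Complex.I * (c * t * x))) := by
    intro t
    rw [← integral_const_mul]
    congr 1
    ext x
    ring
  simp_rw [e1, e2]
  rw [integral_integral_swap]
  have h1 : Integrable (fun z : ℝ × ℝ => p z.1 * q z.2) (volume.prod volume) := hp.mul_prod hq
  have h2 : Integrable (fun z : ℝ × ℝ => (p z.1 * q z.2) *
      Complex.exp (Complex.I * (c * z.2 * z.1))) (volume.prod volume) := by
    refine h1.mul_bdd (c := 1) ?_ ?_
    · apply Continuous.aestronglyMeasurable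
      fun_prop
    · refine Eventually.of_forall (fun z => ?_)
      have : Complex.I * (c * z.2 * z.1) = ((c * z.2 * z.1 : ℝ) : ℂ) * Complex.I := by
        push_cast; ring
      rw [this, Complex.norm_exp_ofReal_mul_I]
  refine h2.congr (Eventually.of_forall (fun z => ?_))
  simp only [Function.uncurry]
  ring

lemma lintegral_sq_bound (P : ℝ) (hP : 0 ≤ P) (u : ℝ → ℂ)
    (hu : ∀ t : ℝ, (1 + t ^ 2) * ‖u t‖ ≤ P) :
    ∫⁻ t, ‖u t‖ₑ ^ (2:ℝ) ≤ ENNReal.ofReal (P ^ 2 * Real.pi) := by
  have h1 : ∀ t : ℝ, ‖u t‖ₑ ^ (2:ℝ) ≤ ENNReal.ofReal (P ^ 2 * (1 + t ^ 2)⁻¹) := by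
    intro t
    have ht : 0 < 1 + t ^ 2 := by positivity
    have h2 : ‖u t‖ ≤ P := by
      have := hu t
      nlinarith [norm_nonneg (u t), sq_nonneg t, mul_nonneg (sq_nonneg t) (norm_nonneg (u t))]
    have h3 : ‖u t‖ ≤ P * (1 + t ^ 2)⁻¹ := by
      rw [← div_eq_mul_inv, le_div_iff₀ ht]
      linarith [hu t, mul_comm (1 + t ^ 2) ‖u t‖]
    rw [← ofReal_norm, ENNReal.ofReal_rpow_of_nonneg (norm_nonneg _) (by norm_num)]
    apply ENNReal.ofReal_le_ofReal
    rw [Real.rpow_two]
    calc ‖u t‖ ^ 2 = ‖u t‖ * ‖u t‖ := by ring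
      _ ≤ P * (P * (1 + t ^ 2)⁻¹) := by
          apply mul_le_mul h2 h3 (norm_nonneg _) hP
      _ = _ := by ring
  calc ∫⁻ t, ‖u t‖ₑ ^ (2:ℝ) ≤ ∫⁻ t, ENNReal.ofReal (P ^ 2 * (1 + t ^ 2)⁻¹) := lintegral_mono h1
    _ = ENNReal.ofReal (∫ t : ℝ, P ^ 2 * (1 + t ^ 2)⁻¹) := by
        rw [ofReal_integral_eq_lintegral_ofReal]
        · exact integrable_inv_one_add_sq.const_mul _
        · exact Eventually.of_forall (fun t => by positivity)
    _ = _ := by
        rw [integral_const_mul, integral_univ_inv_one_add_sq]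

lemma integral_bound (P : ℝ) (u : ℝ → ℂ)
    (hu : ∀ t : ℝ, (1 + t ^ 2) * ‖u t‖ ≤ P) :
    ∫ t, ‖u t‖ ≤ P * Real.pi := by
  have h1 : ∀ t : ℝ, ‖u t‖ ≤ P * (1 + t ^ 2)⁻¹ := by
    intro t
    have ht : 0 < 1 + t ^ 2 := by positivity
    rw [← div_eq_mul_inv, le_div_iff₀ ht]
    linarith [hu t, mul_comm (1 + t ^ 2) ‖u t‖]
  calc ∫ t, ‖u t‖ ≤ ∫ t : ℝ, P * (1 + t ^ 2)⁻¹ := by
        apply integral_mono_of_nonneg (Eventually.of_forall (fun t => norm_nonneg _))
          (integrable_inv_one_add_sq.const_mul _)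
        exact Eventually.of_forall h1
    _ = _ := by rw [integral_const_mul, integral_univ_inv_one_add_sq]

/-- Cauchy-Schwarz in the form needed -/
lemma cs_bound (G u : ℝ → ℂ) (hG : AEMeasurable (fun t => ‖G t‖ₑ)) (hu : AEMeasurable (fun t => ‖u t‖ₑ))
    (A P : ℝ) (hA : 0 ≤ A) (hP : 0 ≤ P)
    (h1 : ∫⁻ t, ‖G t‖ₑ ^ 2 ≤ ENNReal.ofReal (A ^ 2))
    (h2 : ∫⁻ t, ‖u t‖ₑ ^ (2:ℝ) ≤ ENNReal.ofReal (P ^ 2 * Real.pi)) :
    ‖∫ t, G t * u t‖ ≤ A * (P * Real.pi) := by
  have hπ : 1 ≤ Real.pi := by linarith [Real.pi_gt_three]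
  have key : ‖∫ t, G t * u t‖ₑ ≤ ENNReal.ofReal (A * (P * Real.pi)) := by
    refine (enorm_integral_le_lintegral_enorm _).trans ?_
    simp_rw [enorm_mul]
    have hh := ENNReal.lintegral_mul_le_Lp_mul_Lq (volume : Measure ℝ)
      (Real.HolderConjugate.two_two) hG hu
    refine hh.trans ?_
    have e1 : (∫⁻ t, ‖G t‖ₑ ^ (2:ℝ)) ^ (1 / (2:ℝ)) ≤ ENNReal.ofReal A := by
      have : (∫⁻ t, ‖G t‖ₑ ^ (2:ℝ)) ≤ ENNReal.ofReal (A ^ 2) := by
        simpa only [ENNReal.rpow_two] using h1
      calc (∫⁻ t, ‖G t‖ₑ ^ (2:ℝ)) ^ (1 / (2:ℝ)) ≤ (ENNReal.ofReal (A ^ 2)) ^ (1 / (2:ℝ)) := by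
            gcongr
        _ = ENNReal.ofReal A := by
            rw [ENNReal.ofReal_rpow_of_nonneg (by positivity) (by norm_num)]
            congr 1
            rw [← Real.sqrt_eq_rpow, Real.sqrt_sq hA]
    have e2 : (∫⁻ t, ‖u t‖ₑ ^ (2:ℝ)) ^ (1 / (2:ℝ)) ≤ ENNReal.ofReal (P * Real.pi) := by
      calc (∫⁻ t, ‖u t‖ₑ ^ (2:ℝ)) ^ (1 / (2:ℝ))
          ≤ (ENNReal.ofReal (P ^ 2 * Real.pi)) ^ (1 / (2:ℝ)) := by gcongr
        _ ≤ (ENNReal.ofReal ((P * Real.pi) ^ 2)) ^ (1 / (2:ℝ)) := by
            gcongr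
            rw [mul_pow]
            gcongr
            nlinarith
        _ = ENNReal.ofReal (P * Real.pi) := by
            rw [ENNReal.ofReal_rpow_of_nonneg (by positivity) (by norm_num)]
            congr 1
            rw [← Real.sqrt_eq_rpow, Real.sqrt_sq (by positivity)]
    calc _ ≤ ENNReal.ofReal A * ENNReal.ofReal (P * Real.pi) := mul_le_mul' e1 e2
      _ = _ := by rw [← ENNReal.ofReal_mul hA]
  rw [← ofReal_norm] at key
  exact (ENNReal.ofReal_le_ofReal_iff (by positivity)).mp key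


/-- the representation of `J₁` -/
lemma repr (κ U : ℝ → ℂ) (u v : ℝ → ℂ) (g' δ : ℝ)
    (hU : Integrable U)
    (hinv : ∀ s : ℝ, κ s * (Real.exp (-(g' * s)) : ℂ) = (1 / (2 * Real.pi) : ℂ) *
        ∫ t : ℝ, U t * Complex.exp (Complex.I * t * s))
    (hu : Integrable (fun y => u y * (Real.exp (-(g' * y)) : ℂ)))
    (hv : Integrable (fun x => v x * (Real.exp ((g' - δ) * x) : ℂ)))
    (hFm : Continuous (fun t : ℝ => ∫ y, (u y * (Real.exp (-(g' * y)) : ℂ)) *
      Complex.exp (Complex.I * ((-1 : ℝ) * t * y)))) :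
    ∫ x, v x * (∫ y, u y * κ (x - y)) * (Real.exp (-(δ * x)) : ℂ)
      = (1 / (2 * Real.pi) : ℂ) * ∫ t : ℝ, (U t *
        (∫ y, (u y * (Real.exp (-(g' * y)) : ℂ)) * Complex.exp (Complex.I * ((-1 : ℝ) * t * y)))) *
        (∫ x, (v x * (Real.exp ((g' - δ) * x) : ℂ)) *
          Complex.exp (Complex.I * ((1 : ℝ) * t * x))) := by
  set u₁ : ℝ → ℂ := fun y => u y * (Real.exp (-(g' * y)) : ℂ) with hu₁
  set v₁ : ℝ → ℂ := fun x => v x * (Real.exp ((g' - δ) * x) : ℂ) with hv₁
  set Fu : ℝ → ℂ := fun t => ∫ y, u₁ y * Complex.exp (Complex.I * ((-1 : ℝ) * t * y)) with hFu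
  have hFub : ∀ t, ‖Fu t‖ ≤ ∫ y, ‖u₁ y‖ := by
    intro t
    refine (norm_integral_le_integral_norm _).trans (le_of_eq ?_)
    congr 1
    ext y
    rw [norm_mul]
    have : Complex.I * (((-1 : ℝ) : ℂ) * t * y) = (((-1 : ℝ) * t * y : ℝ) : ℂ) * Complex.I := by
      push_cast; ring
    rw [this, Complex.norm_exp_ofReal_mul_I, mul_one]
  have hUF : Integrable (fun t => U t * Fu t) :=
    hU.mul_bdd (c := ∫ y, ‖u₁ y‖) hFm.aestronglyMeasurable (Eventually.of_forall hFub)
  -- pointwise in x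
  have hx : ∀ x : ℝ, v x * (∫ y, u y * κ (x - y)) * (Real.exp (-(δ * x)) : ℂ)
      = (1 / (2 * Real.pi) : ℂ) * (v₁ x * ∫ t : ℝ, (U t * Fu t) *
        Complex.exp (Complex.I * ((1 : ℝ) * t * x))) := by
    intro x
    have hk : ∀ y : ℝ, (u y * κ (x - y)) * (Real.exp (-(g' * x)) : ℂ)
        = (1 / (2 * Real.pi) : ℂ) * (u₁ y * ∫ t : ℝ, (U t * Complex.exp (Complex.I * t * x)) *
          Complex.exp (Complex.I * ((-1 : ℝ) * t * y))) := by
      intro y
      have h1 := hinv (x - y)
      have h2 : (Real.exp (-(g' * x)) : ℂ) = (Real.exp (-(g' * (x - y))) : ℂ) *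
          (Real.exp (-(g' * y)) : ℂ) := by
        rw [← Complex.ofReal_mul, ← Real.exp_add]
        congr 2
        ring
      rw [h2]
      calc u y * κ (x - y) * ((Real.exp (-(g' * (x - y))) : ℂ) * (Real.exp (-(g' * y)) : ℂ))
          = (κ (x - y) * (Real.exp (-(g' * (x - y))) : ℂ)) * u₁ y := by rw [hu₁]; ring
        _ = _ := by
          rw [h1]
          have : (∫ t : ℝ, U t * Complex.exp (Complex.I * t * ((x - y : ℝ) : ℂ)))
              = ∫ t : ℝ, (U t * Complex.exp (Complex.I * t * x)) *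
                Complex.exp (Complex.I * ((-1 : ℝ) * t * y)) := by
            congr 1
            ext t
            rw [mul_assoc (U t), ← Complex.exp_add]
            congr 2
            push_cast
            ring
          rw [this]
          ring
    have hsw := swap_exp (-1) u₁ (fun t => U t * Complex.exp (Complex.I * t * x)) hu (by
      refine hU.mul_bdd (c := 1) ?_ ?_
      · apply Continuous.aestronglyMeasurable
        fun_prop
      · refine Eventually.of_forall (fun t => ?_)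
        have : Complex.I * t * x = ((t * x : ℝ) : ℂ) * Complex.I := by push_cast; ring
        rw [this, Complex.norm_exp_ofReal_mul_I])
    have hI : (∫ y, u y * κ (x - y)) * (Real.exp (-(g' * x)) : ℂ)
        = (1 / (2 * Real.pi) : ℂ) * ∫ t : ℝ, (U t * Fu t) *
          Complex.exp (Complex.I * ((1 : ℝ) * t * x)) := by
      rw [← integral_mul_const]
      simp_rw [hk]
      rw [integral_const_mul, hsw]
      congr 2
      ext t
      rw [hFu]
      simp only
      have : Complex.I * (((1 : ℝ) : ℂ) * t * x) = Complex.I * t * x := by push_cast; ring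
      rw [this]
      ring
    have h3 : (Real.exp (-(δ * x)) : ℂ) = (Real.exp (-(g' * x)) : ℂ) *
        (Real.exp ((g' - δ) * x) : ℂ) := by
      rw [← Complex.ofReal_mul, ← Real.exp_add]
      congr 2
      ring
    rw [h3, hv₁]
    calc v x * (∫ y, u y * κ (x - y)) * ((Real.exp (-(g' * x)) : ℂ) * (Real.exp ((g' - δ) * x) : ℂ))
        = (v x * (Real.exp ((g' - δ) * x) : ℂ)) *
          ((∫ y, u y * κ (x - y)) * (Real.exp (-(g' * x)) : ℂ)) := by ring
      _ = _ := by rw [hI]; ring
  simp_rw [hx]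
  rw [integral_const_mul, swap_exp 1 v₁ (fun t => U t * Fu t) hv hUF]

end TL

open TL in
theorem three_lines (κ : ℝ → ℂ) (hκ : ContDiff ℝ 2 κ) (a b : ℝ) (ha : 0 ≤ a) (hab : a ≤ b)
    (hsupp : ∀ s, s ∉ Icc a b → κ s = 0) :
    ∃ C : ℝ, ∀ (u v : ℝ → ℂ) (g : ℝ), 1 ≤ g → Measurable u → Measurable v →
      Integrable (fun y => u y * (Real.exp (-(g * y)) : ℂ)) →
      Integrable (fun y => u y * (Real.exp (-(2 * g * y)) : ℂ)) →
      Integrable v →
      Integrable (fun x => v x * (Real.exp (g * x) : ℂ)) →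
      ∀ A B : ℝ, 1 ≤ A → 1 ≤ B →
      (∫⁻ t : ℝ, ‖(∫ y, u y * Complex.exp (-((g + Complex.I * t) * y))) *
        (∫ x, v x * Complex.exp ((g + Complex.I * t) * x))‖ₑ ^ 2 ≤ ENNReal.ofReal (A ^ 2)) →
      (∫ y, ‖u y‖ * Real.exp (-(2 * g * y))) * (∫ x, ‖v x‖) ≤ B →
      ∀ δ : ℝ, 0 ≤ δ → δ ≤ 2 * g →
      ‖∫ x, v x * (∫ y, u y * κ (x - y)) * (Real.exp (-(δ * x)) : ℂ)‖
        ≤ C * Real.exp (-(g * a)) * A * B ^ (δ / (2 * g)) := by
  obtain ⟨K, hK0, hK⟩ := fourier_shift κ hκ a b hab hsupp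
  refine ⟨K, ?_⟩
  intro u v g hg hum hvm hu1 hu2 hv0 hv1 A B hA hB hA2 hB2 δ hδ0 hδ1
  have hg0 : 0 < g := by linarith
  set g' : ℝ := g + δ / 2 with hg'
  have hgg' : g ≤ g' := by rw [hg']; linarith
  have hg'2 : g' ≤ 2 * g := by rw [hg']; linarith
  have hπ : 1 ≤ Real.pi := by linarith [Real.pi_gt_three]
  -- norms
  have nu1 : Integrable (fun y => ‖u y‖ * Real.exp (-g * y)) := by
    have := hu1.norm
    refine this.congr (Eventually.of_forall (fun y => ?_))
    simp only [norm_mul, Complex.norm_real, Real.norm_eq_abs, Real.abs_exp, neg_mul]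
  have nu2 : Integrable (fun y => ‖u y‖ * Real.exp (-(2 * g) * y)) := by
    have := hu2.norm
    refine this.congr (Eventually.of_forall (fun y => ?_))
    simp only [norm_mul, Complex.norm_real, Real.norm_eq_abs, Real.abs_exp, neg_mul]
  have nv0 : Integrable (fun x => ‖(starRingEnd ℂ) (v x)‖ * Real.exp (0 * x)) := by
    have := hv0.norm
    refine this.congr (Eventually.of_forall (fun y => ?_))
    simp
  have nv1 : Integrable (fun x => ‖(starRingEnd ℂ) (v x)‖ * Real.exp (g * x)) := by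
    have := hv1.norm
    refine this.congr (Eventually.of_forall (fun y => ?_))
    simp only [norm_mul, Complex.norm_real, Real.norm_eq_abs, Real.abs_exp, RCLike.norm_conj]
  have nv0' : Integrable (fun x => ‖v x‖ * Real.exp (0 * x)) := by
    have := hv0.norm
    refine this.congr (Eventually.of_forall (fun y => ?_))
    simp
  have nv1' : Integrable (fun x => ‖v x‖ * Real.exp (g * x)) := by
    have := hv1.norm
    refine this.congr (Eventually.of_forall (fun y => ?_))
    simp only [norm_mul, Complex.norm_real, Real.norm_eq_abs, Real.abs_exp]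
  obtain ⟨ud, uc, ui, ub⟩ := laplace_strip u hum.aestronglyMeasurable (-(2 * g)) (-g)
    (by linarith) nu2 nu1
  obtain ⟨vd, vc, vi, vb⟩ := laplace_strip (fun x => (starRingEnd ℂ) (v x))
    (by
      have : Measurable (fun x => (starRingEnd ℂ) (v x)) :=
        (Complex.continuous_conj.measurable).comp hvm
      exact this.aestronglyMeasurable) 0 g hg0.le nv0 nv1
  obtain ⟨-, wc, wi, wb⟩ := laplace_strip v hvm.aestronglyMeasurable 0 g hg0.le nv0' nv1'
  set Lu : ℂ → ℂ := fun z => ∫ y, u y * Complex.exp (z * y) with hLu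
  set Lv : ℂ → ℂ := fun z => ∫ x, (starRingEnd ℂ) (v x) * Complex.exp (z * x) with hLv
  set Lw : ℂ → ℂ := fun z => ∫ x, v x * Complex.exp (z * x) with hLw
  set Ψ : ℂ → ℂ := fun z => Lu (-z) * Lv (2 * g - z) with hΨ
  set Mu : ℝ := (∫ y, ‖u y‖ * Real.exp (-(2 * g) * y)) + ∫ y, ‖u y‖ * Real.exp (-g * y) with hMu
  set Mv : ℝ := (∫ x, ‖(starRingEnd ℂ) (v x)‖ * Real.exp (0 * x)) +
    ∫ x, ‖(starRingEnd ℂ) (v x)‖ * Real.exp (g * x) with hMv
  have hMu0 : 0 ≤ Mu := by
    apply add_nonneg <;> exact integral_nonneg (fun y => by positivity)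
  have hMv0 : 0 ≤ Mv := by
    apply add_nonneg <;> exact integral_nonneg (fun y => by positivity)
  have hΨd : DifferentiableOn ℂ Ψ {z | g < z.re ∧ z.re < 2 * g} := by
    apply DifferentiableOn.mul
    · apply ud.comp (by fun_prop)
      intro z hz
      have : (-z).re = -z.re := by simp
      show -(2 * g) < (-z).re ∧ (-z).re < -g
      rw [this]
      exact ⟨by linarith [hz.2], by linarith [hz.1]⟩
    · apply vd.comp (by fun_prop)
      intro z hz
      have : (2 * (g : ℂ) - z).re = 2 * g - z.re := by simp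
      show 0 < (2 * (g : ℂ) - z).re ∧ (2 * (g : ℂ) - z).re < g
      rw [this]
      exact ⟨by linarith [hz.2], by linarith [hz.1]⟩
  have hΨc : ContinuousOn Ψ {z | g ≤ z.re ∧ z.re ≤ 2 * g} := by
    apply ContinuousOn.mul
    · apply uc.comp (by fun_prop)
      intro z hz
      have : (-z).re = -z.re := by simp
      show -(2 * g) ≤ (-z).re ∧ (-z).re ≤ -g
      rw [this]
      exact ⟨by linarith [hz.2], by linarith [hz.1]⟩
    · apply vc.comp (by fun_prop)
      intro z hz
      have : (2 * (g : ℂ) - z).re = 2 * g - z.re := by simp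
      show 0 ≤ (2 * (g : ℂ) - z).re ∧ (2 * (g : ℂ) - z).re ≤ g
      rw [this]
      exact ⟨by linarith [hz.2], by linarith [hz.1]⟩
  have hΨb : ∀ z : ℂ, g ≤ z.re → z.re ≤ 2 * g → ‖Ψ z‖ ≤ Mu * Mv := by
    intro z h1 h2
    rw [hΨ]
    simp only
    rw [norm_mul]
    apply mul_le_mul _ _ (norm_nonneg _) hMu0
    · apply ub
      · simp; linarith
      · simp; linarith
    · apply vb
      · simp; linarith
      · simp; linarith
  -- conj relation
  have hconj : ∀ z : ℂ, Lv ((starRingEnd ℂ) z) = (starRingEnd ℂ) (Lw z) := by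
    intro z
    rw [hLv, hLw]
    simp only
    rw [← integral_conj]
    congr 1
    ext x
    rw [map_mul, ← Complex.exp_conj, map_mul, Complex.conj_ofReal]
  -- U
  obtain ⟨Uc, -, Ub, Ui, Uinv⟩ := hK g'
  set U : ℝ → ℂ := fun t => ∫ s, κ s * Complex.exp (-((g' + Complex.I * t) * s)) with hU
  set P : ℝ := 2 * K * Real.exp (-(g * a)) with hP
  have hP0 : 0 ≤ P := by positivity
  have hUb : ∀ t : ℝ, (1 + t ^ 2) * ‖U t‖ ≤ P := by
    intro t
    have h1 := Ub t
    have h2 : Real.exp (-(g' * a)) ≤ Real.exp (-(g * a)) := by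
      apply Real.exp_le_exp.mpr
      nlinarith
    have h3 : Real.exp (-(g' * b)) ≤ Real.exp (-(g * a)) := by
      apply Real.exp_le_exp.mpr
      nlinarith
    have h4 : (1 + t ^ 2) * ‖U t‖ ≤ (g' ^ 2 + t ^ 2) * ‖U t‖ := by
      apply mul_le_mul_of_nonneg_right _ (norm_nonneg _)
      nlinarith
    calc (1 + t ^ 2) * ‖U t‖ ≤ K * (Real.exp (-(g' * a)) + Real.exp (-(g' * b))) := h4.trans h1
      _ ≤ K * (Real.exp (-(g * a)) + Real.exp (-(g * a))) := by gcongr
      _ = P := by rw [hP]; ring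
  -- the functions on the line g'
  set hh : ℝ → ℂ := fun t => Lw (((g' - δ : ℝ) : ℂ) + Complex.I * t) with hhh
  have hhc : Continuous hh := by
    apply wc.comp_continuous (by fun_prop)
    intro t
    show 0 ≤ _ ∧ _ ≤ g
    simp only [Complex.add_re, Complex.ofReal_re, Complex.mul_re, Complex.I_re, zero_mul,
      Complex.I_im, Complex.ofReal_im, mul_zero, sub_self, add_zero]
    constructor
    · rw [hg']; linarith
    · rw [hg']; linarith
  set u₀ : ℝ → ℂ := fun t => U t * (hh t / (starRingEnd ℂ) (hh t)) with hu₀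
  have hphase : ∀ t, ‖hh t / (starRingEnd ℂ) (hh t)‖ ≤ 1 := by
    intro t
    rw [norm_div, RCLike.norm_conj]
    exact div_self_le_one _
  have hphm : Measurable (fun t => hh t / (starRingEnd ℂ) (hh t)) :=
    hhc.measurable.div ((Complex.continuous_conj.comp hhc).measurable)
  have hu₀m : Measurable u₀ := Uc.measurable.mul hphm
  have hu₀b : ∀ t : ℝ, (1 + t ^ 2) * ‖u₀ t‖ ≤ P := by
    intro t
    refine le_trans ?_ (hUb t)
    apply mul_le_mul_of_nonneg_left _ (by positivity)
    rw [hu₀]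
    simp only
    rw [norm_mul]
    exact mul_le_of_le_one_right (norm_nonneg _) (hphase t)
  have hu₀i : Integrable u₀ :=
    Ui.mul_bdd (c := 1) hphm.aestronglyMeasurable (Eventually.of_forall hphase)
  -- left line
  have hleft : ∀ y : ℝ, ‖∫ t : ℝ, Ψ (g + y * Complex.I + t * Complex.I) * u₀ t‖
      ≤ A * (P * Real.pi) := by
    intro y
    apply cs_bound
    · apply Continuous.aemeasurable
      apply Continuous.enorm
      apply hΨc.comp_continuous (by fun_prop)
      intro t
      show g ≤ _ ∧ _ ≤ 2 * g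
      simp only [Complex.add_re, Complex.ofReal_re, Complex.mul_re, Complex.I_re, mul_zero,
        Complex.I_im, Complex.ofReal_im, mul_one, sub_self, add_zero]
      constructor <;> linarith
    · exact hu₀m.enorm.aemeasurable
    · linarith
    · exact hP0
    · have e1 : ∀ t : ℝ, ‖Ψ (g + y * Complex.I + t * Complex.I)‖ₑ
          = ‖(∫ y', u y' * Complex.exp (-((g + Complex.I * ((t + y : ℝ) : ℂ)) * y'))) *
        (∫ x, v x * Complex.exp ((g + Complex.I * ((t + y : ℝ) : ℂ)) * x))‖ₑ := by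
        intro t
        rw [hΨ]
        simp only
        rw [enorm_mul, enorm_mul]
        congr 1
        · rw [hLu]
          simp only
          congr 2
          ext y'
          congr 2
          push_cast
          ring
        · have h5 : (2 * (g : ℂ) - (g + y * Complex.I + t * Complex.I))
              = (starRingEnd ℂ) (g + Complex.I * ((t + y : ℝ) : ℂ)) := by
            simp only [map_add, map_mul, Complex.conj_ofReal, Complex.conj_I]
            push_cast
            ring
          rw [h5, hconj, ← ofReal_norm, RCLike.norm_conj, ofReal_norm]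
      simp_rw [e1]
      rw [lintegral_add_right_eq_self (μ := (volume : Measure ℝ))
        (fun t : ℝ => ‖(∫ y', u y' * Complex.exp (-((g + Complex.I * (t : ℂ)) * y'))) *
        (∫ x, v x * Complex.exp ((g + Complex.I * (t : ℂ)) * x))‖ₑ ^ 2) y]
      exact hA2
    · exact lintegral_sq_bound P hP0 u₀ hu₀b
  -- right line
  have hright : ∀ y : ℝ, ‖∫ t : ℝ, Ψ (((2 * g : ℝ) : ℂ) + y * Complex.I + t * Complex.I) * u₀ t‖
      ≤ B * (P * Real.pi) := by
    intro y
    have e1 : ∀ t : ℝ, ‖Ψ (((2 * g : ℝ) : ℂ) + y * Complex.I + t * Complex.I)‖ ≤ B := by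
      intro t
      rw [hΨ]
      simp only
      rw [norm_mul]
      refine le_trans ?_ hB2
      apply mul_le_mul _ _ (norm_nonneg _) (integral_nonneg (fun y => by positivity))
      · refine (norm_integral_le_integral_norm _).trans (le_of_eq ?_)
        congr 1
        ext y'
        rw [norm_mul, Complex.norm_exp]
        congr 2
        simp
      · refine (norm_integral_le_integral_norm _).trans (le_of_eq ?_)
        congr 1
        ext y'
        rw [norm_mul, Complex.norm_exp, RCLike.norm_conj]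
        have : ((2 * (g : ℂ) - (((2 * g : ℝ) : ℂ) + y * Complex.I + t * Complex.I)) * (y' : ℂ)).re
            = 0 := by simp
        rw [this, Real.exp_zero, mul_one]
    refine (norm_integral_le_integral_norm _).trans ?_
    calc ∫ t : ℝ, ‖Ψ (((2 * g : ℝ) : ℂ) + y * Complex.I + t * Complex.I) * u₀ t‖
        ≤ ∫ t : ℝ, B * ‖u₀ t‖ := by
          apply integral_mono_of_nonneg (Eventually.of_forall (fun t => norm_nonneg _))
            (hu₀i.norm.const_mul B)
          refine Eventually.of_forall (fun t => ?_)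
          simp only
          rw [norm_mul]
          exact mul_le_mul_of_nonneg_right (e1 t) (norm_nonneg _)
      _ = B * ∫ t, ‖u₀ t‖ := integral_const_mul _ _
      _ ≤ B * (P * Real.pi) := by
          apply mul_le_mul_of_nonneg_left (integral_bound P u₀ hu₀b) (by linarith)
  have hst := strip_test g (2 * g) (by linarith) Ψ (Mu * Mv) (mul_nonneg hMu0 hMv0) hΨd hΨc hΨb
    u₀ hu₀i (A * (P * Real.pi)) (B * (P * Real.pi)) hleft hright g' hgg' hg'2
  -- representation
  have hui : Integrable (fun y => u y * (Real.exp (-(g' * y)) : ℂ)) := by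
    have := ui (((-g' : ℝ) : ℂ)) (by simp; linarith) (by simp; linarith)
    refine this.congr (Eventually.of_forall (fun y => ?_))
    simp only
    rw [Complex.ofReal_exp]
    congr 2
    push_cast
    ring
  have hvi : Integrable (fun x => v x * (Real.exp ((g' - δ) * x) : ℂ)) := by
    have := wi (((g' - δ : ℝ) : ℂ)) (by rw [Complex.ofReal_re, hg']; linarith)
      (by rw [Complex.ofReal_re, hg']; linarith)
    refine this.congr (Eventually.of_forall (fun y => ?_))
    simp only
    rw [Complex.ofReal_exp]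
    congr 2
    push_cast
    ring
  have hLuline : ∀ t : ℝ, (∫ y, (u y * (Real.exp (-(g' * y)) : ℂ)) *
      Complex.exp (Complex.I * ((-1 : ℝ) * t * y))) = Lu (-(g' + t * Complex.I)) := by
    intro t
    rw [hLu]
    simp only
    congr 1
    ext y
    rw [mul_assoc, Complex.ofReal_exp, ← Complex.exp_add]
    congr 2
    push_cast
    ring
  have hLwline : ∀ t : ℝ, (∫ x, (v x * (Real.exp ((g' - δ) * x) : ℂ)) *
      Complex.exp (Complex.I * ((1 : ℝ) * t * x))) = hh t := by
    intro t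
    rw [hhh, hLw]
    simp only
    congr 1
    ext y
    rw [mul_assoc, Complex.ofReal_exp, ← Complex.exp_add]
    congr 2
    push_cast
    ring
  have hrep := repr κ U u v g' δ Ui Uinv hui hvi (by
    simp_rw [hLuline]
    apply uc.comp_continuous (by fun_prop)
    intro t
    show -(2 * g) ≤ _ ∧ _ ≤ -g
    simp only [Complex.neg_re, Complex.add_re, Complex.ofReal_re, Complex.mul_re, Complex.I_re,
      mul_zero, Complex.ofReal_im, Complex.I_im, mul_one, sub_self, add_zero]
    constructor <;> linarith)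
  rw [hrep]
  simp_rw [hLuline, hLwline]
  have hfin : (∫ t : ℝ, U t * Lu (-(g' + t * Complex.I)) * hh t)
      = ∫ t : ℝ, Ψ (g' + t * Complex.I) * u₀ t := by
    congr 1
    ext t
    rw [hΨ, hu₀]
    simp only
    have h5 : (2 * (g : ℂ) - (g' + t * Complex.I))
        = (starRingEnd ℂ) (((g' - δ : ℝ) : ℂ) + Complex.I * t) := by
      simp only [map_add, map_mul, Complex.conj_ofReal, Complex.conj_I]
      rw [hg']
      push_cast
      ring
    rw [h5, hconj]
    have h6 : (starRingEnd ℂ) (Lw (((g' - δ : ℝ) : ℂ) + Complex.I * t)) = (starRingEnd ℂ) (hh t) := rfl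
    rw [h6]
    have h7 : (starRingEnd ℂ) (hh t) * (hh t / (starRingEnd ℂ) (hh t)) = hh t := by
      by_cases h0 : hh t = 0
      · simp [h0]
      · rw [mul_div_cancel₀]
        simpa using h0
    calc U t * Lu (-(g' + t * Complex.I)) * hh t
        = U t * Lu (-(g' + t * Complex.I)) *
          ((starRingEnd ℂ) (hh t) * (hh t / (starRingEnd ℂ) (hh t))) := by rw [h7]
      _ = _ := by ring
  rw [hfin, norm_mul]
  have hc : ‖(1 / (2 * Real.pi) : ℂ)‖ = 1 / (2 * Real.pi) := by
    rw [norm_div, norm_mul, norm_one, Complex.norm_real, Real.norm_of_nonneg (by positivity)]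
    simp
  rw [hc]
  have hθ : (g' - g) / (2 * g - g) = δ / (2 * g) := by
    rw [hg']
    field_simp
    ring
  rw [hθ] at hst
  set θ : ℝ := δ / (2 * g) with hθd
  have hθ0 : 0 ≤ θ := by positivity
  have hθ1 : θ ≤ 1 := by
    rw [hθd, div_le_one (by positivity)]
    exact hδ1
  have hQ0 : 0 ≤ P * Real.pi := by positivity
  have hbound : (A * (P * Real.pi)) ^ (1 - θ) * (B * (P * Real.pi)) ^ θ
      ≤ A * B ^ θ * (P * Real.pi) := by
    rw [Real.mul_rpow (by linarith) hQ0, Real.mul_rpow (by linarith) hQ0]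
    have h8 : A ^ (1 - θ) ≤ A := by
      calc A ^ (1 - θ) ≤ A ^ (1:ℝ) := Real.rpow_le_rpow_of_exponent_le hA (by linarith)
        _ = A := Real.rpow_one A
    have h9 : (P * Real.pi) ^ (1 - θ) * (P * Real.pi) ^ θ = P * Real.pi := by
      rcases eq_or_lt_of_le hQ0 with h | h
      · rw [← h]
        rcases eq_or_lt_of_le hθ0 with h' | h'
        · rw [← h']; simp
        · rw [Real.zero_rpow h'.ne', mul_zero]
      · rw [← Real.rpow_add h]
        simp
    calc A ^ (1 - θ) * (P * Real.pi) ^ (1 - θ) * (B ^ θ * (P * Real.pi) ^ θ)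
        = A ^ (1 - θ) * B ^ θ * ((P * Real.pi) ^ (1 - θ) * (P * Real.pi) ^ θ) := by ring
      _ = A ^ (1 - θ) * B ^ θ * (P * Real.pi) := by rw [h9]
      _ ≤ A * B ^ θ * (P * Real.pi) := by gcongr
  calc 1 / (2 * Real.pi) * ‖∫ t : ℝ, Ψ (g' + t * Complex.I) * u₀ t‖
      ≤ 1 / (2 * Real.pi) * (A * B ^ θ * (P * Real.pi)) := by
        gcongr
        exact hst.trans hbound
    _ = K * Real.exp (-(g * a)) * A * B ^ θ := by
        rw [hP]
        field_simp

end Pool.Agent.Domar
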