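import Pool.Agent.Lib.MP_af79d0_an.CutLemmas

set_option autoImplicit false
open MeasureTheory Filter Topology Set

namespace Pool.Agent.Domar

namespace UB

theorem integrable_exp_neg_abs : Integrable (fun y : ℝ => Real.exp (-|y|)) := by
  rw [← integrableOn_univ, ← Iic_union_Ioi (a := (0 : ℝ))]
  refine IntegrableOn.union ?_ ?_
  · refine (integrableOn_exp_Iic 0).congr_fun (fun y hy => ?_) measurableSet_Iic
    simp only [mem_Iic] at hy
    rw [abs_of_nonpos hy, neg_neg]
  · refine (exp_neg_integrableOn_Ioi 0 one_pos).congr_fun (fun y hy => ?_) measurableSet_Ioi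
    simp only [mem_Ioi] at hy
    show Real.exp (-1 * y) = Real.exp (-|y|)
    rw [abs_of_pos hy, neg_one_mul]

theorem integrable_ind (a b : ℝ) : Integrable ((Icc a b).indicator (fun _ => (1 : ℝ))) :=
  (integrable_indicator_iff measurableSet_Icc).2 (by simp [IntegrableOn])

theorem integral_ind (a b : ℝ) (hab : a ≤ b) :
    ∫ y, (Icc a b).indicator (fun _ => (1 : ℝ)) y = b - a := by
  rw [integral_indicator measurableSet_Icc]
  simp [hab]

theorem dom (u : ℝ → ℂ) (hu : AEStronglyMeasurable u) (D : ℝ → ℝ) (hD : Integrable D)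
    (h : ∀ y, ‖u y‖ ≤ D y) : Integrable u ∧ ∫ y, ‖u y‖ ≤ ∫ y, D y := by
  have h1 : Integrable u := hD.mono' hu (Eventually.of_forall h)
  exact ⟨h1, integral_mono h1.norm hD h⟩

/-- superlinear decay of `W` on the right -/
theorem exists_right (W : ℝ → ℝ) (hW : NW W) (g : ℝ) (hg : 0 ≤ g) :
    ∃ B : ℝ, 0 ≤ B ∧ ∀ y, 0 ≤ y → W y + g * y ≤ B - y := by
  have h1 := hW.topl.eventually (eventually_le_atBot (-(g + 1)))
  obtain ⟨y₀, hy₀⟩ := eventually_atTop.1 (h1.and (eventually_gt_atTop 0))
  set y₁ := max y₀ 0 with hy₁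
  have hy₁0 : 0 ≤ y₁ := le_max_right _ _
  refine ⟨(g + 1) * y₁, by positivity, fun y hy => ?_⟩
  rcases le_total y₁ y with h2 | h2
  · obtain ⟨h3, h4⟩ := hy₀ y (le_trans (le_max_left _ _) h2)
    rw [div_le_iff₀ h4] at h3
    have : 0 ≤ (g + 1) * y₁ := by positivity
    nlinarith
  · have h3 : W y ≤ 0 := by
      rw [← hW.zero]
      exact hW.anti hy
    nlinarith [mul_le_mul_of_nonneg_left h2 (by linarith : (0 : ℝ) ≤ g + 1)]

end UB

open UB

theorem u_bounds (W : ℝ → ℝ) (hW : NW W) (f h : ℝ → ℂ) (ho : Ori1 W f h ∨ Ori2 W f h) :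
    ∃ C : ℝ, 1 ≤ C ∧ ∀ g X Y x : ℝ, 1 ≤ g → Cut W g X Y → 1 ≤ x → 2 * g + 1 ≤ W (-x) / x →
      Integrable (fun y => (Iio X).indicator f y * (Real.exp (-(g * y)) : ℂ)) ∧
      Integrable (fun y => (Iio X).indicator f y * (Real.exp (-(2 * g * y)) : ℂ)) ∧
      Integrable ((Ioi (-Y)).indicator h) ∧
      Integrable (fun y => (Ioi (-Y)).indicator h y * (Real.exp (g * y) : ℂ)) ∧
      (∫ y, ‖(Iio X).indicator f y‖ * Real.exp (-(2 * g * y)))
        ≤ C * (1 + x) * Real.exp (2 * g * x) ∧
      (∫ y, ‖(Ioi (-Y)).indicator h y‖) ≤ C * (1 + x) * Real.exp (g * x) := by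
  obtain ⟨B₀, hB₀, hB₀'⟩ := exists_right W hW 0 le_rfl
  have hE := integrable_exp_neg_abs
  set c₀ := ∫ y : ℝ, Real.exp (-|y|) with hc₀
  have hc₀0 : 0 ≤ c₀ := integral_nonneg fun y => (Real.exp_pos _).le
  -- measurability of the four functions
  have hfm : Measurable f := by rcases ho with h1 | h1 <;> exact h1.fm
  have hhm : Measurable h := by rcases ho with h1 | h1 <;> exact h1.hm
  have mf : ∀ X σ : ℝ, AEStronglyMeasurable
      (fun y => (Iio X).indicator f y * (Real.exp (σ * y) : ℂ)) := fun X σ => by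
    refine ((hfm.indicator measurableSet_Iio).mul ?_).aestronglyMeasurable
    fun_prop
  have mh : ∀ Y σ : ℝ, AEStronglyMeasurable
      (fun y => (Ioi (-Y)).indicator h y * (Real.exp (σ * y) : ℂ)) := fun Y σ => by
    refine ((hhm.indicator measurableSet_Ioi).mul ?_).aestronglyMeasurable
    fun_prop
  have nf : ∀ X σ y : ℝ, ‖(Iio X).indicator f y * (Real.exp (σ * y) : ℂ)‖
      = ‖(Iio X).indicator f y‖ * Real.exp (σ * y) := fun X σ y => by
    rw [norm_mul, Complex.norm_real, Real.norm_eq_abs, Real.abs_exp]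
  have nh : ∀ Y σ y : ℝ, ‖(Ioi (-Y)).indicator h y * (Real.exp (σ * y) : ℂ)‖
      = ‖(Ioi (-Y)).indicator h y‖ * Real.exp (σ * y) := fun Y σ y => by
    rw [norm_mul, Complex.norm_real, Real.norm_eq_abs, Real.abs_exp]
  rcases ho with ho | ho
  · -- orientation 1
    obtain ⟨M₀, hM₀⟩ := ho.hbd
    set M := |M₀| with hM
    have hM0 : 0 ≤ M := abs_nonneg _
    have hMb : ∀ y, ‖h y‖ ≤ M * Real.exp (W y) := fun y =>
      (hM₀ y).trans (mul_le_mul_of_nonneg_right (le_abs_self _) (Real.exp_pos _).le)
    set Φ := ∫ y, ‖f y‖ * Real.exp (W y) with hΦ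
    have hΦ0 : 0 ≤ Φ := integral_nonneg fun y => by positivity
    refine ⟨1 + Φ + M * (1 + Real.exp B₀ * c₀), by
      have : 0 ≤ M * (1 + Real.exp B₀ * c₀) := by positivity
      linarith, ?_⟩
    intro g X Y x hg hcut hx hgx
    have hx0 : 0 < x := by linarith
    have hg0 : 0 < g := by linarith
    obtain ⟨c1, c2, c3, c4, c5⟩ := cut_bounds W hW g X Y x hg0 hcut hx0 hgx
    -- f
    have bf : ∀ σ, (σ = -(2 * g) ∨ σ = -g) → ∀ y,
        ‖(Iio X).indicator f y * (Real.exp (σ * y) : ℂ)‖
          ≤ ‖f y‖ * Real.exp (W y) * Real.exp (2 * g * x) := by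
      intro σ hσ y
      rw [nf]
      by_cases hy : y ∈ Iio X
      · rw [indicator_of_mem hy, mul_assoc, ← Real.exp_add]
        refine mul_le_mul_of_nonneg_left (Real.exp_le_exp.2 ?_) (norm_nonneg _)
        rcases hσ with rfl | rfl
        · have := c3 y hy
          linarith
        · rcases le_total y 0 with h0 | h0
          · have := c3 y hy
            nlinarith
          · have := c5 y h0 hy
            nlinarith [mul_pos hg0 hx0]
      · rw [indicator_of_notMem hy, norm_zero, zero_mul]
        positivity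
    have Df : Integrable (fun y => ‖f y‖ * Real.exp (W y) * Real.exp (2 * g * x)) :=
      ho.fint.mul_const _
    have If : ∫ y, ‖f y‖ * Real.exp (W y) * Real.exp (2 * g * x) = Φ * Real.exp (2 * g * x) := by
      rw [integral_mul_const]
    obtain ⟨f1, -⟩ := dom _ (mf X (-g)) _ Df (bf _ (Or.inr rfl))
    obtain ⟨f2, f2'⟩ := dom _ (mf X (-(2 * g))) _ Df (bf _ (Or.inl rfl))
    -- h
    have bh : ∀ (σ B : ℝ), 0 ≤ σ → (∀ y, 0 ≤ y → W y + σ * y ≤ B - y) → ∀ y,
        ‖(Ioi (-Y)).indicator h y * (Real.exp (σ * y) : ℂ)‖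
          ≤ M * (Real.exp (g * x) * (Icc (-x) 0).indicator (fun _ => (1 : ℝ)) y
            + Real.exp B * Real.exp (-|y|)) := by
      intro σ B hσ hB y
      rw [nh]
      have hi : 0 ≤ (Icc (-x) 0).indicator (fun _ => (1 : ℝ)) y :=
        indicator_nonneg (fun _ _ => zero_le_one) _
      by_cases hy : y ∈ Ioi (-Y)
      · rw [indicator_of_mem hy]
        refine (mul_le_mul_of_nonneg_right (hMb y) (Real.exp_pos _).le).trans ?_
        rw [mul_assoc, ← Real.exp_add]
        refine mul_le_mul_of_nonneg_left ?_ hM0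
        rcases le_total y 0 with h0 | h0
        · have hmem : y ∈ Icc (-x) 0 := ⟨by have := mem_Ioi.1 hy; linarith, h0⟩
          rw [indicator_of_mem hmem, mul_one]
          have h1 : W y ≤ g * x := (hW.anti (le_of_lt hy)).trans c2
          have h2 : Real.exp (W y + σ * y) ≤ Real.exp (g * x) :=
            Real.exp_le_exp.2 (by nlinarith)
          have h3 : 0 ≤ Real.exp B * Real.exp (-|y|) := by positivity
          linarith
        · have h1 := hB y h0
          have h2 : Real.exp (W y + σ * y) ≤ Real.exp B * Real.exp (-|y|) := by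
            rw [← Real.exp_add, abs_of_nonneg h0]
            exact Real.exp_le_exp.2 (by linarith)
          have h3 : 0 ≤ Real.exp (g * x) * (Icc (-x) 0).indicator (fun _ => (1 : ℝ)) y := by
            positivity
          linarith
      · rw [indicator_of_notMem hy, norm_zero, zero_mul]
        positivity
    have Dh : ∀ B : ℝ, Integrable (fun y => M * (Real.exp (g * x) *
        (Icc (-x) 0).indicator (fun _ => (1 : ℝ)) y + Real.exp B * Real.exp (-|y|))) := fun B =>
      (((integrable_ind _ _).const_mul _).add (hE.const_mul _)).const_mul _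
    have Ih : ∀ B : ℝ, ∫ y, M * (Real.exp (g * x) *
        (Icc (-x) 0).indicator (fun _ => (1 : ℝ)) y + Real.exp B * Real.exp (-|y|))
        = M * (Real.exp (g * x) * x + Real.exp B * c₀) := fun B => by
      rw [integral_const_mul, integral_add ((integrable_ind _ _).const_mul _) (hE.const_mul _),
        integral_const_mul, integral_const_mul, integral_ind _ _ (by linarith)]
      ring
    obtain ⟨B₁, hB₁, hB₁'⟩ := exists_right W hW g hg0.le
    obtain ⟨h1, h1'⟩ := dom _ (mh Y 0) _ (Dh B₀) (bh 0 B₀ le_rfl hB₀')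
    obtain ⟨h2, -⟩ := dom _ (mh Y g) _ (Dh B₁) (bh g B₁ hg0.le hB₁')
    have e1 : ∀ y : ℝ, (Ioi (-Y)).indicator h y * (Real.exp (0 * y) : ℂ)
        = (Ioi (-Y)).indicator h y := fun y => by simp
    simp only [e1] at h1 h1'
    rw [Ih] at h1'
    rw [If] at f2'
    refine ⟨by simpa only [neg_mul] using f1, by simpa only [neg_mul] using f2, h1, h2, ?_, ?_⟩
    · have : (∫ y, ‖(Iio X).indicator f y‖ * Real.exp (-(2 * g * y)))
          = ∫ y, ‖(Iio X).indicator f y * (Real.exp (-(2 * g) * y) : ℂ)‖ := by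
        refine integral_congr_ae (Eventually.of_forall fun y => ?_)
        beta_reduce
        rw [nf, neg_mul]
      rw [this]
      refine f2'.trans (mul_le_mul_of_nonneg_right ?_ (Real.exp_pos _).le)
      have h3 : 0 ≤ M * (1 + Real.exp B₀ * c₀) := by positivity
      nlinarith
    · refine h1'.trans ?_
      have h3 : 1 ≤ Real.exp (g * x) := Real.one_le_exp (by positivity)
      have h4 : 0 ≤ Real.exp B₀ * c₀ := by positivity
      have h5 : Real.exp (g * x) * x + Real.exp B₀ * c₀
          ≤ (1 + Real.exp B₀ * c₀) * ((1 + x) * Real.exp (g * x)) := by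
        have : Real.exp B₀ * c₀ ≤ Real.exp B₀ * c₀ * ((1 + x) * Real.exp (g * x)) :=
          le_mul_of_one_le_right h4 (by nlinarith)
        nlinarith
      have h6 : M * (Real.exp (g * x) * x + Real.exp B₀ * c₀)
          ≤ M * (1 + Real.exp B₀ * c₀) * ((1 + x) * Real.exp (g * x)) :=
        (mul_le_mul_of_nonneg_left h5 hM0).trans_eq (by ring)
      have h7 : 0 ≤ (1 + Φ) * ((1 + x) * Real.exp (g * x)) := by positivity
      have h8 : (1 + Φ + M * (1 + Real.exp B₀ * c₀)) * (1 + x) * Real.exp (g * x)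
          = (1 + Φ) * ((1 + x) * Real.exp (g * x))
            + M * (1 + Real.exp B₀ * c₀) * ((1 + x) * Real.exp (g * x)) := by ring
      rw [h8]
      linarith
  · -- orientation 2
    obtain ⟨M₀, hM₀⟩ := ho.fbd
    set M := |M₀| with hM
    have hM0 : 0 ≤ M := abs_nonneg _
    have hMb : ∀ y, ‖f y‖ ≤ M * Real.exp (-W y) := fun y =>
      (hM₀ y).trans (mul_le_mul_of_nonneg_right (le_abs_self _) (Real.exp_pos _).le)
    set Ψ := ∫ y, ‖h y‖ * Real.exp (-W y) with hΨ
    have hΨ0 : 0 ≤ Ψ := integral_nonneg fun y => by positivity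
    refine ⟨1 + Ψ + M * (1 + c₀), by
      have : 0 ≤ M * (1 + c₀) := by positivity
      linarith, ?_⟩
    intro g X Y x hg hcut hx hgx
    have hx0 : 0 < x := by linarith
    have hg0 : 0 < g := by linarith
    obtain ⟨c1, c2, c3, c4, c5⟩ := cut_bounds W hW g X Y x hg0 hcut hx0 hgx
    -- f
    have bf2 : ∀ y, ‖(Iio X).indicator f y * (Real.exp (-(2 * g) * y) : ℂ)‖
        ≤ M * (Real.exp (2 * g * x) * (Icc (-x) 0).indicator (fun _ => (1 : ℝ)) y
            + Real.exp (-|y|)) := by
      intro y
      rw [nf]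
      have hi : 0 ≤ (Icc (-x) 0).indicator (fun _ => (1 : ℝ)) y :=
        indicator_nonneg (fun _ _ => zero_le_one) _
      by_cases hy : y ∈ Iio X
      · rw [indicator_of_mem hy]
        refine (mul_le_mul_of_nonneg_right (hMb y) (Real.exp_pos _).le).trans ?_
        rw [mul_assoc, ← Real.exp_add]
        refine mul_le_mul_of_nonneg_left ?_ hM0
        rcases le_total y (-x) with h0 | h0
        · have h1 := c4 y h0
          have h2 : Real.exp (-W y + -(2 * g) * y) ≤ Real.exp (-|y|) := by
            rw [abs_of_nonpos (by linarith), neg_neg]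
            exact Real.exp_le_exp.2 (by linarith)
          have h3 : 0 ≤ Real.exp (2 * g * x) * (Icc (-x) 0).indicator (fun _ => (1 : ℝ)) y := by
            positivity
          linarith
        · rcases le_total y 0 with h1 | h1
          · rw [indicator_of_mem (show y ∈ Icc (-x) 0 from ⟨h0, h1⟩), mul_one]
            have h2 := c3 y hy
            have h3 : Real.exp (-W y + -(2 * g) * y) ≤ Real.exp (2 * g * x) :=
              Real.exp_le_exp.2 (by linarith)
            have h4 := (Real.exp_pos (-|y|)).le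
            linarith
          · have h2 := c5 y h1 hy
            have h3 : Real.exp (-W y + -(2 * g) * y) ≤ Real.exp (-|y|) := by
              rw [abs_of_nonneg h1]
              exact Real.exp_le_exp.2 (by nlinarith)
            have h4 : 0 ≤ Real.exp (2 * g * x) * (Icc (-x) 0).indicator (fun _ => (1 : ℝ)) y := by
              positivity
            linarith
      · rw [indicator_of_notMem hy, norm_zero, zero_mul]
        positivity
    have bf1 : ∀ y, ‖(Iio X).indicator f y * (Real.exp (-g * y) : ℂ)‖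
        ≤ M * (Real.exp (2 * g * x) * (Icc (-x) 0).indicator (fun _ => (1 : ℝ)) y
            + Real.exp (-|y|)) + M * (Icc 0 X).indicator (fun _ => (1 : ℝ)) y := by
      intro y
      have hi : 0 ≤ (Icc 0 X).indicator (fun _ => (1 : ℝ)) y :=
        indicator_nonneg (fun _ _ => zero_le_one) _
      have hi' : 0 ≤ (Icc (-x) 0).indicator (fun _ => (1 : ℝ)) y :=
        indicator_nonneg (fun _ _ => zero_le_one) _
      by_cases hy : y ∈ Iio X
      · rcases le_total y 0 with h1 | h1
        · refine le_trans ?_ ((bf2 y).trans (le_add_of_nonneg_right (by positivity)))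
          rw [nf, nf]
          refine mul_le_mul_of_nonneg_left (Real.exp_le_exp.2 ?_) (norm_nonneg _)
          nlinarith
        · rw [nf, indicator_of_mem hy]
          refine (mul_le_mul_of_nonneg_right (hMb y) (Real.exp_pos _).le).trans ?_
          rw [mul_assoc, ← Real.exp_add, indicator_of_mem (show y ∈ Icc 0 X from ⟨h1, (le_of_lt hy)⟩)]
          have h2 := c5 y h1 hy
          have h3 : Real.exp (-W y + -g * y) ≤ 1 := by
            rw [← Real.exp_zero]
            exact Real.exp_le_exp.2 (by nlinarith)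
          have h4 : 0 ≤ M * (Real.exp (2 * g * x) * (Icc (-x) 0).indicator (fun _ => (1 : ℝ)) y
            + Real.exp (-|y|)) := by positivity
          nlinarith
      · rw [indicator_of_notMem hy, zero_mul, norm_zero]
        positivity
    have Df2 : Integrable (fun y => M * (Real.exp (2 * g * x) *
        (Icc (-x) 0).indicator (fun _ => (1 : ℝ)) y + Real.exp (-|y|))) :=
      (((integrable_ind _ _).const_mul _).add hE).const_mul _
    have Df1 : Integrable (fun y => M * (Real.exp (2 * g * x) *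
        (Icc (-x) 0).indicator (fun _ => (1 : ℝ)) y + Real.exp (-|y|))
        + M * (Icc 0 X).indicator (fun _ => (1 : ℝ)) y) :=
      Df2.add ((integrable_ind _ _).const_mul _)
    have If : ∫ y, M * (Real.exp (2 * g * x) *
        (Icc (-x) 0).indicator (fun _ => (1 : ℝ)) y + Real.exp (-|y|))
        = M * (Real.exp (2 * g * x) * x + c₀) := by
      rw [integral_const_mul, integral_add ((integrable_ind _ _).const_mul _) hE,
        integral_const_mul, integral_ind _ _ (by linarith)]
      ring
    obtain ⟨f1, -⟩ := dom _ (mf X (-g)) _ Df1 bf1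
    obtain ⟨f2, f2'⟩ := dom _ (mf X (-(2 * g))) _ Df2 bf2
    -- h
    have bh : ∀ (σ B : ℝ), (∀ y, -Y < y → W y + σ * y ≤ B) → ∀ y,
        ‖(Ioi (-Y)).indicator h y * (Real.exp (σ * y) : ℂ)‖
          ≤ ‖h y‖ * Real.exp (-W y) * Real.exp B := by
      intro σ B hB y
      rw [nh]
      by_cases hy : y ∈ Ioi (-Y)
      · rw [indicator_of_mem hy, mul_assoc, ← Real.exp_add]
        refine mul_le_mul_of_nonneg_left (Real.exp_le_exp.2 ?_) (norm_nonneg _)
        have := hB y hy
        linarith
      · rw [indicator_of_notMem hy, norm_zero, zero_mul]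
        positivity
    obtain ⟨B₁, hB₁, hB₁'⟩ := exists_right W hW g hg0.le
    have hb0 : ∀ y, -Y < y → W y + 0 * y ≤ g * x := by
      intro y hy
      have h1 : W y ≤ g * x := (hW.anti hy.le).trans c2
      linarith
    have hb1 : ∀ y, -Y < y → W y + g * y ≤ g * x + B₁ := by
      intro y hy
      rcases le_total y 0 with h0 | h0
      · have h1 : W y ≤ g * x := (hW.anti hy.le).trans c2
        nlinarith
      · have h1 := hB₁' y h0
        nlinarith [mul_pos hg0 hx0]
    have Dh : ∀ B : ℝ, Integrable (fun y => ‖h y‖ * Real.exp (-W y) * Real.exp B) := fun B =>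
      ho.hint.mul_const _
    obtain ⟨h1, h1'⟩ := dom _ (mh Y 0) _ (Dh (g * x)) (bh 0 _ hb0)
    obtain ⟨h2, -⟩ := dom _ (mh Y g) _ (Dh (g * x + B₁)) (bh g _ hb1)
    have e1 : ∀ y : ℝ, (Ioi (-Y)).indicator h y * (Real.exp (0 * y) : ℂ)
        = (Ioi (-Y)).indicator h y := fun y => by simp
    simp only [e1] at h1 h1'
    rw [integral_mul_const] at h1'
    rw [If] at f2'
    refine ⟨by simpa only [neg_mul] using f1, by simpa only [neg_mul] using f2, h1, h2, ?_, ?_⟩
    · have : (∫ y, ‖(Iio X).indicator f y‖ * Real.exp (-(2 * g * y)))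
          = ∫ y, ‖(Iio X).indicator f y * (Real.exp (-(2 * g) * y) : ℂ)‖ := by
        refine integral_congr_ae (Eventually.of_forall fun y => ?_)
        beta_reduce
        rw [nf, neg_mul]
      rw [this]
      refine f2'.trans ?_
      have h3 : 1 ≤ Real.exp (2 * g * x) := Real.one_le_exp (by positivity)
      have h5 : Real.exp (2 * g * x) * x + c₀ ≤ (1 + c₀) * ((1 + x) * Real.exp (2 * g * x)) := by
        have : c₀ ≤ c₀ * ((1 + x) * Real.exp (2 * g * x)) :=
          le_mul_of_one_le_right hc₀0 (by nlinarith)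
        nlinarith
      have h6 : M * (Real.exp (2 * g * x) * x + c₀)
          ≤ M * (1 + c₀) * ((1 + x) * Real.exp (2 * g * x)) :=
        (mul_le_mul_of_nonneg_left h5 hM0).trans_eq (by ring)
      have h7 : 0 ≤ (1 + Ψ) * ((1 + x) * Real.exp (2 * g * x)) := by positivity
      have h8 : (1 + Ψ + M * (1 + c₀)) * (1 + x) * Real.exp (2 * g * x)
          = (1 + Ψ) * ((1 + x) * Real.exp (2 * g * x))
            + M * (1 + c₀) * ((1 + x) * Real.exp (2 * g * x)) := by ring
      rw [h8]
      linarith
    · refine h1'.trans (mul_le_mul_of_nonneg_right ?_ (Real.exp_pos _).le)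
      have h3 : 0 ≤ M * (1 + c₀) := by positivity
      nlinarith

end Pool.Agent.Domar
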