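import Pool.Agent.Lib.MP_af79d0_an.Defs
import Pool.Agent.Lib.MP_af79d0_an.BGOr
import Pool.Agent.Lib.MP_af79d0_an.CutLemmas
import Pool.Agent.Lib.MP_af79d0_an.Correlation
import Pool.Agent.Lib.MP_af79d0_an.Plancherel
import Pool.Agent.Lib.MP_af79d0_an.ThreeLines
import Pool.Agent.Lib.MP_af79d0_an.UBounds
import Pool.Agent.Lib.MP_af79d0_an.PhiInt
import Pool.Agent.Lib.MP_af79d0_an.PhiBasic

set_option autoImplicit false
open MeasureTheory Filter Topology Set

namespace Pool.Agent.Domar


namespace F4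

/-- two dimensional bound, `lintegral` form -/
lemma qL (W : ℝ → ℝ) (f h : ℝ → ℂ) (ho : Ori1 W f h ∨ Ori2 W f h) (hWm : Measurable W)
    (κ : ℝ → ℂ) (hκ : Continuous κ) (a b : ℝ) (hsupp : ∀ s, s ∉ Icc a b → κ s = 0) :
    ∃ C : ℝ, 0 ≤ C ∧ ∀ (q : ℝ) (D : ℝ → ℝ → Prop),
      (∀ x y, D x y → a ≤ x - y → x - y ≤ b → W x - W y ≤ -q) →
      ∀ F : ℝ → ℝ → ℂ, (∀ x y, ¬ D x y → F x y = 0) →
        (∀ x y, ‖F x y‖ ≤ ‖h x‖ * ‖f y‖ * ‖κ (x - y)‖) →
        ∫⁻ x, ∫⁻ y, ‖F x y‖ₑ ≤ ENNReal.ofReal (C * Real.exp (-q)) := by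
  have hcs : HasCompactSupport κ := by
    apply HasCompactSupport.of_support_subset_isCompact (isCompact_Icc (a := a) (b := b))
    intro s hs
    by_contra hcon
    exact hs (hsupp s hcon)
  have hκi : Integrable κ := hκ.integrable_of_hasCompactSupport hcs
  have hκm : Measurable κ := hκ.measurable
  rcases ho with ho | ho
  · obtain ⟨M, hM⟩ := ho.hbd
    have hM0 : 0 ≤ M := by
      have := (norm_nonneg _).trans (hM 0)
      by_contra hcon
      push Not at hcon
      nlinarith [Real.exp_pos (W 0)]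
    refine ⟨M * (∫ y, ‖f y‖ * Real.exp (W y)) * (∫ s, ‖κ s‖), ?_, ?_⟩
    · have h1 : 0 ≤ ∫ y, ‖f y‖ * Real.exp (W y) := integral_nonneg (fun y => by positivity)
      have h2 : 0 ≤ ∫ s, ‖κ s‖ := integral_nonneg (fun y => by positivity)
      positivity
    intro q D hD F hF0 hF
    have hpt : ∀ x y, ‖F x y‖ₑ ≤ ENNReal.ofReal (M * Real.exp (-q)) *
        (ENNReal.ofReal (‖f y‖ * Real.exp (W y)) * ‖κ (x - y)‖ₑ) := by
      intro x y
      by_cases hd : D x y
      · by_cases hs : x - y ∈ Icc a b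
        · have h1 := hD x y hd hs.1 hs.2
          rw [← ofReal_norm, ← ofReal_norm (κ (x - y)),
            ← ENNReal.ofReal_mul (by positivity), ← ENNReal.ofReal_mul (by positivity)]
          apply ENNReal.ofReal_le_ofReal
          refine (hF x y).trans ?_
          have h2 := hM x
          have h3 : Real.exp (W x) ≤ Real.exp (-q) * Real.exp (W y) := by
            rw [← Real.exp_add]
            apply Real.exp_le_exp.mpr
            linarith
          calc ‖h x‖ * ‖f y‖ * ‖κ (x - y)‖ ≤ (M * (Real.exp (-q) * Real.exp (W y))) * ‖f y‖ *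
                ‖κ (x - y)‖ := by
                gcongr
                exact h2.trans (mul_le_mul_of_nonneg_left h3 hM0)
            _ = _ := by ring
        · have : F x y = 0 := by
            have := hF x y
            rw [hsupp _ hs, norm_zero, mul_zero] at this
            exact norm_le_zero_iff.mp this
          rw [this]; simp
      · rw [hF0 x y hd]; simp
    calc ∫⁻ x, ∫⁻ y, ‖F x y‖ₑ ≤ ∫⁻ x, ∫⁻ y, ENNReal.ofReal (M * Real.exp (-q)) *
        (ENNReal.ofReal (‖f y‖ * Real.exp (W y)) * ‖κ (x - y)‖ₑ) :=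
          lintegral_mono (fun x => lintegral_mono (fun y => hpt x y))
      _ = ENNReal.ofReal (M * Real.exp (-q)) * ∫⁻ x, ∫⁻ y,
        (ENNReal.ofReal (‖f y‖ * Real.exp (W y)) * ‖κ (x - y)‖ₑ) := by
          rw [← lintegral_const_mul' _ _ ENNReal.ofReal_ne_top]
          congr 1
          ext x
          rw [lintegral_const_mul' _ _ ENNReal.ofReal_ne_top]
      _ = ENNReal.ofReal (M * Real.exp (-q)) * ∫⁻ y, ∫⁻ x,
        (ENNReal.ofReal (‖f y‖ * Real.exp (W y)) * ‖κ (x - y)‖ₑ) := by
          rw [lintegral_lintegral_swap]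
          apply Measurable.aemeasurable
          have m1 : Measurable (fun p : ℝ × ℝ => ENNReal.ofReal (‖f p.2‖ * Real.exp (W p.2))) := by
            apply Measurable.ennreal_ofReal
            exact ((ho.fm.comp measurable_snd).norm).mul
              (Real.measurable_exp.comp (hWm.comp measurable_snd))
          have m2 : Measurable (fun p : ℝ × ℝ => ‖κ (p.1 - p.2)‖ₑ) :=
            (hκm.comp (measurable_fst.sub measurable_snd)).enorm
          exact m1.mul m2
      _ = ENNReal.ofReal (M * Real.exp (-q)) * ∫⁻ y,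
        (ENNReal.ofReal (‖f y‖ * Real.exp (W y)) * ∫⁻ s, ‖κ s‖ₑ) := by
          congr 1
          congr 1
          ext y
          rw [lintegral_const_mul' _ _ ENNReal.ofReal_ne_top]
          congr 1
          exact lintegral_sub_right_eq_self (fun s => ‖κ s‖ₑ) y
      _ = ENNReal.ofReal (M * Real.exp (-q)) * ((∫⁻ y,
        (ENNReal.ofReal (‖f y‖ * Real.exp (W y)))) * ∫⁻ s, ‖κ s‖ₑ) := by
          rw [lintegral_mul_const']
          exact hκi.hasFiniteIntegral.ne
      _ = _ := by
          rw [← ofReal_integral_eq_lintegral_ofReal ho.fint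
            (Eventually.of_forall (fun y => by positivity)),
            ← ofReal_integral_norm_eq_lintegral_enorm hκi,
            ← ENNReal.ofReal_mul (integral_nonneg (fun y => by positivity)),
            ← ENNReal.ofReal_mul (by positivity)]
          congr 1
          ring
  · obtain ⟨M, hM⟩ := ho.fbd
    have hM0 : 0 ≤ M := by
      have := (norm_nonneg _).trans (hM 0)
      by_contra hcon
      push Not at hcon
      nlinarith [Real.exp_pos (-W 0)]
    refine ⟨M * (∫ y, ‖h y‖ * Real.exp (-W y)) * (∫ s, ‖κ s‖), ?_, ?_⟩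
    · have h1 : 0 ≤ ∫ y, ‖h y‖ * Real.exp (-W y) := integral_nonneg (fun y => by positivity)
      have h2 : 0 ≤ ∫ s, ‖κ s‖ := integral_nonneg (fun y => by positivity)
      positivity
    intro q D hD F hF0 hF
    have hpt : ∀ x y, ‖F x y‖ₑ ≤ ENNReal.ofReal (M * Real.exp (-q)) *
        (ENNReal.ofReal (‖h x‖ * Real.exp (-W x)) * ‖κ (x - y)‖ₑ) := by
      intro x y
      by_cases hd : D x y
      · by_cases hs : x - y ∈ Icc a b
        · have h1 := hD x y hd hs.1 hs.2
          rw [← ofReal_norm, ← ofReal_norm (κ (x - y)),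
            ← ENNReal.ofReal_mul (by positivity), ← ENNReal.ofReal_mul (by positivity)]
          apply ENNReal.ofReal_le_ofReal
          refine (hF x y).trans ?_
          have h2 := hM y
          have h3 : Real.exp (-W y) ≤ Real.exp (-q) * Real.exp (-W x) := by
            rw [← Real.exp_add]
            apply Real.exp_le_exp.mpr
            linarith
          calc ‖h x‖ * ‖f y‖ * ‖κ (x - y)‖ ≤ ‖h x‖ * (M * (Real.exp (-q) * Real.exp (-W x))) *
                ‖κ (x - y)‖ := by
                gcongr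
                exact h2.trans (mul_le_mul_of_nonneg_left h3 hM0)
            _ = _ := by ring
        · have : F x y = 0 := by
            have := hF x y
            rw [hsupp _ hs, norm_zero, mul_zero] at this
            exact norm_le_zero_iff.mp this
          rw [this]; simp
      · rw [hF0 x y hd]; simp
    calc ∫⁻ x, ∫⁻ y, ‖F x y‖ₑ ≤ ∫⁻ x, ∫⁻ y, ENNReal.ofReal (M * Real.exp (-q)) *
        (ENNReal.ofReal (‖h x‖ * Real.exp (-W x)) * ‖κ (x - y)‖ₑ) :=
          lintegral_mono (fun x => lintegral_mono (fun y => hpt x y))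
      _ = ENNReal.ofReal (M * Real.exp (-q)) * ∫⁻ x, ∫⁻ y,
        (ENNReal.ofReal (‖h x‖ * Real.exp (-W x)) * ‖κ (x - y)‖ₑ) := by
          rw [← lintegral_const_mul' _ _ ENNReal.ofReal_ne_top]
          congr 1
          ext x
          rw [lintegral_const_mul' _ _ ENNReal.ofReal_ne_top]
      _ = ENNReal.ofReal (M * Real.exp (-q)) * ∫⁻ x,
        (ENNReal.ofReal (‖h x‖ * Real.exp (-W x)) * ∫⁻ s, ‖κ s‖ₑ) := by
          congr 1
          congr 1
          ext x
          rw [lintegral_const_mul' _ _ ENNReal.ofReal_ne_top]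
          congr 1
          exact lintegral_sub_left_eq_self (fun s => ‖κ s‖ₑ) x
      _ = ENNReal.ofReal (M * Real.exp (-q)) * ((∫⁻ y,
        (ENNReal.ofReal (‖h y‖ * Real.exp (-W y)))) * ∫⁻ s, ‖κ s‖ₑ) := by
          rw [lintegral_mul_const']
          exact hκi.hasFiniteIntegral.ne
      _ = _ := by
          rw [← ofReal_integral_eq_lintegral_ofReal ho.hint
            (Eventually.of_forall (fun y => by positivity)),
            ← ofReal_integral_norm_eq_lintegral_enorm hκi,
            ← ENNReal.ofReal_mul (integral_nonneg (fun y => by positivity)),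
            ← ENNReal.ofReal_mul (by positivity)]
          congr 1
          ring

end F4

theorem ori_locInt (W : ℝ → ℝ) (hW : NW W) (f h : ℝ → ℂ) (ho : Ori1 W f h ∨ Ori2 W f h) :
    LocallyIntegrable f := by
  rcases ho with ho | ho
  · have h0 : LocallyIntegrable (fun x => ‖f x‖ * Real.exp (W x)) := ho.fint.locallyIntegrable
    have hc : Continuous (fun x => Real.exp (-W x)) := by
      have := hW.cont
      fun_prop
    have h1 : LocallyIntegrable (fun x => Real.exp (-W x) * (‖f x‖ * Real.exp (W x))) :=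
      h0.continuous_mul hc
    refine h1.mono ho.fm.aestronglyMeasurable (Eventually.of_forall (fun x => ?_))
    have e : Real.exp (-W x) * (‖f x‖ * Real.exp (W x)) = ‖f x‖ := by
      rw [mul_comm, mul_assoc, ← Real.exp_add]
      simp
    rw [e, norm_norm]
  · obtain ⟨M, hM⟩ := ho.fbd
    have hc : Continuous (fun x => M * Real.exp (-W x)) := by
      have := hW.cont
      fun_prop
    refine hc.locallyIntegrable.mono ho.fm.aestronglyMeasurable (Eventually.of_forall (fun x => ?_))
    exact (hM x).trans (le_abs_self _)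

theorem ori_hm {W : ℝ → ℝ} {f h : ℝ → ℂ} (ho : Ori1 W f h ∨ Ori2 W f h) : Measurable h := by
  rcases ho with ho | ho
  · exact ho.hm
  · exact ho.hm

theorem ori_fm {W : ℝ → ℝ} {f h : ℝ → ℂ} (ho : Ori1 W f h ∨ Ori2 W f h) : Measurable f := by
  rcases ho with ho | ho
  · exact ho.fm
  · exact ho.fm

namespace F4

/-- the `L²` hypothesis of `three_lines` from the bound of `b_g` -/
lemma l2hyp (f h : ℝ → ℂ) (g X Y A₀ : ℝ)
    (hu1 : Integrable (fun y => (Iio X).indicator f y * (Real.exp (-(g * y)) : ℂ)))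
    (hv1 : Integrable (fun y => (Ioi (-Y)).indicator h y * (Real.exp (g * y) : ℂ)))
    (hb : ∫⁻ s, ‖bg f h g X Y s‖ₑ ^ 2 ≤ ENNReal.ofReal A₀) :
    ∫⁻ t : ℝ, ‖(∫ y, (Iio X).indicator f y * Complex.exp (-((g + Complex.I * t) * y))) *
        (∫ x, (Ioi (-Y)).indicator h x * Complex.exp ((g + Complex.I * t) * x))‖ₑ ^ 2
      ≤ ENNReal.ofReal (2 * Real.pi) * ENNReal.ofReal A₀ := by
  obtain ⟨hci, hcF⟩ := correlation _ _ hu1 hv1
  have hbeq : (fun s => ∫ y, ((Iio X).indicator f y * (Real.exp (-(g * y)) : ℂ)) *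
      ((Ioi (-Y)).indicator h (y + s) * (Real.exp (g * (y + s)) : ℂ))) = bg f h g X Y := by
    ext s
    unfold bg
    rw [← integral_const_mul]
    congr 1
    ext y
    have : (Real.exp (g * s) : ℂ) = (Real.exp (-(g * y)) : ℂ) * (Real.exp (g * (y + s)) : ℂ) := by
      rw [← Complex.ofReal_mul, ← Real.exp_add]
      congr 2
      ring
    rw [this]
    ring
  rw [hbeq] at hci
  have hmem : MemLp (bg f h g X Y) 2 := by
    refine ⟨hci.aestronglyMeasurable, ?_⟩
    rw [eLpNorm_lt_top_iff_lintegral_rpow_enorm_lt_top (by norm_num) (by norm_num)]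
    simp only [ENNReal.toReal_ofNat, ENNReal.rpow_ofNat]
    exact hb.trans_lt ENNReal.ofReal_lt_top
  have hpl := plancherel (bg f h g X Y) hci hmem
  have hpt : ∀ t : ℝ, (∫ s, bg f h g X Y s * Complex.exp (Complex.I * t * s))
      = (∫ y, (Iio X).indicator f y * Complex.exp (-((g + Complex.I * t) * y))) *
        (∫ x, (Ioi (-Y)).indicator h x * Complex.exp ((g + Complex.I * t) * x)) := by
    intro t
    have := hcF t
    simp only [← hbeq]
    rw [this]
    congr 1
    · congr 1
      ext y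
      rw [mul_assoc, Complex.ofReal_exp, ← Complex.exp_add]
      congr 2
      push_cast
      ring
    · congr 1
      ext y
      rw [mul_assoc, Complex.ofReal_exp, ← Complex.exp_add]
      congr 2
      push_cast
      ring
  simp_rw [hpt] at hpl
  rw [hpl]
  gcongr

/-- the second part and the tail -/
lemma J_bounds (W : ℝ → ℝ) (f h κ : ℝ → ℂ) (a b : ℝ) (ha : 0 < a)
    (hsupp : ∀ s, s ∉ Icc a b → κ s = 0) (C₃ : ℝ)
    (hC₃ : ∀ (q : ℝ) (D : ℝ → ℝ → Prop),
      (∀ x y, D x y → a ≤ x - y → x - y ≤ b → W x - W y ≤ -q) →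
      ∀ F : ℝ → ℝ → ℂ, (∀ x y, ¬ D x y → F x y = 0) →
        (∀ x y, ‖F x y‖ ≤ ‖h x‖ * ‖f y‖ * ‖κ (x - y)‖) →
        ∫⁻ x, ∫⁻ y, ‖F x y‖ₑ ≤ ENNReal.ofReal (C₃ * Real.exp (-q)))
    (g X Y δ : ℝ) (hg : 0 < g) (hδ : 0 < δ) (hcut : Cut W g X Y) :
    (∫⁻ x, ‖(Ioi (-Y)).indicator h x * (∫ y, (Ici X).indicator f y * κ (x - y)) *
        (Real.exp (-(δ * x)) : ℂ)‖ₑ ≤ ENNReal.ofReal (C₃ * Real.exp (-(g * a)))) ∧
    (∫⁻ x in Iic (-Y), ‖h x * ∫ y, f y * κ (x - y)‖ₑ
      ≤ ENNReal.ofReal (C₃ * Real.exp (-(g * a)))) := by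
  constructor
  · refine le_trans ?_ (hC₃ (g * a) (fun x y => -Y < x ∧ X ≤ y ∧ a ≤ x - y) ?_
      (fun x y => (Ioi (-Y)).indicator h x * ((Ici X).indicator f y * κ (x - y)) *
        (Real.exp (-(δ * x)) : ℂ)) ?_ ?_)
    · apply lintegral_mono
      intro x
      simp only
      have : (Ioi (-Y)).indicator h x * (∫ y, (Ici X).indicator f y * κ (x - y)) *
          (Real.exp (-(δ * x)) : ℂ) = ∫ y, (Ioi (-Y)).indicator h x *
          ((Ici X).indicator f y * κ (x - y)) * (Real.exp (-(δ * x)) : ℂ) := by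
        rw [integral_mul_const, integral_const_mul]
      rw [this]
      exact enorm_integral_le_lintegral_enorm _
    · intro x y hD h1 h2
      obtain ⟨h3, h4, h5⟩ := hD
      have := hcut.right (a := y) (b := x) h4 (by simp only [mem_Ici]; linarith) (by linarith)
      simp only at this
      nlinarith
    · intro x y hD
      simp only [not_and_or, not_lt, not_le] at hD
      rcases hD with h1 | h1 | h1
      · rw [indicator_of_notMem (show x ∉ Ioi (-Y) from not_lt.mpr h1)]
        simp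
      · rw [indicator_of_notMem (show y ∉ Ici X from not_le.mpr h1)]
        simp
      · rw [hsupp (x - y) (fun hc => absurd hc.1 (not_le.mpr h1))]
        simp
    · intro x y
      by_cases hy : y ∈ Ici X
      · by_cases hk : κ (x - y) = 0
        · rw [hk]; simp
        · have hm : x - y ∈ Icc a b := by
            by_contra hc
            exact hk (hsupp _ hc)
          have hx0 : 0 ≤ x := by
            have h1 : X ≤ y := hy
            have h2 := hm.1
            have h3 := hcut.X0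
            linarith
          rw [norm_mul, norm_mul, norm_mul]
          have e1 : ‖((Real.exp (-(δ * x)) : ℝ) : ℂ)‖ ≤ 1 := by
            rw [Complex.norm_real, Real.norm_of_nonneg (Real.exp_pos _).le]
            apply Real.exp_le_one_iff.mpr
            have := mul_nonneg hδ.le hx0
            linarith
          have e2 : ‖(Ioi (-Y)).indicator h x‖ ≤ ‖h x‖ := norm_indicator_le_norm_self _ _
          have e3 : ‖(Ici X).indicator f y‖ ≤ ‖f y‖ := norm_indicator_le_norm_self _ _
          calc ‖(Ioi (-Y)).indicator h x‖ * (‖(Ici X).indicator f y‖ * ‖κ (x - y)‖) *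
              ‖((Real.exp (-(δ * x)) : ℝ) : ℂ)‖
              ≤ ‖h x‖ * (‖f y‖ * ‖κ (x - y)‖) * 1 := by gcongr
            _ = _ := by ring
      · rw [indicator_of_notMem hy]
        simp only [zero_mul, mul_zero, norm_zero]
        positivity
  · refine le_trans ?_ (hC₃ (g * a) (fun x y => x ≤ -Y ∧ a ≤ x - y) ?_
      (fun x y => (Iic (-Y)).indicator h x * (f y * κ (x - y))) ?_ ?_)
    · rw [← lintegral_indicator measurableSet_Iic]
      apply lintegral_mono
      intro x
      simp only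
      by_cases hx : x ∈ Iic (-Y)
      · rw [indicator_of_mem hx, indicator_of_mem hx, ← integral_const_mul]
        exact enorm_integral_le_lintegral_enorm _
      · rw [indicator_of_notMem hx]
        exact zero_le
    · intro x y hD h1 h2
      obtain ⟨h3, h4⟩ := hD
      have := hcut.left (a := y) (b := x) (by simp only [mem_Iic]; linarith) h3 (by linarith)
      simp only at this
      nlinarith
    · intro x y hD
      simp only [not_and_or, not_le] at hD
      rcases hD with h1 | h1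
      · rw [indicator_of_notMem (show x ∉ Iic (-Y) from not_le.mpr h1)]
        simp
      · rw [hsupp (x - y) (fun hc => absurd hc.1 (not_le.mpr h1))]
        simp
    · intro x y
      rw [norm_mul, norm_mul]
      have e2 : ‖(Iic (-Y)).indicator h x‖ ≤ ‖h x‖ := norm_indicator_le_norm_self _ _
      calc ‖(Iic (-Y)).indicator h x‖ * (‖f y‖ * ‖κ (x - y)‖)
          ≤ ‖h x‖ * (‖f y‖ * ‖κ (x - y)‖) := by gcongr
        _ = _ := by ring

/-- decomposition of `Phi` -/
lemma Phi_decomp (f h κ : ℝ → ℂ) (hf : LocallyIntegrable f) (hfm : Measurable f)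
    (hhm : Measurable h) (hκ : Continuous κ) (hcs : HasCompactSupport κ)
    (hφ : Integrable (fun x => h x * ∫ y, f y * κ (x - y)))
    (X Y x δ E : ℝ) (hE : 0 ≤ E) (hδ : 0 < δ) (hYx : Y ≤ x) (hx : 0 ≤ x)
    (h1 : ∫⁻ x, ‖(Ioi (-Y)).indicator h x * (∫ y, (Ici X).indicator f y * κ (x - y)) *
        (Real.exp (-(δ * x)) : ℂ)‖ₑ ≤ ENNReal.ofReal E)
    (h2 : ∫⁻ x in Iic (-Y), ‖h x * ∫ y, f y * κ (x - y)‖ₑ ≤ ENNReal.ofReal E) :
    ‖Phi (fun x => h x * ∫ y, f y * κ (x - y)) x (δ * Complex.I)‖ ≤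
      ‖∫ x, (Ioi (-Y)).indicator h x * (∫ y, (Iio X).indicator f y * κ (x - y)) *
        (Real.exp (-(δ * x)) : ℂ)‖ + E + E * Real.exp (δ * x) := by
  set φκ : ℝ → ℂ := fun x => h x * ∫ y, f y * κ (x - y) with hφκ
  -- Phi as an integral
  have hP : Phi φκ x (δ * Complex.I) = ∫ s in Ioi (-x), φκ s * (Real.exp (-(δ * s)) : ℂ) := by
    unfold Phi
    congr 1
    ext s
    congr 1
    rw [Complex.ofReal_exp]
    congr 1
    have : Complex.I * ((δ : ℂ) * Complex.I) * s = (Complex.I * Complex.I) * δ * s := by ring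
    rw [this, Complex.I_mul_I]
    push_cast
    ring
  have hexpm : Continuous (fun s : ℝ => ((Real.exp (-(δ * s)) : ℝ) : ℂ)) := by fun_prop
  have hint : IntegrableOn (fun s => φκ s * (Real.exp (-(δ * s)) : ℂ)) (Ioi (-x)) := by
    have h0 : IntegrableOn φκ (Ioi (-x)) := hφ.integrableOn
    refine Integrable.mul_bdd (c := Real.exp (δ * x)) h0 hexpm.aestronglyMeasurable ?_
    refine (ae_restrict_iff' measurableSet_Ioi).mpr (Eventually.of_forall (fun s hs => ?_))
    rw [Complex.norm_real, Real.norm_of_nonneg (Real.exp_pos _).le]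
    apply Real.exp_le_exp.mpr
    have h3 : -x < s := hs
    nlinarith
  have hun : Ioi (-x) = Ioc (-x) (-Y) ∪ Ioi (-Y) := (Ioc_union_Ioi_eq_Ioi (by linarith)).symm
  have hsplit : (∫ s in Ioi (-x), φκ s * (Real.exp (-(δ * s)) : ℂ))
      = (∫ s in Ioc (-x) (-Y), φκ s * (Real.exp (-(δ * s)) : ℂ)) +
        ∫ s in Ioi (-Y), φκ s * (Real.exp (-(δ * s)) : ℂ) := by
    rw [hun]
    apply setIntegral_union
    · rw [Set.disjoint_left]
      intro s hs hs'
      exact absurd hs.2 (not_le.mpr hs')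
    · exact measurableSet_Ioi
    · exact hint.mono_set (by rw [hun]; exact subset_union_left)
    · exact hint.mono_set (by rw [hun]; exact subset_union_right)
  -- middle part
  have hmid : ‖∫ s in Ioc (-x) (-Y), φκ s * (Real.exp (-(δ * s)) : ℂ)‖ ≤ E * Real.exp (δ * x) := by
    have key : ‖∫ s in Ioc (-x) (-Y), φκ s * (Real.exp (-(δ * s)) : ℂ)‖ₑ
        ≤ ENNReal.ofReal (E * Real.exp (δ * x)) := by
      refine (enorm_integral_le_lintegral_enorm _).trans ?_
      calc ∫⁻ s in Ioc (-x) (-Y), ‖φκ s * (Real.exp (-(δ * s)) : ℂ)‖ₑ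
          ≤ ∫⁻ s in Ioc (-x) (-Y), ‖φκ s‖ₑ * ENNReal.ofReal (Real.exp (δ * x)) := by
            refine setLIntegral_mono' measurableSet_Ioc ?_
            intro s hs
            rw [enorm_mul]
            gcongr
            rw [← ofReal_norm, Complex.norm_real, Real.norm_of_nonneg (Real.exp_pos _).le]
            apply ENNReal.ofReal_le_ofReal
            apply Real.exp_le_exp.mpr
            nlinarith [hs.1]
        _ = (∫⁻ s in Ioc (-x) (-Y), ‖φκ s‖ₑ) * ENNReal.ofReal (Real.exp (δ * x)) := by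
            rw [lintegral_mul_const' _ _ ENNReal.ofReal_ne_top]
        _ ≤ ENNReal.ofReal E * ENNReal.ofReal (Real.exp (δ * x)) := by
            gcongr
            exact (lintegral_mono_set Ioc_subset_Iic_self).trans h2
        _ = _ := by rw [← ENNReal.ofReal_mul hE]
    rw [← ofReal_norm] at key
    exact (ENNReal.ofReal_le_ofReal_iff (by positivity)).mp key
  -- right part
  set v : ℝ → ℂ := (Ioi (-Y)).indicator h with hv
  have hκs : ∀ s : ℝ, Continuous (fun y => κ (s - y)) := fun s => by fun_prop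
  have hcs' : ∀ s : ℝ, HasCompactSupport (fun y => κ (s - y)) := by
    intro s
    exact hcs.comp_homeomorph (Homeomorph.subLeft s)
  have hfi : ∀ s : ℝ, ∀ A : Set ℝ, MeasurableSet A →
      Integrable (fun y => A.indicator f y * κ (s - y)) := by
    intro s A hA
    have h3 : LocallyIntegrable (A.indicator f) := hf.indicator hA
    have := h3.integrable_smul_left_of_hasCompactSupport (hκs s) (hcs' s)
    refine this.congr (Eventually.of_forall (fun y => ?_))
    simp only [smul_eq_mul]
    ring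
  have hadd : ∀ s : ℝ, (∫ y, f y * κ (s - y))
      = (∫ y, (Iio X).indicator f y * κ (s - y)) + ∫ y, (Ici X).indicator f y * κ (s - y) := by
    intro s
    rw [← integral_add (hfi s _ measurableSet_Iio) (hfi s _ measurableSet_Ici)]
    congr 1
    ext y
    by_cases hy : y < X
    · rw [indicator_of_mem (show y ∈ Iio X from hy),
        indicator_of_notMem (show y ∉ Ici X from not_le.mpr hy)]
      simp
    · rw [indicator_of_notMem (show y ∉ Iio X from hy),
        indicator_of_mem (show y ∈ Ici X from not_lt.mp hy)]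
      simp
  have hright : (∫ s in Ioi (-Y), φκ s * (Real.exp (-(δ * s)) : ℂ))
      = (∫ x, v x * (∫ y, (Iio X).indicator f y * κ (x - y)) * (Real.exp (-(δ * x)) : ℂ)) +
        ∫ x, v x * (∫ y, (Ici X).indicator f y * κ (x - y)) * (Real.exp (-(δ * x)) : ℂ) := by
    have htot : Integrable (fun s => v s * (∫ y, f y * κ (s - y)) * (Real.exp (-(δ * s)) : ℂ)) := by
      have := (hint.mono_set (by rw [hun]; exact subset_union_right :
        Ioi (-Y) ⊆ Ioi (-x))).integrable_indicator measurableSet_Ioi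
      refine this.congr (Eventually.of_forall (fun s => ?_))
      simp only
      by_cases hs : s ∈ Ioi (-Y)
      · rw [indicator_of_mem hs, hv, indicator_of_mem hs]
      · rw [indicator_of_notMem hs, hv, indicator_of_notMem hs]
        simp
    have h2nd : Integrable (fun s => v s * (∫ y, (Ici X).indicator f y * κ (s - y)) *
        (Real.exp (-(δ * s)) : ℂ)) := by
      refine ⟨?_, ?_⟩
      · apply AEStronglyMeasurable.mul _ hexpm.aestronglyMeasurable
        apply AEStronglyMeasurable.mul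
        · exact (hhm.indicator measurableSet_Ioi).aestronglyMeasurable
        · apply StronglyMeasurable.aestronglyMeasurable
          apply StronglyMeasurable.integral_prod_right (f := fun s y => (Ici X).indicator f y * κ (s - y))
          apply Measurable.stronglyMeasurable
          have m1 : Measurable (fun p : ℝ × ℝ => (Ici X).indicator f p.2) :=
            (hfm.indicator measurableSet_Ici).comp measurable_snd
          have m2 : Measurable (fun p : ℝ × ℝ => κ (p.1 - p.2)) :=
            hκ.measurable.comp (measurable_fst.sub measurable_snd)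
          exact m1.mul m2
      · exact h1.trans_lt ENNReal.ofReal_lt_top
    have h1st : Integrable (fun s => v s * (∫ y, (Iio X).indicator f y * κ (s - y)) *
        (Real.exp (-(δ * s)) : ℂ)) := by
      refine (htot.sub h2nd).congr (Eventually.of_forall (fun s => ?_))
      simp only [Pi.sub_apply]
      rw [hadd s]
      ring
    rw [← integral_add h1st h2nd, ← integral_indicator measurableSet_Ioi]
    congr 1
    ext s
    by_cases hs : s ∈ Ioi (-Y)
    · rw [indicator_of_mem hs, hv, indicator_of_mem hs, hφκ]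
      simp only
      rw [hadd s]
      ring
    · rw [indicator_of_notMem hs, hv, indicator_of_notMem hs]
      simp
  have hJ2 : ‖∫ x, v x * (∫ y, (Ici X).indicator f y * κ (x - y)) *
      (Real.exp (-(δ * x)) : ℂ)‖ ≤ E := by
    have key : ‖∫ x, v x * (∫ y, (Ici X).indicator f y * κ (x - y)) *
      (Real.exp (-(δ * x)) : ℂ)‖ₑ ≤ ENNReal.ofReal E :=
      (enorm_integral_le_lintegral_enorm _).trans h1
    rw [← ofReal_norm] at key
    exact (ENNReal.ofReal_le_ofReal_iff hE).mp key
  rw [hP, hsplit, hright]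
  refine (norm_add_le _ _).trans ?_
  have := norm_add_le (∫ x, v x * (∫ y, (Iio X).indicator f y * κ (x - y)) *
    (Real.exp (-(δ * x)) : ℂ)) (∫ x, v x * (∫ y, (Ici X).indicator f y * κ (x - y)) *
    (Real.exp (-(δ * x)) : ℂ))
  linarith

/-- elementary estimate -/
lemma elem (a s x g δ C₁ : ℝ) (ha : 0 < a) (hs : 5 ≤ s) (hx : 1 ≤ x) (hax : a ≤ x)
    (hC₁ : 1 ≤ C₁) (hg1 : s / 2 - 3 / 2 ≤ g) (hδ : 0 < δ)
    (hδ1 : δ ≤ 10 * (a * s / (40000 * x))) :
    Real.exp (-(g * a)) * ((C₁ * (1 + x)) ^ 2 * Real.exp (3 * g * x)) ^ (δ / (2 * g))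
      ≤ Real.exp (3 * a / 2 + a * C₁ / 400) * Real.exp (-(a * s / 4)) := by
  have hx0 : 0 < x := by linarith
  have hg0 : 0 < g := by linarith
  have hgs : s / 5 ≤ g := by linarith
  have hCx : 0 < C₁ * (1 + x) := by positivity
  -- rewrite
  have e1 : ((C₁ * (1 + x)) ^ 2 * Real.exp (3 * g * x)) ^ (δ / (2 * g))
      = (C₁ * (1 + x)) ^ (δ / g) * Real.exp (3 * x * δ / 2) := by
    rw [Real.mul_rpow (by positivity) (Real.exp_pos _).le, ← Real.rpow_natCast,
      ← Real.rpow_mul hCx.le, ← Real.exp_mul]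
    congr 2
    · push_cast
      field_simp
    · field_simp
  rw [e1]
  have hθ : δ / g ≤ a / (800 * x) := by
    rw [div_le_iff₀ hg0]
    have h1 : a / (800 * x) * (s / 5) ≤ a / (800 * x) * g := by gcongr
    have h2 : a / (800 * x) * (s / 5) = 10 * (a * s / (40000 * x)) := by
      field_simp
      ring
    linarith
  have e2 : (C₁ * (1 + x)) ^ (δ / g) ≤ Real.exp (a * C₁ / 400) := by
    have h3 : C₁ * (1 + x) ≤ Real.exp (C₁ * (1 + x)) := by
      linarith [Real.add_one_le_exp (C₁ * (1 + x))]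
    calc (C₁ * (1 + x)) ^ (δ / g) ≤ (Real.exp (C₁ * (1 + x))) ^ (δ / g) := by
          apply Real.rpow_le_rpow hCx.le h3 (by positivity)
      _ = Real.exp (C₁ * (1 + x) * (δ / g)) := by rw [← Real.exp_mul]
      _ ≤ Real.exp (a * C₁ / 400) := by
          apply Real.exp_le_exp.mpr
          have h4 : C₁ * (1 + x) * (δ / g) ≤ (C₁ * (2 * x)) * (a / (800 * x)) := by
            gcongr
            linarith
          have h5 : (C₁ * (2 * x)) * (a / (800 * x)) = a * C₁ / 400 := by
            field_simp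
            ring
          linarith
  have e3 : Real.exp (3 * x * δ / 2) ≤ Real.exp (3 * a * s / 8000) := by
    apply Real.exp_le_exp.mpr
    have h6 : x * δ ≤ x * (10 * (a * s / (40000 * x))) := by gcongr
    have h7 : x * (10 * (a * s / (40000 * x))) = a * s / 4000 := by
      field_simp
      ring
    linarith
  have e4 : Real.exp (-(g * a)) ≤ Real.exp (3 * a / 2 - a * s / 2) := by
    apply Real.exp_le_exp.mpr
    nlinarith
  calc Real.exp (-(g * a)) * ((C₁ * (1 + x)) ^ (δ / g) * Real.exp (3 * x * δ / 2))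
      ≤ Real.exp (3 * a / 2 - a * s / 2) * (Real.exp (a * C₁ / 400) *
        Real.exp (3 * a * s / 8000)) := by gcongr
    _ = Real.exp (3 * a / 2 - a * s / 2 + (a * C₁ / 400 + 3 * a * s / 8000)) := by
        rw [← Real.exp_add, ← Real.exp_add]
    _ ≤ Real.exp (3 * a / 2 + a * C₁ / 400 + -(a * s / 4)) := by
        apply Real.exp_le_exp.mpr
        have : 0 < a * s := by positivity
        linarith
    _ = _ := by rw [Real.exp_add]

lemma elem2 (a s x g δ : ℝ) (ha : 0 < a) (hs : 5 ≤ s) (hx : 1 ≤ x)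
    (hg1 : s / 2 - 3 / 2 ≤ g) (hδ : 0 < δ)
    (hδ1 : δ ≤ 10 * (a * s / (40000 * x))) :
    Real.exp (-(g * a)) * Real.exp (δ * x) ≤ Real.exp (3 * a / 2) * Real.exp (-(a * s / 4)) := by
  have hx0 : 0 < x := by linarith
  rw [← Real.exp_add, ← Real.exp_add]
  apply Real.exp_le_exp.mpr
  have h6 : x * δ ≤ x * (10 * (a * s / (40000 * x))) := by gcongr
  have h7 : x * (10 * (a * s / (40000 * x))) = a * s / 4000 := by
    field_simp
    ring
  have : 0 < a * s := by positivity
  nlinarith

end F4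

open F4 in
theorem F4 (W : ℝ → ℝ) (hW : NW W) (f h : ℝ → ℂ) (ho : Ori1 W f h ∨ Ori2 W f h)
    (hK : ∀ s : ℝ, 0 < s → ∫ y, f y * h (y + s) = 0)
    (κ : ℝ → ℂ) (hκ : ContDiff ℝ 2 κ) (a b : ℝ) (ha : 0 < a) (hab : a ≤ b)
    (hsupp : ∀ s, s ∉ Icc a b → κ s = 0) :
    ∃ C x₀ : ℝ, ∀ x, x₀ ≤ x → ∀ δ : ℝ, 0 < δ → δ ≤ 10 * (a * (W (-x) / x) / (40000 * x)) →
      ‖Phi (fun x => h x * ∫ y, f y * κ (x - y)) x (δ * Complex.I)‖
        ≤ C * Real.exp (-(a * (W (-x) / x) / 4)) := by
  obtain ⟨hφint, -⟩ := phi_integrable W hW f h ho κ hκ a b ha hab hsupp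
  obtain ⟨C₁, hC₁, hub⟩ := u_bounds W hW f h ho
  obtain ⟨A₀, hA₀⟩ := bg_l2_or W hW f h ho hK
  obtain ⟨C₂, hC₂⟩ := three_lines κ hκ a b ha.le hab hsupp
  obtain ⟨C₃, hC₃0, hC₃⟩ := qL W f h ho hW.cont.measurable κ hκ.continuous a b hsupp
  have hcs : HasCompactSupport κ := by
    apply HasCompactSupport.of_support_subset_isCompact (isCompact_Icc (a := a) (b := b))
    intro s hs
    by_contra hcon
    exact hs (hsupp s hcon)
  have hst : Tendsto (fun x => W (-x) / x) atTop atTop := by
    have h1 := tendsto_neg_atBot_atTop.comp (hW.botl.comp tendsto_neg_atTop_atBot)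
    refine h1.congr (fun x => ?_)
    simp only [Function.comp]
    rw [div_neg, neg_neg]
  obtain ⟨x₁, hx₁⟩ := (hst.eventually_ge_atTop 5).exists_forall_of_atTop
  set A : ℝ := max 1 (Real.sqrt (2 * Real.pi * |A₀|)) with hA
  have hA1 : 1 ≤ A := le_max_left _ _
  have hA2 : ENNReal.ofReal (2 * Real.pi) * ENNReal.ofReal A₀ ≤ ENNReal.ofReal (A ^ 2) := by
    rw [← ENNReal.ofReal_mul (by positivity)]
    apply ENNReal.ofReal_le_ofReal
    calc 2 * Real.pi * A₀ ≤ 2 * Real.pi * |A₀| := by gcongr; exact le_abs_self _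
      _ = Real.sqrt (2 * Real.pi * |A₀|) ^ 2 := by rw [Real.sq_sqrt (by positivity)]
      _ ≤ A ^ 2 := by gcongr; exact le_max_right _ _
  refine ⟨|C₂| * A * Real.exp (3 * a / 2 + a * C₁ / 400) + C₃ * Real.exp (3 * a / 2) +
    C₃ * Real.exp (3 * a / 2), max x₁ (max 1 a), ?_⟩
  intro x hx δ hδ hδ1
  have hxx₁ : x₁ ≤ x := (le_max_left _ _).trans hx
  have hx1 : 1 ≤ x := ((le_max_left _ _).trans (le_max_right _ _)).trans hx
  have hxa : a ≤ x := ((le_max_right _ _).trans (le_max_right _ _)).trans hx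
  have hx0 : 0 < x := by linarith
  set s : ℝ := W (-x) / x with hs
  have hs5 : 5 ≤ s := hx₁ x hxx₁
  obtain ⟨g, ⟨hg1, hg2⟩, hgb⟩ := hA₀ (s / 2 - 3 / 2) (by linarith)
  have hgone : 1 ≤ g := by linarith
  have hg0 : 0 < g := by linarith
  obtain ⟨X, Y, hcut⟩ := exists_cut W hW g hg0
  have h2g : 2 * g + 1 ≤ W (-x) / x := by rw [← hs]; linarith
  obtain ⟨hYx, -, -, -, -⟩ := cut_bounds W hW g X Y x hg0 hcut hx0 h2g
  obtain ⟨hu1, hu2, hv0, hv1, hub1, hub2⟩ := hub g X Y x hgone hcut hx1 h2g
  have hbgb := hgb X Y hcut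
  have hL2 := (l2hyp f h g X Y A₀ hu1 hv1 hbgb).trans hA2
  set B : ℝ := (C₁ * (1 + x)) ^ 2 * Real.exp (3 * g * x) with hB
  have hB1 : 1 ≤ B := by
    rw [hB]
    have h3 : 1 ≤ (C₁ * (1 + x)) ^ 2 := by
      have : 1 ≤ C₁ * (1 + x) := by nlinarith
      exact one_le_pow₀ this
    have h4 : 1 ≤ Real.exp (3 * g * x) := Real.one_le_exp (by positivity)
    nlinarith
  have hBB : (∫ y, ‖(Iio X).indicator f y‖ * Real.exp (-(2 * g * y))) *
      (∫ x, ‖(Ioi (-Y)).indicator h x‖) ≤ B := by
    calc _ ≤ (C₁ * (1 + x) * Real.exp (2 * g * x)) * (C₁ * (1 + x) * Real.exp (g * x)) := by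
          apply mul_le_mul hub1 hub2 (integral_nonneg (fun y => norm_nonneg _)) (by positivity)
      _ = (C₁ * (1 + x)) ^ 2 * (Real.exp (2 * g * x) * Real.exp (g * x)) := by ring
      _ = B := by
          rw [← Real.exp_add, hB]
          congr 2
          ring
  have hδg : δ ≤ 2 * g := by
    have h5 : 10 * (a * s / (40000 * x)) ≤ s / 4000 := by
      rw [show 10 * (a * s / (40000 * x)) = (a / x) * (s / 4000) by field_simp; ring]
      have : a / x ≤ 1 := by rw [div_le_one hx0]; exact hxa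
      have h6 : 0 < s / 4000 := by positivity
      nlinarith
    linarith
  have hJ1 := hC₂ ((Iio X).indicator f) ((Ioi (-Y)).indicator h) g hgone
    ((ori_fm ho).indicator measurableSet_Iio) ((ori_hm ho).indicator measurableSet_Ioi)
    hu1 hu2 hv0 hv1 A B hA1 hB1 hL2 hBB δ hδ.le hδg
  obtain ⟨hJ2, hJ3⟩ := J_bounds W f h κ a b ha hsupp C₃ hC₃ g X Y δ hg0 hδ hcut
  have hdec := Phi_decomp f h κ (ori_locInt W hW f h ho) (ori_fm ho) (ori_hm ho) hκ.continuous
    hcs hφint X Y x δ (C₃ * Real.exp (-(g * a))) (by positivity) hδ hYx hx0.le hJ2 hJ3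
  have el1 := elem a s x g δ C₁ ha hs5 hx1 hxa hC₁ hg1 hδ hδ1
  have el2 := elem2 a s x g δ ha hs5 hx1 hg1 hδ hδ1
  have el3 : Real.exp (-(g * a)) ≤ Real.exp (3 * a / 2) * Real.exp (-(a * s / 4)) := by
    refine le_trans ?_ el2
    have : 1 ≤ Real.exp (δ * x) := Real.one_le_exp (by positivity)
    nlinarith [Real.exp_pos (-(g * a))]
  have f1 : C₂ * Real.exp (-(g * a)) * A * B ^ (δ / (2 * g))
      ≤ |C₂| * A * Real.exp (3 * a / 2 + a * C₁ / 400) * Real.exp (-(a * s / 4)) := by
    have h7 : 0 ≤ B ^ (δ / (2 * g)) := by positivity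
    calc C₂ * Real.exp (-(g * a)) * A * B ^ (δ / (2 * g))
        ≤ |C₂| * Real.exp (-(g * a)) * A * B ^ (δ / (2 * g)) := by
          gcongr
          exact le_abs_self _
      _ = |C₂| * A * (Real.exp (-(g * a)) * B ^ (δ / (2 * g))) := by ring
      _ ≤ |C₂| * A * (Real.exp (3 * a / 2 + a * C₁ / 400) * Real.exp (-(a * s / 4))) := by
          gcongr
      _ = _ := by ring
  have f2 : C₃ * Real.exp (-(g * a)) ≤ C₃ * Real.exp (3 * a / 2) * Real.exp (-(a * s / 4)) := by
    rw [mul_assoc]
    gcongr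
  have f3 : C₃ * Real.exp (-(g * a)) * Real.exp (δ * x)
      ≤ C₃ * Real.exp (3 * a / 2) * Real.exp (-(a * s / 4)) := by
    rw [mul_assoc, mul_assoc]
    gcongr
  calc _ ≤ _ := hdec
    _ ≤ |C₂| * A * Real.exp (3 * a / 2 + a * C₁ / 400) * Real.exp (-(a * s / 4)) +
        C₃ * Real.exp (3 * a / 2) * Real.exp (-(a * s / 4)) +
        C₃ * Real.exp (3 * a / 2) * Real.exp (-(a * s / 4)) := by
        gcongr
        exact hJ1.trans f1
    _ = _ := by ring

end Pool.Agent.Domar
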