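import Pool.Agent.Lib.MP_af79d0_an.Defs

set_option autoImplicit false
open MeasureTheory Filter Topology Set

namespace Pool.Agent.Domar

/-- a function which is not a.e. zero on `(c,∞)` has a point of its essential support there -/
theorem exists_ess_point (h : ℝ → ℂ) (c : ℝ) (hc : ¬ ∀ᵐ x : ℝ, c < x → h x = 0) :
    ∃ x₁, c < x₁ ∧ ∀ V ∈ 𝓝 x₁, ¬ ∀ᵐ x : ℝ, x ∈ V → h x = 0 := by
  by_contra hcon
  push Not at hcon
  apply hc
  have hS : volume {x : ℝ | c < x ∧ h x ≠ 0} = 0 := by
    refine measure_null_of_locally_null _ fun x hx => ?_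
    obtain ⟨V, hV, hVa⟩ := hcon x hx.1
    refine ⟨V ∩ {x | h x ≠ 0}, ?_, ?_⟩
    · refine inter_mem (mem_nhdsWithin_of_mem_nhds hV) ?_
      exact mem_of_superset self_mem_nhdsWithin fun y hy => hy.2
    · rw [ae_iff] at hVa
      convert hVa using 2
      ext y
      simp only [mem_inter_iff, mem_ofPred_eq, Classical.not_imp]
  rw [ae_iff]
  convert hS using 2
  ext y
  simp only [mem_ofPred_eq, Classical.not_imp, ne_eq]

theorem titch_of_product (f h : ℝ → ℂ) (hf : LocallyIntegrable f) (hh : Measurable h)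
    (H : ∀ κ : ℝ → ℂ, ContDiff ℝ 2 κ → ∀ a b : ℝ, 0 < a → a ≤ b →
      (∀ s, s ∉ Icc a b → κ s = 0) → ∀ᵐ x, h x * ∫ y, f y * κ (x - y) = 0) :
    ∀ c : ℝ, (∀ᵐ x : ℝ, c < x → h x = 0) ∨ (∀ᵐ x : ℝ, x < c → f x = 0) := by
  intro c
  by_cases hc : ∀ᵐ x : ℝ, c < x → h x = 0
  · exact Or.inl hc
  right
  obtain ⟨x₁, hx₁, hV⟩ := exists_ess_point h c hc
  have key : ∀ᵐ x : ℝ, x ∈ Iio x₁ → f x = 0 := by
    refine isOpen_Iio.ae_eq_zero_of_integral_contDiff_smul_eq_zero (hf.locallyIntegrableOn _) ?_
    intro g hg hgc hgs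
    by_cases hne : (tsupport g).Nonempty
    · obtain ⟨y₀, hy₀, hy₀m⟩ := hgc.isCompact.exists_isGreatest hne
      obtain ⟨y₁, hy₁, hy₁m⟩ := hgc.isCompact.exists_isLeast hne
      have h0 : y₀ < x₁ := hgs hy₀
      have h1 : y₁ ≤ y₀ := hy₁m hy₀
      set κ : ℝ → ℂ := fun s => ((g (x₁ - s) : ℝ) : ℂ) with hκ
      have hκc : ContDiff ℝ 2 κ := by
        have h2 : ContDiff ℝ 2 g := contDiff_infty.1 hg 2
        have h3 : ContDiff ℝ 2 (fun s : ℝ => g (x₁ - s)) := h2.comp (contDiff_const.sub contDiff_id)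
        exact Complex.ofRealCLM.contDiff.comp h3
      have hκs : ∀ s, s ∉ Icc (x₁ - y₀) (x₁ - y₁) → κ s = 0 := by
        intro s hs
        have : x₁ - s ∉ tsupport g := by
          intro hmem
          apply hs
          have ha := hy₀m hmem
          have hb := hy₁m hmem
          constructor <;> linarith
        rw [hκ]
        simp only
        rw [image_eq_zero_of_notMem_tsupport this]
        simp
      have hκcs : HasCompactSupport κ := by
        refine HasCompactSupport.intro (isCompact_Icc (a := x₁ - y₀) (b := x₁ - y₁)) hκs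
      have hF : Continuous (fun x : ℝ => ∫ y, f y * κ (x - y)) := by
        have := HasCompactSupport.continuous_convolution_right (μ := volume)
          (ContinuousLinearMap.mul ℝ ℂ) hκcs hf hκc.continuous
        exact this
      have hH := H κ hκc (x₁ - y₀) (x₁ - y₁) (by linarith) (by linarith) hκs
      have hzero : (∫ y, f y * κ (x₁ - y)) = 0 := by
        by_contra hne0
        have hVn : {x : ℝ | (∫ y, f y * κ (x - y)) ≠ 0} ∈ 𝓝 x₁ :=
          (isOpen_compl_singleton.preimage hF).mem_nhds hne0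
        refine hV _ hVn ?_
        filter_upwards [hH] with x hx hxV
        rcases mul_eq_zero.1 hx with h' | h'
        · exact h'
        · exact absurd h' hxV
      rw [← hzero]
      refine integral_congr_ae (Eventually.of_forall fun y => ?_)
      simp only [hκ, Complex.real_smul]
      rw [sub_sub_cancel, mul_comm]
    · have hg0 : ∀ x, g x = 0 := by
        intro x
        apply image_eq_zero_of_notMem_tsupport
        intro hx
        exact hne ⟨x, hx⟩
      simp [hg0]
  filter_upwards [key] with x hx hxc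
  exact hx (lt_trans hxc hx₁)

end Pool.Agent.Domar
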