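import Pool.Agent.Lib.MP_af79d0_an.Defs
set_option autoImplicit false
open MeasureTheory Filter Topology Set
namespace Pool.Agent.Domar

namespace MaxP

/-- the auxiliary denominator -/
noncomputable def den (r : ℝ) (z : ℂ) : ℂ := 1 - Complex.I * r * z

lemma one_le_norm_den {r : ℝ} (hr : 0 ≤ r) {z : ℂ} (hz : 0 ≤ z.im) : 1 ≤ ‖den r z‖ := by
  have h1 : (den r z).re = 1 + r * z.im := by simp [den]
  have h2 := Complex.re_le_norm (den r z)
  have := mul_nonneg hr hz
  linarith

lemma le_norm_den {r : ℝ} (hr : 0 ≤ r) (z : ℂ) : r * ‖z‖ - 1 ≤ ‖den r z‖ := by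
  have h1 : ‖Complex.I * r * z‖ = r * ‖z‖ := by
    rw [norm_mul, norm_mul, Complex.norm_I, one_mul, Complex.norm_real, Real.norm_of_nonneg hr]
  have h2 := norm_sub_norm_le (Complex.I * r * z) 1
  rw [h1, norm_one] at h2
  rw [den, norm_sub_rev]
  exact h2

lemma norm_den_le {r : ℝ} (hr : 0 ≤ r) (z : ℂ) : ‖den r z‖ ≤ 1 + r * ‖z‖ := by
  have h1 : ‖Complex.I * r * z‖ = r * ‖z‖ := by
    rw [norm_mul, norm_mul, Complex.norm_I, one_mul, Complex.norm_real, Real.norm_of_nonneg hr]
  have h2 := norm_sub_le (1 : ℂ) (Complex.I * r * z)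
  rw [h1, norm_one] at h2
  exact h2

end MaxP

open MaxP in
theorem max_principle (U : Set ℂ) (hU : IsOpen U) (hUH : ∀ z ∈ U, 0 < z.im) (f : ℂ → ℂ)
    (hf : DiffContOnCl ℂ f U) (B M : ℝ) (hB : ∀ z ∈ U, ‖f z‖ ≤ B)
    (hM : ∀ z ∈ frontier U, ‖f z‖ ≤ M) : ∀ z ∈ U, ‖f z‖ ≤ M := by
  intro z₀ hz₀
  have hne : (frontier U).Nonempty := by
    rw [nonempty_frontier_iff]
    refine ⟨⟨z₀, hz₀⟩, fun h => ?_⟩
    have := hUH 0 (by rw [h]; trivial)
    simp at this
  obtain ⟨p, hp⟩ := hne
  have hM0 : 0 ≤ M := (norm_nonneg _).trans (hM p hp)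
  have hcl : ∀ z ∈ closure U, 0 ≤ z.im := by
    have : closure U ⊆ {z : ℂ | 0 ≤ z.im} :=
      closure_minimal (fun z hz => (hUH z hz).le) (isClosed_le continuous_const Complex.continuous_im)
    exact this
  apply le_of_forall_gt_imp_ge_of_dense
  intro M' hM'
  have hM'0 : 0 < M' := hM0.trans_lt hM'
  have main : ∀ r : ℝ, 0 < r → ‖f z₀‖ ≤ M' * (1 + r * ‖z₀‖) := by
    intro r hr
    set R : ℝ := max (‖z₀‖ + 1) ((|B| / M' + 2) / r) with hR
    have hR1 : ‖z₀‖ < R := by
      have := le_max_left (‖z₀‖ + 1) ((|B| / M' + 2) / r)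
      linarith
    have hR2 : |B| / M' + 2 ≤ r * R := by
      have := le_max_right (‖z₀‖ + 1) ((|B| / M' + 2) / r)
      rw [← hR, div_le_iff₀ hr] at this
      linarith
    have hR3 : |B| ≤ M' * (r * R - 1) := by
      have h1 : |B| / M' ≤ r * R - 1 := by linarith
      rw [div_le_iff₀ hM'0] at h1
      linarith
    have hR4 : 0 < r * R - 1 := by
      have : 0 ≤ |B| / M' := by positivity
      linarith
    have hg : DiffContOnCl ℂ (fun z => f z / den r z) (U ∩ Metric.ball 0 R) := by
      constructor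
      · have hd : Differentiable ℂ (den r) := by
          unfold den
          fun_prop
        refine (hf.differentiableOn.mono inter_subset_left).div hd.differentiableOn ?_
        intro z hz h0
        have := one_le_norm_den hr.le (hUH z hz.1).le
        rw [h0, norm_zero] at this
        linarith
      · have hc : Continuous (den r) := by
          unfold den
          fun_prop
        refine (hf.continuousOn.mono (closure_mono inter_subset_left)).div hc.continuousOn ?_
        intro z hz h0
        have := one_le_norm_den hr.le (hcl z (closure_mono inter_subset_left hz))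
        rw [h0, norm_zero] at this
        linarith
    have hbd : Bornology.IsBounded (U ∩ Metric.ball (0 : ℂ) R) :=
      Metric.isBounded_ball.subset inter_subset_right
    have hfr : ∀ z ∈ frontier (U ∩ Metric.ball (0 : ℂ) R), ‖f z / den r z‖ ≤ M' := by
      intro z hz
      rw [(hU.inter Metric.isOpen_ball).frontier_eq] at hz
      have h1 : z ∈ closure U := closure_mono inter_subset_left hz.1
      have h2 : z ∈ Metric.closedBall (0 : ℂ) R :=
        Metric.closure_ball_subset_closedBall (closure_mono inter_subset_right hz.1)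
      have h3 := one_le_norm_den hr.le (hcl z h1)
      rw [norm_div, div_le_iff₀ (by linarith)]
      by_cases hzU : z ∈ U
      · have h4 : z ∉ Metric.ball (0 : ℂ) R := fun h => hz.2 ⟨hzU, h⟩
        rw [Metric.mem_ball, dist_zero_right, not_lt] at h4
        have h5 := le_norm_den hr.le z
        have h6 : r * R ≤ r * ‖z‖ := by gcongr
        calc ‖f z‖ ≤ B := hB z hzU
          _ ≤ |B| := le_abs_self B
          _ ≤ M' * (r * R - 1) := hR3
          _ ≤ M' * ‖den r z‖ := by gcongr; linarith
      · have h4 : z ∈ frontier U := by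
          rw [hU.frontier_eq]
          exact ⟨h1, hzU⟩
        calc ‖f z‖ ≤ M := hM z h4
          _ ≤ M' * 1 := by linarith
          _ ≤ M' * ‖den r z‖ := by gcongr
    have h := Complex.norm_le_of_forall_mem_frontier_norm_le hbd hg hfr
      (subset_closure (⟨hz₀, by simpa using hR1⟩ : z₀ ∈ U ∩ Metric.ball (0 : ℂ) R))
    have h3 := one_le_norm_den hr.le (hUH z₀ hz₀).le
    rw [norm_div, div_le_iff₀ (by linarith)] at h
    exact h.trans (by gcongr; exact norm_den_le hr.le z₀)
  apply le_of_forall_pos_le_add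
  intro ε hε
  have h := main (ε / (M' * (‖z₀‖ + 1))) (by positivity)
  refine h.trans ?_
  have : M' * (1 + ε / (M' * (‖z₀‖ + 1)) * ‖z₀‖) = M' + ε * (‖z₀‖ / (‖z₀‖ + 1)) := by
    field_simp
  rw [this]
  have h2 : ‖z₀‖ / (‖z₀‖ + 1) ≤ 1 := by
    rw [div_le_one (by positivity)]
    linarith
  nlinarith

end Pool.Agent.Domar
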