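import Pool.Agent.Lib.MP_af79d0_an.Defs
import Pool.Agent.Lib.MP_af79d0_an.MaxPrinciple
set_option autoImplicit false
open MeasureTheory Filter Topology Set
namespace Pool.Agent.Domar

namespace Ext

/-- the quotient `(z - c) / (z + c)` -/
noncomputable def zeta (c : ℝ) (z : ℂ) : ℂ := (z - c) / (z + c)

lemma zeta_re (c : ℝ) (z : ℂ) :
    (zeta c z).re = (z.re ^ 2 + z.im ^ 2 - c ^ 2) / Complex.normSq (z + c) := by
  unfold zeta
  rw [Complex.div_re, ← add_div]
  congr 1
  simp
  ring

lemma zeta_im (c : ℝ) (z : ℂ) :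
    (zeta c z).im = (2 * c * z.im) / Complex.normSq (z + c) := by
  unfold zeta
  rw [Complex.div_im, ← sub_div]
  congr 1
  simp
  ring

lemma normSq_add_pos {c : ℝ} {z : ℂ} (h : 0 < z.im ∨ c < |z.re|) (hc : 0 < c) :
    0 < Complex.normSq (z + c) := by
  rw [Complex.normSq_pos]
  intro h0
  have h1 : z.re + c = 0 := by simpa using congrArg Complex.re h0
  have h2 : z.im = 0 := by simpa using congrArg Complex.im h0
  rcases h with h | h
  · linarith
  · have : z.re = -c := by linarith
    rw [this, abs_neg, abs_of_pos hc] at h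
    exact lt_irrefl _ h

lemma zeta_im_pos {c : ℝ} {z : ℂ} (hc : 0 < c) (h : 0 < z.im) : 0 < (zeta c z).im := by
  rw [zeta_im]
  have := normSq_add_pos (c := c) (Or.inl h) hc
  positivity

lemma zeta_re_pos {c : ℝ} {z : ℂ} (hc : 0 < c) (h : c < |z.re|) : 0 < (zeta c z).re := by
  rw [zeta_re]
  have := normSq_add_pos (c := c) (Or.inr h) hc
  have h2 : c ^ 2 < z.re ^ 2 := by
    rw [← sq_abs z.re]
    exact pow_lt_pow_left₀ h hc.le two_ne_zero
  have : 0 < z.re ^ 2 + z.im ^ 2 - c ^ 2 := by nlinarith [sq_nonneg z.im]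
  positivity

/-- upper bound for the argument on the vertical sides -/
lemma arg_le {c h' γ : ℝ} {z : ℂ} (hc : 0 < c) (hh : 0 < h') (hγ : γ = c + h') (hz : |z.re| = γ)
    (hy : 0 < z.im) : (zeta c z).arg ≤ z.im / h' := by
  have hlt : c < |z.re| := by rw [hz, hγ]; linarith
  have hre := zeta_re_pos hc hlt
  have him := zeta_im_pos hc hy
  have harg : |(zeta c z).arg| < Real.pi / 2 :=
    Complex.abs_arg_lt_pi_div_two_iff.2 (Or.inl hre)
  have harg0 : 0 ≤ (zeta c z).arg := Complex.arg_nonneg_iff.2 him.le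
  have h1 : (zeta c z).arg ≤ Real.tan (zeta c z).arg :=
    Real.le_tan harg0 (by rw [abs_of_nonneg harg0] at harg; exact harg)
  rw [Complex.tan_arg] at h1
  refine h1.trans ?_
  rw [zeta_im, zeta_re, div_div_div_cancel_right₀
    (normSq_add_pos (c := c) (Or.inl hy) hc).ne']
  have hsq : z.re ^ 2 = γ ^ 2 := by rw [← sq_abs z.re, hz]
  rw [hsq, hγ]
  have hpos : 0 < (c + h') ^ 2 + z.im ^ 2 - c ^ 2 := by nlinarith [sq_nonneg z.im]
  rw [div_le_div_iff₀ hpos hh]
  nlinarith [sq_nonneg z.im, mul_pos hh hy, mul_pos hc hy, mul_pos (mul_pos hh hh) hy,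
    mul_nonneg hy.le (sq_nonneg z.im)]

/-- lower bound for the argument -/
lemma le_arg {c h : ℝ} {z : ℂ} (hc : 0 < c) (hh : 0 < h) (hch : h ≤ 2 * c)
    (hz : |z.re| ≤ c + 2 * h) (hy : 0 < z.im) (hyh : z.im ≤ h) :
    z.im / (12 * h) ≤ (zeta c z).arg := by
  have him := zeta_im_pos hc hy
  have harg0 : 0 ≤ (zeta c z).arg := Complex.arg_nonneg_iff.2 him.le
  by_cases hlt : z.re ^ 2 + z.im ^ 2 < c ^ 2
  · have hre : (zeta c z).re < 0 := by
      rw [zeta_re]
      exact div_neg_of_neg_of_pos (by linarith) (normSq_add_pos (c := c) (Or.inl hy) hc)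
    have : Real.pi / 2 < (zeta c z).arg := by
      by_contra hcon
      rcases Complex.arg_le_pi_div_two_iff.1 (not_lt.1 hcon) with h1 | h1
      · linarith
      · linarith
    have h2 : z.im / (12 * h) ≤ 1 := by
      rw [div_le_one (by positivity)]
      linarith
    have := Real.pi_gt_three
    linarith
  · have h1 : Real.sin (zeta c z).arg ≤ (zeta c z).arg := Real.sin_le harg0
    refine le_trans ?_ h1
    rw [Complex.sin_arg]
    have hne : 0 < ‖zeta c z‖ := by
      rw [norm_pos_iff]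
      intro h0
      rw [h0] at him
      simp at him
    rw [le_div_iff₀ hne]
    have hN := normSq_add_pos (c := c) (Or.inl hy) hc
    rw [← pow_le_pow_iff_left₀ (by positivity) him.le two_ne_zero]
    rw [mul_pow, ← Complex.normSq_eq_norm_sq, Complex.normSq_apply, zeta_re, zeta_im]
    set N := Complex.normSq (z + c) with hNdef
    set t := z.re
    set y := z.im
    have key : (y / (12 * h)) ^ 2 * ((t ^ 2 + y ^ 2 - c ^ 2) ^ 2 + (2 * c * y) ^ 2) ≤ (2 * c * y) ^ 2 := by
      set u := |t| with hu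
      have hu0 : 0 ≤ u := abs_nonneg t
      have hu2 : u ^ 2 = t ^ 2 := sq_abs t
      have hy0 : y ^ 2 ≤ h ^ 2 := pow_le_pow_left₀ hy.le hyh 2
      have hd : (u - c) ^ 2 ≤ 4 * h ^ 2 := by
        rcases le_total c u with h1 | h1
        · have : (u - c) ^ 2 ≤ (2 * h) ^ 2 := pow_le_pow_left₀ (by linarith) (by linarith) 2
          nlinarith
        · have h3 : c ^ 2 ≤ u ^ 2 + y ^ 2 := by rw [hu2]; linarith
          nlinarith [mul_nonneg hu0 (sub_nonneg.2 h1)]
      have hs : (u + c) ^ 2 + y ^ 2 ≤ 40 * c ^ 2 := by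
        have h1 : (u + c) ^ 2 ≤ (6 * c) ^ 2 := pow_le_pow_left₀ (by linarith) (by linarith) 2
        have h2 : h ^ 2 ≤ (2 * c) ^ 2 := pow_le_pow_left₀ hh.le hch 2
        nlinarith
      have hprod : (t ^ 2 + y ^ 2 - c ^ 2) ^ 2 + (2 * c * y) ^ 2 ≤ (5 * h ^ 2) * (40 * c ^ 2) := by
        have e2 : (t ^ 2 + y ^ 2 - c ^ 2) ^ 2 + (2 * c * y) ^ 2 =
            ((u - c) ^ 2 + y ^ 2) * ((u + c) ^ 2 + y ^ 2) := by
          rw [← hu2]; ring
        rw [e2]
        exact mul_le_mul (by linarith) hs (by positivity) (by positivity)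
      calc (y / (12 * h)) ^ 2 * ((t ^ 2 + y ^ 2 - c ^ 2) ^ 2 + (2 * c * y) ^ 2)
          ≤ (y / (12 * h)) ^ 2 * ((5 * h ^ 2) * (40 * c ^ 2)) := by gcongr
        _ = y ^ 2 * c ^ 2 * (200 / 144) := by field_simp; ring
        _ ≤ (2 * c * y) ^ 2 := by nlinarith [mul_nonneg (sq_nonneg y) (sq_nonneg c)]
    have e1 : (y / (12 * h)) ^ 2 * ((t ^ 2 + y ^ 2 - c ^ 2) / N * ((t ^ 2 + y ^ 2 - c ^ 2) / N) +
        2 * c * y / N * (2 * c * y / N)) =
        (y / (12 * h)) ^ 2 * ((t ^ 2 + y ^ 2 - c ^ 2) ^ 2 + (2 * c * y) ^ 2) / N ^ 2 := by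
      field_simp
    rw [e1, div_pow (2 * c * y) N 2]
    exact div_le_div_of_nonneg_right key (by positivity)

/-- the comparison function -/
noncomputable def G (Φ : ℂ → ℂ) (x l c : ℝ) (z : ℂ) : ℂ :=
  Φ z * Complex.exp (Complex.I * x * z) * Complex.exp (-(Complex.I * (l / Real.pi) *
    Complex.log (zeta c z)))

lemma norm_G (Φ : ℂ → ℂ) (x l c : ℝ) (z : ℂ) :
    ‖G Φ x l c z‖ = ‖Φ z‖ * Real.exp (-(x * z.im)) * Real.exp (l / Real.pi * (zeta c z).arg) := by
  unfold G
  rw [norm_mul, norm_mul, Complex.norm_exp, Complex.norm_exp]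
  congr 2
  · congr 2
    simp
  · have : ((l : ℂ) / (Real.pi : ℂ)) = ((l / Real.pi : ℝ) : ℂ) := by push_cast; rfl
    rw [this]
    simp [Complex.log_im]

/-- the domain -/
def D (γ h' : ℝ) : Set ℂ := {z | 0 < z.im ∧ (γ < |z.re| ∨ h' < z.im)}

lemma isOpen_D (γ h' : ℝ) : IsOpen (D γ h') := by
  apply IsOpen.inter
  · exact isOpen_lt continuous_const Complex.continuous_im
  · apply IsOpen.union
    · exact isOpen_lt continuous_const (Complex.continuous_re.abs)
    · exact isOpen_lt continuous_const Complex.continuous_im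

lemma closure_D (γ h' : ℝ) :
    closure (D γ h') ⊆ {z | 0 ≤ z.im ∧ (γ ≤ |z.re| ∨ h' ≤ z.im)} := by
  apply closure_minimal
  · rintro z ⟨h1, h2⟩
    exact ⟨h1.le, h2.imp le_of_lt le_of_lt⟩
  · apply IsClosed.inter
    · exact isClosed_le continuous_const Complex.continuous_im
    · apply IsClosed.union
      · exact isClosed_le continuous_const (Complex.continuous_re.abs)
      · exact isClosed_le continuous_const Complex.continuous_im

lemma slit_of_closure {γ h' c : ℝ} {z : ℂ} (hh : 0 < h') (hc : 0 < c) (hcγ : c < γ)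
    (hz : z ∈ {z : ℂ | 0 ≤ z.im ∧ (γ ≤ |z.re| ∨ h' ≤ z.im)}) :
    z + c ≠ 0 ∧ zeta c z ∈ Complex.slitPlane := by
  obtain ⟨h1, h2⟩ := hz
  rcases h1.lt_or_eq with h3 | h3
  · refine ⟨Complex.normSq_pos.1 (normSq_add_pos (Or.inl h3) hc), ?_⟩
    exact Complex.mem_slitPlane_iff.2 (Or.inr (zeta_im_pos hc h3).ne')
  · rcases h2 with h2 | h2
    · refine ⟨Complex.normSq_pos.1 (normSq_add_pos (Or.inr (hcγ.trans_le h2)) hc), ?_⟩
      exact Complex.mem_slitPlane_iff.2 (Or.inl (zeta_re_pos hc (hcγ.trans_le h2)))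
    · linarith

lemma G_diffContOnCl {Φ : ℂ → ℂ} {x l c γ h' : ℝ} (hh : 0 < h') (hc : 0 < c) (hcγ : c < γ)
    (hd : DifferentiableOn ℂ Φ {τ | 0 < τ.im}) (hcont : ContinuousOn Φ {τ | 0 ≤ τ.im}) :
    DiffContOnCl ℂ (G Φ x l c) (D γ h') := by
  constructor
  · intro z hz
    obtain ⟨h1, h2⟩ := slit_of_closure hh hc hcγ (closure_D γ h' (subset_closure hz))
    have hΦ : DifferentiableAt ℂ Φ z :=
      hd.differentiableAt ((isOpen_lt continuous_const Complex.continuous_im).mem_nhds hz.1)
    have hz' : DifferentiableAt ℂ (zeta c) z := by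
      unfold zeta
      exact DifferentiableAt.div (by fun_prop) (by fun_prop) h1
    have : DifferentiableAt ℂ (G Φ x l c) z := by
      unfold G
      exact (hΦ.mul (by fun_prop)).mul (((hz'.clog h2).const_mul _).neg.cexp)
    exact this.differentiableWithinAt
  · intro z hz
    have hz0 := closure_D γ h' hz
    obtain ⟨h1, h2⟩ := slit_of_closure hh hc hcγ hz0
    have hΦ : ContinuousWithinAt Φ (closure (D γ h')) z :=
      (hcont z hz0.1).mono fun w hw => (closure_D γ h' hw).1
    have hz' : ContinuousAt (zeta c) z := by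
      unfold zeta
      exact ContinuousAt.div (by fun_prop) (by fun_prop) h1
    unfold G
    refine (hΦ.mul (by fun_prop)).mul ?_
    exact ((((hz'.clog h2).const_mul _).neg).cexp).continuousWithinAt

end Ext

open Ext in
theorem ext_step (Φ : ℂ → ℂ) (x ω x' ω' γ C : ℝ) (hx : 0 < x)
    (hω : 0 < ω) (hx' : 100 * x ≤ x') (hω' : 50 * ω ≤ ω') (hγ : ω / (40000 * x) ≤ γ) (hC : 0 ≤ C)
    (hd : DifferentiableOn ℂ Φ {τ | 0 < τ.im}) (hc : ContinuousOn Φ {τ | 0 ≤ τ.im})
    (hb : ∀ τ : ℂ, 0 ≤ τ.im → ‖Φ τ‖ ≤ C * Real.exp (x * τ.im))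
    (hP : ∀ t y : ℝ, |t| ≤ γ → 0 < y → y ≤ ω' / (40000 * x') →
      ‖Φ (t + y * Complex.I)‖ ≤ C * Real.exp (-(100 * x' * y)) + C * Real.exp (x' * y - ω)) :
    ∀ t y : ℝ, |t| ≤ γ + ω / (40000 * x) → 0 < y → y ≤ ω / (40000 * x) →
      ‖Φ (t + y * Complex.I)‖ ≤ C * (1 + Real.exp (-(ω / 2))) * Real.exp (-(100 * x * y)) := by
  set h := ω / (40000 * x) with hh
  have hpos : 0 < h := by positivity
  have hωh : ω = 40000 * x * h := by rw [hh]; field_simp
  have hx'0 : 0 < x' := by linarith
  have hω'0 : 0 < ω' := by linarith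
  have hγ0 : 0 < γ := hpos.trans_le hγ
  obtain ⟨h', hh'0, hh'1, hh'2, hh'3, hF2⟩ : ∃ h' : ℝ, 0 < h' ∧ h' ≤ ω' / (40000 * x') ∧
      h' ≤ ω / (404 * x') ∧ h' ≤ γ / 2 ∧ ω / 8 ≤ 100 * x' * h' := by
    refine ⟨min (min (ω' / (40000 * x')) (ω / (404 * x'))) (γ / 2), ?_, ?_, ?_, ?_, ?_⟩
    · positivity
    · exact (min_le_left _ _).trans (min_le_left _ _)
    · exact (min_le_left _ _).trans (min_le_right _ _)
    · exact min_le_right _ _
    · rcases min_choice (min (ω' / (40000 * x')) (ω / (404 * x'))) (γ / 2) with e | e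
      · rw [e]
        rcases min_choice (ω' / (40000 * x')) (ω / (404 * x')) with e | e
        · rw [e]
          have : 100 * x' * (ω' / (40000 * x')) = ω' / 400 := by field_simp; norm_num
          rw [this]; linarith
        · rw [e]
          have : 100 * x' * (ω / (404 * x')) = ω * (100 / 404) := by field_simp
          rw [this]; linarith
      · rw [e, hωh]
        have : x * h ≤ x' / 100 * γ := mul_le_mul (by linarith) hγ hpos.le (by positivity)
        nlinarith [mul_pos hx'0 hγ0]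
  set c := γ - h' with hcdef
  have hcγ2 : γ / 2 ≤ c := by rw [hcdef]; linarith
  have hc0 : 0 < c := by linarith
  have hcγ : c < γ := by linarith
  set l := 100 * x' * h' with hl
  have hl0 : 0 < l := by positivity
  have hF1 : ∀ y, 0 < y → y ≤ h' → 101 * x' * y ≤ ω / 4 := by
    intro y hy hyh
    have h1 : x' * y ≤ x' * (ω / (404 * x')) := by gcongr; exact hyh.trans hh'2
    have h2 : x' * (ω / (404 * x')) = ω / 404 := by field_simp
    linarith
  have hF3 : h' ≤ h := by
    refine hh'2.trans ?_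
    rw [hh]
    exact div_le_div_of_nonneg_left hω.le (by positivity) (by linarith)
  set M := C * (1 + Real.exp (-(3 * ω / 4))) with hM
  have hM0 : 0 ≤ M := by positivity
  have hCM : C ≤ M := by
    rw [hM]
    nlinarith [Real.exp_pos (-(3 * ω / 4))]
  have hF4 : ∀ z : ℂ, |z.re| ≤ γ → 0 < z.im → z.im ≤ h' →
      ‖Φ z‖ ≤ M * Real.exp (-(100 * x' * z.im)) := by
    intro z hz hy hyh
    have h1 := hP z.re z.im hz hy (hyh.trans hh'1)
    rw [Complex.re_add_im] at h1
    refine h1.trans ?_
    have h2 : Real.exp (x' * z.im - ω) ≤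
        Real.exp (-(3 * ω / 4)) * Real.exp (-(100 * x' * z.im)) := by
      rw [← Real.exp_add]
      apply Real.exp_le_exp.2
      have := hF1 z.im hy hyh
      linarith
    rw [hM]
    nlinarith [mul_le_mul_of_nonneg_left h2 hC]
  have hlp : l / Real.pi ≤ l := div_le_self hl0.le (by linarith [Real.pi_gt_three])
  have hlp0 : 0 < l / Real.pi := div_pos hl0 Real.pi_pos
  have harg1 : ∀ z : ℂ, l / Real.pi * (zeta c z).arg ≤ l := by
    intro z
    calc l / Real.pi * (zeta c z).arg ≤ l / Real.pi * Real.pi := by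
          gcongr; exact Complex.arg_le_pi _
      _ = l := by field_simp
  have hG : ∀ z ∈ D γ h', ‖G Φ x l c z‖ ≤ M := by
    refine max_principle (D γ h') (isOpen_D γ h') (fun z hz => hz.1) (G Φ x l c)
      (G_diffContOnCl hh'0 hc0 hcγ hd hc) (C * Real.exp l) M ?_ ?_
    · intro z hz
      rw [norm_G]
      have h1 := hb z hz.1.le
      have h2 : Real.exp (l / Real.pi * (zeta c z).arg) ≤ Real.exp l :=
        Real.exp_le_exp.2 (harg1 z)
      have h3 : ‖Φ z‖ * Real.exp (-(x * z.im)) ≤ C := by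
        calc ‖Φ z‖ * Real.exp (-(x * z.im)) ≤ C * Real.exp (x * z.im) * Real.exp (-(x * z.im)) := by
              gcongr
          _ = C := by rw [mul_assoc, ← Real.exp_add]; simp
      exact mul_le_mul h3 h2 (Real.exp_pos _).le hC
    · intro z hz
      rw [(isOpen_D γ h').frontier_eq] at hz
      obtain ⟨hz1, hz2⟩ := hz
      have hz0 := closure_D γ h' hz1
      obtain ⟨hy, hzz⟩ := hz0
      rw [norm_G]
      have h3 : ‖Φ z‖ * Real.exp (-(x * z.im)) ≤ C := by
        calc ‖Φ z‖ * Real.exp (-(x * z.im)) ≤ C * Real.exp (x * z.im) * Real.exp (-(x * z.im)) := by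
              gcongr
              exact hb z hy
          _ = C := by rw [mul_assoc, ← Real.exp_add]; simp
      rcases hy.lt_or_eq with hy | hy
      · have hn : |z.re| ≤ γ ∧ z.im ≤ h' := by
          constructor
          · by_contra hcon
            exact hz2 ⟨hy, Or.inl (not_le.1 hcon)⟩
          · by_contra hcon
            exact hz2 ⟨hy, Or.inr (not_le.1 hcon)⟩
        have h4 := hF4 z hn.1 hy hn.2
        have h5 : Real.exp (-(x * z.im)) ≤ 1 := Real.exp_le_one_iff.2 (by
          have := mul_pos hx hy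
          linarith)
        have h6 : l / Real.pi * (zeta c z).arg ≤ 100 * x' * z.im := by
          rcases hzz with h7 | h7
          · have h8 := arg_le (c := c) (h' := h') (γ := γ) (z := z) hc0 hh'0 (by rw [hcdef]; ring)
              (le_antisymm hn.1 h7) hy
            have h9 : 0 ≤ z.im / h' := by positivity
            calc l / Real.pi * (zeta c z).arg ≤ l / Real.pi * (z.im / h') := by gcongr
              _ ≤ l * (z.im / h') := by gcongr
              _ = 100 * x' * z.im := by rw [hl]; field_simp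
          · have : z.im = h' := le_antisymm hn.2 h7
            rw [this]
            exact harg1 z
        calc ‖Φ z‖ * Real.exp (-(x * z.im)) * Real.exp (l / Real.pi * (zeta c z).arg)
            ≤ (M * Real.exp (-(100 * x' * z.im))) * 1 * Real.exp (100 * x' * z.im) := by
              gcongr
          _ = M := by rw [mul_one, mul_assoc, ← Real.exp_add]; simp
      · have h7 : γ ≤ |z.re| := by
          rcases hzz with h7 | h7
          · exact h7
          · linarith
        have h8 : (zeta c z).arg = 0 := by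
          rw [Complex.arg_eq_zero_iff]
          refine ⟨(zeta_re_pos hc0 (hcγ.trans_le h7)).le, ?_⟩
          rw [zeta_im, ← hy]
          simp
        rw [h8, mul_zero, Real.exp_zero, mul_one]
        exact h3.trans hCM
  intro t y ht hy hyh
  set z : ℂ := t + y * Complex.I with hz
  have hzre : z.re = t := by simp [hz]
  have hzim : z.im = y := by simp [hz]
  have hMle : M ≤ C * (1 + Real.exp (-(ω / 2))) := by
    rw [hM]
    have : Real.exp (-(3 * ω / 4)) ≤ Real.exp (-(ω / 2)) := Real.exp_le_exp.2 (by linarith)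
    gcongr
  by_cases hzD : z ∈ D γ h'
  · have h1 := hG z hzD
    rw [norm_G, hzim] at h1
    have h2 := le_arg (c := c) (h := h) (z := z) hc0 hpos (by linarith)
      (by rw [hzre]; linarith) (by rw [hzim]; exact hy) (by rw [hzim]; exact hyh)
    rw [hzim] at h2
    have h3 : 101 * x * y ≤ l / Real.pi * (zeta c z).arg := by
      calc 101 * x * y ≤ (ω / 8) / 3.15 * (y / (12 * h)) := by
            rw [hωh]
            have : 40000 * x * h / 8 / 3.15 * (y / (12 * h)) = (40000 / 8 / 3.15 / 12) * (x * y) := by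
              field_simp
            rw [this]
            have := mul_pos hx hy
            norm_num
            linarith
        _ ≤ l / Real.pi * (zeta c z).arg := by
            apply mul_le_mul _ h2 (by positivity) hlp0.le
            rw [div_le_div_iff₀ (by norm_num) Real.pi_pos]
            have := Real.pi_lt_d2
            nlinarith [Real.pi_pos]
    have h4 : ‖Φ z‖ ≤ M * Real.exp (-(100 * x * y)) := by
      have h5 : ‖Φ z‖ = ‖Φ z‖ * Real.exp (-(x * y)) * Real.exp (l / Real.pi * (zeta c z).arg) *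
          Real.exp (x * y - l / Real.pi * (zeta c z).arg) := by
        rw [mul_assoc, mul_assoc, ← Real.exp_add, ← Real.exp_add]
        ring_nf
        simp
      rw [h5]
      have h6 : Real.exp (x * y - l / Real.pi * (zeta c z).arg) ≤ Real.exp (-(100 * x * y)) :=
        Real.exp_le_exp.2 (by linarith)
      exact mul_le_mul h1 h6 (Real.exp_pos _).le hM0
    exact h4.trans (by gcongr)
  · have hn : |z.re| ≤ γ ∧ z.im ≤ h' := by
      constructor
      · by_contra hcon
        exact hzD ⟨by rw [hzim]; exact hy, Or.inl (not_le.1 hcon)⟩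
      · by_contra hcon
        exact hzD ⟨by rw [hzim]; exact hy, Or.inr (not_le.1 hcon)⟩
    have h1 := hF4 z hn.1 (by rw [hzim]; exact hy) hn.2
    rw [hzim] at h1
    refine h1.trans ?_
    have h2 : Real.exp (-(100 * x' * y)) ≤ Real.exp (-(100 * x * y)) := by
      apply Real.exp_le_exp.2
      have : x * y ≤ x' * y := by
        gcongr
        linarith
      linarith
    exact mul_le_mul hMle h2 (Real.exp_pos _).le (by positivity)

end Pool.Agent.Domar
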