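import Pool.Agent.Lib.MP_af79d0_an.Defs
import Pool.Agent.Lib.MP_af79d0_an.FourierShift
set_option autoImplicit false
open MeasureTheory Filter Topology Set
namespace Pool.Agent.Domar

namespace FUAux

/-- the truncated, damped function -/
noncomputable def psi (φ : ℝ → ℂ) (x y : ℝ) : ℝ → ℂ :=
  (Ioi (-x)).indicator (fun s => φ s * (Real.exp (-(y * s)) : ℂ))

theorem psi_int (φ : ℝ → ℂ) (hφ : Integrable φ) (x y : ℝ) (hy : 0 < y) :
    Integrable (psi φ x y) := by
  have hm : AEStronglyMeasurable (psi φ x y) volume := by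
    refine AEStronglyMeasurable.indicator ?_ measurableSet_Ioi
    refine hφ.aestronglyMeasurable.mul ?_
    exact (by fun_prop : Continuous fun s : ℝ => (Real.exp (-(y * s)) : ℂ)).aestronglyMeasurable
  refine (hφ.norm.mul_const (Real.exp (y * x))).mono' hm (Eventually.of_forall fun s => ?_)
  unfold psi
  by_cases hs : s ∈ Ioi (-x)
  · rw [Set.indicator_of_mem hs, norm_mul, Complex.norm_real, Real.norm_eq_abs,
      abs_of_pos (Real.exp_pos _)]
    have hs' : -x < s := hs
    gcongr
    nlinarith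
  · rw [Set.indicator_of_notMem hs, norm_zero]
    positivity

theorem psi_fourier (φ : ℝ → ℂ) (x y t : ℝ) :
    ∫ s, psi φ x y s * Complex.exp (Complex.I * t * s) = Phi φ x (t + y * Complex.I) := by
  unfold psi Phi
  rw [← integral_indicator measurableSet_Ioi]
  refine integral_congr_ae (Eventually.of_forall fun s => ?_)
  by_cases hs : s ∈ Ioi (-x)
  · simp only [Set.indicator_of_mem hs]
    rw [mul_assoc, Complex.ofReal_exp, ← Complex.exp_add]
    congr 2
    push_cast
    linear_combination (-(y * s : ℂ)) * Complex.I_sq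
  · simp only [Set.indicator_of_notMem hs, zero_mul]

theorem bound (φ : ℝ → ℂ) (hφ : Integrable φ) (κ : ℝ → ℂ) (hκ : ContDiff ℝ 2 κ) (R : ℝ)
    (hR : 0 ≤ R) (hsupp : ∀ s, s ∉ Icc (-R) R → κ s = 0) :
    ∃ K : ℝ, 0 ≤ K ∧ ∀ x y C : ℝ, R < x → 0 < y → y ≤ 1 →
      (∀ t : ℝ, ‖Phi φ x (t + y * Complex.I)‖ ≤ C) → ‖∫ s, κ s * φ s‖ ≤ C * K := by
  obtain ⟨K, hK0, hK⟩ := fourier_shift κ hκ (-R) R (by linarith) hsupp
  refine ⟨2 * K * Real.exp R, by positivity, fun x y C hx hy hy1 hC => ?_⟩
  obtain ⟨hcont, hb0, hb2, hint, hinv⟩ := hK (-y)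
  obtain ⟨U, hU⟩ : ∃ U : ℝ → ℂ, U = fun t : ℝ =>
    ∫ s, κ s * Complex.exp (-((((-y : ℝ) : ℂ) + Complex.I * t) * s)) := ⟨_, rfl⟩
  have hU' : ∀ t : ℝ, U t = ∫ s, κ s * Complex.exp (-((((-y : ℝ) : ℂ) + Complex.I * t) * s)) :=
    fun t => by rw [hU]
  have hUint : Integrable U := by rw [hU]; exact hint
  have hC0 : 0 ≤ C := (norm_nonneg _).trans (hC 0)
  have hE : Real.exp (-(-y * -R)) + Real.exp (-(-y * R)) ≤ 2 * Real.exp R := by
    have h1 : Real.exp (-(-y * -R)) ≤ Real.exp R := Real.exp_le_exp.2 (by nlinarith)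
    have h2 : Real.exp (-(-y * R)) ≤ Real.exp R := Real.exp_le_exp.2 (by nlinarith)
    linarith
  have hUb : ∀ t, ‖U t‖ ≤ 4 * K * Real.exp R * (1 + t ^ 2)⁻¹ := by
    intro t
    have h1 : ‖U t‖ ≤ K * (2 * Real.exp R) := by
      rw [hU']; exact (hb0 t).trans (mul_le_mul_of_nonneg_left hE hK0)
    have h2 : ((-y) ^ 2 + t ^ 2) * ‖U t‖ ≤ K * (2 * Real.exp R) := by
      rw [hU']; exact (hb2 t).trans (mul_le_mul_of_nonneg_left hE hK0)
    have h3 : 0 ≤ y ^ 2 * ‖U t‖ := by positivity
    rw [← div_eq_mul_inv, le_div_iff₀ (by positivity)]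
    nlinarith
  have hpsi := psi_int φ hφ x y hy
  -- the main identity
  have hid : ∫ s, κ s * φ s = (1 / (2 * Real.pi) : ℂ) * ∫ t : ℝ, U t * Phi φ x (t + y * Complex.I) := by
    have e1 : ∫ s, κ s * φ s = ∫ s, psi φ x y s * (κ s * (Real.exp (-(-y * s)) : ℂ)) := by
      refine integral_congr_ae (Eventually.of_forall fun s => ?_)
      dsimp only
      unfold psi
      by_cases hs : s ∈ Ioi (-x)
      · rw [Set.indicator_of_mem hs]
        have : (Real.exp (-(y * s)) : ℂ) * (Real.exp (-(-y * s)) : ℂ) = 1 := by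
          rw [← Complex.ofReal_mul, ← Real.exp_add]
          simp
        linear_combination (-(κ s * φ s)) * this
      · rw [Set.indicator_of_notMem hs, zero_mul]
        rw [hsupp s ?_, zero_mul]
        intro hmem
        apply hs
        have : -R ≤ s := hmem.1
        show -x < s
        linarith
    have e2 : ∀ s : ℝ, psi φ x y s * (κ s * (Real.exp (-(-y * s)) : ℂ))
        = (1 / (2 * Real.pi) : ℂ) * ∫ t : ℝ, psi φ x y s * (U t * Complex.exp (Complex.I * t * s)) := by
      intro s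
      rw [hinv s, integral_const_mul]
      simp only [← hU']
      ring
    rw [e1]
    simp_rw [e2]
    rw [integral_const_mul]
    congr 1
    rw [integral_integral_swap]
    · refine integral_congr_ae (Eventually.of_forall fun t => ?_)
      dsimp only
      rw [← psi_fourier, ← integral_const_mul]
      refine integral_congr_ae (Eventually.of_forall fun s => ?_)
      dsimp only
      ring
    · have h1 : Integrable (fun z : ℝ × ℝ => psi φ x y z.1 * U z.2) (volume.prod volume) :=
        hpsi.mul_prod hUint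
      have h2 : Integrable (fun z : ℝ × ℝ =>
          (psi φ x y z.1 * U z.2) * Complex.exp (Complex.I * z.2 * z.1)) (volume.prod volume) := by
        refine h1.mul_bdd (c := 1) ?_ (Eventually.of_forall fun z => ?_)
        · exact (by fun_prop : Continuous fun z : ℝ × ℝ =>
            Complex.exp (Complex.I * z.2 * z.1)).aestronglyMeasurable
        · rw [Complex.norm_exp]
          simp
      refine h2.congr (Eventually.of_forall fun z => ?_)
      simp only [Function.uncurry]
      ring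
  rw [hid, norm_mul]
  have h1 : ‖∫ t : ℝ, U t * Phi φ x (t + y * Complex.I)‖ ≤ C * (4 * K * Real.exp R * Real.pi) := by
    calc ‖∫ t : ℝ, U t * Phi φ x (t + y * Complex.I)‖
        ≤ ∫ t : ℝ, (C * (4 * K * Real.exp R)) * (1 + t ^ 2)⁻¹ := by
          refine norm_integral_le_of_norm_le (integrable_inv_one_add_sq.const_mul _)
            (Eventually.of_forall fun t => ?_)
          rw [norm_mul]
          calc ‖U t‖ * ‖Phi φ x (t + y * Complex.I)‖
              ≤ (4 * K * Real.exp R * (1 + t ^ 2)⁻¹) * C := by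
                gcongr
                · exact hUb t
                · exact hC t
            _ = _ := by ring
      _ = C * (4 * K * Real.exp R * Real.pi) := by
          rw [integral_const_mul, integral_univ_inv_one_add_sq]
          ring
  have h2 : ‖(1 / (2 * Real.pi) : ℂ)‖ = 1 / (2 * Real.pi) := by
    rw [show (1 / (2 * Real.pi) : ℂ) = ((1 / (2 * Real.pi) : ℝ) : ℂ) by push_cast; ring,
      Complex.norm_real, Real.norm_eq_abs, abs_of_pos (by positivity)]
  rw [h2]
  calc 1 / (2 * Real.pi) * ‖∫ t : ℝ, U t * Phi φ x (t + y * Complex.I)‖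
      ≤ 1 / (2 * Real.pi) * (C * (4 * K * Real.exp R * Real.pi)) := by gcongr
    _ = C * (2 * K * Real.exp R) := by
        field_simp
        ring

end FUAux

theorem final_uniqueness (φ : ℝ → ℂ) (hφ : Integrable φ) (x y : ℕ → ℝ)
    (hx : Tendsto x atTop atTop) (hy : ∀ k, 0 < y k) (hy1 : ∀ k, y k ≤ 1)
    (C : ℕ → ℝ) (hC : Tendsto C atTop (𝓝 0))
    (h : ∀ k, ∀ t : ℝ, ‖Phi φ (x k) (t + y k * Complex.I)‖ ≤ C k) : φ =ᵐ[volume] 0 := by
  refine ae_eq_zero_of_integral_contDiff_smul_eq_zero hφ.locallyIntegrable fun v hv hvc => ?_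
  obtain ⟨R, hR0, hR⟩ : ∃ R : ℝ, 0 ≤ R ∧ ∀ s, s ∉ Icc (-R) R → v s = 0 := by
    obtain ⟨R, hR⟩ := hvc.isCompact.isBounded.subset_closedBall 0
    refine ⟨max R 0, le_max_right _ _, fun s hs => ?_⟩
    by_contra hne
    apply hs
    have h1 : s ∈ Metric.closedBall (0:ℝ) R := hR (subset_tsupport _ hne)
    rw [Metric.mem_closedBall, dist_zero_right, Real.norm_eq_abs, abs_le] at h1
    exact ⟨(neg_le_neg (le_max_left _ _)).trans h1.1, h1.2.trans (le_max_left _ _)⟩
  obtain ⟨K, hK0, hK⟩ := FUAux.bound φ hφ (fun s => (v s : ℂ))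
    (Complex.ofRealCLM.contDiff.comp (by exact_mod_cast contDiff_infty.1 hv 2)) R hR0
    (fun s hs => by rw [hR s hs, Complex.ofReal_zero])
  have h1 : ∀ᶠ k in atTop, ‖∫ s, (v s : ℂ) * φ s‖ ≤ C k * K := by
    filter_upwards [hx.eventually_gt_atTop R] with k hk
    exact hK (x k) (y k) (C k) hk (hy k) (hy1 k) (h k)
  have h2 : ‖∫ s, (v s : ℂ) * φ s‖ ≤ 0 := by
    have h3 : Tendsto (fun k => C k * K) atTop (𝓝 (0 * K)) := hC.mul_const K
    rw [zero_mul] at h3
    exact ge_of_tendsto h3 h1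
  have h3 : ∫ s, (v s : ℂ) * φ s = 0 := norm_le_zero_iff.1 h2
  rw [← h3]
  refine integral_congr_ae (Eventually.of_forall fun s => ?_)
  simp only [Complex.real_smul]

end Pool.Agent.Domar
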