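import Pool.Agent.Lib.MP_af79d0_an.Defs

set_option autoImplicit false
open MeasureTheory Filter Topology Set

namespace Pool.Agent.Domar

/-- the comparison function of the initial step -/
noncomputable def initWc (ε s H : ℝ) (τ : ℂ) : ℂ :=
  (ε : ℂ) * Complex.I * Complex.cosh ((s : ℂ) * ((H : ℂ) - (ε : ℂ) * τ)) / (Real.sinh (s * H) : ℂ)

theorem initWc_re (ε s H : ℝ) (hε : ε = 1 ∨ ε = -1) (τ : ℂ) :
    (initWc ε s H τ).re = Real.sin (s * τ.im) * Real.sinh (s * (H - ε * τ.re)) / Real.sinh (s * H) := by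
  have h1 : (s : ℂ) * ((H : ℂ) - (ε : ℂ) * τ) =
      ((s * (H - ε * τ.re) : ℝ) : ℂ) + ((-(ε * (s * τ.im)) : ℝ) : ℂ) * Complex.I := by
    apply Complex.ext
    · simp
    · simp; ring
  unfold initWc
  rw [h1, Complex.cosh_add, Complex.cosh_mul_I, Complex.sinh_mul_I, Complex.div_ofReal_re,
    ← Complex.ofReal_cosh, ← Complex.ofReal_cos, ← Complex.ofReal_sinh, ← Complex.ofReal_sin]
  congr 1
  have hs : Real.sin (-(ε * (s * τ.im))) = -(ε * Real.sin (s * τ.im)) := by
    rcases hε with h | h <;> subst h <;> simp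
  rw [hs]
  have he : ε * ε = 1 := by rcases hε with h | h <;> subst h <;> norm_num
  simp only [Complex.mul_re, Complex.mul_im, Complex.add_re, Complex.add_im, Complex.ofReal_re,
    Complex.ofReal_im, Complex.I_re, Complex.I_im]
  ring_nf
  have : ε ^ 2 = 1 := by rw [pow_two]; exact he
  rw [this]; ring

theorem init_half (ε : ℝ) (hε : ε = 1 ∨ ε = -1) (Φ : ℂ → ℂ) (x H Λ C : ℝ) (hx : 0 < x) (hH : 0 < H)
    (hΛ : 0 ≤ Λ) (hC : 0 ≤ C)
    (hd : DifferentiableOn ℂ Φ {τ | 0 < τ.im}) (hc : ContinuousOn Φ {τ | 0 ≤ τ.im})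
    (hb : ∀ τ : ℂ, 0 ≤ τ.im → ‖Φ τ‖ ≤ C * Real.exp (x * τ.im))
    (hslit : ∀ y : ℝ, 0 < y → y ≤ H → ‖Φ (y * Complex.I)‖ ≤ C * Real.exp (-Λ)) :
    ∀ t y : ℝ, 0 < ε * t → ε * t < H → 0 < y → y < H →
      ‖Φ (t + y * Complex.I)‖ ≤ C * Real.exp (x * y) *
        Real.exp (-(Λ * (Real.sin (Real.pi / H * y) * Real.sinh (Real.pi / H * (H - ε * t)) /
          Real.sinh (Real.pi / H * H)))) := by
  intro t y ht1 ht2 hy1 hy2
  set s : ℝ := Real.pi / H with hs
  have hspos : 0 < s := div_pos Real.pi_pos hH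
  have hsH : s * H = Real.pi := by rw [hs]; field_simp
  have hsinh : 0 < Real.sinh (s * H) := Real.sinh_pos_iff.mpr (by positivity)
  set U : Set ℂ := {τ | 0 < ε * τ.re ∧ ε * τ.re < H ∧ 0 < τ.im ∧ τ.im < H} with hU
  set K : Set ℂ := {τ | 0 ≤ ε * τ.re ∧ ε * τ.re ≤ H ∧ 0 ≤ τ.im ∧ τ.im ≤ H} with hK
  have hUopen : IsOpen U := by
    have c1 : Continuous fun τ : ℂ => ε * τ.re := continuous_const.mul Complex.continuous_re
    have c2 : Continuous fun τ : ℂ => τ.im := Complex.continuous_im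
    exact ((isOpen_lt continuous_const c1).inter ((isOpen_lt c1 continuous_const).inter
      ((isOpen_lt continuous_const c2).inter (isOpen_lt c2 continuous_const))))
  have hKclosed : IsClosed K := by
    have c1 : Continuous fun τ : ℂ => ε * τ.re := continuous_const.mul Complex.continuous_re
    have c2 : Continuous fun τ : ℂ => τ.im := Complex.continuous_im
    exact ((isClosed_le continuous_const c1).inter ((isClosed_le c1 continuous_const).inter
      ((isClosed_le continuous_const c2).inter (isClosed_le c2 continuous_const))))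
  have hUK : U ⊆ K := fun z hz => ⟨hz.1.le, hz.2.1.le, hz.2.2.1.le, hz.2.2.2.le⟩
  have hclK : closure U ⊆ K := closure_minimal hUK hKclosed
  have habs : ∀ r : ℝ, |ε * r| = |r| := by
    intro r; rcases hε with h | h <;> subst h <;> simp
  have hUbdd : Bornology.IsBounded U := by
    rw [Metric.isBounded_iff_subset_closedBall 0]
    refine ⟨2 * H, fun z hz => ?_⟩
    rw [mem_closedBall_zero_iff]
    have h1 : |z.re| ≤ H := by
      rw [← habs, abs_of_pos hz.1]; exact hz.2.1.le
    have h2 : |z.im| ≤ H := by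
      rw [abs_of_pos hz.2.2.1]; exact hz.2.2.2.le
    calc ‖z‖ ≤ |z.re| + |z.im| := Complex.norm_le_abs_re_add_abs_im z
      _ ≤ 2 * H := by linarith
  set G : ℂ → ℂ := fun τ => Φ τ * Complex.exp (Complex.I * (x : ℂ) * τ) *
    Complex.exp ((Λ : ℂ) * initWc ε s H τ) with hG
  have hWdiff : Differentiable ℂ (initWc ε s H) := by
    unfold initWc
    intro z
    fun_prop
  have hGn : ∀ τ : ℂ, ‖G τ‖ = ‖Φ τ‖ * Real.exp (-(x * τ.im)) *
      Real.exp (Λ * (Real.sin (s * τ.im) * Real.sinh (s * (H - ε * τ.re)) / Real.sinh (s * H))) := by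
    intro τ
    simp only [hG, norm_mul, Complex.norm_exp]
    congr 1
    · congr 2
      simp
    · rw [Complex.re_ofReal_mul, initWc_re ε s H hε]
  have hGd : DiffContOnCl ℂ G U := by
    constructor
    · intro z hz
      have hzi : 0 < z.im := hz.2.2.1
      have h1 : DifferentiableAt ℂ Φ z :=
        (hd z hzi).differentiableAt ((isOpen_lt continuous_const Complex.continuous_im).mem_nhds hzi)
      exact ((h1.mul (by fun_prop)).mul ((((hWdiff z).const_mul _)).cexp)).differentiableWithinAt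
    · have h1 : ContinuousOn Φ (closure U) := hc.mono (fun z hz => (hclK hz).2.2.1)
      refine (h1.mul (by fun_prop)).mul ?_
      exact (Complex.continuous_exp.comp (continuous_const.mul hWdiff.continuous)).continuousOn
  have hfr : ∀ z ∈ frontier U, ‖G z‖ ≤ C := by
    intro z hz
    have hzK : z ∈ K := hclK (frontier_subset_closure hz)
    have hznU : z ∉ U := by
      intro h
      have h' : z ∈ U ∩ frontier U := ⟨h, hz⟩
      rw [hUopen.inter_frontier_eq] at h'
      exact h'
    rw [hGn]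
    have hb0 : ‖Φ z‖ * Real.exp (-(x * z.im)) ≤ C := by
      calc ‖Φ z‖ * Real.exp (-(x * z.im)) ≤ (C * Real.exp (x * z.im)) * Real.exp (-(x * z.im)) := by
            gcongr; exact hb z hzK.2.2.1
        _ = C := by rw [mul_assoc, ← Real.exp_add]; simp
    have hzero : (Real.sin (s * z.im) * Real.sinh (s * (H - ε * z.re)) / Real.sinh (s * H) = 0) →
        ‖Φ z‖ * Real.exp (-(x * z.im)) * Real.exp (Λ * (Real.sin (s * z.im) *
          Real.sinh (s * (H - ε * z.re)) / Real.sinh (s * H))) ≤ C := by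
      intro h; rw [h]; simpa using hb0
    by_cases h1 : z.im = 0
    · apply hzero; simp [h1]
    by_cases h2 : z.im = H
    · apply hzero; rw [h2, hsH]; simp
    by_cases h3 : ε * z.re = H
    · apply hzero; rw [h3]; simp
    have him : 0 < z.im := lt_of_le_of_ne hzK.2.2.1 (Ne.symm h1)
    have him2 : z.im < H := lt_of_le_of_ne hzK.2.2.2 h2
    have hre2 : ε * z.re < H := lt_of_le_of_ne hzK.2.1 h3
    have hre : ε * z.re = 0 := by
      by_contra hne
      exact hznU ⟨lt_of_le_of_ne hzK.1 (Ne.symm hne), hre2, him, him2⟩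
    have hre' : z.re = 0 := by
      rcases mul_eq_zero.mp hre with h | h
      · rcases hε with h' | h' <;> rw [h'] at h <;> norm_num at h
      · exact h
    have hz : z = (z.im : ℂ) * Complex.I := by
      apply Complex.ext <;> simp [hre']
    have hΦ : ‖Φ z‖ ≤ C * Real.exp (-Λ) := by
      rw [hz]; exact hslit z.im him him2.le
    rw [hre]
    have hq : Real.sin (s * z.im) * Real.sinh (s * (H - 0)) / Real.sinh (s * H) ≤ 1 := by
      rw [sub_zero, mul_div_assoc, div_self hsinh.ne', mul_one]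
      exact Real.sin_le_one _
    calc ‖Φ z‖ * Real.exp (-(x * z.im)) * Real.exp (Λ * (Real.sin (s * z.im) *
          Real.sinh (s * (H - 0)) / Real.sinh (s * H)))
        ≤ (C * Real.exp (-Λ)) * 1 * Real.exp (Λ * 1) := by
          gcongr
          rw [← Real.exp_zero]
          exact Real.exp_le_exp.mpr (by nlinarith)
      _ = C := by rw [mul_one, mul_assoc, ← Real.exp_add]; simp
  have hzU : ((t : ℂ) + (y : ℂ) * Complex.I) ∈ U := by
    refine ⟨?_, ?_, ?_, ?_⟩ <;> simp
    exacts [ht1, ht2, hy1, hy2]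
  have hmain := Complex.norm_le_of_forall_mem_frontier_norm_le hUbdd hGd hfr (subset_closure hzU)
  rw [hGn] at hmain
  have hre : ((t : ℂ) + (y : ℂ) * Complex.I).re = t := by simp
  have him : ((t : ℂ) + (y : ℂ) * Complex.I).im = y := by simp
  rw [hre, him] at hmain
  set Q : ℝ := Real.sin (s * y) * Real.sinh (s * (H - ε * t)) / Real.sinh (s * H)
  have e1 : Real.exp (-(x * y)) * Real.exp (x * y) = 1 := by rw [← Real.exp_add]; simp
  have e2 : Real.exp (Λ * Q) * Real.exp (-(Λ * Q)) = 1 := by rw [← Real.exp_add]; simp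
  calc ‖Φ ((t : ℂ) + (y : ℂ) * Complex.I)‖
      = (‖Φ ((t : ℂ) + (y : ℂ) * Complex.I)‖ * Real.exp (-(x * y)) * Real.exp (Λ * Q)) *
          Real.exp (x * y) * Real.exp (-(Λ * Q)) := by
        have : (‖Φ ((t : ℂ) + (y : ℂ) * Complex.I)‖ * Real.exp (-(x * y)) * Real.exp (Λ * Q)) *
          Real.exp (x * y) * Real.exp (-(Λ * Q)) = ‖Φ ((t : ℂ) + (y : ℂ) * Complex.I)‖ *
            (Real.exp (-(x * y)) * Real.exp (x * y)) * (Real.exp (Λ * Q) * Real.exp (-(Λ * Q))) := by
          ring
        rw [this, e1, e2]; ring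
    _ ≤ C * Real.exp (x * y) * Real.exp (-(Λ * Q)) := by gcongr

/-- initial step (abstract), `h = ω / (40000 x)` -/
theorem init_step (Φ : ℂ → ℂ) (x ω C : ℝ) (hx : 0 < x) (hω : 0 < ω) (hC : 0 ≤ C)
    (hd : DifferentiableOn ℂ Φ {τ | 0 < τ.im}) (hc : ContinuousOn Φ {τ | 0 ≤ τ.im})
    (hb : ∀ τ : ℂ, 0 ≤ τ.im → ‖Φ τ‖ ≤ C * Real.exp (x * τ.im))
    (hslit : ∀ y : ℝ, 0 < y → y ≤ 10 * (ω / (40000 * x)) →
      ‖Φ (y * Complex.I)‖ ≤ C * Real.exp (-(ω / 4))) :
    ∀ t y : ℝ, |t| ≤ 2 * (ω / (40000 * x)) → 0 < y → y ≤ ω / (40000 * x) →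
      ‖Φ (t + y * Complex.I)‖ ≤ C * Real.exp (-(100 * x * y)) := by
  intro t y ht hy hyh
  set h : ℝ := ω / (40000 * x) with hh
  have hhpos : 0 < h := by positivity
  have hωh : ω = 40000 * x * h := by rw [hh]; field_simp
  by_cases ht0 : t = 0
  · subst ht0
    have h1 := hslit y hy (by linarith)
    have : ((0 : ℝ) : ℂ) + (y : ℂ) * Complex.I = (y : ℂ) * Complex.I := by simp
    rw [this]
    refine h1.trans ?_
    gcongr
    nlinarith [mul_le_mul_of_nonneg_left hyh hx.le]
  obtain ⟨ε, hε, hεt⟩ : ∃ ε : ℝ, (ε = 1 ∨ ε = -1) ∧ ε * t = |t| := by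
    rcases lt_or_gt_of_ne ht0 with h' | h'
    · exact ⟨-1, Or.inr rfl, by rw [abs_of_neg h']; ring⟩
    · exact ⟨1, Or.inl rfl, by rw [abs_of_pos h']; ring⟩
  have htpos : 0 < |t| := abs_pos.mpr ht0
  set H : ℝ := 10 * h with hH
  have hHpos : 0 < H := by positivity
  have key := init_half ε hε Φ x H (ω / 4) C hx hHpos (by positivity) hC hd hc hb hslit t y
    (by rw [hεt]; exact htpos) (by rw [hεt]; linarith) hy (by linarith)
  refine key.trans ?_
  rw [mul_assoc, ← Real.exp_add, hεt]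
  gcongr
  -- the lower bound for the comparison function
  have hpi3 : Real.pi > 3.1415 := Real.pi_gt_d4
  have hpi4 : Real.pi < 3.15 := by linarith [Real.pi_lt_d4]
  set s : ℝ := Real.pi / H with hs
  have hspos : 0 < s := div_pos Real.pi_pos hHpos
  have hsH : s * H = Real.pi := by rw [hs]; field_simp
  have hsh : s * h = Real.pi / 10 := by rw [← hsH, hH]; ring
  have hsin : 2 / Real.pi * (s * y) ≤ Real.sin (s * y) := by
    apply Real.mul_le_sin (by positivity)
    have : s * y ≤ s * h := by gcongr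
    rw [hsh] at this
    linarith
  have hsin2 : y / (5 * h) ≤ Real.sin (s * y) := by
    have : 2 / Real.pi * (s * y) = y / (5 * h) := by
      rw [hs, hH]; field_simp; ring
    rw [← this]; exact hsin
  have hratio : (3 : ℝ) / 10 ≤ Real.sinh (s * (H - |t|)) / Real.sinh (s * H) := by
    have hP : 0 < Real.sinh (s * H) := Real.sinh_pos_iff.mpr (by positivity)
    rw [le_div_iff₀ hP, Real.sinh_eq, Real.sinh_eq]
    have hst : s * |t| ≤ Real.pi / 5 := by
      calc s * |t| ≤ s * (2 * h) := by gcongr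
        _ = Real.pi / 5 := by rw [show s * (2 * h) = 2 * (s * h) by ring, hsh]; ring
    have e1 : Real.exp (s * (H - |t|)) = Real.exp (s * H) * Real.exp (-(s * |t|)) := by
      rw [← Real.exp_add]; congr 1; ring
    have e2 : (37 : ℝ) / 100 ≤ Real.exp (-(s * |t|)) := by
      have := Real.add_one_le_exp (-(s * |t|))
      linarith
    have e3 : Real.exp (-(s * (H - |t|))) ≤ 1 / 3 := by
      have h5 : (2 : ℝ) ≤ s * (H - |t|) := by
        have : s * (H - |t|) = Real.pi - s * |t| := by rw [mul_sub, hsH]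
        rw [this]; linarith
      have h6 : (3 : ℝ) ≤ Real.exp (s * (H - |t|)) := by
        have := Real.add_one_le_exp (s * (H - |t|))
        linarith
      rw [Real.exp_neg, ← one_div]
      exact one_div_le_one_div_of_le (by norm_num) h6
    have e4 : (20 : ℝ) ≤ Real.exp (s * H) := by
      rw [hsH]
      have h1 : Real.exp Real.pi = Real.exp (Real.pi / 3) ^ 3 := by
        rw [← Real.exp_nat_mul]; congr 1; push_cast; ring
      have h2 : (2.7182818283 : ℝ) ≤ Real.exp (Real.pi / 3) := by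
        calc (2.7182818283 : ℝ) ≤ Real.exp 1 := Real.exp_one_gt_d9.le
          _ ≤ Real.exp (Real.pi / 3) := Real.exp_le_exp.mpr (by linarith)
      rw [h1]
      calc (20 : ℝ) ≤ 2.7182818283 ^ 3 := by norm_num
        _ ≤ _ := by gcongr
    have e5 : 0 < Real.exp (-(s * H)) := Real.exp_pos _
    rw [e1]
    nlinarith
  have hprod : y / (5 * h) * (3 / 10) ≤
      Real.sin (s * y) * Real.sinh (s * (H - |t|)) / Real.sinh (s * H) := by
    rw [mul_div_assoc]
    apply mul_le_mul hsin2 hratio (by norm_num)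
    exact le_trans (by positivity) hsin2
  have hfin : ω / 4 * (y / (5 * h) * (3 / 10)) = 600 * (x * y) := by
    rw [hωh]; field_simp; ring
  have hxy : 0 < x * y := by positivity
  have := mul_le_mul_of_nonneg_left hprod (show (0 : ℝ) ≤ ω / 4 by positivity)
  rw [hfin] at this
  nlinarith

end Pool.Agent.Domar
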