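import Pool.Agent.Lib.MP_af79d0_an.Defs
import Pool.Agent.Lib.MP_af79d0_an.PhiBasic
import Pool.Agent.Lib.MP_af79d0_an.InitStep
import Pool.Agent.Lib.MP_af79d0_an.ExtStep
import Pool.Agent.Lib.MP_af79d0_an.FinalUniq

set_option autoImplicit false
open MeasureTheory Filter Topology Set

namespace Pool.Agent.Domar


namespace MSA

/-- the box property -/
def P (φ : ℝ → ℂ) (x ω : ℕ → ℝ) (k : ℕ) (γ C : ℝ) : Prop :=
  ∀ t y : ℝ, |t| ≤ γ → 0 < y → y ≤ ω k / (40000 * x k) →
    ‖Phi φ (x k) (t + y * Complex.I)‖ ≤ C * Real.exp (-(100 * x k * y))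

lemma P_mono {φ : ℝ → ℂ} {x ω : ℕ → ℝ} {k : ℕ} {γ C C' : ℝ} (h : P φ x ω k γ C) (hC : C ≤ C') :
    P φ x ω k γ C' := by
  intro t y h1 h2 h3
  exact (h t y h1 h2 h3).trans (mul_le_mul_of_nonneg_right hC (Real.exp_pos _).le)

end MSA

open MSA in
theorem multiscale (φ : ℝ → ℂ) (hφ : Integrable φ) (x ω : ℕ → ℝ) (hx0 : 0 < x 0)
    (hω0 : 0 < ω 0) (hx : ∀ k, 100 * x k ≤ x (k + 1)) (hω : ∀ k, 50 * ω k ≤ ω (k + 1))
    (hdiv : ¬ Summable (fun k => ω k / x k)) (C : ℝ)
    (htail : ∀ k, ∫ s in Iic (-(x k)), ‖φ s‖ ≤ C * Real.exp (-(ω k)))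
    (hslit : ∀ k, ∀ y : ℝ, 0 < y → y ≤ 10 * (ω k / (40000 * x k)) →
      ‖Phi φ (x k) (y * Complex.I)‖ ≤ C * Real.exp (-(ω k / 4))) :
    φ =ᵐ[volume] 0 := by
  have hxp : ∀ k, 100 ^ k * x 0 ≤ x k := by
    intro k
    induction k with
    | zero => simp
    | succ k ih =>
      calc 100 ^ (k + 1) * x 0 = 100 * (100 ^ k * x 0) := by ring
        _ ≤ 100 * x k := by linarith
        _ ≤ _ := hx k
  have hωp : ∀ k, 50 ^ k * ω 0 ≤ ω k := by
    intro k
    induction k with
    | zero => simp
    | succ k ih =>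
      calc 50 ^ (k + 1) * ω 0 = 50 * (50 ^ k * ω 0) := by ring
        _ ≤ 50 * ω k := by linarith
        _ ≤ _ := hω k
  have hxpos : ∀ k, 0 < x k := fun k => lt_of_lt_of_le (by positivity) (hxp k)
  have hωpos : ∀ k, 0 < ω k := fun k => lt_of_lt_of_le (by positivity) (hωp k)
  set h : ℕ → ℝ := fun k => ω k / (40000 * x k) with hh
  have hhpos : ∀ k, 0 < h k := by
    intro k
    have := hxpos k
    have := hωpos k
    rw [hh]; positivity
  set C₀ : ℝ := max C (∫ s, ‖φ s‖) with hC₀
  have hC₀0 : 0 ≤ C₀ := le_trans (integral_nonneg (fun s => norm_nonneg _)) (le_max_right _ _)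
  have hCC : C ≤ C₀ := le_max_left _ _
  have hφC : ∫ s, ‖φ s‖ ≤ C₀ := le_max_right _ _
  have hb : ∀ k, ∀ C' : ℝ, C₀ ≤ C' → ∀ τ : ℂ, 0 ≤ τ.im →
      ‖Phi φ (x k) τ‖ ≤ C' * Real.exp (x k * τ.im) := by
    intro k C' hC' τ hτ
    refine (Phi_norm_le φ hφ (x k) τ (hxpos k).le hτ).trans ?_
    exact mul_le_mul_of_nonneg_right (hφC.trans hC') (Real.exp_pos _).le
  have hinit : ∀ k, P φ x ω k (2 * h k) C₀ := by
    intro k
    exact init_step (Phi φ (x k)) (x k) (ω k) C₀ (hxpos k) (hωpos k) hC₀0
      (Phi_differentiableOn φ hφ _) (Phi_continuousOn φ hφ _) (hb k C₀ le_rfl)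
      (fun y hy1 hy2 => (hslit k y hy1 hy2).trans
        (mul_le_mul_of_nonneg_right hCC (Real.exp_pos _).le))
  have hext : ∀ k γ C', C₀ ≤ C' → h k ≤ γ → P φ x ω (k + 1) γ C' →
      P φ x ω k (γ + h k) (C' * (1 + Real.exp (-(ω k / 2)))) := by
    intro k γ C' hC' hγ hP
    refine ext_step (Phi φ (x k)) (x k) (ω k) (x (k + 1)) (ω (k + 1)) γ C' (hxpos k) (hωpos k)
      (hx k) (hω k) hγ (hC₀0.trans hC') (Phi_differentiableOn φ hφ _) (Phi_continuousOn φ hφ _)
      (hb k C' hC') ?_
    intro t y ht hy1 hy2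
    have h1 := hP t y ht hy1 hy2
    have him : ((t : ℂ) + y * Complex.I).im = y := by simp
    have h2 := Phi_sub_le φ hφ (x k) (x (k + 1)) (hxpos k).le
      (by linarith [hx k, hxpos k]) (t + y * Complex.I) (by rw [him]; exact hy1.le)
    rw [him] at h2
    have h3 : ‖Phi φ (x k) (t + y * Complex.I)‖ ≤ ‖Phi φ (x (k + 1)) (t + y * Complex.I)‖ +
        ‖Phi φ (x (k + 1)) (t + y * Complex.I) - Phi φ (x k) (t + y * Complex.I)‖ := by
      have := norm_sub_le (Phi φ (x (k + 1)) (t + y * Complex.I))
        (Phi φ (x (k + 1)) (t + y * Complex.I) - Phi φ (x k) (t + y * Complex.I))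
      rwa [sub_sub_cancel] at this
    have h4 : (∫ s in Iic (-(x k)), ‖φ s‖) * Real.exp (x (k + 1) * y)
        ≤ C' * Real.exp (x (k + 1) * y - ω k) := by
      calc (∫ s in Iic (-(x k)), ‖φ s‖) * Real.exp (x (k + 1) * y)
          ≤ (C * Real.exp (-(ω k))) * Real.exp (x (k + 1) * y) :=
            mul_le_mul_of_nonneg_right (htail k) (Real.exp_pos _).le
        _ = C * Real.exp (x (k + 1) * y - ω k) := by
            rw [mul_assoc, ← Real.exp_add]
            congr 2
            ring
        _ ≤ _ := mul_le_mul_of_nonneg_right (hCC.trans hC') (Real.exp_pos _).le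
    linarith
  -- iterate
  set a : ℕ → ℝ := fun k => Real.exp (-(ω k / 2)) with ha
  have ha0 : ∀ k, 0 < a k := fun k => Real.exp_pos _
  have hclaim : ∀ m k : ℕ, ∃ γ, (∑ i ∈ Finset.range (m + 1), h (k + i)) ≤ γ ∧
      P φ x ω k γ (C₀ * ∏ i ∈ Finset.range m, (1 + a (k + i))) := by
    intro m
    induction m with
    | zero =>
      intro k
      refine ⟨2 * h k, ?_, ?_⟩
      · simp only [zero_add, Finset.range_one, Finset.sum_singleton, add_zero]
        linarith [hhpos k]
      · simpa using hinit k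
    | succ m ih =>
      intro k
      obtain ⟨γ', hγ', hP⟩ := ih (k + 1)
      have hprod1 : 1 ≤ ∏ i ∈ Finset.range m, (1 + a (k + 1 + i)) := by
        calc (1:ℝ) = ∏ i ∈ Finset.range m, (1:ℝ) := by simp
          _ ≤ _ := by
            apply Finset.prod_le_prod
            · intro i _
              norm_num
            · intro i _
              linarith [ha0 (k + 1 + i)]
      have hsum : (∑ i ∈ Finset.range (m + 1 + 1), h (k + i))
          = (∑ i ∈ Finset.range (m + 1), h (k + 1 + i)) + h k := by
        rw [Finset.sum_range_succ']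
        simp only [add_zero]
        congr 1
        apply Finset.sum_congr rfl
        intro i _
        congr 1
        ring
      have hprod : (∏ i ∈ Finset.range (m + 1), (1 + a (k + i)))
          = (∏ i ∈ Finset.range m, (1 + a (k + 1 + i))) * (1 + a k) := by
        rw [Finset.prod_range_succ']
        simp only [add_zero]
        congr 1
        apply Finset.prod_congr rfl
        intro i _
        congr 2
        ring
      by_cases hc : h k ≤ γ'
      · refine ⟨γ' + h k, ?_, ?_⟩
        · rw [hsum]; linarith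
        · have := hext k γ' _ (le_mul_of_one_le_right hC₀0 hprod1) hc hP
          rw [hprod]
          rw [← mul_assoc]
          exact this
      · push Not at hc
        refine ⟨2 * h k, ?_, ?_⟩
        · rw [hsum]; linarith
        · apply P_mono (hinit k)
          apply le_mul_of_one_le_right hC₀0
          rw [hprod]
          nlinarith [ha0 k]
  -- bound on the product
  have hale : ∀ k i : ℕ, a (k + i) ≤ 2 / ω 0 * (1 / 50) ^ i := by
    intro k i
    have h1 : 50 ^ i * ω 0 ≤ ω (k + i) := by
      refine le_trans ?_ (hωp (k + i))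
      apply mul_le_mul_of_nonneg_right _ hω0.le
      apply pow_le_pow_right₀ (by norm_num)
      omega
    have h2 : a (k + i) ≤ 2 / ω (k + i) := by
      rw [ha]
      simp only
      rw [Real.exp_neg, inv_le_comm₀ (Real.exp_pos _) (by have := hωpos (k + i); positivity),
        inv_div]
      have := Real.add_one_le_exp (ω (k + i) / 2)
      linarith
    refine h2.trans ?_
    have h3 : 2 / ω 0 * (1 / 50) ^ i = 2 / (50 ^ i * ω 0) := by
      rw [one_div, inv_pow]
      field_simp
    rw [h3]
    apply div_le_div_of_nonneg_left (by norm_num) (by positivity) h1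
  set T : ℝ := 2 / ω 0 * 2 with hT
  have hprodT : ∀ m k : ℕ, ∏ i ∈ Finset.range m, (1 + a (k + i)) ≤ Real.exp T := by
    intro m k
    have h1 : ∏ i ∈ Finset.range m, (1 + a (k + i))
        ≤ ∏ i ∈ Finset.range m, Real.exp (a (k + i)) := by
      apply Finset.prod_le_prod
      · intro i _
        linarith [ha0 (k + i)]
      · intro i _
        linarith [Real.add_one_le_exp (a (k + i))]
    refine h1.trans ?_
    rw [← Real.exp_sum]
    apply Real.exp_le_exp.mpr
    calc ∑ i ∈ Finset.range m, a (k + i) ≤ ∑ i ∈ Finset.range m, 2 / ω 0 * (1 / 50) ^ i :=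
          Finset.sum_le_sum (fun i _ => hale k i)
      _ = 2 / ω 0 * ∑ i ∈ Finset.range m, (1 / 50 : ℝ) ^ i := by rw [Finset.mul_sum]
      _ ≤ 2 / ω 0 * 2 := by
          apply mul_le_mul_of_nonneg_left _ (by positivity)
          have hs : Summable (fun i : ℕ => (1 / 50 : ℝ) ^ i) :=
            summable_geometric_of_lt_one (by norm_num) (by norm_num)
          refine (hs.sum_le_tsum _ (fun i _ => by positivity)).trans ?_
          rw [tsum_geometric_of_lt_one (by norm_num) (by norm_num)]
          norm_num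
  -- the bound for all t
  have hnh : ¬ Summable h := by
    intro hs
    apply hdiv
    have := hs.mul_left 40000
    refine this.congr (fun k => ?_)
    rw [hh]
    have := (hxpos k).ne'
    field_simp
  have hall : ∀ k, ∀ t y : ℝ, 0 < y → y ≤ h k →
      ‖Phi φ (x k) (t + y * Complex.I)‖ ≤ (C₀ * Real.exp T) * Real.exp (-(100 * x k * y)) := by
    intro k t y hy1 hy2
    have hns : ¬ Summable (fun i => h (k + i)) := by
      intro hs
      apply hnh
      rw [← summable_nat_add_iff k]
      refine hs.congr (fun i => ?_)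
      rw [add_comm]
    have htend := (not_summable_iff_tendsto_nat_atTop_of_nonneg
      (fun i => (hhpos (k + i)).le)).mp hns
    obtain ⟨m, hm⟩ := (htend.eventually (eventually_ge_atTop |t|)).exists
    obtain ⟨γ, hγ, hP⟩ := hclaim m k
    have hle : |t| ≤ γ := by
      refine hm.trans (le_trans ?_ hγ)
      apply Finset.sum_le_sum_of_subset_of_nonneg
      · intro i hi
        simp only [Finset.mem_range] at hi ⊢
        omega
      · intro i _ _
        exact (hhpos _).le
    refine (hP t y hle hy1 hy2).trans ?_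
    apply mul_le_mul_of_nonneg_right _ (Real.exp_pos _).le
    exact mul_le_mul_of_nonneg_left (hprodT m k) hC₀0
  -- conclusion
  have hxt : Tendsto x atTop atTop := by
    apply tendsto_atTop_mono hxp
    apply Tendsto.atTop_mul_const hx0
    exact tendsto_pow_atTop_atTop_of_one_lt (by norm_num)
  have hωt : Tendsto ω atTop atTop := by
    apply tendsto_atTop_mono hωp
    apply Tendsto.atTop_mul_const hω0
    exact tendsto_pow_atTop_atTop_of_one_lt (by norm_num)
  refine final_uniqueness φ hφ x (fun k => min (h k) 1) hxt (fun k => lt_min (hhpos k) one_pos)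
    (fun k => min_le_right _ _)
    (fun k => (C₀ * Real.exp T) * Real.exp (-(100 * x k * min (h k) 1))) ?_ ?_
  · have h1 : Tendsto (fun k => 100 * x k * min (h k) 1) atTop atTop := by
      have e1 : ∀ k, 100 * x k * min (h k) 1 = min (ω k / 400) (100 * x k) := by
        intro k
        rw [mul_min_of_nonneg _ _ (by have := hxpos k; positivity), mul_one]
        congr 1
        rw [hh]
        have := (hxpos k).ne'
        field_simp
        ring
      simp_rw [e1]
      have t1 : Tendsto (fun k => ω k / 400) atTop atTop := hωt.atTop_div_const (by norm_num)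
      have t2 : Tendsto (fun k => 100 * x k) atTop atTop := hxt.const_mul_atTop (by norm_num)
      rw [tendsto_atTop] at t1 t2 ⊢
      intro b
      filter_upwards [t1 b, t2 b] with k h1 h2
      exact le_min h1 h2
    have h2 := (Real.tendsto_exp_neg_atTop_nhds_zero.comp h1).const_mul (C₀ * Real.exp T)
    rw [mul_zero] at h2
    exact h2
  · intro k t
    have := hall k t (min (h k) 1) (lt_min (hhpos k) one_pos) (min_le_left _ _)
    exact_mod_cast this

end Pool.Agent.Domar
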