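import Pool.Agent.Lib.MP_af79d0_an.Defs

set_option autoImplicit false
open MeasureTheory Filter Topology Set

namespace Pool.Agent.Domar

namespace Norm

/-- a convex function on `(-∞,a]` tending to `+∞` at `-∞` is antitone near `-∞` -/
lemma exists_anti (f : ℝ → ℝ) (a : ℝ) (hf : ConvexOn ℝ (Iic a) f)
    (ht : Tendsto f atBot atTop) (c : ℝ) : ∃ x₁, x₁ ≤ a ∧ x₁ ≤ c ∧ AntitoneOn f (Iic x₁) := by
  have h1 : ∀ᶠ x in atBot, f a < f x := ht.eventually_gt_atTop (f a)
  have h2 : ∀ᶠ x : ℝ in atBot, x < a := eventually_lt_atBot a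
  have h3 : ∀ᶠ x : ℝ in atBot, x ≤ c := eventually_le_atBot c
  obtain ⟨x₁, hx1, hx2, hx3⟩ := (h1.and (h2.and h3)).exists
  refine ⟨x₁, hx2.le, hx3, ?_⟩
  have hneg : (f a - f x₁) / (a - x₁) < 0 :=
    div_neg_of_neg_of_pos (by linarith) (by linarith)
  intro y hy x hx hyx
  simp only [mem_Iic] at hy hx
  rcases eq_or_lt_of_le hyx with rfl | hlt
  · exact le_rfl
  have key : (f x - f y) / (x - y) < 0 := by
    rcases eq_or_lt_of_le hx with rfl | hx'
    · exact lt_of_le_of_lt
        (hf.slope_mono_adjacent (mem_Iic.2 (by linarith)) (mem_Iic.2 le_rfl) hlt hx2) hneg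
    · have e1 := hf.slope_mono_adjacent (x := y) (y := x) (z := x₁)
        (mem_Iic.2 (by linarith)) (mem_Iic.2 hx2.le) hlt hx'
      have e2 := hf.slope_mono_adjacent (x := x) (y := x₁) (z := a)
        (mem_Iic.2 (by linarith)) (mem_Iic.2 le_rfl) hx' hx2
      linarith
  by_contra hcon
  push Not at hcon
  have : 0 < (f x - f y) / (x - y) := div_pos (by linarith) (by linarith)
  linarith

/-- derivative bound for convex functions, differentiable or not -/
lemma neg_deriv_le (f : ℝ → ℝ) (a x u : ℝ) (hf : ConvexOn ℝ (Iic a) f) (hx : x < a)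
    (hu : 0 < u) : -deriv f x ≤ max ((f (x - u) - f x) / u) 0 := by
  by_cases hd : DifferentiableAt ℝ f x
  · have := hf.slope_le_deriv (x := x - u) (y := x) (mem_Iic.2 (by linarith))
      (mem_Iic.2 hx.le) (by linarith) hd
    rw [slope_def_field] at this
    have e : (f x - f (x - u)) / (x - (x - u)) = -((f (x - u) - f x) / u) := by
      rw [sub_sub_cancel, ← neg_div, neg_sub]
    rw [e] at this
    exact le_max_of_le_left (by linarith)
  · rw [deriv_zero_of_not_differentiableAt hd]
    simp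

/-- one sided divergence criterion -/
lemma div_side (f : ℝ → ℝ) (a z₁ z₂ : ℝ) (hc : Continuous f) (hf : ConvexOn ℝ (Iic a) f)
    (hza : z₂ ≤ a) (hzz : z₂ ≤ z₁) (hanti : AntitoneOn f (Iic z₂))
    (hdiv : ∫⁻ x in Iic a, ENNReal.ofReal (-deriv f x / (1 + x ^ 2)) = ⊤) :
    ¬ Summable (fun n : ℕ => (f (min (z₁ - 100 ^ n) z₂) - f z₂) / (100 ^ n) / (100 ^ n)) := by
  intro hsum
  set θ : ℝ → ℝ := fun v => f (min (z₁ - v) z₂) - f z₂ with hθ
  have hθ0 : ∀ v, 0 ≤ θ v := by
    intro v
    have : f z₂ ≤ f (min (z₁ - v) z₂) :=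
      hanti (mem_Iic.2 (min_le_right _ _)) (mem_Iic.2 le_rfl) (min_le_right _ _)
    simp only [hθ]; linarith
  have hθm : Monotone θ := by
    intro v v' hv
    have : f (min (z₁ - v) z₂) ≤ f (min (z₁ - v') z₂) :=
      hanti (mem_Iic.2 (min_le_right _ _)) (mem_Iic.2 (min_le_right _ _))
        (min_le_min_right _ (by linarith))
    simp only [hθ]; linarith
  have hsum' : Summable (fun n : ℕ => θ (100 ^ n) / (100 ^ n) / (100 ^ n)) := hsum
  -- choose n0
  obtain ⟨n0, hn0⟩ : ∃ n0 : ℕ, (z₁ - z₂) + 2 * |z₁| + 1 < (100 : ℝ) ^ n0 :=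
    pow_unbounded_of_one_lt _ (by norm_num)
  set G : ℝ → ENNReal := fun x => ENNReal.ofReal (-deriv f x / (1 + x ^ 2)) with hG
  -- pieces
  have hpiece : ∀ n : ℕ, n0 ≤ n →
      ∫⁻ x in Icc (z₁ - 100 ^ (n + 1)) (z₁ - 100 ^ n), G x ≤
        ENNReal.ofReal (400000000 * (θ (100 ^ (n + 2)) / (100 ^ (n + 2)) / (100 ^ (n + 2)))) := by
    intro n hn
    have hpn : (0 : ℝ) < 100 ^ n := by positivity
    have hpow : (100 : ℝ) ^ n0 ≤ 100 ^ n := pow_le_pow_right₀ (by norm_num) hn
    have hbd : ∀ x ∈ Icc (z₁ - 100 ^ (n + 1)) (z₁ - 100 ^ n),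
        G x ≤ ENNReal.ofReal (θ (100 ^ (n + 2)) / 100 ^ (n + 1) * (4 / (100 ^ n) ^ 2)) := by
      intro x hx
      obtain ⟨hx1, hx2⟩ := hx
      have hv : (100 : ℝ) ^ n ≤ z₁ - x := by linarith
      have habs : 0 ≤ |z₁| := abs_nonneg _
      have hxz : x ≤ z₂ := by linarith
      apply ENNReal.ofReal_le_ofReal
      have hxa : x < a ∨ x = a := lt_or_eq_of_le (by linarith)
      have hxlt : x < z₂ := by linarith
      have hder : -deriv f x ≤ θ (100 ^ (n + 2)) / 100 ^ (n + 1) := by
        have h1 := neg_deriv_le f a x (100 ^ (n + 1)) hf (by linarith) (by positivity)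
        refine h1.trans (max_le ?_ (div_nonneg (hθ0 _) (by positivity)))
        apply div_le_div_of_nonneg_right _ (by positivity : (0 : ℝ) ≤ 100 ^ (n + 1))
        have h2 : f (x - 100 ^ (n + 1)) ≤ f (min (z₁ - 100 ^ (n + 2)) z₂) := by
          apply hanti (mem_Iic.2 (min_le_right _ _))
          · simp only [mem_Iic]
            have : (0 : ℝ) < 100 ^ (n + 1) := by positivity
            linarith
          · refine (min_le_left _ _).trans ?_
            have e1 : (100 : ℝ) ^ (n + 2) = 100 * 100 ^ (n + 1) := by ring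
            have : (0 : ℝ) < 100 ^ (n + 1) := by positivity
            rw [e1]; linarith
        have h3 : f z₂ ≤ f x := hanti (mem_Iic.2 hxz) (mem_Iic.2 le_rfl) hxz
        simp only [hθ]; linarith
      have hsq : (100 ^ n : ℝ) ^ 2 / 4 ≤ 1 + x ^ 2 := by
        have hx3 : (100 : ℝ) ^ n / 2 ≤ -x := by
          have := le_abs_self z₁
          linarith
        nlinarith [hx3, hpn]
      have hpos : (0 : ℝ) < 1 + x ^ 2 := by positivity
      calc -deriv f x / (1 + x ^ 2)
          ≤ (θ (100 ^ (n + 2)) / 100 ^ (n + 1)) / (1 + x ^ 2) :=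
            div_le_div_of_nonneg_right hder hpos.le
        _ = (θ (100 ^ (n + 2)) / 100 ^ (n + 1)) * (1 / (1 + x ^ 2)) := by ring
        _ ≤ θ (100 ^ (n + 2)) / 100 ^ (n + 1) * (4 / (100 ^ n) ^ 2) := by
            apply mul_le_mul_of_nonneg_left _ (div_nonneg (hθ0 _) (by positivity))
            rw [div_le_div_iff₀ hpos (by positivity)]
            linarith
    calc ∫⁻ x in Icc (z₁ - 100 ^ (n + 1)) (z₁ - 100 ^ n), G x
        ≤ ∫⁻ _x in Icc (z₁ - 100 ^ (n + 1)) (z₁ - 100 ^ n),
            ENNReal.ofReal (θ (100 ^ (n + 2)) / 100 ^ (n + 1) * (4 / (100 ^ n) ^ 2)) :=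
          setLIntegral_mono' measurableSet_Icc hbd
      _ = ENNReal.ofReal (θ (100 ^ (n + 2)) / 100 ^ (n + 1) * (4 / (100 ^ n) ^ 2)) *
            ENNReal.ofReal ((z₁ - 100 ^ n) - (z₁ - 100 ^ (n + 1))) := by
          rw [setLIntegral_const, Real.volume_Icc]
      _ = ENNReal.ofReal (θ (100 ^ (n + 2)) / 100 ^ (n + 1) * (4 / (100 ^ n) ^ 2) *
            ((z₁ - 100 ^ n) - (z₁ - 100 ^ (n + 1)))) := by
          have h1 : 0 ≤ θ (100 ^ (n + 2)) / 100 ^ (n + 1) * (4 / (100 ^ n) ^ 2) :=
            mul_nonneg (div_nonneg (hθ0 _) (by positivity)) (by positivity)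
          rw [ENNReal.ofReal_mul h1]
      _ ≤ _ := by
          apply ENNReal.ofReal_le_ofReal
          have e0 : (z₁ - 100 ^ n) - (z₁ - 100 ^ (n + 1)) = 99 * (100 : ℝ) ^ n := by ring
          rw [e0]
          have e1 : θ (100 ^ (n + 2)) / 100 ^ (n + 1) * (4 / (100 ^ n) ^ 2) * (99 * 100 ^ n) =
              396 * θ (100 ^ (n + 2)) / (100 * (100 ^ n) ^ 2) := by
            field_simp
            ring
          have e2 : 400000000 * (θ (100 ^ (n + 2)) / (100 ^ (n + 2)) / (100 ^ (n + 2))) =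
              400 * θ (100 ^ (n + 2)) / (100 * (100 ^ n) ^ 2) := by
            field_simp
            ring
          rw [e1, e2]
          apply div_le_div_of_nonneg_right _ (by positivity)
          have := hθ0 (100 ^ (n + 2))
          linarith
  -- the far left part
  have hfar : ∫⁻ x in Iic (z₁ - 100 ^ n0), G x < ⊤ := by
    have hcover : Iic (z₁ - 100 ^ n0) ⊆
        ⋃ k : ℕ, Icc (z₁ - 100 ^ (n0 + k + 1)) (z₁ - 100 ^ (n0 + k)) := by
      intro x hx
      simp only [mem_Iic] at hx
      have h1 : (1 : ℝ) ≤ z₁ - x := by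
        have : (1 : ℝ) ≤ 100 ^ n0 := one_le_pow₀ (by norm_num)
        linarith
      obtain ⟨n, hn1, hn2⟩ := exists_nat_pow_near h1 (by norm_num : (1 : ℝ) < 100)
      have hle : n0 ≤ n := by
        by_contra hcon
        push Not at hcon
        have : (100 : ℝ) ^ (n + 1) ≤ 100 ^ n0 := pow_le_pow_right₀ (by norm_num) hcon
        linarith
      obtain ⟨k, rfl⟩ := Nat.exists_eq_add_of_le hle
      rw [mem_iUnion]
      exact ⟨k, by constructor <;> linarith⟩
    calc ∫⁻ x in Iic (z₁ - 100 ^ n0), G x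
        ≤ ∫⁻ x in ⋃ k : ℕ, Icc (z₁ - 100 ^ (n0 + k + 1)) (z₁ - 100 ^ (n0 + k)), G x :=
          lintegral_mono_set hcover
      _ ≤ ∑' k : ℕ, ∫⁻ x in Icc (z₁ - 100 ^ (n0 + k + 1)) (z₁ - 100 ^ (n0 + k)), G x :=
          lintegral_iUnion_le _ _
      _ ≤ ∑' k : ℕ, ENNReal.ofReal (400000000 *
            (θ (100 ^ (n0 + k + 2)) / (100 ^ (n0 + k + 2)) / (100 ^ (n0 + k + 2)))) :=
          ENNReal.tsum_le_tsum (fun k => hpiece (n0 + k) (Nat.le_add_right _ _))
      _ < ⊤ := by
          have hs : Summable (fun k : ℕ => 400000000 *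
              (θ (100 ^ (n0 + k + 2)) / (100 ^ (n0 + k + 2)) / (100 ^ (n0 + k + 2)))) := by
            apply Summable.mul_left
            have := (summable_nat_add_iff (n0 + 2)).2 hsum'
            refine this.congr (fun k => ?_)
            have : k + (n0 + 2) = n0 + k + 2 := by ring
            rw [this]
          exact hs.tsum_ofReal_lt_top
  -- the compact part
  have hnear : ∫⁻ x in Ico (z₁ - 100 ^ n0) a, G x < ⊤ := by
    obtain ⟨M, hM⟩ := (isCompact_Icc (a := z₁ - 100 ^ n0 - 1) (b := a)).exists_bound_of_continuousOn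
      hc.continuousOn
    have hbd : ∀ x ∈ Ico (z₁ - 100 ^ n0) a, G x ≤ ENNReal.ofReal (2 * |M|) := by
      intro x hx
      apply ENNReal.ofReal_le_ofReal
      have h1 := neg_deriv_le f a x 1 hf hx.2 one_pos
      have h2 := hM (x - 1) ⟨by linarith [hx.1], by linarith [hx.2]⟩
      have h3 := hM x ⟨by linarith [hx.1], hx.2.le⟩
      rw [Real.norm_eq_abs] at h2 h3
      have h4 : -deriv f x ≤ 2 * |M| := by
        refine h1.trans (max_le ?_ (by positivity))
        rw [div_one]
        have := le_abs_self M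
        have := abs_le.1 h2
        have := abs_le.1 h3
        linarith
      have hpos : (0 : ℝ) < 1 + x ^ 2 := by positivity
      rw [div_le_iff₀ hpos]
      nlinarith [abs_nonneg M, sq_nonneg x, mul_nonneg (abs_nonneg M) (sq_nonneg x)]
    calc ∫⁻ x in Ico (z₁ - 100 ^ n0) a, G x
        ≤ ∫⁻ _x in Ico (z₁ - 100 ^ n0) a, ENNReal.ofReal (2 * |M|) :=
          setLIntegral_mono' measurableSet_Ico hbd
      _ = ENNReal.ofReal (2 * |M|) * ENNReal.ofReal (a - (z₁ - 100 ^ n0)) := by
          rw [setLIntegral_const, Real.volume_Ico]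
      _ < ⊤ := ENNReal.mul_lt_top ENNReal.ofReal_lt_top ENNReal.ofReal_lt_top
  have htot : ∫⁻ x in Iic a, G x < ⊤ := by
    have hae : ∫⁻ x in Iic a, G x = ∫⁻ x in Iio a, G x := by
      apply setLIntegral_congr
      exact Iio_ae_eq_Iic.symm
    rw [hae]
    have hcover : Iio a ⊆ Iic (z₁ - 100 ^ n0) ∪ Ico (z₁ - 100 ^ n0) a := by
      intro x hx
      rcases le_total x (z₁ - 100 ^ n0) with h | h
      · exact Or.inl h
      · exact Or.inr ⟨h, hx⟩
    calc ∫⁻ x in Iio a, G x ≤ ∫⁻ x in Iic (z₁ - 100 ^ n0) ∪ Ico (z₁ - 100 ^ n0) a, G x :=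
          lintegral_mono_set hcover
      _ ≤ (∫⁻ x in Iic (z₁ - 100 ^ n0), G x) + ∫⁻ x in Ico (z₁ - 100 ^ n0) a, G x :=
          lintegral_union_le _ _ _
      _ < ⊤ := ENNReal.add_lt_top.2 ⟨hfar, hnear⟩
  rw [hdiv] at htot
  exact lt_irrefl _ htot

/-- boundedness of `W x - V (x + x₁)` gives the limit of `W x / x` -/
lemma lim_div (V W : ℝ → ℝ) (x₁ K : ℝ) (l : Filter ℝ) (hl : l ≤ cocompact ℝ)
    (hlim : Tendsto (fun x => V x / x) (cocompact ℝ) atBot)
    (hK : ∀ x, |W x - V (x + x₁)| ≤ K) :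
    Tendsto (fun x => W x / x) l atBot := by
  refine Tendsto.mono_left ?_ hl
  have habs : Tendsto (fun x : ℝ => |x|) (cocompact ℝ) atTop := by
    exact tendsto_norm_cocompact_atTop (E := ℝ)
  have hinv : Tendsto (fun x : ℝ => x⁻¹) (cocompact ℝ) (𝓝 0) := by
    rw [← Metric.cobounded_eq_cocompact]
    exact tendsto_inv₀_cobounded
  have hshift : Tendsto (fun x : ℝ => x + x₁) (cocompact ℝ) (cocompact ℝ) :=
    (Homeomorph.addRight x₁).isClosedEmbedding.tendsto_cocompact
  have h1 : Tendsto (fun x => V (x + x₁) / (x + x₁)) (cocompact ℝ) atBot := hlim.comp hshift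
  have h2 : Tendsto (fun x : ℝ => (x + x₁) / x) (cocompact ℝ) (𝓝 1) := by
    have h3 : Tendsto (fun x : ℝ => 1 + x₁ * x⁻¹) (cocompact ℝ) (𝓝 (1 + x₁ * 0)) :=
      tendsto_const_nhds.add (tendsto_const_nhds.mul hinv)
    rw [mul_zero, add_zero] at h3
    refine h3.congr' ?_
    have hne : ∀ᶠ x : ℝ in cocompact ℝ, 1 ≤ |x| := habs.eventually_ge_atTop 1
    filter_upwards [hne] with x hx
    have : x ≠ 0 := by
      rintro rfl
      simp at hx
      linarith
    field_simp
  have h4 : Tendsto (fun x => V (x + x₁) / (x + x₁) * ((x + x₁) / x)) (cocompact ℝ) atBot :=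
    h1.atBot_mul_pos one_pos h2
  have h5 : ∀ᶠ x : ℝ in cocompact ℝ, 1 + |x₁| ≤ |x| := habs.eventually_ge_atTop _
  have h6 : ∀ᶠ x : ℝ in cocompact ℝ,
      W x / x ≤ V (x + x₁) / (x + x₁) * ((x + x₁) / x) + |K| := by
    filter_upwards [h5] with x hx
    have habs1 : 1 ≤ |x| := by have := abs_nonneg x₁; linarith
    have hx0 : x ≠ 0 := by
      rintro rfl
      simp at habs1
      linarith
    have hxx : x + x₁ ≠ 0 := by
      intro h0
      have : x = -x₁ := by linarith
      rw [this, abs_neg] at hx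
      linarith
    have e1 : V (x + x₁) / (x + x₁) * ((x + x₁) / x) = V (x + x₁) / x := by
      field_simp
    rw [e1]
    have e2 : W x / x - V (x + x₁) / x = (W x - V (x + x₁)) / x := by ring
    have e3 : |(W x - V (x + x₁)) / x| ≤ |K| := by
      rw [abs_div]
      have : |W x - V (x + x₁)| ≤ |K| := (hK x).trans (le_abs_self K)
      rw [div_le_iff₀ (by linarith)]
      nlinarith [abs_nonneg K]
    have e4 := (abs_le.1 e3).2
    linarith
  refine tendsto_atBot_mono' _ h6 ?_
  exact tendsto_atBot_add_const_right _ _ h4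

end Norm

theorem normalise (w : ℝ → ℝ) (hw : WeightHyp w) :
    ∃ (W : ℝ → ℝ) (x₁ C : ℝ), NW W ∧ 0 < C ∧
      (∀ x, Real.exp (W x) ≤ C * w (x + x₁)) ∧ (∀ x, w (x + x₁) ≤ C * Real.exp (W x)) ∧
      (¬ Summable (fun n : ℕ => W (-(100 ^ n)) / (100 ^ n) / (100 ^ n)) ∨
        ¬ Summable (fun n : ℕ => -W (100 ^ n) / (100 ^ n) / (100 ^ n))) := by
  obtain ⟨hcw, hpos, ⟨a, b, hcvx, hccv, hdiv⟩, hlim⟩ := hw
  set V : ℝ → ℝ := fun x => Real.log (w x) with hV
  have hVc : Continuous V := hcw.log (fun x => (hpos x).ne')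
  have hVexp : ∀ x, Real.exp (V x) = w x := fun x => Real.exp_log (hpos x)
  have hcoc : cocompact ℝ = atBot ⊔ atTop := cocompact_eq_atBot_atTop
  have hbotc : (atBot : Filter ℝ) ≤ cocompact ℝ := by rw [hcoc]; exact le_sup_left
  have htopc : (atTop : Filter ℝ) ≤ cocompact ℝ := by rw [hcoc]; exact le_sup_right
  -- the reflected function
  set V' : ℝ → ℝ := fun x => -V (-x) with hV'
  have hVbot : Tendsto V atBot atTop := by
    have h1 : Tendsto (fun x => V x / x) atBot atBot := hlim.mono_left hbotc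
    have h2 : Tendsto (fun x => V x / x * x) atBot atTop := h1.atBot_mul_atBot₀ tendsto_id
    refine h2.congr' ?_
    filter_upwards [eventually_lt_atBot (0 : ℝ)] with x hx
    exact div_mul_cancel₀ _ hx.ne
  have hVtop : Tendsto V atTop atBot := by
    have h1 : Tendsto (fun x => V x / x) atTop atBot := hlim.mono_left htopc
    have h2 : Tendsto (fun x => V x / x * x) atTop atBot := h1.atBot_mul_atTop₀ tendsto_id
    refine h2.congr' ?_
    filter_upwards [eventually_gt_atTop (0 : ℝ)] with x hx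
    field_simp
  have hV'bot : Tendsto V' atBot atTop := by
    exact tendsto_neg_atBot_atTop.comp (hVtop.comp tendsto_neg_atBot_atTop)
  have hV'cvx : ConvexOn ℝ (Iic (-b)) V' := by
    refine ⟨convex_Iic _, ?_⟩
    intro x hx y hy p q hp hq hpq
    simp only [mem_Iic] at hx hy
    have := hccv.2 (x := -x) (y := -y) (mem_Ici.2 (by linarith)) (mem_Ici.2 (by linarith))
      hp hq hpq
    simp only [smul_eq_mul] at this ⊢
    simp only [hV']
    have e : -(p * x + q * y) = p * -x + q * -y := by ring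
    rw [e]
    linarith
  obtain ⟨x₁, hx1a, -, hanti1⟩ := Norm.exists_anti V a hcvx hVbot a
  obtain ⟨t, htb, htx, hanti2⟩ := Norm.exists_anti V' (-b) hV'cvx hV'bot (-x₁)
  set x₂ : ℝ := -t with hx₂
  have hbx2 : b ≤ x₂ := by linarith
  have hx12 : x₁ ≤ x₂ := by linarith
  have hanti2' : AntitoneOn V (Ici x₂) := by
    intro x hx y hy hxy
    simp only [mem_Ici] at hx hy
    have := hanti2 (a := -y) (b := -x) (mem_Iic.2 (by linarith)) (mem_Iic.2 (by linarith))
      (by linarith)
    simp only [hV', neg_neg] at this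
    linarith
  set W : ℝ → ℝ := fun x => V (min (x + x₁) x₁) - V x₁ + (V (max (x + x₁) x₂) - V x₂) with hW
  have hWc : Continuous W := by
    simp only [hW]
    fun_prop
  have hWneg : ∀ x, x ≤ 0 → W x = V (x + x₁) - V x₁ := by
    intro x hx
    simp only [hW]
    rw [min_eq_left (by linarith), max_eq_right (by linarith)]
    ring
  have hWpos : ∀ x, 0 ≤ x → W x = V (max (x + x₁) x₂) - V x₂ := by
    intro x hx
    simp only [hW]
    rw [min_eq_right (by linarith)]
    ring
  have hNW0 : Antitone W := by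
    intro x y hxy
    have h1 : V (min (y + x₁) x₁) ≤ V (min (x + x₁) x₁) :=
      hanti1 (mem_Iic.2 (min_le_right _ _)) (mem_Iic.2 (min_le_right _ _))
        (min_le_min_right _ (by linarith))
    have h2 : V (max (y + x₁) x₂) ≤ V (max (x + x₁) x₂) :=
      hanti2' (mem_Ici.2 (le_max_right _ _)) (mem_Ici.2 (le_max_right _ _))
        (max_le_max_right _ (by linarith))
    simp only [hW]; linarith
  -- bounded difference
  obtain ⟨K, hK⟩ : ∃ K : ℝ, ∀ x, |W x - V (x + x₁)| ≤ K := by
    obtain ⟨M, hM⟩ := (isCompact_Icc (a := (0 : ℝ)) (b := x₂ - x₁)).exists_bound_of_continuousOn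
      (f := fun x => W x - V (x + x₁)) (by fun_prop)
    refine ⟨|V x₁| + |V x₂| + |M|, fun x => ?_⟩
    rcases le_total x 0 with hx | hx
    · rw [hWneg x hx]
      have : V (x + x₁) - V x₁ - V (x + x₁) = -V x₁ := by ring
      rw [this, abs_neg]
      have := abs_nonneg (V x₂)
      have := abs_nonneg M
      linarith
    · rcases le_total x (x₂ - x₁) with hx' | hx'
      · have h1 := hM x ⟨hx, hx'⟩
        rw [Real.norm_eq_abs] at h1
        have := le_abs_self M
        have := abs_nonneg (V x₂)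
        have := abs_nonneg (V x₁)
        linarith
      · rw [hWpos x hx, max_eq_left (by linarith)]
        have : V (x + x₁) - V x₂ - V (x + x₁) = -V x₂ := by ring
        rw [this, abs_neg]
        have := abs_nonneg (V x₁)
        have := abs_nonneg M
        linarith
  refine ⟨W, x₁, Real.exp K, ⟨hWc, hNW0, ?_, ?_, ?_, ?_, ?_⟩, Real.exp_pos K, ?_, ?_, ?_⟩
  · rw [hWneg 0 le_rfl]; simp
  · -- convex
    refine ⟨convex_Iic _, ?_⟩
    intro x hx y hy p q hp hq hpq
    simp only [mem_Iic] at hx hy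
    simp only [smul_eq_mul]
    have hpq0 : p * x + q * y ≤ 0 := by nlinarith
    rw [hWneg x hx, hWneg y hy, hWneg _ hpq0]
    have := hcvx.2 (x := x + x₁) (y := y + x₁) (mem_Iic.2 (by linarith))
      (mem_Iic.2 (by linarith)) hp hq hpq
    simp only [smul_eq_mul] at this
    have e : p * (x + x₁) + q * (y + x₁) = p * x + q * y + x₁ := by
      have : p * (x + x₁) + q * (y + x₁) = p * x + q * y + (p + q) * x₁ := by ring
      rw [this, hpq, one_mul]
    rw [e] at this
    have e2 : p * (V (x + x₁) - V x₁) + q * (V (y + x₁) - V x₁) =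
        p * V (x + x₁) + q * V (y + x₁) - (p + q) * V x₁ := by ring
    rw [e2, hpq, one_mul]
    linarith
  · -- concave
    refine ⟨convex_Ici _, ?_⟩
    intro x hx y hy p q hp hq hpq
    simp only [mem_Ici] at hx hy
    simp only [smul_eq_mul]
    have hpq0 : 0 ≤ p * x + q * y := by positivity
    rw [hWpos x hx, hWpos y hy, hWpos _ hpq0]
    have h1 := hccv.2 (x := max (x + x₁) x₂) (y := max (y + x₁) x₂)
      (mem_Ici.2 (hbx2.trans (le_max_right _ _))) (mem_Ici.2 (hbx2.trans (le_max_right _ _)))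
      hp hq hpq
    simp only [smul_eq_mul] at h1
    have h2 : max (p * x + q * y + x₁) x₂ ≤ p * max (x + x₁) x₂ + q * max (y + x₁) x₂ := by
      apply max_le
      · have e : p * x + q * y + x₁ = p * (x + x₁) + q * (y + x₁) := by
          have : p * (x + x₁) + q * (y + x₁) = p * x + q * y + (p + q) * x₁ := by ring
          rw [this, hpq, one_mul]
        rw [e]
        exact add_le_add (mul_le_mul_of_nonneg_left (le_max_left _ _) hp)
          (mul_le_mul_of_nonneg_left (le_max_left _ _) hq)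
      · have e : x₂ = p * x₂ + q * x₂ := by rw [← add_mul, hpq, one_mul]
        calc x₂ = p * x₂ + q * x₂ := e
          _ ≤ _ := add_le_add (mul_le_mul_of_nonneg_left (le_max_right _ _) hp)
              (mul_le_mul_of_nonneg_left (le_max_right _ _) hq)
    have h3 : V (p * max (x + x₁) x₂ + q * max (y + x₁) x₂) ≤ V (max (p * x + q * y + x₁) x₂) :=
      hanti2' (mem_Ici.2 (le_max_right _ _)) (mem_Ici.2 ((le_max_right _ _).trans h2)) h2
    have e2 : p * (V (max (x + x₁) x₂) - V x₂) + q * (V (max (y + x₁) x₂) - V x₂) =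
        p * V (max (x + x₁) x₂) + q * V (max (y + x₁) x₂) - (p + q) * V x₂ := by ring
    rw [e2, hpq, one_mul]
    have h1' : p * V (max (x + x₁) x₂) + q * V (max (y + x₁) x₂) ≤
      V (p * max (x + x₁) x₂ + q * max (y + x₁) x₂) := h1
    linarith
  · exact Norm.lim_div V W x₁ K atBot hbotc hlim hK
  · exact Norm.lim_div V W x₁ K atTop htopc hlim hK
  · intro x
    rw [← hVexp (x + x₁), ← Real.exp_add]
    apply Real.exp_le_exp.2
    have := (abs_le.1 (hK x)).2
    linarith
  · intro x
    rw [← hVexp (x + x₁), ← Real.exp_add]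
    apply Real.exp_le_exp.2
    have := (abs_le.1 (hK x)).1
    linarith
  · rcases ENNReal.add_eq_top.1 hdiv with h | h
    · left
      have h1 := Norm.div_side V a x₁ x₁ hVc hcvx hx1a le_rfl hanti1 h
      intro hs
      apply h1
      refine hs.congr (fun n => ?_)
      have hn : (0 : ℝ) < 100 ^ n := by positivity
      rw [hWneg _ (by linarith), min_eq_left (by linarith)]
      congr 3
      ring_nf
    · right
      have hd : ∫⁻ x in Iic (-b), ENNReal.ofReal (-deriv V' x / (1 + x ^ 2)) = ⊤ := by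
        have hder : ∀ x, deriv V' x = deriv V (-x) := by
          intro x
          simp only [hV']
          rw [deriv.fun_neg, deriv_comp_neg]
          simp
        have e1 : ∀ x, ENNReal.ofReal (-deriv V' x / (1 + x ^ 2)) =
            (fun y => ENNReal.ofReal (-deriv V y / (1 + y ^ 2))) (-x) := by
          intro x
          simp only [hder, neg_sq]
        simp_rw [e1]
        have hmp : MeasurePreserving (fun x : ℝ => -x) volume volume :=
          Measure.measurePreserving_neg volume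
        have h2 := hmp.setLIntegral_comp_preimage_emb (MeasurableEquiv.neg ℝ).measurableEmbedding
          (fun y => ENNReal.ofReal (-deriv V y / (1 + y ^ 2))) (Ici b)
        have h3 : (fun x : ℝ => -x) ⁻¹' (Ici b) = Iic (-b) := by
          ext x
          simp only [mem_preimage, mem_Ici, mem_Iic]
          constructor <;> intro h <;> linarith
        rw [h3] at h2
        rw [h2]
        exact h
      have hV'c : Continuous V' := by
        simp only [hV']
        fun_prop
      have h1 := Norm.div_side V' (-b) (-x₁) (-x₂) hV'c hV'cvx (by linarith) (by linarith)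
        (by simpa [hx₂] using hanti2) hd
      intro hs
      apply h1
      refine hs.congr (fun n => ?_)
      have hn : (0 : ℝ) < 100 ^ n := by positivity
      rw [hWpos _ hn.le]
      simp only [hV', neg_neg]
      have e : -min (-x₁ - 100 ^ n) (-x₂) = max (100 ^ n + x₁) x₂ := by
        have h5 : -x₁ - 100 ^ n = -(100 ^ n + x₁) := by ring
        rw [h5, min_neg_neg, neg_neg]
      rw [e]
      congr 2
      ring

end Pool.Agent.Domar
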