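import Pool.Agent.Lib.MP_af79d0_an.Defs
set_option autoImplicit false
open MeasureTheory Filter Topology Set
namespace Pool.Agent.Domar

theorem subseq (Θ : ℝ → ℝ) (hΘ : MonotoneOn Θ (Ioi 0)) (hpos : ∀ x, 0 < x → 0 ≤ Θ x)
    (hdiv : ¬ Summable (fun n : ℕ => Θ (100 ^ n) / 100 ^ n)) (N : ℕ) :
    ∃ n : ℕ → ℕ, StrictMono n ∧ N ≤ n 0 ∧ (∀ k, 50 * Θ (100 ^ (n k)) ≤ Θ (100 ^ (n (k + 1)))) ∧
      ¬ Summable (fun k => Θ (100 ^ (n k)) / 100 ^ (n k)) := by
  classical
  obtain ⟨a, ha⟩ : ∃ a : ℕ → ℝ, a = fun n : ℕ => Θ (100 ^ n) / 100 ^ n := ⟨_, rfl⟩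
  have ha' : ∀ n, a n = Θ (100 ^ n) / 100 ^ n := fun n => by rw [ha]
  rw [← ha] at hdiv
  have ha0 : ∀ n, 0 ≤ a n := fun n => by
    rw [ha']
    exact div_nonneg (hpos _ (by positivity)) (by positivity)
  obtain ⟨S, hS⟩ : ∃ S : Set ℕ, S = {n | N + 1 ≤ n ∧ 50 * Θ (100 ^ (n - 1)) ≤ Θ (100 ^ n)} :=
    ⟨_, rfl⟩
  have hSmem : ∀ n, n ∈ S ↔ (N + 1 ≤ n ∧ 50 * Θ (100 ^ (n - 1)) ≤ Θ (100 ^ n)) := fun n => by
    rw [hS]; rfl
  have hnS : ¬ Summable (S.indicator a) := by
    intro hs
    apply hdiv
    obtain ⟨c, hc⟩ : ∃ c : ℕ → ℝ, c = fun i => if i ≤ N then a i else 0 := ⟨_, rfl⟩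
    have hc0 : ∀ i, 0 ≤ c i := fun i => by
      rw [hc]; dsimp only; split_ifs <;> simp [ha0]
    have hcs : Summable c := by
      refine summable_of_ne_finset_zero (s := Finset.range (N + 1)) fun i hi => ?_
      rw [hc]; dsimp only
      rw [if_neg]
      rw [Finset.mem_range] at hi
      omega
    obtain ⟨u, hu⟩ : ∃ u : ℕ → ℝ, u = fun i => S.indicator a i + c i := ⟨_, rfl⟩
    have hu' : ∀ i, u i = S.indicator a i + c i := fun i => by rw [hu]
    have hus : Summable u := by rw [hu]; exact hs.add hcs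
    have hind0 : ∀ i, 0 ≤ S.indicator a i := fun i => Set.indicator_nonneg (fun j _ => ha0 j) i
    have hu0 : ∀ i, 0 ≤ u i := fun i => by
      rw [hu']; exact add_nonneg (hind0 i) (hc0 i)
    have hstep : ∀ i, a (i + 1) ≤ u (i + 1) + a i / 2 := by
      intro i
      rw [hu']
      by_cases h1 : i + 1 ≤ N
      · have : c (i + 1) = a (i + 1) := by rw [hc]; dsimp only; rw [if_pos h1]
        rw [this]
        have h2 := hind0 (i + 1)
        have h3 := ha0 i
        linarith
      · by_cases h2 : (i + 1) ∈ S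
        · rw [Set.indicator_of_mem h2]
          have h3 := ha0 i
          have h4 := hc0 (i + 1)
          linarith
        · have h3 : Θ (100 ^ (i + 1)) < 50 * Θ (100 ^ i) := by
            by_contra h4
            push Not at h4
            apply h2
            rw [hSmem]
            exact ⟨by omega, by simpa using h4⟩
          have h4 := hind0 (i + 1)
          have h5 := hc0 (i + 1)
          have h6 : a (i + 1) ≤ a i / 2 := by
            have h7 : (0:ℝ) < 100 ^ i := by positivity
            have h8 : (100:ℝ) ^ (i + 1) = 100 ^ i * 100 := pow_succ _ _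
            rw [ha', ha', div_div, div_le_div_iff₀ (by positivity) (by positivity)]
            have h9 : Θ (100 ^ (i + 1)) * (100 ^ i * 2) ≤ 50 * Θ (100 ^ i) * (100 ^ i * 2) :=
              mul_le_mul_of_nonneg_right h3.le (by positivity)
            rw [h8] at h9 ⊢
            linarith
          linarith
    refine summable_of_sum_range_le (c := 2 * (a 0 + ∑' i, u i)) ha0 fun m => ?_
    have h1 : ∑ i ∈ Finset.range m, a i ≤ a 0 + ∑ i ∈ Finset.range m, a (i + 1) := by
      have h2 : ∑ i ∈ Finset.range (m + 1), a i = ∑ i ∈ Finset.range m, a (i + 1) + a 0 :=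
        Finset.sum_range_succ' a m
      have h3 : ∑ i ∈ Finset.range (m + 1), a i = ∑ i ∈ Finset.range m, a i + a m :=
        Finset.sum_range_succ a m
      have h4 := ha0 m
      linarith
    have h2 : ∑ i ∈ Finset.range m, a (i + 1)
        ≤ ∑ i ∈ Finset.range m, u (i + 1) + (∑ i ∈ Finset.range m, a i) / 2 := by
      rw [Finset.sum_div, ← Finset.sum_add_distrib]
      exact Finset.sum_le_sum fun i _ => hstep i
    have h3 : ∑ i ∈ Finset.range m, u (i + 1) ≤ ∑' i, u i := by
      have h4 : ∑ i ∈ Finset.range (m + 1), u i = ∑ i ∈ Finset.range m, u (i + 1) + u 0 :=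
        Finset.sum_range_succ' u m
      have h5 : ∑ i ∈ Finset.range (m + 1), u i ≤ ∑' i, u i :=
        hus.sum_le_tsum _ fun i _ => hu0 i
      have h6 := hu0 0
      linarith
    linarith
  have hinf : S.Infinite := by
    intro hfin
    apply hnS
    refine summable_of_finite_support (hfin.subset ?_)
    exact Set.support_indicator_subset
  have hinf' : (Set.ofPred (fun x => x ∈ S)).Infinite := hinf
  refine ⟨Nat.nth (· ∈ S), Nat.nth_strictMono hinf', ?_, ?_, ?_⟩
  · have h := Nat.nth_mem_of_infinite hinf' 0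
    rw [hSmem] at h
    exact le_trans (Nat.le_succ N) h.1
  · intro k
    have h := Nat.nth_mem_of_infinite hinf' (k + 1)
    rw [hSmem] at h
    refine le_trans ?_ h.2
    have hlt : Nat.nth (· ∈ S) k < Nat.nth (· ∈ S) (k + 1) :=
      Nat.nth_strictMono hinf' (Nat.lt_succ_self k)
    have : Θ (100 ^ (Nat.nth (· ∈ S) k)) ≤ Θ (100 ^ (Nat.nth (· ∈ S) (k + 1) - 1)) := by
      refine hΘ (by simp) (by simp) ?_
      exact pow_le_pow_right₀ (by norm_num) (by omega)
    linarith
  · intro hs
    apply hnS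
    have hinj : Function.Injective (Nat.nth (· ∈ S)) := (Nat.nth_strictMono hinf').injective
    rw [← hinj.summable_iff]
    · refine hs.congr fun k => ?_
      rw [Function.comp_apply, Set.indicator_of_mem (Nat.nth_mem_of_infinite hinf' k), ha']
    · intro x hx
      refine Set.indicator_of_notMem ?_ _
      intro hxS
      apply hx
      rw [Nat.range_nth_of_infinite hinf']
      exact hxS

end Pool.Agent.Domar
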