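import Pool.Agent.Lib.MP_af79d0_an.Defs
import Pool.Agent.Lib.MP_af79d0_an.F4
import Pool.Agent.Lib.MP_af79d0_an.Multiscale
import Pool.Agent.Lib.MP_af79d0_an.Subseq
import Pool.Agent.Lib.MP_af79d0_an.Localise
import Pool.Agent.Lib.MP_af79d0_an.Reflect
import Pool.Agent.Lib.MP_af79d0_an.Normalise

set_option autoImplicit false
open MeasureTheory Filter Topology Set

namespace Pool.Agent.Domar

lemma slope_mono (W : ℝ → ℝ) (hW : NW W) : MonotoneOn (fun x => W (-x) / x) (Ioi 0) := by
  intro x hx y hy hxy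
  have hx' : 0 < x := hx
  have hy' : 0 < y := hy
  simp only
  have q1 : (0:ℝ) ≤ x / y := by positivity
  have q2 : (0:ℝ) ≤ 1 - x / y := by rw [sub_nonneg, div_le_one hy']; exact hxy
  have h1 := hW.cvx.2 (show -y ∈ Iic (0:ℝ) by simp only [mem_Iic]; linarith)
    (show (0:ℝ) ∈ Iic (0:ℝ) by simp) q1 q2 (by ring)
  simp only [smul_eq_mul, mul_zero, add_zero, hW.zero] at h1
  have h2 : x / y * -y = -x := by field_simp
  rw [h2] at h1
  rw [div_le_div_iff₀ hx' hy']
  have h3 : x / y * W (-y) * y = W (-y) * x := by field_simp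
  nlinarith

theorem core_left (W : ℝ → ℝ) (hW : NW W)
    (hdiv : ¬ Summable (fun n : ℕ => W (-(100 ^ n)) / (100 ^ n) / (100 ^ n)))
    (f h : ℝ → ℂ) (ho : Ori1 W f h ∨ Ori2 W f h)
    (hK : ∀ s : ℝ, 0 < s → ∫ y, f y * h (y + s) = 0)
    (κ : ℝ → ℂ) (hκ : ContDiff ℝ 2 κ) (a b : ℝ) (ha : 0 < a) (hab : a ≤ b)
    (hsupp : ∀ s, s ∉ Icc a b → κ s = 0) :
    ∀ᵐ x, h x * ∫ y, f y * κ (x - y) = 0 := by
  obtain ⟨hφ, Ct, hCt⟩ := phi_integrable W hW f h ho κ hκ a b ha hab hsupp
  obtain ⟨C₄, x₀, hF⟩ := F4 W hW f h ho hK κ hκ a b ha hab hsupp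
  set Θ : ℝ → ℝ := fun x => a * (W (-x) / x) with hΘ
  have hmono : MonotoneOn Θ (Ioi 0) := by
    intro x hx y hy hxy
    exact mul_le_mul_of_nonneg_left (slope_mono W hW hx hy hxy) ha.le
  have hWpos : ∀ x, 0 < x → 0 ≤ W (-x) := by
    intro x hx
    have := hW.anti (show -x ≤ 0 by linarith)
    rwa [hW.zero] at this
  have hpos : ∀ x, 0 < x → 0 ≤ Θ x := by
    intro x hx
    have := hWpos x hx
    rw [hΘ]; positivity
  have hdiv' : ¬ Summable (fun n : ℕ => Θ (100 ^ n) / 100 ^ n) := by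
    intro hs
    apply hdiv
    have := hs.mul_left (1 / a)
    refine this.congr (fun n => ?_)
    rw [hΘ]
    field_simp
  have hst : Tendsto (fun x => W (-x) / x) atTop atTop := by
    have h1 := tendsto_neg_atBot_atTop.comp (hW.botl.comp tendsto_neg_atTop_atBot)
    refine h1.congr (fun x => ?_)
    simp only [Function.comp]
    rw [div_neg, neg_neg]
  have hpow : Tendsto (fun n : ℕ => (100 : ℝ) ^ n) atTop atTop :=
    tendsto_pow_atTop_atTop_of_one_lt (by norm_num)
  obtain ⟨N, hN⟩ := ((hpow.eventually_ge_atTop x₀).and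
    ((hst.comp hpow).eventually_ge_atTop 1)).exists_forall_of_atTop
  obtain ⟨n, hn, hN0, hΘn, hns⟩ := subseq Θ hmono hpos hdiv' N
  have hnN : ∀ k, N ≤ n k := fun k => hN0.trans (hn.monotone (Nat.zero_le k))
  set C : ℝ := max |C₄| |Ct| with hC
  have hres := multiscale (fun x => h x * ∫ y, f y * κ (x - y)) hφ (fun k => 100 ^ (n k))
    (fun k => Θ (100 ^ (n k))) (by positivity) ?_ ?_ hΘn hns C ?_ ?_
  · filter_upwards [hres] with x hx
    exact hx
  · have h1 := (hN (n 0) (hnN 0)).2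
    simp only [Function.comp] at h1
    rw [hΘ]
    have : 0 < W (-100 ^ (n 0)) / 100 ^ (n 0) := by linarith
    exact mul_pos ha this
  · intro k
    have h1 : n k + 1 ≤ n (k + 1) := hn (Nat.lt_succ_self k)
    calc (100 : ℝ) * 100 ^ (n k) = 100 ^ (n k + 1) := by ring
      _ ≤ 100 ^ (n (k + 1)) := pow_le_pow_right₀ (by norm_num) h1
  · intro k
    refine (hCt (100 ^ (n k)) (by positivity)).trans ?_
    have h1 : Ct ≤ C := (le_abs_self _).trans (le_max_right _ _)
    exact mul_le_mul_of_nonneg_right h1 (Real.exp_pos _).le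
  · intro k y hy1 hy2
    refine (hF (100 ^ (n k)) (hN (n k) (hnN k)).1 y hy1 hy2).trans ?_
    have h1 : C₄ ≤ C := (le_abs_self _).trans (le_max_left _ _)
    exact mul_le_mul_of_nonneg_right h1 (Real.exp_pos _).le

/-- (T) from the core, left-steep case -/
theorem titch_left (W : ℝ → ℝ) (hW : NW W)
    (hdiv : ¬ Summable (fun n : ℕ => W (-(100 ^ n)) / (100 ^ n) / (100 ^ n)))
    (f h : ℝ → ℂ) (ho : Ori1 W f h ∨ Ori2 W f h)
    (hK : ∀ s : ℝ, 0 < s → ∫ y, f y * h (y + s) = 0) :
    ∀ c : ℝ, (∀ᵐ x : ℝ, c < x → h x = 0) ∨ (∀ᵐ x : ℝ, x < c → f x = 0) :=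
  titch_of_product f h (ori_locInt W hW f h ho) (ori_hm ho)
    (fun κ hκ a b ha hab hsupp => core_left W hW hdiv f h ho hK κ hκ a b ha hab hsupp)

/-- (T) for normalised weights -/
theorem titch_nw (W : ℝ → ℝ) (hW : NW W)
    (hdiv : ¬ Summable (fun n : ℕ => W (-(100 ^ n)) / (100 ^ n) / (100 ^ n)) ∨
      ¬ Summable (fun n : ℕ => -W (100 ^ n) / (100 ^ n) / (100 ^ n)))
    (f h : ℝ → ℂ) (ho : Ori1 W f h)
    (hK : ∀ s : ℝ, 0 < s → ∫ y, f y * h (y + s) = 0) :
    ∀ c : ℝ, (∀ᵐ x : ℝ, c < x → h x = 0) ∨ (∀ᵐ x : ℝ, x < c → f x = 0) := by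
  intro c
  rcases hdiv with hd | hd
  · exact titch_left W hW hd f h (Or.inl ho) hK c
  · have := titch_left (fun x => -W (-x)) hW.refl (by simpa only [neg_neg] using hd)
      (fun x => h (-x)) (fun x => f (-x)) (Or.inr ho.refl)
      (fun s hs => by rw [K_refl]; exact hK s hs) (-c)
    have hq : Measure.QuasiMeasurePreserving (fun x : ℝ => -x) volume volume :=
      (Measure.measurePreserving_neg volume).quasiMeasurePreserving
    rcases this with h1 | h1
    · right
      filter_upwards [hq.ae h1] with x hx hxc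
      simpa using hx (by linarith)
    · left
      filter_upwards [hq.ae h1] with x hx hxc
      simpa using hx (by linarith)

/-- (T) for general weights -/
theorem titch (w : ℝ → ℝ) (hw : WeightHyp w) (f h : ℝ → ℂ)
    (hf : Integrable (fun x => (w x : ℂ) * f x)) (hh : Measurable h)
    (hhw : ∃ M : ℝ, ∀ x, ‖h x‖ ≤ M * w x)
    (hK : ∀ s : ℝ, 0 < s → ∫ y, f y * h (y + s) = 0) :
    ∀ c : ℝ, (∀ᵐ x : ℝ, c < x → h x = 0) ∨ (∀ᵐ x : ℝ, x < c → f x = 0) := by
  intro c
  obtain ⟨W, x₁, C, hW, hC0, hC1, hC2, hdiv⟩ := normalise w hw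
  obtain ⟨M, hM⟩ := hhw
  have hM0 : 0 ≤ M := by
    have h1 := (norm_nonneg _).trans (hM 0)
    have h2 := hw.pos 0
    by_contra hcon
    push Not at hcon
    nlinarith
  -- measurable representative
  have hfm : AEStronglyMeasurable f := by
    have h1 : f = fun x => ((w x : ℂ))⁻¹ * ((w x : ℂ) * f x) := by
      ext x
      rw [inv_mul_cancel_left₀]
      exact_mod_cast (hw.pos x).ne'
    rw [h1]
    apply AEStronglyMeasurable.mul _ hf.aestronglyMeasurable
    apply Measurable.aestronglyMeasurable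
    exact (Complex.measurable_ofReal.comp hw.cont.measurable).inv
  set f' : ℝ → ℂ := hfm.mk f with hf'
  have hf'm : Measurable f' := hfm.stronglyMeasurable_mk.measurable
  have hff' : f =ᵐ[volume] f' := hfm.ae_eq_mk
  have hf'i : Integrable (fun x => (w x : ℂ) * f' x) := by
    refine hf.congr ?_
    filter_upwards [hff'] with x hx
    rw [hx]
  have ho : Ori1 W (fun x => f' (x + x₁)) (fun x => h (x + x₁)) := by
    refine ⟨hf'm.comp (measurable_id.add_const x₁), hh.comp (measurable_id.add_const x₁), ?_,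
      ⟨M * C, fun x => ?_⟩⟩
    · have h1 : Integrable (fun x => C * ‖(w (x + x₁) : ℂ) * f' (x + x₁)‖) :=
        (hf'i.comp_add_right x₁).norm.const_mul C
      refine h1.mono' ?_ (Eventually.of_forall (fun x => ?_))
      · apply Measurable.aestronglyMeasurable
        exact (hf'm.comp (measurable_id.add_const x₁)).norm.mul
          (Real.measurable_exp.comp hW.cont.measurable)
      · rw [Real.norm_of_nonneg (by positivity), norm_mul, Complex.norm_real,
          Real.norm_of_nonneg (hw.pos _).le]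
        have h2 := hC1 x
        calc ‖f' (x + x₁)‖ * Real.exp (W x) ≤ ‖f' (x + x₁)‖ * (C * w (x + x₁)) := by gcongr
          _ = _ := by ring
    · calc ‖h (x + x₁)‖ ≤ M * w (x + x₁) := hM _
        _ ≤ M * (C * Real.exp (W x)) := mul_le_mul_of_nonneg_left (hC2 x) hM0
        _ = _ := by ring
  have hK' : ∀ s : ℝ, 0 < s → ∫ y, f' (y + x₁) * h (y + s + x₁) = 0 := by
    intro s hs
    have h1 := integral_add_right_eq_self (μ := (volume : Measure ℝ))
      (fun y => f' y * h (y + s)) x₁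
    have h2 : (∫ y, f' (y + x₁) * h (y + s + x₁)) = ∫ y, f' (y + x₁) * h (y + x₁ + s) := by
      congr 1
      ext y
      rw [add_right_comm]
    rw [h2, h1, ← hK s hs]
    apply integral_congr_ae
    filter_upwards [hff'] with y hy
    rw [hy]
  have hT := titch_nw W hW hdiv _ _ ho hK' (c - x₁)
  have hq : Measure.QuasiMeasurePreserving (fun x : ℝ => x - x₁) volume volume :=
    (measurePreserving_sub_right volume x₁).quasiMeasurePreserving
  rcases hT with h1 | h1
  · left
    filter_upwards [hq.ae h1] with x hx hxc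
    simpa using hx (by linarith)
  · right
    filter_upwards [hq.ae h1, hff'] with x hx hx2 hxc
    rw [hx2]
    simpa using hx (by linarith)

end Pool.Agent.Domar
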