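import Mathlib

set_option autoImplicit false
open MeasureTheory Filter Topology Set

namespace Pool.Agent.Domar

/-- truncated transform `∫_{-x}^∞ φ(s) e^{iτs} ds` -/
noncomputable def Phi (φ : ℝ → ℂ) (x : ℝ) (τ : ℂ) : ℂ :=
  ∫ s in Ioi (-x), φ s * Complex.exp (Complex.I * τ * s)

/-- normalised log-weight: continuous, nonincreasing, `W 0 = 0`, convex on `(-∞,0]`,
concave on `[0,∞)`, `W x / x → -∞` at both ends. -/
structure NW (W : ℝ → ℝ) : Prop where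
  cont : Continuous W
  anti : Antitone W
  zero : W 0 = 0
  cvx : ConvexOn ℝ (Iic 0) W
  ccv : ConcaveOn ℝ (Ici 0) W
  botl : Tendsto (fun x => W x / x) atBot atBot
  topl : Tendsto (fun x => W x / x) atTop atBot

/-- `p_g(x) = -W x - g x` is nondecreasing on `(-∞,-Y]`, nonincreasing on `[-Y,X]`,
nondecreasing on `[X,∞)`. -/
structure Cut (W : ℝ → ℝ) (g X Y : ℝ) : Prop where
  X0 : 0 ≤ X
  Y0 : 0 ≤ Y
  left : MonotoneOn (fun x => -W x - g * x) (Iic (-Y))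
  mid : AntitoneOn (fun x => -W x - g * x) (Icc (-Y) X)
  right : MonotoneOn (fun x => -W x - g * x) (Ici X)

/-- the correlation `b_g(s) = e^{gs} ∫ 1[y<X] 1[y+s>-Y] f(y) h(y+s) dy` -/
noncomputable def bg (f h : ℝ → ℂ) (g X Y s : ℝ) : ℂ :=
  (Real.exp (g * s) : ℂ) * ∫ y, (Iio X).indicator f y * (Ioi (-Y)).indicator h (y + s)

/-- orientation 1 : `f e^{W} ∈ L¹`, `h e^{-W} ∈ L^∞` -/
structure Ori1 (W : ℝ → ℝ) (f h : ℝ → ℂ) : Prop where
  fm : Measurable f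
  hm : Measurable h
  fint : Integrable (fun x => ‖f x‖ * Real.exp (W x))
  hbd : ∃ M : ℝ, ∀ x, ‖h x‖ ≤ M * Real.exp (W x)

/-- orientation 2 : `f e^{W} ∈ L^∞`, `h e^{-W} ∈ L¹` -/
structure Ori2 (W : ℝ → ℝ) (f h : ℝ → ℂ) : Prop where
  fm : Measurable f
  hm : Measurable h
  fbd : ∃ M : ℝ, ∀ x, ‖f x‖ ≤ M * Real.exp (-W x)
  hint : Integrable (fun x => ‖h x‖ * Real.exp (-W x))

/-- the hypotheses on the weight in the frozen statement -/
structure WeightHyp (w : ℝ → ℝ) : Prop where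
  cont : Continuous w
  pos : ∀ x, 0 < w x
  cc : ∃ a b : ℝ, ConvexOn ℝ (Set.Iic a) (fun x => Real.log (w x)) ∧
      ConcaveOn ℝ (Set.Ici b) (fun x => Real.log (w x)) ∧
      (∫⁻ x in Set.Iic a, ENNReal.ofReal (-deriv (fun y => Real.log (w y)) x / (1 + x ^ 2))) +
      (∫⁻ x in Set.Ici b, ENNReal.ofReal (-deriv (fun y => Real.log (w y)) x / (1 + x ^ 2))) = ⊤
  lim : Tendsto (fun x => Real.log (w x) / x) (cocompact ℝ) atBot

end Pool.Agent.Domar
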