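import Pool.Agent.Lib.MP_af79d0_an.Defs
set_option autoImplicit false
open MeasureTheory Filter Topology Set
namespace Pool.Agent.Domar

/-- the Gaussian used in the Riesz trick -/
noncomputable def ldr (x : ℝ) : ℂ := ((Real.exp (-x ^ 2) : ℝ) : ℂ)

lemma ldr_cont : Continuous ldr := by
  unfold ldr
  fun_prop

lemma ldr_norm (x : ℝ) : ‖ldr x‖ = Real.exp (-x ^ 2) := by
  unfold ldr
  rw [Complex.norm_real, Real.norm_eq_abs, abs_of_pos (Real.exp_pos _)]

lemma ldr_ne (x : ℝ) : ldr x ≠ 0 := by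
  intro h
  have := ldr_norm x
  rw [h, norm_zero] at this
  exact (Real.exp_pos _).ne this

lemma ldr_int_exp : Integrable (fun x : ℝ => Real.exp (-x ^ 2)) := by
  have := integrable_exp_neg_mul_sq (b := 1) one_pos
  simpa using this

lemma ldr_memLp : MemLp ldr 2 (volume : Measure ℝ) := by
  rw [memLp_two_iff_integrable_sq_norm ldr_cont.aestronglyMeasurable]
  have h2 := integrable_exp_neg_mul_sq (b := 2) two_pos
  refine h2.congr (ae_of_all _ fun x => ?_)
  simp only [ldr_norm]
  rw [← Real.exp_nat_mul]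
  congr 1
  push_cast
  ring

/-- Riesz representation of `ℓ` on functions `r u` with `u` square integrable -/
lemma ld_riesz (ℓ : (Lp ℂ 1 (volume : Measure ℝ)) →L[ℂ] ℂ) :
    ∃ q : ℝ → ℂ, MemLp q 2 (volume : Measure ℝ) ∧
      ∀ u : ℝ → ℂ, MemLp u 2 (volume : Measure ℝ) → ∀ F : Lp ℂ 1 (volume : Measure ℝ),
        (F =ᵐ[volume] fun x => ldr x * u x) → ℓ F = ∫ x, q x * u x := by
  have : ENNReal.HolderTriple 2 2 1 := ⟨by simp [ENNReal.inv_two_add_inv_two]⟩
  set R : Lp ℂ 2 (volume : Measure ℝ) := ldr_memLp.toLp ldr with hR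
  set T : Lp ℂ 2 (volume : Measure ℝ) →L[ℂ] Lp ℂ 1 (volume : Measure ℝ) :=
    (ContinuousLinearMap.mul ℂ ℂ).holderL volume 2 2 1 R with hT
  set L : Lp ℂ 2 (volume : Measure ℝ) →L[ℂ] ℂ := ℓ.comp T with hL
  set Q : Lp ℂ 2 (volume : Measure ℝ) :=
    (InnerProductSpace.toDual ℂ (Lp ℂ 2 (volume : Measure ℝ))).symm L with hQ
  refine ⟨fun x => (starRingEnd ℂ) (Q x), (Lp.memLp Q).star, ?_⟩
  intro u hu F hF
  have h1 : T (hu.toLp u) = F := by
    apply Lp.ext
    have h2 : T (hu.toLp u) =ᵐ[volume] fun x => (ContinuousLinearMap.mul ℂ ℂ) (R x) (hu.toLp u x) :=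
      ContinuousLinearMap.coeFn_holder (r := 1) (ContinuousLinearMap.mul ℂ ℂ) R (hu.toLp u)
    filter_upwards [h2, hF, ldr_memLp.coeFn_toLp, hu.coeFn_toLp] with x hx1 hx2 hx3 hx4
    rw [hx1, hx2, hR, hx3, hx4]
    rfl
  have h3 : inner ℂ Q (hu.toLp u) = L (hu.toLp u) := by
    rw [hQ]
    exact InnerProductSpace.toDual_symm_apply
  have h4 : ℓ F = inner ℂ Q (hu.toLp u) := by
    rw [h3, hL, ContinuousLinearMap.comp_apply, h1]
  rw [h4, L2.inner_def]
  apply integral_congr_ae
  filter_upwards [hu.coeFn_toLp] with x hx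
  rw [hx, RCLike.inner_apply, mul_comm]

lemma ld_bound (ℓ : (Lp ℂ 1 (volume : Measure ℝ)) →L[ℂ] ℂ) (q : ℝ → ℂ)
    (hq : MemLp q 2 (volume : Measure ℝ)) (hqm : Measurable q)
    (hr : ∀ u : ℝ → ℂ, MemLp u 2 (volume : Measure ℝ) → ∀ F : Lp ℂ 1 (volume : Measure ℝ),
        (F =ᵐ[volume] fun x => ldr x * u x) → ℓ F = ∫ x, q x * u x) :
    ∀ᵐ x, ‖q x‖ ≤ ‖ℓ‖ * Real.exp (-x ^ 2) := by
  have hqint : ∀ s : Set ℝ, MeasurableSet s → volume s < ⊤ → IntegrableOn (fun x => ‖q x‖) s := by
    intro s hs hs2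
    have h1 : MemLp (s.indicator (fun _ => (1 : ℝ))) 2 (volume : Measure ℝ) :=
      memLp_indicator_const 2 hs 1 (Or.inr hs2.ne)
    have h2 := hq.norm.integrable_mul h1
    have h3 : ((fun x => ‖q x‖) * s.indicator (fun _ => (1 : ℝ))) = s.indicator (fun x => ‖q x‖) := by
      ext x
      by_cases hx : x ∈ s <;> simp [hx]
    rw [h3] at h2
    exact (integrable_indicator_iff hs).1 h2
  have key : 0 ≤ᵐ[volume] fun x : ℝ => ‖ℓ‖ * Real.exp (-x ^ 2) - ‖q x‖ := by
    apply ae_nonneg_of_forall_setIntegral_nonneg_of_sigmaFinite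
    · intro s hs hs2
      exact (ldr_int_exp.const_mul _).integrableOn.sub (hqint s hs hs2)
    · intro s hs hs2
      rw [integral_sub (ldr_int_exp.const_mul _).integrableOn (hqint s hs hs2), sub_nonneg]
      -- test function
      set u : ℝ → ℂ := s.indicator (fun x => (starRingEnd ℂ) (q x) / (‖q x‖ : ℂ)) with hu
      have hum : Measurable u := by
        apply Measurable.indicator _ hs
        exact (Complex.continuous_conj.measurable.comp hqm).div
          (Complex.continuous_ofReal.measurable.comp hqm.norm)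
      have hub : ∀ x, ‖u x‖ ≤ s.indicator (fun _ => (1 : ℝ)) x := by
        intro x
        by_cases hx : x ∈ s
        · simp only [hu, hx, indicator_of_mem]
          rw [norm_div, RCLike.norm_conj, Complex.norm_real, norm_norm]
          exact div_self_le_one _
        · simp [hu, hx]
      have hu2 : MemLp u 2 (volume : Measure ℝ) := by
        have h1 : MemLp (s.indicator (fun _ => (1 : ℝ))) 2 (volume : Measure ℝ) :=
          memLp_indicator_const 2 hs 1 (Or.inr hs2.ne)
        refine h1.mono hum.aestronglyMeasurable (ae_of_all _ fun x => ?_)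
        refine (hub x).trans (le_abs_self _)
      have hFint : Integrable (fun x => ldr x * u x) := ldr_memLp.integrable_mul hu2
      have hF1 := hr u hu2 (hFint.toL1 _) hFint.coeFn_toL1
      have hqu : (fun x => q x * u x) = fun x => ((s.indicator (fun x => ‖q x‖) x : ℝ) : ℂ) := by
        ext x
        by_cases hx : x ∈ s
        · simp only [hu, hx, indicator_of_mem]
          by_cases hq0 : q x = 0
          · simp [hq0]
          · have : (‖q x‖ : ℂ) ≠ 0 := by
              simpa using hq0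
            rw [mul_div_assoc', Complex.mul_conj, div_eq_iff this]
            rw [Complex.normSq_eq_norm_sq]
            push_cast
            ring
        · simp [hu, hx]
      have h5 : (∫ x, q x * u x) = ((∫ x in s, ‖q x‖ : ℝ) : ℂ) := by
        rw [hqu, integral_complex_ofReal, integral_indicator hs]
      rw [h5] at hF1
      have h6 : (∫ x in s, ‖q x‖) = ‖ℓ (hFint.toL1 _)‖ := by
        rw [hF1, Complex.norm_real, Real.norm_eq_abs, abs_of_nonneg]
        exact integral_nonneg fun x => norm_nonneg _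
      rw [h6]
      refine (ℓ.le_opNorm _).trans ?_
      rw [integral_const_mul]
      apply mul_le_mul_of_nonneg_left _ (norm_nonneg _)
      rw [L1.norm_eq_integral_norm]
      have h7 : (∫ x, ‖(hFint.toL1 _ : Lp ℂ 1 (volume : Measure ℝ)) x‖) = ∫ x, ‖ldr x * u x‖ := by
        apply integral_congr_ae
        filter_upwards [hFint.coeFn_toL1] with x hx
        rw [hx]
      rw [h7, ← integral_indicator hs]
      apply integral_mono hFint.norm (ldr_int_exp.indicator hs)
      intro x
      simp only [norm_mul, ldr_norm]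
      have := hub x
      by_cases hx : x ∈ s
      · simp only [hx, indicator_of_mem] at this ⊢
        calc Real.exp (-x ^ 2) * ‖u x‖ ≤ Real.exp (-x ^ 2) * 1 :=
              mul_le_mul_of_nonneg_left this (Real.exp_pos _).le
          _ = _ := mul_one _
      · have h0 : u x = 0 := by simp [hu, hx]
        simp [hx, h0]
  filter_upwards [key] with x hx
  simpa using hx

theorem l1_dual (ℓ : (Lp ℂ 1 (volume : Measure ℝ)) →L[ℂ] ℂ) :
    ∃ g : ℝ → ℂ, Measurable g ∧ (∃ M : ℝ, ∀ x, ‖g x‖ ≤ M) ∧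
      ∀ F : Lp ℂ 1 (volume : Measure ℝ), ℓ F = ∫ x, F x * g x := by
  obtain ⟨q₀, hq₀, hr₀⟩ := ld_riesz ℓ
  set q : ℝ → ℂ := hq₀.1.mk q₀ with hqdef
  have hqm : Measurable q := hq₀.1.stronglyMeasurable_mk.measurable
  have hqe : q₀ =ᵐ[volume] q := hq₀.1.ae_eq_mk
  have hq : MemLp q 2 (volume : Measure ℝ) := (memLp_congr_ae hqe).1 hq₀
  have hr : ∀ u : ℝ → ℂ, MemLp u 2 (volume : Measure ℝ) → ∀ F : Lp ℂ 1 (volume : Measure ℝ),
        (F =ᵐ[volume] fun x => ldr x * u x) → ℓ F = ∫ x, q x * u x := by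
    intro u hu F hF
    rw [hr₀ u hu F hF]
    apply integral_congr_ae
    filter_upwards [hqe] with x hx
    rw [hx]
  have hb := ld_bound ℓ q hq hqm hr
  set A : Set ℝ := {x | ‖q x‖ ≤ ‖ℓ‖ * Real.exp (-x ^ 2)} with hA
  have hAm : MeasurableSet A := by
    apply measurableSet_le hqm.norm
    fun_prop
  set g : ℝ → ℂ := A.indicator (fun x => q x / ldr x) with hg
  have hgm : Measurable g := (hqm.div ldr_cont.measurable).indicator hAm
  have hgb : ∀ x, ‖g x‖ ≤ ‖ℓ‖ := by
    intro x
    by_cases hx : x ∈ A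
    · simp only [hg, hx, indicator_of_mem]
      rw [norm_div, ldr_norm, div_le_iff₀ (Real.exp_pos _)]
      exact hx
    · simp [hg, hx]
  have hge : ∀ᵐ x, q x = ldr x * g x := by
    filter_upwards [hb] with x hx
    have hxA : x ∈ A := hx
    simp only [hg, hxA, indicator_of_mem]
    rw [mul_div_cancel₀ _ (ldr_ne x)]
  refine ⟨g, hgm, ⟨‖ℓ‖, hgb⟩, ?_⟩
  intro F
  -- density
  have hFint : Integrable (fun x => F x) := L1.integrable_coeFn F
  have hest : ∀ ε > (0 : ℝ), ‖ℓ F - ∫ x, F x * g x‖ ≤ 2 * ‖ℓ‖ * ε := by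
    intro ε hε
    obtain ⟨G, hGc, hGe, hGcont, hGint⟩ := hFint.exists_hasCompactSupport_integral_sub_le hε
    have hGg : Integrable (fun x => G x * g x) :=
      hGint.mul_bdd (c := ‖ℓ‖) hgm.aestronglyMeasurable (ae_of_all _ hgb)
    have hFg : Integrable (fun x => F x * g x) :=
      hFint.mul_bdd (c := ‖ℓ‖) hgm.aestronglyMeasurable (ae_of_all _ hgb)
    set u : ℝ → ℂ := fun x => G x / ldr x with hu
    have hucont : Continuous u := hGcont.div ldr_cont ldr_ne
    have husupp : HasCompactSupport u := by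
      have : u = fun x => G x * (ldr x)⁻¹ := by
        ext x
        exact div_eq_mul_inv _ _
      rw [this]
      exact hGc.mul_right
    have hu2 : MemLp u 2 (volume : Measure ℝ) := hucont.memLp_of_hasCompactSupport husupp
    have hGL := hr u hu2 (hGint.toL1 _) (by
      filter_upwards [hGint.coeFn_toL1] with x hx
      rw [hx, hu]
      simp only
      rw [mul_div_cancel₀ _ (ldr_ne x)])
    have hGL2 : ℓ (hGint.toL1 _) = ∫ x, G x * g x := by
      rw [hGL]
      apply integral_congr_ae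
      filter_upwards [hge] with x hx
      rw [hx, hu]
      simp only
      field_simp [ldr_ne x]
    have hd : ℓ F - ∫ x, F x * g x = ℓ (F - hGint.toL1 _) - ∫ x, (F x - G x) * g x := by
      rw [map_sub, hGL2]
      have : (∫ x, (F x - G x) * g x) = (∫ x, F x * g x) - ∫ x, G x * g x := by
        rw [← integral_sub hFg hGg]
        congr 1
        ext x
        ring
      rw [this]
      ring
    rw [hd]
    have hn1 : ‖F - hGint.toL1 _‖ ≤ ε := by
      rw [L1.norm_eq_integral_norm]
      refine le_trans (le_of_eq ?_) hGe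
      apply integral_congr_ae
      filter_upwards [Lp.coeFn_sub F (hGint.toL1 _), hGint.coeFn_toL1] with x hx1 hx2
      rw [hx1, Pi.sub_apply, hx2]
    have hn2 : ‖∫ x, (F x - G x) * g x‖ ≤ ‖ℓ‖ * ε := by
      refine (norm_integral_le_integral_norm _).trans ?_
      calc (∫ x, ‖(F x - G x) * g x‖) ≤ ∫ x, ‖ℓ‖ * ‖F x - G x‖ := by
            apply integral_mono_of_nonneg (ae_of_all _ fun x => norm_nonneg _)
              ((hFint.sub hGint).norm.const_mul _)
            refine ae_of_all _ fun x => ?_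
            simp only [norm_mul]
            rw [mul_comm]
            exact mul_le_mul_of_nonneg_right (hgb x) (norm_nonneg _)
        _ = ‖ℓ‖ * ∫ x, ‖F x - G x‖ := integral_const_mul _ _
        _ ≤ ‖ℓ‖ * ε := mul_le_mul_of_nonneg_left hGe (norm_nonneg _)
    calc ‖ℓ (F - hGint.toL1 _) - ∫ x, (F x - G x) * g x‖
        ≤ ‖ℓ (F - hGint.toL1 _)‖ + ‖∫ x, (F x - G x) * g x‖ := norm_sub_le _ _
      _ ≤ ‖ℓ‖ * ε + ‖ℓ‖ * ε := by
          apply add_le_add _ hn2
          exact (ℓ.le_opNorm _).trans (mul_le_mul_of_nonneg_left hn1 (norm_nonneg _))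
      _ = 2 * ‖ℓ‖ * ε := by ring
  have hz : ‖ℓ F - ∫ x, F x * g x‖ ≤ 0 := by
    apply le_of_forall_pos_le_add
    intro δ hδ
    have h := hest (δ / (2 * ‖ℓ‖ + 1)) (by positivity)
    refine h.trans ?_
    rw [zero_add, mul_div_assoc', div_le_iff₀ (by positivity)]
    nlinarith [norm_nonneg ℓ]
  exact sub_eq_zero.1 (norm_le_zero_iff.1 hz)

end Pool.Agent.Domar
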