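import Pool.Agent.Lib.MP_af79d0_an.Defs
import Pool.Agent.Lib.MP_af79d0_an.L1Dual
set_option autoImplicit false
open MeasureTheory Filter Topology Set
namespace Pool.Agent.Domar

theorem separation (w : ℝ → ℝ) (hwc : Continuous w) (hwp : ∀ x, 0 < w x) (S : Set (ℝ → ℂ))
    (hSint : ∀ f ∈ S, Integrable (fun x => (w x : ℂ) * f x))
    (hSadd : ∀ f ∈ S, ∀ g ∈ S, f + g ∈ S)
    (hSsmul : ∀ c : ℂ, ∀ f ∈ S, c • f ∈ S)
    (hSae : ∀ f ∈ S, ∀ g : ℝ → ℂ, g =ᵐ[volume] f → g ∈ S)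
    (hScl : ∀ (u : ℕ → ℝ → ℂ) (f : ℝ → ℂ), (∀ n, u n ∈ S) →
        Integrable (fun x => (w x : ℂ) * f x) →
        Tendsto (fun n => ∫ x, ‖u n x - f x‖ * w x) atTop (𝓝 0) → f ∈ S)
    (hSne : S.Nonempty)
    (f₀ : ℝ → ℂ) (hf₀ : Integrable (fun x => (w x : ℂ) * f₀ x)) (hf₀S : f₀ ∉ S) :
    ∃ h : ℝ → ℂ, Measurable h ∧ (∃ M : ℝ, ∀ x, ‖h x‖ ≤ M * w x) ∧
      (∀ f ∈ S, ∫ x, f x * h x = 0) ∧ ∫ x, f₀ x * h x ≠ 0 := by
  have hwne : ∀ x, ((w x : ℝ) : ℂ) ≠ 0 := fun x => by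
    exact_mod_cast (hwp x).ne'
  obtain ⟨s₀, hs₀⟩ := hSne
  -- the submodule
  let S' : Submodule ℂ (Lp ℂ 1 (volume : Measure ℝ)) :=
    { carrier := {F | (fun x => F x / (w x : ℂ)) ∈ S}
      add_mem' := by
        intro F G hF hG
        apply hSae _ (hSadd _ hF _ hG)
        filter_upwards [Lp.coeFn_add F G] with x hx
        rw [hx]
        simp only [Pi.add_apply]
        rw [add_div]
      zero_mem' := by
        apply hSae _ (hSsmul 0 _ hs₀)
        filter_upwards [Lp.coeFn_zero ℂ 1 (volume : Measure ℝ)] with x hx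
        rw [hx]
        simp
      smul_mem' := by
        intro c F hF
        apply hSae _ (hSsmul c _ hF)
        filter_upwards [Lp.coeFn_smul c F] with x hx
        rw [hx]
        simp only [Pi.smul_apply, smul_eq_mul]
        rw [mul_div_assoc] }
  have hmem : ∀ F : Lp ℂ 1 (volume : Measure ℝ), F ∈ S' ↔ (fun x => F x / (w x : ℂ)) ∈ S :=
    fun F => Iff.rfl
  have hint : ∀ F : Lp ℂ 1 (volume : Measure ℝ), Integrable (fun x => F x) := fun F =>
    L1.integrable_coeFn F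
  have hclosed : IsClosed (S' : Set (Lp ℂ 1 (volume : Measure ℝ))) := by
    apply IsSeqClosed.isClosed
    intro Fn F hFn hF
    apply hScl (fun n x => Fn n x / (w x : ℂ)) (fun x => F x / (w x : ℂ)) hFn
    · refine (hint F).congr (ae_of_all _ fun x => ?_)
      simp only
      rw [mul_div_cancel₀ _ (hwne x)]
    · have h1 : Tendsto (fun n => ‖Fn n - F‖) atTop (𝓝 0) := tendsto_iff_norm_sub_tendsto_zero.1 hF
      refine h1.congr fun n => ?_
      rw [L1.norm_eq_integral_norm]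
      apply integral_congr_ae
      filter_upwards [Lp.coeFn_sub (Fn n) F] with x hx
      rw [hx, Pi.sub_apply, ← sub_div, norm_div, Complex.norm_real, Real.norm_eq_abs,
        abs_of_pos (hwp x), div_mul_cancel₀ _ (hwp x).ne']
  set F₀ : Lp ℂ 1 (volume : Measure ℝ) := hf₀.toL1 _ with hF₀
  have hF₀n : F₀ ∉ S' := by
    intro h
    apply hf₀S
    apply hSae _ ((hmem _).1 h)
    filter_upwards [hf₀.coeFn_toL1] with x hx
    rw [hF₀, hx, mul_div_assoc, mul_comm, div_mul_cancel₀ _ (hwne x)]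
  obtain ⟨ℓ, hℓ1, hℓ2⟩ : ∃ ℓ : (Lp ℂ 1 (volume : Measure ℝ)) →L[ℂ] ℂ,
      (∀ F ∈ S', ℓ F = 0) ∧ ℓ F₀ ≠ 0 := by
    have : IsClosed (S' : Set (Lp ℂ 1 (volume : Measure ℝ))) := hclosed
    have hne : S'.mkQ F₀ ≠ 0 := by
      intro h
      exact hF₀n ((Submodule.Quotient.mk_eq_zero S').1 h)
    obtain ⟨φ, hφ⟩ := SeparatingDual.exists_ne_zero (R := ℂ) hne
    refine ⟨φ.comp S'.mkQL, ?_, hφ⟩
    intro F hF
    have : S'.mkQL F = 0 := (Submodule.Quotient.mk_eq_zero S').2 hF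
    rw [ContinuousLinearMap.comp_apply, this, map_zero]
  obtain ⟨g, hgm, ⟨M, hgM⟩, hg⟩ := l1_dual ℓ
  have hrep : ∀ f : ℝ → ℂ, ∀ hf : Integrable (fun x => (w x : ℂ) * f x),
      ℓ (hf.toL1 _) = ∫ x, f x * ((w x : ℂ) * g x) := by
    intro f hf
    rw [hg]
    apply integral_congr_ae
    filter_upwards [hf.coeFn_toL1] with x hx
    rw [hx]
    ring
  refine ⟨fun x => (w x : ℂ) * g x, ?_, ⟨M, ?_⟩, ?_, ?_⟩
  · exact (Complex.continuous_ofReal.comp hwc).measurable.mul hgm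
  · intro x
    rw [norm_mul, Complex.norm_real, Real.norm_eq_abs, abs_of_pos (hwp x), mul_comm]
    exact mul_le_mul_of_nonneg_right (hgM x) (hwp x).le
  · intro f hf
    rw [← hrep f (hSint f hf)]
    apply hℓ1
    rw [hmem]
    apply hSae _ hf
    filter_upwards [(hSint f hf).coeFn_toL1] with x hx
    rw [hx, mul_div_assoc, mul_comm, div_mul_cancel₀ _ (hwne x)]
  · rw [← hrep f₀ hf₀]
    exact hℓ2

end Pool.Agent.Domar
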