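import Pool.Agent.Lib.MP_af79d0_an.Defs
import Pool.Agent.Lib.MP_af79d0_an.Core
import Pool.Agent.Lib.MP_af79d0_an.Separation

set_option autoImplicit false
open MeasureTheory Filter Topology Set

namespace Pool.Agent.Domar

/-- a function vanishing a.e. on `(c_n, ∞)` for a sequence `c_n → a` vanishes a.e. on `(a,∞)` -/
lemma ae_right (h : ℝ → ℂ) (a : ℝ) (H : ∀ c : ℝ, a < c → ∀ᵐ x : ℝ, c < x → h x = 0) :
    ∀ᵐ x : ℝ, a < x → h x = 0 := by
  have h1 : ∀ n : ℕ, ∀ᵐ x : ℝ, a + 1 / (n + 1) < x → h x = 0 := by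
    intro n
    apply H
    have : (0:ℝ) < 1 / (n + 1) := by positivity
    linarith
  have h2 := ae_all_iff.mpr h1
  filter_upwards [h2] with x hx hax
  obtain ⟨n, hn⟩ := exists_nat_one_div_lt (sub_pos.mpr hax)
  exact hx n (by linarith)

lemma ae_left (f : ℝ → ℂ) (a : ℝ) (H : ∀ c : ℝ, c < a → ∀ᵐ x : ℝ, x < c → f x = 0) :
    ∀ᵐ x : ℝ, x < a → f x = 0 := by
  have h1 : ∀ n : ℕ, ∀ᵐ x : ℝ, x < a - 1 / (n + 1) → f x = 0 := by
    intro n
    apply H
    have : (0:ℝ) < 1 / (n + 1) := by positivity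
    linarith
  have h2 := ae_all_iff.mpr h1
  filter_upwards [h2] with x hx hax
  obtain ⟨n, hn⟩ := exists_nat_one_div_lt (sub_pos.mpr hax)
  exact hx n (by linarith)

theorem domar_final :
    ¬ (∃ w : ℝ → ℝ, Continuous w ∧ (∀ x, 0 < w x) ∧
    (∃ a b : ℝ, ConvexOn ℝ (Set.Iic a) (fun x => Real.log (w x)) ∧
      ConcaveOn ℝ (Set.Ici b) (fun x => Real.log (w x)) ∧
      (∫⁻ x in Set.Iic a, ENNReal.ofReal (-deriv (fun y => Real.log (w y)) x / (1 + x ^ 2))) +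
      (∫⁻ x in Set.Ici b, ENNReal.ofReal (-deriv (fun y => Real.log (w y)) x / (1 + x ^ 2))) = ⊤) ∧
    Tendsto (fun x => Real.log (w x) / x) (cocompact ℝ) atBot ∧
    ∃ S : Set (ℝ → ℂ),
      (∀ f ∈ S, Integrable (fun x => (w x : ℂ) * f x)) ∧
      (∀ f ∈ S, ∀ g ∈ S, f + g ∈ S) ∧
      (∀ c : ℂ, ∀ f ∈ S, c • f ∈ S) ∧
      (∀ f ∈ S, ∀ g : ℝ → ℂ, g =ᵐ[volume] f → g ∈ S) ∧
      (∀ f ∈ S, ∀ t : ℝ, 0 ≤ t → (fun x => f (x - t)) ∈ S) ∧
      (∀ (u : ℕ → ℝ → ℂ) (f : ℝ → ℂ), (∀ n, u n ∈ S) →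
        Integrable (fun x => (w x : ℂ) * f x) →
        Tendsto (fun n => ∫ x, ‖u n x - f x‖ * w x) atTop (𝓝 0) → f ∈ S) ∧
      (∃ f ∈ S, ¬ f =ᵐ[volume] 0) ∧
      (∃ f : ℝ → ℂ, Integrable (fun x => (w x : ℂ) * f x) ∧ f ∉ S) ∧
      ∀ a : ℝ, S ≠ {f : ℝ → ℂ | Integrable (fun x => (w x : ℂ) * f x) ∧
        ∀ᵐ x ∂volume, x < a → f x = 0}) := by
  rintro ⟨w, hwc, hwp, hcc, hlim, S, hSint, hSadd, hSsmul, hSae, hSshift, hScl, ⟨f₁, hf₁S, hf₁0⟩,
    ⟨f₀, hf₀, hf₀S⟩, hSne⟩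
  have hw : WeightHyp w := ⟨hwc, hwp, hcc, hlim⟩
  have hnon : S.Nonempty := ⟨f₁, hf₁S⟩
  -- the alternative
  have hT : ∀ f ∈ S, ∀ h : ℝ → ℂ, Measurable h → (∃ M : ℝ, ∀ x, ‖h x‖ ≤ M * w x) →
      (∀ f ∈ S, ∫ x, f x * h x = 0) →
      ∀ c : ℝ, (∀ᵐ x : ℝ, c < x → h x = 0) ∨ (∀ᵐ x : ℝ, x < c → f x = 0) := by
    intro f hf h hh hhw hann
    apply titch w hw f h (hSint f hf) hh hhw
    intro s hs
    have h1 := integral_add_right_eq_self (μ := (volume : Measure ℝ))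
      (fun x => f (x - s) * h x) s
    have h2 := hann _ (hSshift f hf s hs.le)
    rw [← h1] at h2
    rw [← h2]
    congr 1
    ext y
    rw [add_sub_cancel_right]
  set Z : Set ℝ := {c : ℝ | ∀ f ∈ S, ∀ᵐ x : ℝ, x < c → f x = 0} with hZ
  -- if h annihilates S and is not a.e. zero on (c,∞) then c ∈ Z
  have hkey : ∀ h : ℝ → ℂ, Measurable h → (∃ M : ℝ, ∀ x, ‖h x‖ ≤ M * w x) →
      (∀ f ∈ S, ∫ x, f x * h x = 0) → ∀ c : ℝ, ¬ (∀ᵐ x : ℝ, c < x → h x = 0) → c ∈ Z := by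
    intro h hh hhw hann c hc f hf
    rcases hT f hf h hh hhw hann c with h1 | h1
    · exact absurd h1 hc
    · exact h1
  have hZne : Z.Nonempty := by
    obtain ⟨h, hh, hhw, hann, hne⟩ := separation w hwc hwp S hSint hSadd hSsmul hSae hScl hnon
      f₀ hf₀ hf₀S
    by_contra hemp
    rw [Set.not_nonempty_iff_eq_empty] at hemp
    apply hne
    have h1 : ∀ n : ℕ, ∀ᵐ x : ℝ, -(n : ℝ) < x → h x = 0 := by
      intro n
      by_contra hcon
      have := hkey h hh hhw hann (-(n : ℝ)) hcon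
      rw [hemp] at this
      exact this
    have h2 := ae_all_iff.mpr h1
    have h3 : (fun x => f₀ x * h x) =ᵐ[volume] 0 := by
      filter_upwards [h2] with x hx
      obtain ⟨n, hn⟩ := exists_nat_gt (-x)
      simp only [Pi.zero_apply]
      rw [hx n (by linarith), mul_zero]
    rw [integral_congr_ae h3]
    simp
  have hZbdd : BddAbove Z := by
    by_contra hub
    apply hf₁0
    rw [not_bddAbove_iff] at hub
    have h1 : ∀ n : ℕ, ∀ᵐ x : ℝ, x < (n : ℝ) → f₁ x = 0 := by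
      intro n
      obtain ⟨c, hc, hcn⟩ := hub n
      filter_upwards [hc f₁ hf₁S] with x hx hxn
      exact hx (by linarith)
    have h2 := ae_all_iff.mpr h1
    filter_upwards [h2] with x hx
    obtain ⟨n, hn⟩ := exists_nat_gt x
    exact hx n hn
  set a : ℝ := sSup Z with ha
  have haZ : a ∈ Z := by
    intro f hf
    apply ae_left
    intro c hc
    obtain ⟨c', hc', hcc'⟩ := exists_lt_of_lt_csSup hZne hc
    filter_upwards [hc' f hf] with x hx hxc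
    exact hx (by linarith)
  apply hSne a
  ext f
  simp only [Set.mem_ofPred_eq]
  constructor
  · intro hf
    exact ⟨hSint f hf, haZ f hf⟩
  · rintro ⟨hfi, hf0⟩
    by_contra hfS
    obtain ⟨h, hh, hhw, hann, hne⟩ := separation w hwc hwp S hSint hSadd hSsmul hSae hScl hnon
      f hfi hfS
    apply hne
    have h1 : ∀ᵐ x : ℝ, a < x → h x = 0 := by
      apply ae_right
      intro c hc
      by_contra hcon
      have h2 := hkey h hh hhw hann c hcon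
      exact absurd (le_csSup hZbdd h2) (not_le.mpr hc)
    have h3 : ∀ᵐ x : ℝ, x ≠ a := by
      rw [ae_iff]
      simp
    have h4 : (fun x => f x * h x) =ᵐ[volume] 0 := by
      filter_upwards [h1, h3, hf0] with x hx1 hx2 hx3
      simp only [Pi.zero_apply]
      rcases lt_or_gt_of_ne hx2 with h5 | h5
      · rw [hx3 h5, zero_mul]
      · rw [hx1 h5, mul_zero]
    rw [integral_congr_ae h4]
    simp

end Pool.Agent.Domar
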